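import Pool.Agent.helper213_IG.Dec

/-!
# Computability of the decision procedure
-/

namespace Pool.Agent.H213

open RkMonoid PM Relation

variable {n : ℕ}

instance : Finite (Idem (PM n)) := inferInstanceAs (Finite {e : PM n // e * e = e})

/-- a coding of a finite type -/
@[instance_reducible] noncomputable def finPC (α : Type*) [Finite α] : Primcodable α :=
  Primcodable.ofEquiv (Fin (Nat.card α)) (Finite.equivFin α)

noncomputable instance instPCPM : Primcodable (PM n) := finPC _
noncomputable instance instPCI : Primcodable (Idem (PM n)) := finPC _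
noncomputable instance instPCS : Primcodable (Set (PM n)) := finPC _

/-- words -/
abbrev Wd (n : ℕ) := List (Idem (PM n))

/-! ### values -/

theorem vl_foldl (w : Wd n) (s : PM n) : w.foldl (fun (s : PM n) (e : Idem (PM n)) => s * (e : PM n)) s = s * vl w := by
  induction w generalizing s with
  | nil => simp
  | cons a w ih => rw [List.foldl_cons, ih, vl_cons, mul_assoc]

theorem pr_vl : Primrec (vl : Wd n → PM n) := by
  have h : Primrec₂ (fun (_ : Wd n) (p : PM n × Idem (PM n)) => p.1 * (p.2 : PM n)) :=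
    (Primrec.dom_finite (fun p : PM n × Idem (PM n) => p.1 * (p.2 : PM n))).comp Primrec.snd
  have := Primrec.list_foldl Primrec.id (Primrec.const (1 : PM n)) h
  refine this.of_eq (fun w => ?_)
  have := vl_foldl w 1
  rw [one_mul] at this
  exact this

/-! ### weights -/

/-- value and exponents -/
noncomputable def wt (w : Wd n) : PM n × ℕ × ℕ :=
  w.foldl (fun (s : PM n × ℕ × ℕ) (e : Idem (PM n)) =>
    (s.1 * (e : PM n), s.2.1 + tw s.1 e, s.2.2 + tw (e : PM n) e)) (1, 0, 0)

theorem wt_concat (w : Wd n) (e : Idem (PM n)) :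
    wt (w ++ [e]) = ((wt w).1 * (e : PM n), (wt w).2.1 + tw (wt w).1 e, (wt w).2.2 + tw (e : PM n) e) := by
  unfold wt
  rw [List.foldl_append]
  rfl

theorem wt_spec (w : Wd n) : (wt w).1 = vl w ∧ W (mkw w) * 2 ^ (wt w).2.2 = 2 ^ (wt w).2.1 := by
  induction w using List.reverseRecOn with
  | nil => simp [wt, mkw_nil, W_one]
  | append_singleton w e ih =>
    rw [wt_concat]
    constructor
    · simp [ih.1]
    · simp only
      rw [mkw_concat, W_mul_io, pow_add, pow_add, ← ih.2, ← vl_eq, ih.1]
      unfold cst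
      field_simp

theorem W_eq_iff (w w' : Wd n) : W (mkw w) = W (mkw w') ↔
    (wt w).2.1 + (wt w').2.2 = (wt w').2.1 + (wt w).2.2 := by
  have h1 := (wt_spec w).2
  have h2 := (wt_spec w').2
  constructor
  · intro h
    have h3 : (2 : ℚ) ^ ((wt w).2.1 + (wt w').2.2) = 2 ^ ((wt w').2.1 + (wt w).2.2) := by
      rw [pow_add, pow_add, ← h1, ← h2, h]; ring
    exact pow_right_injective₀ (by norm_num) (by norm_num) h3
  · intro h
    have h3 : (2 : ℚ) ^ ((wt w).2.1 + (wt w').2.2) = 2 ^ ((wt w').2.1 + (wt w).2.2) := by rw [h]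
    rw [pow_add, pow_add, ← h1, ← h2] at h3
    have h4 : (2 : ℚ) ^ (wt w).2.2 * 2 ^ (wt w').2.2 ≠ 0 := by positivity
    apply mul_right_cancel₀ h4
    calc W (mkw w) * (2 ^ (wt w).2.2 * 2 ^ (wt w').2.2) = W (mkw w) * 2 ^ (wt w).2.2 * 2 ^ (wt w').2.2 := by ring
      _ = W (mkw w') * 2 ^ (wt w').2.2 * 2 ^ (wt w).2.2 := h3
      _ = _ := by ring

theorem pr_wt : Primrec (wt : Wd n → PM n × ℕ × ℕ) := by
  have h : Primrec₂ (fun (_ : Wd n) (p : (PM n × ℕ × ℕ) × Idem (PM n)) =>
      (p.1.1 * (p.2 : PM n), p.1.2.1 + tw p.1.1 p.2, p.1.2.2 + tw (p.2 : PM n) p.2)) := by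
    have e : Primrec (fun q : Wd n × ((PM n × ℕ × ℕ) × Idem (PM n)) => (q.2.1.1, q.2.2)) :=
      Primrec.pair (Primrec.fst.comp (Primrec.fst.comp Primrec.snd)) (Primrec.snd.comp Primrec.snd)
    have h1 := (Primrec.dom_finite (fun p : PM n × Idem (PM n) => p.1 * (p.2 : PM n))).comp e
    have h2 := (Primrec.dom_finite (fun p : PM n × Idem (PM n) => tw p.1 p.2)).comp e
    have h3 := (Primrec.dom_finite (fun p : PM n × Idem (PM n) => tw (p.2 : PM n) p.2)).comp e
    have a1 : Primrec (fun q : Wd n × ((PM n × ℕ × ℕ) × Idem (PM n)) => q.2.1.2.1) :=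
      Primrec.fst.comp (Primrec.snd.comp (Primrec.fst.comp Primrec.snd))
    have a2 : Primrec (fun q : Wd n × ((PM n × ℕ × ℕ) × Idem (PM n)) => q.2.1.2.2) :=
      Primrec.snd.comp (Primrec.snd.comp (Primrec.fst.comp Primrec.snd))
    exact Primrec.pair h1 (Primrec.pair (Primrec.nat_add.comp a1 h2) (Primrec.nat_add.comp a2 h3))
  exact Primrec.list_foldl Primrec.id (Primrec.const ((1 : PM n), 0, 0)) h

theorem pr_Weq : PrimrecRel (fun w w' : Wd n => W (mkw w) = W (mkw w')) := by
  have h : PrimrecRel (fun w w' : Wd n => (wt w).2.1 + (wt w').2.2 = (wt w').2.1 + (wt w).2.2) := by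
    have a1 : Primrec (fun q : Wd n × Wd n => (wt q.1).2.1) :=
      Primrec.fst.comp (Primrec.snd.comp (pr_wt.comp Primrec.fst))
    have a2 : Primrec (fun q : Wd n × Wd n => (wt q.2).2.2) :=
      Primrec.snd.comp (Primrec.snd.comp (pr_wt.comp Primrec.snd))
    have a3 : Primrec (fun q : Wd n × Wd n => (wt q.2).2.1) :=
      Primrec.fst.comp (Primrec.snd.comp (pr_wt.comp Primrec.snd))
    have a4 : Primrec (fun q : Wd n × Wd n => (wt q.1).2.2) :=
      Primrec.snd.comp (Primrec.snd.comp (pr_wt.comp Primrec.fst))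
    exact Primrec.eq.comp (Primrec.nat_add.comp a1 a2) (Primrec.nat_add.comp a3 a4)
  exact h.of_eq (fun w w' => (W_eq_iff w w').symm)

/-! ### normal forms -/

theorem pr_push : Primrec₂ (push : Wd n → Idem (PM n) → Wd n) := by
  classical
  have hx : Primrec (fun q : (Wd n × Idem (PM n)) × (Idem (PM n) × Wd n × Wd n) => (q.2.1, q.1.2)) :=
    Primrec.pair (Primrec.fst.comp Primrec.snd) (Primrec.snd.comp Primrec.fst)
  have c1 : PrimrecPred (fun q : (Wd n × Idem (PM n)) × (Idem (PM n) × Wd n × Wd n) =>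
      (q.2.1 : PM n) * (q.1.2 : PM n) = q.2.1) :=
    Primrec.primrecPred ((Primrec.dom_finite (fun p : Idem (PM n) × Idem (PM n) =>
      decide ((p.1 : PM n) * (p.2 : PM n) = p.1))).comp hx)
  have c2 : PrimrecPred (fun q : (Wd n × Idem (PM n)) × (Idem (PM n) × Wd n × Wd n) =>
      (q.2.1 : PM n) * (q.1.2 : PM n) = q.1.2) :=
    Primrec.primrecPred ((Primrec.dom_finite (fun p : Idem (PM n) × Idem (PM n) =>
      decide ((p.1 : PM n) * (p.2 : PM n) = p.2))).comp hx)
  have t1 : Primrec (fun q : (Wd n × Idem (PM n)) × (Idem (PM n) × Wd n × Wd n) => q.2.1 :: q.2.2.1) :=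
    Primrec.list_cons.comp (Primrec.fst.comp Primrec.snd) (Primrec.fst.comp (Primrec.snd.comp Primrec.snd))
  have t2 : Primrec (fun q : (Wd n × Idem (PM n)) × (Idem (PM n) × Wd n × Wd n) => q.2.2.2) :=
    Primrec.snd.comp (Primrec.snd.comp Primrec.snd)
  have t3 : Primrec (fun q : (Wd n × Idem (PM n)) × (Idem (PM n) × Wd n × Wd n) =>
      q.1.2 :: q.2.1 :: q.2.2.1) :=
    Primrec.list_cons.comp (Primrec.snd.comp Primrec.fst) t1
  have h := Primrec.ite c1 t1 (Primrec.ite c2 t2 t3)
  have h' : Primrec₂ (fun (a : Wd n × Idem (PM n)) (b : Idem (PM n) × Wd n × Wd n) =>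
      if (b.1 : PM n) * (a.2 : PM n) = b.1 then b.1 :: b.2.1 else
        if (b.1 : PM n) * (a.2 : PM n) = a.2 then b.2.2 else a.2 :: b.1 :: b.2.1) := h
  have hg : Primrec (fun q : Wd n × Idem (PM n) => [q.2]) :=
    Primrec.list_cons.comp Primrec.snd (Primrec.const [])
  have := Primrec.list_rec Primrec.fst hg h'
  refine this.of_eq (fun q => ?_)
  obtain ⟨st, x⟩ := q
  simp only
  induction st with
  | nil => rfl
  | cons e r ih =>
    rw [push]
    simp only at ih ⊢
    rw [← ih]

theorem pr_nf : Primrec (nf : Wd n → Wd n) := by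
  have h : Primrec₂ (fun (_ : Wd n) (p : Wd n × Idem (PM n)) => push p.1 p.2) :=
    pr_push.comp (Primrec.fst.comp Primrec.snd) (Primrec.snd.comp Primrec.snd)
  exact Primrec.list_foldl Primrec.id (Primrec.const ([] : Wd n)) h

/-! ### regular words and reduced factorizations -/

open Classical in
theorem regW_fold (w : Wd n) (v : PM n) (b : Bool) :
    w.foldl (fun (b : Bool) (e : Idem (PM n)) => b || decide (rk v = rk (e : PM n))) b = true ↔
      (b = true ∨ ∃ e ∈ w, rk v = rk (e : PM n)) := by
  induction w generalizing b with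
  | nil => simp
  | cons a w ih =>
    rw [List.foldl_cons, ih]
    simp only [Bool.or_eq_true, decide_eq_true_eq, List.mem_cons, exists_eq_or_imp]
    tauto

theorem pr_reg : PrimrecPred (RegW : Wd n → Prop) := by
  classical
  have h : Primrec₂ (fun (w : Wd n) (p : Bool × Idem (PM n)) =>
      p.1 || decide (rk (vl w) = rk (p.2 : PM n))) := by
    have e : Primrec (fun q : Wd n × (Bool × Idem (PM n)) => (vl q.1, q.2.2)) :=
      Primrec.pair (pr_vl.comp Primrec.fst) (Primrec.snd.comp Primrec.snd)
    have h1 := (Primrec.dom_finite (fun p : PM n × Idem (PM n) =>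
      decide (rk p.1 = rk (p.2 : PM n)))).comp e
    exact Primrec.or.comp (Primrec.fst.comp Primrec.snd) h1
  have h2 := Primrec.list_foldl Primrec.id (Primrec.const false) h
  apply Primrec.primrecPred (p := RegW)
  refine h2.of_eq (fun w => ?_)
  have h3 := regW_fold w (vl w) false
  simp only [Bool.false_eq_true, false_or] at h3
  rw [Bool.eq_iff_iff, decide_eq_true_eq]
  exact h3

open Classical in
/-- one step of the insertion -/
noncomputable def insStep (s : Bool × List (Wd n)) (v : Wd n) : Bool × List (Wd n) :=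
  if s.1 = true ∧ RegW (s.2.headI ++ v) then (true, (s.2.headI ++ v) :: s.2.tail) else (false, v :: s.2)

theorem insStep_false (V : List (Wd n)) (L : List (Wd n)) :
    V.foldl insStep (false, L) = (false, V.reverse ++ L) := by
  induction V generalizing L with
  | nil => simp
  | cons v V ih =>
    rw [List.foldl_cons]
    have : insStep (false, L) v = (false, v :: L) := by
      unfold insStep
      rw [if_neg]
      simp
    rw [this, ih]; simp

theorem insF_eq (V : List (Wd n)) (u : Wd n) : insF u V = (V.foldl insStep (true, [u])).2.reverse := by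
  induction V generalizing u with
  | nil => simp [insF]
  | cons v V ih =>
    rw [List.foldl_cons]
    by_cases h : RegW (u ++ v)
    · have : insStep (true, [u]) v = (true, [u ++ v]) := by
        unfold insStep
        rw [if_pos]
        · rfl
        · exact ⟨rfl, h⟩
      rw [this, insF, if_pos h, ih]
    · have : insStep (true, [u]) v = (false, [v, u]) := by
        unfold insStep
        rw [if_neg]
        rintro ⟨_, h2⟩
        exact h h2
      rw [this, insF, if_neg h, insStep_false]
      simp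

theorem pr_insStep : Primrec₂ (insStep : Bool × List (Wd n) → Wd n → Bool × List (Wd n)) := by
  classical
  have c1 : PrimrecPred (fun q : (Bool × List (Wd n)) × Wd n => q.1.1 = true) :=
    Primrec.eq.comp (Primrec.fst.comp Primrec.fst) (Primrec.const true)
  have hd : Primrec (fun q : (Bool × List (Wd n)) × Wd n => q.1.2.headI ++ q.2) :=
    Primrec.list_append.comp (Primrec.list_headI.comp (Primrec.snd.comp Primrec.fst)) Primrec.snd
  have c2 : PrimrecPred (fun q : (Bool × List (Wd n)) × Wd n => RegW (q.1.2.headI ++ q.2)) :=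
    pr_reg.comp hd
  have t1 : Primrec (fun q : (Bool × List (Wd n)) × Wd n => (true, (q.1.2.headI ++ q.2) :: q.1.2.tail)) :=
    Primrec.pair (Primrec.const true) (Primrec.list_cons.comp hd
      (Primrec.list_tail.comp (Primrec.snd.comp Primrec.fst)))
  have t2 : Primrec (fun q : (Bool × List (Wd n)) × Wd n => (false, q.2 :: q.1.2)) :=
    Primrec.pair (Primrec.const false) (Primrec.list_cons.comp Primrec.snd (Primrec.snd.comp Primrec.fst))
  exact Primrec.ite (c1.and c2) t1 t2

theorem pr_insF : Primrec₂ (insF : Wd n → List (Wd n) → List (Wd n)) := by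
  have h : Primrec₂ (fun (_ : Wd n × List (Wd n)) (p : (Bool × List (Wd n)) × Wd n) => insStep p.1 p.2) :=
    pr_insStep.comp (Primrec.fst.comp Primrec.snd) (Primrec.snd.comp Primrec.snd)
  have hg : Primrec (fun q : Wd n × List (Wd n) => (true, [q.1])) :=
    Primrec.pair (Primrec.const true) (Primrec.list_cons.comp Primrec.fst (Primrec.const []))
  have := Primrec.list_foldl Primrec.snd hg h
  exact (Primrec.list_reverse.comp (Primrec.snd.comp this)).of_eq (fun q => (insF_eq q.2 q.1).symm)

theorem pr_redF : Primrec (redF : Wd n → List (Wd n)) := by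
  have h : Primrec₂ (fun (_ : Wd n) (p : Idem (PM n) × List (Wd n)) => insF [p.1] p.2) :=
    pr_insF.comp (Primrec.list_cons.comp (Primrec.fst.comp Primrec.snd) (Primrec.const []))
      (Primrec.snd.comp Primrec.snd)
  exact Primrec.list_foldr Primrec.id (Primrec.const ([] : List (Wd n))) h

/-! ### the decision predicate -/

theorem pr_rg : PrimrecPred (fun q : (Wd n × Wd n) × (Wd n × Wd n) => rg q.1.1 q.1.2 q.2.1 q.2.2) := by
  classical
  have c1 : PrimrecPred (fun q : (Wd n × Wd n) × (Wd n × Wd n) =>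
      W (mkw (q.1.1 ++ q.2.2)) = W (mkw q.1.2)) := by
    have h := pr_Weq.comp (Primrec.list_append.comp (Primrec.fst.comp Primrec.fst)
      (Primrec.snd.comp Primrec.snd) : Primrec (fun q : (Wd n × Wd n) × (Wd n × Wd n) => q.1.1 ++ q.2.2))
      (Primrec.snd.comp Primrec.fst : Primrec (fun q : (Wd n × Wd n) × (Wd n × Wd n) => q.1.2))
    exact h
  have c2 : PrimrecPred (fun q : (Wd n × Wd n) × (Wd n × Wd n) => n ≤ rk (vl q.2.1) + 1) :=
    Primrec.primrecPred ((Primrec.dom_finite (fun v : PM n => decide (n ≤ rk v + 1))).comp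
      (pr_vl.comp (Primrec.fst.comp Primrec.snd)))
  have c3 : PrimrecPred (fun q : (Wd n × Wd n) × (Wd n × Wd n) => nf q.2.1 = nf q.2.2) :=
    PrimrecRel.comp Primrec.eq (pr_nf.comp (Primrec.fst.comp Primrec.snd))
      (pr_nf.comp (Primrec.snd.comp Primrec.snd))
  refine (c1.and (c2.not.or c3)).of_eq (fun q => ?_)
  unfold rg
  tauto

/-- the state of the decision procedure: remaining factors of the first word, prefixes of the second and
the first word, possible values, last factor of the first word, status -/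
abbrev Sta (n : ℕ) := List (Wd n) × (Wd n × Wd n) × Set (PM n) × Wd n × Option Bool

open Classical in
/-- one step of the decision procedure -/
noncomputable def dstep (s : Sta n) (y : Wd n) : Sta n :=
  if s.2.2.2.2 = none then
    if s.1 = [] then (s.1, s.2.1, s.2.2.1, s.2.2.2.1,
        some (decide (vl y ∈ s.2.2.1) && decide (rg s.2.1.1 s.2.1.2 s.2.2.2.1 y)))
    else (s.1.tail, (s.2.1.1 ++ y, s.2.1.2 ++ s.1.headI),
      nxt s.2.2.1 (vl s.1.headI) (vl y) (rg s.2.1.1 s.2.1.2 s.2.2.2.1 y), s.1.headI, none)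
  else (s.1, s.2.1, s.2.2.1, s.2.2.2.1, some false)

theorem dstep_done (Y : List (Wd n)) : ∀ (s : Sta n), s.2.2.2.2 ≠ none →
    ((Y.foldl dstep s).2.2.2.2 = some true ↔ (Y = [] ∧ s.2.2.2.2 = some true)) := by
  induction Y with
  | nil => intro s _; simp
  | cons y Y ih =>
    intro s hs
    rw [List.foldl_cons]
    have h1 : (dstep s y).2.2.2.2 = some false := by
      unfold dstep
      rw [if_neg hs]
    rw [ih _ (by rw [h1]; simp), h1]
    simp

theorem DD_fold (Y : List (Wd n)) : ∀ (us : List (Wd n)) (p q : Wd n) (A : Set (PM n)) (a : Wd n),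
    DD us p q A a Y ↔ (Y.foldl dstep (us, (p, q), A, a, none)).2.2.2.2 = some true := by
  classical
  induction Y with
  | nil => intro us p q A a; simp [DD]
  | cons y Y ih =>
    intro us p q A a
    rw [List.foldl_cons]
    cases us with
    | nil =>
      have h1 : dstep (([], (p, q), A, a, none) : Sta n) y =
          ([], (p, q), A, a, some (decide (vl y ∈ A) && decide (rg p q a y))) := by
        unfold dstep
        rw [if_pos rfl, if_pos rfl]
      rw [h1, dstep_done _ _ (by simp)]
      simp [DD]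
    | cons u us =>
      have h1 : dstep ((u :: us, (p, q), A, a, none) : Sta n) y =
          (us, (p ++ y, q ++ u), nxt A (vl u) (vl y) (rg p q a y), u, none) := by
        unfold dstep
        rw [if_pos rfl, if_neg (by simp)]
        rfl
      rw [h1, ← ih]
      rfl

theorem pr_dstep : Primrec₂ (dstep : Sta n → Wd n → Sta n) := by
  classical
  -- projections
  have p1 : Primrec (fun q : Sta n × Wd n => q.1.1) := Primrec.fst.comp Primrec.fst
  have p2 : Primrec (fun q : Sta n × Wd n => q.1.2.1) := Primrec.fst.comp (Primrec.snd.comp Primrec.fst)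
  have p3 : Primrec (fun q : Sta n × Wd n => q.1.2.2.1) :=
    Primrec.fst.comp (Primrec.snd.comp (Primrec.snd.comp Primrec.fst))
  have p4 : Primrec (fun q : Sta n × Wd n => q.1.2.2.2.1) :=
    Primrec.fst.comp (Primrec.snd.comp (Primrec.snd.comp (Primrec.snd.comp Primrec.fst)))
  have p5 : Primrec (fun q : Sta n × Wd n => q.1.2.2.2.2) :=
    Primrec.snd.comp (Primrec.snd.comp (Primrec.snd.comp (Primrec.snd.comp Primrec.fst)))
  have py : Primrec (fun q : Sta n × Wd n => q.2) := Primrec.snd
  have pp : Primrec (fun q : Sta n × Wd n => q.1.2.1.1) := Primrec.fst.comp p2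
  have pq : Primrec (fun q : Sta n × Wd n => q.1.2.1.2) := Primrec.snd.comp p2
  have phd : Primrec (fun q : Sta n × Wd n => q.1.1.headI) := Primrec.list_headI.comp p1
  have c1 : PrimrecPred (fun q : Sta n × Wd n => q.1.2.2.2.2 = none) :=
    Primrec.eq.comp p5 (Primrec.const none)
  have c2 : PrimrecPred (fun q : Sta n × Wd n => q.1.1 = []) :=
    Primrec.eq.comp p1 (Primrec.const [])
  have hrg : PrimrecPred (fun q : Sta n × Wd n => rg q.1.2.1.1 q.1.2.1.2 q.1.2.2.2.1 q.2) :=
    pr_rg.comp (Primrec.pair (Primrec.pair pp pq) (Primrec.pair p4 py))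
  have hrgB : Primrec (fun q : Sta n × Wd n => decide (rg q.1.2.1.1 q.1.2.1.2 q.1.2.2.2.1 q.2)) :=
    hrg.decide
  have hmem : Primrec (fun q : Sta n × Wd n => decide (vl q.2 ∈ q.1.2.2.1)) :=
    (Primrec.dom_finite (fun r : PM n × Set (PM n) => decide (r.1 ∈ r.2))).comp
      (Primrec.pair (pr_vl.comp py) p3)
  have t1 : Primrec (fun q : Sta n × Wd n => (q.1.1, q.1.2.1, q.1.2.2.1, q.1.2.2.2.1,
        some (decide (vl q.2 ∈ q.1.2.2.1) && decide (rg q.1.2.1.1 q.1.2.1.2 q.1.2.2.2.1 q.2)))) :=
    Primrec.pair p1 (Primrec.pair p2 (Primrec.pair p3 (Primrec.pair p4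
      (Primrec.option_some.comp (Primrec.and.comp hmem hrgB)))))
  have hnx : Primrec (fun q : Sta n × Wd n =>
      nxt q.1.2.2.1 (vl q.1.1.headI) (vl q.2) (rg q.1.2.1.1 q.1.2.1.2 q.1.2.2.2.1 q.2)) := by
    have h1 := (Primrec.dom_finite (fun r : (Set (PM n) × PM n × PM n) × Bool =>
      nxt r.1.1 r.1.2.1 r.1.2.2 (r.2 = true))).comp
      (Primrec.pair (Primrec.pair p3 (Primrec.pair (pr_vl.comp phd) (pr_vl.comp py))) hrgB)
    refine h1.of_eq (fun q => ?_)
    simp only [decide_eq_true_eq]
  have t2 : Primrec (fun q : Sta n × Wd n => (q.1.1.tail, (q.1.2.1.1 ++ q.2, q.1.2.1.2 ++ q.1.1.headI),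
      nxt q.1.2.2.1 (vl q.1.1.headI) (vl q.2) (rg q.1.2.1.1 q.1.2.1.2 q.1.2.2.2.1 q.2),
      q.1.1.headI, (none : Option Bool))) :=
    Primrec.pair (Primrec.list_tail.comp p1) (Primrec.pair (Primrec.pair (Primrec.list_append.comp pp py)
      (Primrec.list_append.comp pq phd)) (Primrec.pair hnx (Primrec.pair phd (Primrec.const none))))
  have t3 : Primrec (fun q : Sta n × Wd n => (q.1.1, q.1.2.1, q.1.2.2.1, q.1.2.2.2.1, some false)) :=
    Primrec.pair p1 (Primrec.pair p2 (Primrec.pair p3 (Primrec.pair p4 (Primrec.const (some false)))))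
  exact Primrec.ite c1 (Primrec.ite c2 t1 t2) t3

theorem mkw_nil_iff {v : Wd n} : mkw ([] : Wd n) = mkw v ↔ v = [] := by
  rw [mkw_eq_iff]
  constructor
  · intro h
    have key : ∀ u v : Wd n, EqvGen StepW u v → (u = [] ↔ v = []) := by
      intro u v h
      induction h with
      | rel u v h =>
        obtain ⟨p, q, a, b, c, _, _, rfl, rfl⟩ := h
        simp
      | refl x => rfl
      | symm x y _ ih => exact ih.symm
      | trans x y z _ _ ih1 ih2 => exact ih1.trans ih2
    exact (key _ _ h).1 rfl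
  · rintro rfl
    exact EqvGen.refl _

theorem redF_nil_iff {v : Wd n} : redF v = [] ↔ v = [] := by
  constructor
  · intro h
    rw [← (redF_spec v).2, h]; rfl
  · rintro rfl; rfl

/-- equality of words is primitive recursive -/
theorem pr_main : PrimrecRel (fun u v : Wd n => mkw u = mkw v) := by
  classical
  have key : ∀ u v : Wd n, mkw u = mkw v ↔ ((u = [] ∧ v = []) ∨ (u ≠ [] ∧
      ((redF v).foldl dstep ((redF u).tail, (([] : Wd n), (redF u).headI),
        ({vl (redF u).headI} : Set (PM n)), (redF u).headI, (none : Option Bool))).2.2.2.2 = some true)) := by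
    intro u v
    by_cases hu : u = []
    · subst hu
      rw [mkw_nil_iff]; simp
    · have h1 : redF u ≠ [] := fun h => hu (redF_nil_iff.1 h)
      obtain ⟨a, U, h2⟩ := List.exists_cons_of_ne_nil h1
      rw [mkw_eq_iff_DD h2, DD_fold, h2]
      simp [hu]
  have h1 : PrimrecPred (fun q : Wd n × Wd n => q.1 = []) := Primrec.eq.comp Primrec.fst (Primrec.const [])
  have h2 : PrimrecPred (fun q : Wd n × Wd n => q.2 = []) := Primrec.eq.comp Primrec.snd (Primrec.const [])
  have hr : Primrec (fun q : Wd n × Wd n => redF q.1) := pr_redF.comp Primrec.fst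
  have hh : Primrec (fun q : Wd n × Wd n => (redF q.1).headI) := Primrec.list_headI.comp hr
  have hset : Primrec (fun q : Wd n × Wd n => ({vl (redF q.1).headI} : Set (PM n))) :=
    (Primrec.dom_finite (fun v : PM n => ({v} : Set (PM n)))).comp (pr_vl.comp hh)
  have hs : Primrec (fun q : Wd n × Wd n => (((redF q.1).tail, (([] : Wd n), (redF q.1).headI),
        ({vl (redF q.1).headI} : Set (PM n)), (redF q.1).headI, (none : Option Bool)) : Sta n)) :=
    Primrec.pair (Primrec.list_tail.comp hr) (Primrec.pair (Primrec.pair (Primrec.const []) hh)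
      (Primrec.pair hset (Primrec.pair hh (Primrec.const none))))
  have hst : Primrec₂ (fun (_ : Wd n × Wd n) (p : Sta n × Wd n) => dstep p.1 p.2) :=
    pr_dstep.comp (Primrec.fst.comp Primrec.snd) (Primrec.snd.comp Primrec.snd)
  have hf := Primrec.list_foldl (pr_redF.comp Primrec.snd) hs hst
  have h3 : PrimrecPred (fun q : Wd n × Wd n =>
      ((redF q.2).foldl dstep ((redF q.1).tail, (([] : Wd n), (redF q.1).headI),
        ({vl (redF q.1).headI} : Set (PM n)), (redF q.1).headI, (none : Option Bool))).2.2.2.2 = some true) :=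
    Primrec.eq.comp (Primrec.snd.comp (Primrec.snd.comp (Primrec.snd.comp (Primrec.snd.comp hf))))
      (Primrec.const (some true))
  exact ((h1.and h2).or (h1.not.and h3)).of_eq (fun q => (key q.1 q.2).symm)

end Pool.Agent.H213
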