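import Mathlib

/-!
# Free idempotent generated semigroups over a monoid with a rank function

`RkMonoid S`: a monoid with a rank function such that `x * y` has the rank of `x` only if `x` can be
recovered from `x * y` by a right multiplication (and dually).
`IG S`: the monoid presented by the idempotents of `S` and the relations `e * f = ef` for basic pairs.
-/

namespace Pool.Agent.H213

/-- A monoid with a rank function. -/
class RkMonoid (S : Type*) extends Monoid S where
  rk : S → ℕ
  rk_mul_le_left : ∀ x y : S, rk (x * y) ≤ rk x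
  rk_mul_le_right : ∀ x y : S, rk (x * y) ≤ rk y
  ex_right : ∀ x y : S, rk (x * y) = rk x → ∃ w, x * y * w = x
  ex_left : ∀ x y : S, rk (x * y) = rk y → ∃ w, w * (x * y) = y

open RkMonoid

/-- The idempotents of a monoid. -/
def Idem (S : Type*) [Monoid S] : Type _ := {e : S // e * e = e}

section Def

variable {S : Type*} [Monoid S]

instance : CoeOut (Idem S) S := ⟨Subtype.val⟩

theorem Idem.mul_self (e : Idem S) : (e : S) * (e : S) = e := e.2

/-- `(e,f)` is a basic pair. -/
def Basic (e f : S) : Prop := e * f = e ∨ e * f = f ∨ f * e = e ∨ f * e = f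

/-- The defining relations of `IG`. -/
inductive Rel0 : FreeMonoid (Idem S) → FreeMonoid (Idem S) → Prop
  | mk (e f g : Idem S) (hb : Basic (e : S) (f : S)) (hg : (e : S) * (f : S) = g) :
      Rel0 (FreeMonoid.of e * FreeMonoid.of f) (FreeMonoid.of g)

variable (S) in
/-- The free idempotent generated semigroup over the biordered set of `S`, with a formal identity
(the empty word) adjoined. -/
def IG : Type _ := (conGen (Rel0 (S := S))).Quotient

instance : Monoid (IG S) := inferInstanceAs (Monoid (conGen (Rel0 (S := S))).Quotient)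

/-- The class of a word. -/
def mkw (w : List (Idem S)) : IG S := ((FreeMonoid.ofList w : FreeMonoid (Idem S)) : (conGen (Rel0 (S := S))).Quotient)

/-- The generator given by an idempotent. -/
def io (e : Idem S) : IG S := mkw [e]

theorem mkw_nil : mkw ([] : List (Idem S)) = 1 := rfl

theorem mkw_append (u v : List (Idem S)) : mkw (u ++ v) = mkw u * mkw v := rfl

theorem mkw_cons (a : Idem S) (v : List (Idem S)) : mkw (a :: v) = io a * mkw v := rfl

theorem mkw_concat (a : Idem S) (v : List (Idem S)) : mkw (v ++ [a]) = mkw v * io a := rfl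

theorem mkw_surj (x : IG S) : ∃ w, mkw w = x := by
  obtain ⟨w, hw⟩ := Quotient.exists_rep x
  exact ⟨FreeMonoid.toList w, hw⟩

theorem io_mul {e f g : Idem S} (hb : Basic (e : S) (f : S)) (hg : (e : S) * (f : S) = g) :
    io e * io f = io g := by
  apply (Con.eq _).2
  exact ConGen.Rel.of _ _ (Rel0.mk e f g hb hg)

/-- The value of an element of `IG` in `S`. -/
def val : IG S →* S :=
  Con.lift _ (FreeMonoid.lift (fun e : Idem S => (e : S))) (by
    rw [Con.conGen_le]
    intro x y h
    cases h with
    | mk e f g hb hg => simpa [Con.ker_rel] using hg)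

@[simp] theorem val_io (e : Idem S) : val (io e) = (e : S) := by
  change FreeMonoid.lift (fun e : Idem S => (e : S)) (FreeMonoid.of e) = _
  simp

theorem val_mkw (w : List (Idem S)) : val (mkw w) = (w.map (fun e => (e : S))).prod := by
  induction w with
  | nil => simp [mkw_nil]
  | cons a w ih => rw [mkw_cons, map_mul, ih]; simp

theorem IG.induction_right {P : IG S → Prop} (h1 : P 1) (hm : ∀ x e, P x → P (x * io e)) (x : IG S) : P x := by
  obtain ⟨w, rfl⟩ := mkw_surj x
  induction w using List.reverseRecOn with
  | nil => exact h1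
  | append_singleton w a ih => rw [mkw_concat]; exact hm _ _ ih

theorem IG.induction_left {P : IG S → Prop} (h1 : P 1) (hm : ∀ x e, P x → P (io e * x)) (x : IG S) : P x := by
  obtain ⟨w, rfl⟩ := mkw_surj x
  induction w with
  | nil => exact h1
  | cons a w ih => rw [mkw_cons]; exact hm _ _ ih

@[simp] theorem io_mul_self (e : Idem S) : io e * io e = io e :=
  io_mul (Or.inl e.2) e.2

/-- `e * f = e` as elements of `S`: then the same in `IG`. -/
theorem io_mul_left {e f : Idem S} (h : (e : S) * (f : S) = e) : io e * io f = io e :=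
  io_mul (Or.inl h) h

theorem io_mul_right {e f : Idem S} (h : (e : S) * (f : S) = f) : io e * io f = io f :=
  io_mul (Or.inr (Or.inl h)) h

theorem basic_symm {e f : S} (h : Basic e f) : Basic f e := by
  unfold Basic at *; tauto

/-- For a basic pair the product is idempotent. -/
theorem basic_idem {e f : S} (he : e * e = e) (hf : f * f = f) (h : Basic e f) : (e * f) * (e * f) = e * f := by
  rcases h with h | h | h | h
  · rw [h, he]
  · rw [h, hf]
  · calc e * f * (e * f) = e * (f * e) * f := by simp only [mul_assoc]
      _ = e * f := by rw [h, he]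
  · calc e * f * (e * f) = e * (f * e) * f := by simp only [mul_assoc]
      _ = e * f := by rw [h, mul_assoc, hf]

/-- The product of a basic pair of idempotents. -/
def bmul (e f : Idem S) (h : Basic (e : S) (f : S)) : Idem S := ⟨(e : S) * (f : S), basic_idem e.2 f.2 h⟩

theorem io_bmul (e f : Idem S) (h : Basic (e : S) (f : S)) : io e * io f = io (bmul e f h) :=
  io_mul h rfl

/-- One rewriting step in a word. -/
def StepW (u v : List (Idem S)) : Prop :=
  ∃ (p q : List (Idem S)) (a b c : Idem S), Basic (a : S) (b : S) ∧ (a : S) * (b : S) = c ∧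
    u = p ++ [a, b] ++ q ∧ v = p ++ [c] ++ q

theorem mkw_eq_of_step {u v : List (Idem S)} (h : StepW u v) : mkw u = mkw v := by
  obtain ⟨p, q, a, b, c, hb, hc, rfl, rfl⟩ := h
  rw [mkw_append, mkw_append, mkw_append, mkw_append]
  congr 2
  exact io_mul hb hc

theorem eqvGen_context {u v : List (Idem S)} (h : Relation.EqvGen StepW u v) (p q : List (Idem S)) :
    Relation.EqvGen StepW (p ++ u ++ q) (p ++ v ++ q) := by
  induction h with
  | rel x y h =>
    obtain ⟨p', q', a, b, c, hb, hc, rfl, rfl⟩ := h
    exact Relation.EqvGen.rel _ _ ⟨p ++ p', q' ++ q, a, b, c, hb, hc, by simp, by simp⟩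
  | refl x => exact Relation.EqvGen.refl _
  | symm x y _ ih => exact Relation.EqvGen.symm _ _ ih
  | trans x y z _ _ ih1 ih2 => exact Relation.EqvGen.trans _ _ _ ih1 ih2

/-- The congruence of words. -/
def wcon : Con (FreeMonoid (Idem S)) where
  r u v := Relation.EqvGen StepW (FreeMonoid.toList u) (FreeMonoid.toList v)
  iseqv := ⟨fun x => Relation.EqvGen.refl _, fun h => Relation.EqvGen.symm _ _ h,
    fun h1 h2 => Relation.EqvGen.trans _ _ _ h1 h2⟩
  mul' := by
    intro a b c d h1 h2
    have e1 := eqvGen_context h1 [] (FreeMonoid.toList c)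
    have e2 := eqvGen_context h2 (FreeMonoid.toList b) []
    simp only [List.nil_append, List.append_nil] at e1 e2
    exact Relation.EqvGen.trans _ _ _ e1 e2

theorem mkw_eq_iff {u v : List (Idem S)} : mkw u = mkw v ↔ Relation.EqvGen StepW u v := by
  constructor
  · intro h
    have h1 : conGen (Rel0 (S := S)) (FreeMonoid.ofList u) (FreeMonoid.ofList v) := (Con.eq _).1 h
    have h2 : conGen (Rel0 (S := S)) ≤ wcon := by
      rw [Con.conGen_le]
      intro x y hxy
      cases hxy with
      | mk e f g hb hg =>
        exact Relation.EqvGen.rel _ _ ⟨[], [], e, f, g, hb, hg, rfl, rfl⟩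
    exact h2 h1
  · intro h
    induction h with
    | rel x y h => exact mkw_eq_of_step h
    | refl x => rfl
    | symm x y _ ih => exact ih.symm
    | trans x y z _ _ ih1 ih2 => exact ih1.trans ih2

end Def

end Pool.Agent.H213
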