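import Pool.Agent.helper213_IG.Words

/-!
# Sequential description of the move equivalence
-/

namespace Pool.Agent.H213

open RkMonoid Relation

variable {S : Type*} [RkMonoid S]

/-- One move at an interface. -/
def PStep (p q : IG S × IG S) : Prop :=
  ∃ (x y : IG S) (e : Idem S), Reg x ∧ Reg y ∧ rk (val x * (e : S)) = rk (val x) ∧
    rk ((e : S) * val y) = rk (val y) ∧ p = (x * io e, y) ∧ q = (x, io e * y)

/-- Equivalence of pairs under moves. -/
def PEqv (p q : IG S × IG S) : Prop := EqvGen PStep p q

theorem PStep.mul_eq {p q : IG S × IG S} (h : PStep p q) : p.1 * p.2 = q.1 * q.2 := by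
  obtain ⟨x, y, e, _, _, _, _, rfl, rfl⟩ := h
  simp [mul_assoc]

theorem PEqv.mul_eq {p q : IG S × IG S} (h : PEqv p q) : p.1 * p.2 = q.1 * q.2 := by
  induction h with
  | rel x y h => exact h.mul_eq
  | refl x => rfl
  | symm x y _ ih => exact ih.symm
  | trans x y z _ _ ih1 ih2 => exact ih1.trans ih2

theorem PStep.reg {p q : IG S × IG S} (h : PStep p q) : Reg p.1 ∧ Reg p.2 ∧ Reg q.1 ∧ Reg q.2 := by
  obtain ⟨x, y, e, h1, h2, h3, h4, rfl, rfl⟩ := h
  exact ⟨h1.mul_io h3, h2, h1, h2.io_mul h4⟩

/-- the R-class of the first component and the L-class of the second are preserved -/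
theorem PStep.rk_left {p q : IG S × IG S} (h : PStep p q) (z : S) :
    rk (z * val p.1) = rk (z * val q.1) := by
  obtain ⟨x, y, e, h1, h2, h3, h4, rfl, rfl⟩ := h
  simp only [map_mul, val_io]
  exact rk_mul_left_congr h3 z

theorem PStep.rk_right {p q : IG S × IG S} (h : PStep p q) (z : S) :
    rk (val p.2 * z) = rk (val q.2 * z) := by
  obtain ⟨x, y, e, h1, h2, h3, h4, rfl, rfl⟩ := h
  simp only [map_mul, val_io]
  exact (rk_mul_right_congr h4 z).symm

theorem PEqv.rk_left {p q : IG S × IG S} (h : PEqv p q) (z : S) :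
    rk (z * val p.1) = rk (z * val q.1) := by
  induction h with
  | rel x y h => exact h.rk_left z
  | refl x => rfl
  | symm x y _ ih => exact ih.symm
  | trans x y z _ _ ih1 ih2 => exact ih1.trans ih2

theorem PEqv.rk_right {p q : IG S × IG S} (h : PEqv p q) (z : S) :
    rk (val p.2 * z) = rk (val q.2 * z) := by
  induction h with
  | rel x y h => exact h.rk_right z
  | refl x => rfl
  | symm x y _ ih => exact ih.symm
  | trans x y z _ _ ih1 ih2 => exact ih1.trans ih2

theorem PEqv.rk1 {p q : IG S × IG S} (h : PEqv p q) : rk (val p.1) = rk (val q.1) := by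
  simpa using h.rk_left 1

theorem PEqv.rk2 {p q : IG S × IG S} (h : PEqv p q) : rk (val p.2) = rk (val q.2) := by
  simpa using h.rk_right 1

/-- left multiplication of a pair equivalence -/
theorem PEqv.mul_left {p q : IG S × IG S} (h : PEqv p q) {k : Idem S}
    (hk : rk ((k : S) * val p.1) = rk (val p.1)) :
    PEqv (io k * p.1, p.2) (io k * q.1, q.2) := by
  induction h with
  | rel p q h =>
    apply EqvGen.rel
    obtain ⟨x, y, e, h1, h2, h3, h4, rfl, rfl⟩ := h
    simp only [map_mul, val_io] at hk
    have h5 := rk_mul_left_congr h3 (k : S)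
    have h6 : rk ((k : S) * val x) = rk (val x) := by rw [← h5, hk, h3]
    refine ⟨io k * x, y, e, h1.io_mul h6, h2, ?_, h4, by simp [mul_assoc], rfl⟩
    rw [map_mul, val_io, mul_assoc, h5]
  | refl x => exact EqvGen.refl _
  | symm x y h ih =>
    apply EqvGen.symm _ _ (ih _)
    have e1 := PEqv.rk_left h (k : S)
    have e2 := PEqv.rk1 h
    rw [e1, hk, e2]
  | trans x y z h1 _ ih1 ih2 =>
    refine EqvGen.trans _ _ _ (ih1 hk) (ih2 ?_)
    have e1 := PEqv.rk_left h1 (k : S)
    have e2 := PEqv.rk1 h1
    rw [← e1, hk, e2]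

/-- The sequential description of the equivalence of lists: `Chn t us Y` says that the list `t :: us`
can be transformed into `Y` by moves performed at the first interface, then at the second, ... -/
def Chn : IG S → List (IG S) → List (IG S) → Prop
  | _, _, [] => False
  | t, [], y :: ys => ys = [] ∧ t = y
  | t, u :: us, y :: ys => ∃ t', PEqv (t, u) (y, t') ∧ Chn t' us ys

theorem Chn.length : ∀ (us : List (IG S)) (t : IG S) (Y : List (IG S)), Chn t us Y →
    Y.length = us.length + 1
  | [], t, [], h => by simp [Chn] at h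
  | [], t, y :: ys, h => by
    have : ys = [] := h.1
    simp [this]
  | u :: us, t, [], h => by simp [Chn] at h
  | u :: us, t, y :: ys, h => by
    obtain ⟨t', _, h2⟩ := h
    have := Chn.length us t' ys h2
    simp [this]

theorem Chn.prod_eq : ∀ (us : List (IG S)) (t : IG S) (Y : List (IG S)), Chn t us Y →
    t * us.prod = Y.prod
  | [], t, [], h => by simp [Chn] at h
  | [], t, y :: ys, h => by
    obtain ⟨h1, h2⟩ := h
    simp [h1, h2]
  | u :: us, t, [], h => by simp [Chn] at h
  | u :: us, t, y :: ys, h => by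
    obtain ⟨t', h1, h2⟩ := h
    have := Chn.prod_eq us t' ys h2
    have h3 : t * u = y * t' := h1.mul_eq
    rw [List.prod_cons, List.prod_cons, ← this, ← mul_assoc, h3, mul_assoc]

theorem Chn.refl : ∀ (us : List (IG S)) (t : IG S), Chn t us (t :: us)
  | [], t => ⟨rfl, rfl⟩
  | u :: us, t => ⟨u, EqvGen.refl _, Chn.refl us u⟩

theorem Chn.rk_left : ∀ (us : List (IG S)) (t y : IG S) (ys : List (IG S)), Chn t us (y :: ys) →
    ∀ z, rk (z * val t) = rk (z * val y)
  | [], t, y, ys, h, z => by rw [h.2]
  | u :: us, t, y, ys, h, z => by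
    obtain ⟨t', h1, h2⟩ := h
    exact h1.rk_left z

theorem Chn.rk1 {us : List (IG S)} {t y : IG S} {ys : List (IG S)} (h : Chn t us (y :: ys)) :
    rk (val t) = rk (val y) := by simpa using Chn.rk_left us t y ys h 1

theorem Chn.mul_left {us : List (IG S)} {t y : IG S} {ys : List (IG S)} (h : Chn t us (y :: ys))
    {k : Idem S} (hk : rk ((k : S) * val y) = rk (val y)) :
    Chn (io k * t) us (io k * y :: ys) := by
  cases us with
  | nil => exact ⟨h.1, by rw [h.2]⟩
  | cons u us =>
    have h5 := Chn.rk_left _ _ _ _ h (k : S)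
    have h6 := Chn.rk1 h
    obtain ⟨t', h1, h2⟩ := h
    refine ⟨t', ?_, h2⟩
    exact h1.mul_left (by rw [h5, hk, h6])

/-- The L-class condition is invariant: left ideal membership. -/
theorem PEqv.fix_left {p q : IG S × IG S} (h : PEqv p q) (z : S) :
    z * val p.1 = val p.1 ↔ z * val q.1 = val q.1 := by
  induction h with
  | rel p q h =>
    obtain ⟨x, y, e, h1, h2, h3, h4, rfl, rfl⟩ := h
    simp only [map_mul, val_io]
    obtain ⟨w, hw⟩ := ex_right _ _ h3
    constructor
    · intro h
      rw [← hw]
      conv_lhs => rw [← mul_assoc, h]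
    · intro h
      rw [← mul_assoc, h]
  | refl x => rfl
  | symm x y _ ih => exact ih.symm
  | trans x y z _ _ ih1 ih2 => exact ih1.trans ih2

theorem Chn.fix_left {us : List (IG S)} {t y : IG S} {ys : List (IG S)} (h : Chn t us (y :: ys))
    (z : S) : z * val t = val t ↔ z * val y = val y := by
  cases us with
  | nil => rw [h.2]
  | cons u us =>
    obtain ⟨t', h1, h2⟩ := h
    exact h1.fix_left z

theorem Chn.reg {us : List (IG S)} {t : IG S} {Y : List (IG S)} (h : Chn t us Y)
    (hY : ∀ y ∈ Y, Reg y) : Reg t := by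
  cases Y with
  | nil => cases us <;> exact absurd h (by simp [Chn])
  | cons y ys =>
    cases us with
    | nil => rw [h.2]; exact hY y (by simp)
    | cons u us =>
      obtain ⟨t', h1, h2⟩ := h
      have key : ∀ p q : IG S × IG S, PEqv p q → (Reg p.1 ↔ Reg q.1) := by
        intro p q h
        induction h with
        | rel p q h => exact ⟨fun _ => h.reg.2.2.1, fun _ => h.reg.1⟩
        | refl x => rfl
        | symm x y _ ih => exact ih.symm
        | trans x y z _ _ ih1 ih2 => exact ih1.trans ih2
      exact (key _ _ h1).2 (hY y (by simp))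

theorem PEqv.reg1 {p q : IG S × IG S} (h : PEqv p q) : Reg p.1 ↔ Reg q.1 := by
  induction h with
  | rel p q h => exact ⟨fun _ => h.reg.2.2.1, fun _ => h.reg.1⟩
  | refl x => rfl
  | symm x y _ ih => exact ih.symm
  | trans x y z _ _ ih1 ih2 => exact ih1.trans ih2

theorem PEqv.reg2 {p q : IG S × IG S} (h : PEqv p q) : Reg p.2 ↔ Reg q.2 := by
  induction h with
  | rel p q h => exact ⟨fun _ => h.reg.2.2.2, fun _ => h.reg.2.1⟩
  | refl x => rfl
  | symm x y _ ih => exact ih.symm
  | trans x y z _ _ ih1 ih2 => exact ih1.trans ih2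

/-- `Chn` is preserved by moves of the target. -/
theorem Chn.step : ∀ (l : List (IG S)) (us : List (IG S)) (t x y : IG S) (e : Idem S) (r : List (IG S)),
    Reg x → Reg y → rk (val x * (e : S)) = rk (val x) → rk ((e : S) * val y) = rk (val y) →
    (∀ z ∈ us, Reg z) → (∀ z ∈ r, Reg z) →
    (Chn t us (l ++ [x * io e, y] ++ r) ↔ Chn t us (l ++ [x, io e * y] ++ r))
  | [], [], t, x, y, e, r, hx, hy, h1, h2, _, _ => by simp [Chn]
  | [], u :: us, t, x, y, e, r, hx, hy, h1, h2, hus, hr => by
    simp only [List.nil_append, List.cons_append]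
    constructor
    · rintro ⟨t', h3, h4⟩
      have hk : rk ((e : S) * val t') = rk (val t') := by
        rw [Chn.rk_left _ _ _ _ h4, h2, Chn.rk1 h4]
      have ht' : Reg t' := h4.reg (by
        intro z hz
        rcases List.mem_cons.1 hz with rfl | hz
        · exact hy
        · exact hr z (by simpa using hz))
      refine ⟨io e * t', ?_, h4.mul_left h2⟩
      refine EqvGen.trans _ _ _ h3 (EqvGen.rel _ _ ⟨x, t', e, hx, ht', h1, hk, rfl, rfl⟩)
    · rintro ⟨t', h3, h4⟩
      obtain ⟨k, w, hk1, hk2, hk3⟩ := hy.exists_k' h2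
      have hke : (k : S) * (e : S) = k := by rw [hk1, mul_assoc, e.mul_self]
      have hky : (k : S) * val y = val y := by
        have := congrArg val hk2
        simpa using this
      have ht' : Reg t' := h4.reg (by
        intro z hz
        rcases List.mem_cons.1 hz with rfl | hz
        · exact hy.io_mul h2
        · exact hr z (by simpa using hz))
      have h5 : Chn (io k * t') us (io k * (io e * y) :: r) := by
        apply h4.mul_left
        rw [map_mul, val_io, ← mul_assoc, hke, hky, h2]
      have h6 : io k * (io e * y) = y := by rw [← mul_assoc, io_mul_left hke, hk2]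
      rw [h6] at h5
      -- io e * (io k * t') = t'
      have hb : Basic (e : S) (k : S) := Or.inr (Or.inr (Or.inr hke))
      have h7 : ((e : S) * (k : S)) * val t' = val t' := by
        rw [h4.fix_left]
        rw [map_mul, val_io]
        calc (e : S) * (k : S) * ((e : S) * val y) = (e : S) * (((k : S) * (e : S)) * val y) := by
              simp only [mul_assoc]
          _ = (e : S) * val y := by rw [hke, hky]
      have h8 : io e * (io k * t') = t' := by
        rw [← mul_assoc, io_bmul e k hb]
        exact ht'.g2' h7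
      have h9 : rk ((k : S) * val t') = rk (val t') := by
        apply le_antisymm (rk_mul_le_right _ _)
        calc rk (val t') = rk ((e : S) * ((k : S) * val t')) := by rw [← mul_assoc, h7]
          _ ≤ _ := rk_mul_le_right _ _
      refine ⟨io k * t', ?_, h5⟩
      refine EqvGen.trans _ _ _ h3 (EqvGen.symm _ _ (EqvGen.rel _ _ ⟨x, io k * t', e, hx, ht'.io_mul h9, h1, ?_, rfl, by rw [h8]⟩))
      rw [map_mul, val_io, ← mul_assoc, h7, h9]
  | a :: l, [], t, x, y, e, r, hx, hy, h1, h2, _, _ => by simp [Chn]
  | a :: l, u :: us, t, x, y, e, r, hx, hy, h1, h2, hus, hr => by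
    simp only [List.cons_append, Chn]
    constructor
    · rintro ⟨t', h3, h4⟩
      exact ⟨t', h3, (Chn.step l us t' x y e r hx hy h1 h2 (fun z hz => hus z (by simp [hz])) hr).1 h4⟩
    · rintro ⟨t', h3, h4⟩
      exact ⟨t', h3, (Chn.step l us t' x y e r hx hy h1 h2 (fun z hz => hus z (by simp [hz])) hr).2 h4⟩

theorem MvStep.reg {X Y : List (IG S)} (h : MvStep X Y) : (∀ z ∈ X, Reg z) ↔ (∀ z ∈ Y, Reg z) := by
  obtain ⟨l, r, x, y, e, h1, h2, h3, h4, rfl, rfl⟩ := h
  have hxe := h1.mul_io h3
  have hey := h2.io_mul h4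
  constructor
  · intro h z hz
    simp only [List.append_assoc, List.mem_append, List.mem_cons, List.not_mem_nil, or_false,
      List.cons_append, List.nil_append] at hz h
    rcases hz with hz | rfl | rfl | hz
    · exact h z (Or.inl hz)
    · exact h1
    · exact hey
    · exact h z (Or.inr (Or.inr (Or.inr hz)))
  · intro h z hz
    simp only [List.append_assoc, List.mem_append, List.mem_cons, List.not_mem_nil, or_false,
      List.cons_append, List.nil_append] at hz h
    rcases hz with hz | rfl | rfl | hz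
    · exact h z (Or.inl hz)
    · exact hxe
    · exact h2
    · exact h z (Or.inr (Or.inr (Or.inr hz)))

theorem chn_of_mv {X Y : List (IG S)} (h : EqvGen MvStep X Y) :
    ((∀ z ∈ X, Reg z) ↔ (∀ z ∈ Y, Reg z)) ∧ ((∀ z ∈ X, Reg z) → ∀ t us, (∀ z ∈ us, Reg z) → (Chn t us X ↔ Chn t us Y)) := by
  induction h with
  | rel X Y h =>
    refine ⟨h.reg, fun hX t us hus => ?_⟩
    obtain ⟨l, r, x, y, e, h1, h2, h3, h4, rfl, rfl⟩ := h
    exact Chn.step l us t x y e r h1 h2 h3 h4 hus (fun z hz => hX z (by simp [hz]))
  | refl x => exact ⟨Iff.rfl, fun _ _ _ _ => Iff.rfl⟩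
  | symm x y _ ih =>
    exact ⟨ih.1.symm, fun hy t us hus => (ih.2 (ih.1.2 hy) t us hus).symm⟩
  | trans x y z _ _ ih1 ih2 =>
    exact ⟨ih1.1.trans ih2.1, fun hx t us hus => (ih1.2 hx t us hus).trans (ih2.2 (ih1.1.1 hx) t us hus)⟩

theorem redF_reg (w : List (Idem S)) : ∀ z ∈ (redF w).map mkw, Reg z := by
  intro z hz
  obtain ⟨u, hu, rfl⟩ := List.mem_map.1 hz
  exact ((redF_spec w).1.1 u hu).reg

/-- The structure theorem: two nonempty words are equal in `IG` iff their reduced factorizations are
connected by a chain of moves. -/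
theorem mkw_eq_iff_chn {u v : List (Idem S)} {a : List (Idem S)} {U : List (List (Idem S))}
    (hu : redF u = a :: U) :
    mkw u = mkw v ↔ Chn (mkw a) (U.map mkw) ((redF v).map mkw) := by
  constructor
  · intro h
    have h1 := red_of_eqvGen (mkw_eq_iff.1 h)
    rw [hu, List.map_cons] at h1
    have h2 : ∀ z ∈ mkw a :: U.map mkw, Reg z := by
      have := redF_reg u
      rwa [hu, List.map_cons] at this
    exact ((chn_of_mv h1).2 h2 (mkw a) (U.map mkw) (fun z hz => h2 z (by simp [hz]))).1 (Chn.refl _ _)
  · intro h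
    have := Chn.prod_eq _ _ _ h
    rw [mkw_redF u, mkw_redF v, hu, List.map_cons, List.prod_cons, this]

end Pool.Agent.H213
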