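import Pool.Agent.helper213_IG.Mid

/-!
# Decision procedure (mathematical form)
-/

namespace Pool.Agent.H213

open RkMonoid PM Relation Module

variable {n : ℕ}

theorem rk_one : rk (1 : PM n) = n := by
  show (1 : PM n).rank = n
  unfold rank
  have h1 : (1 : PM n).dom = ⊤ := by
    rw [eq_top_iff]
    intro f _
    exact mem_dom.2 ⟨f, mem_C_one.2 rfl⟩
  have h2 : (1 : PM n).ker = ⊥ := by
    rw [eq_bot_iff]
    intro f hf
    exact mem_C_one.1 (mem_ker.1 hf)
  rw [h1, h2, finrank_top, finrank_bot, Module.finrank_fin_fun]; rfl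

theorem exists_p_unit {s : PM n} (hr : rk s + 1 ≤ n) : ∃ p, PP p ∧ s * p = s := by
  have h1 : s.star * s ≠ 1 := by
    intro h
    have h2 := rk_star_mul s
    rw [h, rk_one] at h2
    omega
  obtain ⟨p, hp, h2⟩ := exists_p_right (star_mul_idem s) h1
  refine ⟨p, hp, ?_⟩
  calc s * p = s * (s.star * s) * p := by rw [mul_star_mul]
    _ = s := by rw [mul_assoc, h2, mul_star_mul]

theorem exists_W_up {x : IG (PM n)} (hx : Reg x) (hr : rk (val x) + 2 ≤ n) :
    ∃ x', Reg x' ∧ val x' = val x ∧ W x' = 2 * W x := by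
  obtain ⟨p, hp, h1⟩ := exists_p_unit (s := val x) (by omega)
  obtain ⟨X', Y', a1, a2, a3, a4, a5, a6⟩ := up hp hx (reg_io hp.i) h1 (by
    rw [val_io]; exact hp.idem) (by omega)
  exact ⟨X', a1, a3, a5⟩

theorem exists_W_down {x : IG (PM n)} (hx : Reg x) (hr : rk (val x) + 2 ≤ n) :
    ∃ x', Reg x' ∧ val x' = val x ∧ 2 * W x' = W x := by
  obtain ⟨p, hp, h1⟩ := exists_p_unit (s := val x) (by omega)
  rcases hp with ⟨i, rfl⟩ | ⟨i, j, hij, rfl⟩
  · obtain ⟨j, hij⟩ : ∃ j : Fin n, i ≠ j := by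
      have : Nontrivial (Fin n) := Fin.nontrivial_iff_two_le.2 (by omega)
      obtain ⟨j, hj⟩ := exists_ne i
      exact ⟨j, hj.symm⟩
    have v := val_ts (x := x) h1 hij
    have r1 : rk (val x * tt i j) = rk (val x) := by
      rw [map_mul, map_mul, val_ta, val_sg] at v
      exact rk_mul_eq_of_mul_mul (z := ss i) (by rw [v])
    have g1 : Reg (x * ta i j) := hx.mul_io r1
    refine ⟨x * ta i j * sg i, g1.mul_io ?_, v, ?_⟩
    · rw [map_mul, val_sg] at v
      rw [coe_si, v, map_mul, val_ta, r1]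
    · rw [W_ta_sg _ hij]; ring
  · have v : val (x * sg i * ta i j) = val x := by
      rw [map_mul, map_mul, val_ta, val_sg]
      calc val x * ss i * tt i j = val x * tt i j * ss i * tt i j := by rw [h1]
        _ = val x * (tt i j * ss i * tt i j) := by simp only [mul_assoc]
        _ = val x := by rw [tst hij, h1]
    have r1 : rk (val x * ss i) = rk (val x) := by
      rw [map_mul, map_mul, val_ta, val_sg] at v
      exact rk_mul_eq_of_mul_mul (z := tt i j) (by rw [v])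
    have g1 : Reg (x * sg i) := hx.mul_io r1
    refine ⟨x * sg i * ta i j, g1.mul_io ?_, v, ?_⟩
    · rw [map_mul, val_ta] at v
      rw [coe_ti, v, map_mul, val_sg, r1]
    · rw [W_ta]
      unfold sg
      rw [W_mul_io, coe_si, ← h1, cst_tt_ss _ hij, cst_ss_ss]; ring

theorem exists_W_pow {x : IG (PM n)} (hx : Reg x) (hr : rk (val x) + 2 ≤ n) (m : ℕ) :
    (∃ x', Reg x' ∧ val x' = val x ∧ W x' = 2 ^ m * W x) ∧
    (∃ x', Reg x' ∧ val x' = val x ∧ 2 ^ m * W x' = W x) := by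
  induction m with
  | zero => exact ⟨⟨x, hx, rfl, by simp⟩, ⟨x, hx, rfl, by simp⟩⟩
  | succ m ih =>
    obtain ⟨⟨a, a1, a2, a3⟩, ⟨b, b1, b2, b3⟩⟩ := ih
    obtain ⟨a', a1', a2', a3'⟩ := exists_W_up a1 (by rw [a2]; exact hr)
    obtain ⟨b', b1', b2', b3'⟩ := exists_W_down b1 (by rw [b2]; exact hr)
    refine ⟨⟨a', a1', by rw [a2', a2], ?_⟩, ⟨b', b1', by rw [b2', b2], ?_⟩⟩
    · rw [a3', a3, pow_succ]; ring
    · rw [← b3, ← b3', pow_succ]; ring

theorem rk_of_NR_Nrg {s t : PM n} (hNR : NR s t) (hN : Nrg s t) : rk s + 2 ≤ n ∧ rk t + 2 ≤ n := by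
  obtain ⟨p, hp, h⟩ := hN
  have hpr := hp.rk_lt
  rcases h with ⟨h1, h2⟩ | ⟨h1, h2⟩
  · have h3 : NR s (p * t) := by
      unfold NR at *
      rw [← mul_assoc, h1, h2]; exact hNR
    have h4 : p * (p * t) = p * t := by rw [← mul_assoc, hp.idem]
    have h5 := rk_lt_left h3 h1 h4
    have h6 := rk_lt_right h3 h1 h4
    omega
  · have h3 : NR (s * p) t := by
      unfold NR at *
      rw [mul_assoc, h1, h2]; exact hNR
    have h4 : s * p * p = s * p := by rw [mul_assoc, hp.idem]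
    have h5 := rk_lt_left h3 h4 h1
    have h6 := rk_lt_right h3 h4 h1
    omega

theorem transfer {t1 u1 u2 : IG (PM n)} (ht1 : Reg t1) (hu1 : Reg u1) (hu2 : Reg u2)
    (hNR : NR (val t1) (val u1)) (hN : Nrg (val t1) (val u1)) (hv : val u2 = val u1) :
    ∃ t2, Reg t2 ∧ val t2 = val t1 ∧ PEqv (t1, u1) (t2, u2) := by
  obtain ⟨r1, r2⟩ := rk_of_NR_Nrg hNR hN
  have key : ∀ t2, Reg t2 → val t2 = val t1 → W t2 * W u2 = W t1 * W u1 → PEqv (t1, u1) (t2, u2) := by
    intro t2 ht2 hvt hW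
    rw [pair_iff ht1 hu1 ht2 hu2 hNR]
    right
    refine ⟨hN, ?_, ?_⟩
    · rw [hvt, hv]; exact EqvGen.refl _
    · rw [W_mul, W_mul, hvt, hv, hW]
  obtain ⟨m, hm | hm⟩ := W_ratio u1 u2
  · -- W u2 = 2^m * W u1
    obtain ⟨t2, a1, a2, a3⟩ := (exists_W_pow ht1 r1 m).2
    refine ⟨t2, a1, a2, key t2 a1 a2 ?_⟩
    rw [hm, ← a3]; ring
  · obtain ⟨t2, a1, a2, a3⟩ := (exists_W_pow ht1 r1 m).1
    refine ⟨t2, a1, a2, key t2 a1 a2 ?_⟩
    rw [hm, a3]; ring

theorem E0.mul_eq {a b : PM n × PM n} (h : E0 a b) : a.1 * a.2 = b.1 * b.2 := by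
  induction h with
  | rel a b h =>
    obtain ⟨s, t, e, _, _, rfl, rfl⟩ := h
    simp [mul_assoc]
  | refl x => rfl
  | symm x y _ ih => exact ih.symm
  | trans x y z _ _ ih1 ih2 => exact ih1.trans ih2

theorem E0.rk_right {a b : PM n × PM n} (h : E0 a b) (z : PM n) : rk (a.2 * z) = rk (b.2 * z) := by
  induction h with
  | rel a b h =>
    obtain ⟨s, t, e, _, h4, rfl, rfl⟩ := h
    exact (rk_mul_right_congr h4 z).symm
  | refl x => rfl
  | symm x y _ ih => exact ih.symm
  | trans x y z _ _ ih1 ih2 => exact ih1.trans ih2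

/-- condition for passing a rigid interface -/
def rg (p q a y : List (Idem (PM n))) : Prop :=
  W (mkw (p ++ y)) = W (mkw q) ∧ (n ≤ rk (vl a) + 1 → nf a = nf y)

/-- next set of values -/
def nxt (A : Set (PM n)) (u y : PM n) (r : Prop) : Set (PM n) :=
  {s' | ∃ s ∈ A, (Nrg s u ∧ E0 (s, u) (y, s')) ∨ (s = y ∧ s' = u ∧ r)}

/-- the candidates for the current entry -/
def Cand (p q : List (Idem (PM n))) (A : Set (PM n)) (a : List (Idem (PM n))) (t : IG (PM n)) : Prop :=
  Reg t ∧ val t ∈ A ∧ W (mkw p * t) = W (mkw q) ∧ (n ≤ rk (vl a) + 1 → t = mkw a)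

/-- invariant -/
def Iv (p q : List (Idem (PM n))) (A : Set (PM n)) (a : List (Idem (PM n))) : Prop :=
  ∀ s ∈ A, vl p * s = vl q ∧ ∀ z, rk (s * z) = rk (vl a * z)

theorem cand_last {p q : List (Idem (PM n))} {A : Set (PM n)} {a y : List (Idem (PM n))}
    (hy : RegW y) : Cand p q A a (mkw y) ↔ (vl y ∈ A ∧ rg p q a y) := by
  unfold Cand rg
  rw [← vl_eq, mkw_append]
  constructor
  · rintro ⟨_, h2, h3, h4⟩
    exact ⟨h2, h3, fun hr => (mid_iff hr).1 (h4 hr).symm⟩
  · rintro ⟨h2, h3, h4⟩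
    exact ⟨hy.reg, h2, h3, fun hr => ((mid_iff hr).2 (h4 hr)).symm⟩

theorem iv_next {p q : List (Idem (PM n))} {A : Set (PM n)} {a y u : List (Idem (PM n))}
    (h : Iv p q A a) (r : Prop) : Iv (p ++ y) (q ++ u) (nxt A (vl u) (vl y) r) u := by
  rintro s' ⟨s, hs, ⟨h1, h2⟩ | ⟨h1, h2, h3⟩⟩
  · constructor
    · rw [vl_append, vl_append, ← (h s hs).1, mul_assoc, mul_assoc]
      congr 1
      exact h2.mul_eq.symm
    · intro z
      exact (h2.rk_right z).symm
  · subst h1 h2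
    constructor
    · rw [vl_append, vl_append, ← (h _ hs).1]
    · intro z; rfl

theorem cand_step {p q : List (Idem (PM n))} {A : Set (PM n)} {a y u : List (Idem (PM n))}
    (hI : Iv p q A a) (hu : RegW u) (hy : RegW y) (hNR : NR (vl a) (vl u)) (t' : IG (PM n)) :
    (∃ t, Cand p q A a t ∧ PEqv (t, mkw u) (mkw y, t')) ↔
      Cand (p ++ y) (q ++ u) (nxt A (vl u) (vl y) (rg p q a y)) u t' := by
  have hNRs : ∀ s ∈ A, NR s (vl u) := by
    intro s hs
    have h1 := (hI s hs).2 (vl u)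
    have h2 := (hI s hs).2 1
    rw [mul_one, mul_one] at h2
    unfold NR at *
    rw [h1, h2]; exact hNR
  constructor
  · rintro ⟨t, ⟨h1, h2, h3, h4⟩, h5⟩
    have ht' : Reg t' := (PEqv.reg2 h5).1 hu.reg
    have hNR' : NR (val t) (val (mkw u)) := by rw [← vl_eq]; exact hNRs _ h2
    have h6 := (pair_iff h1 hu.reg hy.reg ht' hNR').1 h5
    have hWeq : W (mkw (p ++ y) * t') = W (mkw (q ++ u)) := by
      have e1 : mkw (p ++ y) * t' = mkw p * t * mkw u := by
        rw [mkw_append, mul_assoc, mul_assoc]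
        congr 1
        exact h5.mul_eq.symm
      rw [e1, mkw_append, W_mul, W_mul (mkw q), h3]
      congr 2
      rw [map_mul, ← vl_eq, ← vl_eq, (hI _ h2).1]
    refine ⟨ht', ?_, hWeq, ?_⟩
    · rcases h6 with ⟨h7, h8⟩ | ⟨h7, h8, h9⟩
      · refine ⟨val t, h2, Or.inr ⟨?_, ?_, ?_, ?_⟩⟩
        · rw [h7, vl_eq]
        · rw [← h8, vl_eq]
        · rw [mkw_append, ← h7, h3]
        · intro hr
          rw [← mid_iff hr, ← h4 hr, h7]
      · refine ⟨val t, h2, Or.inl ⟨?_, ?_⟩⟩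
        · rw [vl_eq]; exact h7
        · rw [vl_eq u, vl_eq y]; exact h8
    · intro hr
      rcases h6 with ⟨h7, h8⟩ | ⟨h7, h8, h9⟩
      · exact h8.symm
      · exfalso
        have := (rk_of_NR_Nrg hNR' h7).2
        rw [← vl_eq] at this
        omega
  · rintro ⟨ht', ⟨s, hs, h⟩, hW, h4⟩
    rcases h with ⟨h5, h6⟩ | ⟨h5, h6, h7⟩
    · -- nonrigid
      obtain ⟨t1, u1, a1, a2, a3, a4, a5⟩ := (E0.lift h6).2 (mkw y) t' hy.reg ht' (vl_eq y).symm rfl
      simp only at a3 a4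
      have hNRt : NR (val t1) (val u1) := by rw [a3, a4]; exact hNRs s hs
      have hNt : Nrg (val t1) (val u1) := by rw [a3, a4]; exact h5
      obtain ⟨t2, b1, b2, b3⟩ := transfer a1 a2 hu.reg hNRt hNt (by rw [← vl_eq, a4])
      have h8 : PEqv (t2, mkw u) (mkw y, t') :=
        EqvGen.trans _ _ _ (EqvGen.symm _ _ b3) (EqvGen.symm _ _ a5)
      refine ⟨t2, ⟨b1, by rw [b2, a3]; exact hs, ?_, ?_⟩, h8⟩
      · have e1 : mkw (p ++ y) * t' = mkw p * t2 * mkw u := by
          rw [mkw_append, mul_assoc, mul_assoc]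
          congr 1
          exact h8.mul_eq.symm
        rw [e1, mkw_append, W_mul, W_mul (mkw q)] at hW
        have e2 : val (mkw p * t2) = val (mkw q) := by
          rw [map_mul, ← vl_eq, ← vl_eq, b2, a3, (hI _ hs).1]
        rw [e2] at hW
        have e3 := mul_right_cancel₀ (cst_pos (val (mkw q)) (val (mkw u))).ne' hW
        exact mul_right_cancel₀ (W_pos (mkw u)).ne' e3
      · intro hr
        exfalso
        have h9 := (rk_of_NR_Nrg hNRt hNt).1
        have h10 := (hI s hs).2 1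
        rw [mul_one, mul_one] at h10
        rw [a3] at h9
        omega
    · -- rigid
      subst h5
      refine ⟨mkw y, ⟨hy.reg, by rw [← vl_eq]; exact hs, ?_, ?_⟩, ?_⟩
      · rw [← mkw_append]; exact h7.1
      · intro hr
        exact ((mid_iff hr).2 (h7.2 hr)).symm
      · have e1 : t' = mkw u := by
          by_cases hr : n ≤ rk (vl u) + 1
          · exact h4 hr
          · apply F3 ht' hu.reg
            · rw [h6]; omega
            · rw [h6, vl_eq]
            · rw [W_mul, mkw_append q, W_mul (mkw q), h7.1, h6, ← vl_eq, ← vl_eq, ← vl_eq, vl_append,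
                (hI _ hs).1] at hW
              have e3 := mul_right_cancel₀ (cst_pos (vl q) (vl u)).ne' hW
              exact mul_left_cancel₀ (W_pos (mkw q)).ne' e3
        rw [e1]
        exact EqvGen.refl _

/-- The decision predicate. -/
def DD : List (List (Idem (PM n))) → List (Idem (PM n)) → List (Idem (PM n)) → Set (PM n) →
    List (Idem (PM n)) → List (List (Idem (PM n))) → Prop
  | _, _, _, _, _, [] => False
  | [], p, q, A, a, y :: ys => ys = [] ∧ vl y ∈ A ∧ rg p q a y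
  | u :: us, p, q, A, a, y :: ys => DD us (p ++ y) (q ++ u) (nxt A (vl u) (vl y) (rg p q a y)) u ys

theorem DD_iff : ∀ (us : List (List (Idem (PM n)))) (p q : List (Idem (PM n))) (A : Set (PM n))
    (a : List (Idem (PM n))) (Y : List (List (Idem (PM n)))), Iv p q A a → RedW (a :: us) →
    (∀ y ∈ Y, RegW y) → ((∃ t, Cand p q A a t ∧ Chn t (us.map mkw) (Y.map mkw)) ↔ DD us p q A a Y)
  | [], p, q, A, a, [], _, _, _ => by simp [Chn, DD]
  | u :: us, p, q, A, a, [], _, _, _ => by simp [Chn, DD]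
  | [], p, q, A, a, y :: ys, hI, hR, hY => by
    simp only [List.map_cons, List.map_nil, Chn, DD, List.map_eq_nil_iff]
    rw [← cand_last (hY y (by simp))]
    constructor
    · rintro ⟨t, h1, h2, rfl⟩; exact ⟨h2, h1⟩
    · rintro ⟨h1, h2⟩; exact ⟨_, h2, h1, rfl⟩
  | u :: us, p, q, A, a, y :: ys, hI, hR, hY => by
    simp only [List.map_cons, Chn, DD]
    have hu : RegW u := hR.1 u (by simp)
    have hy : RegW y := hY y (by simp)
    have hchain := hR.2
    rw [List.isChain_cons_cons] at hchain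
    have ih := DD_iff us (p ++ y) (q ++ u) (nxt A (vl u) (vl y) (rg p q a y)) u ys (iv_next hI _)
      (redW_tail hR) (fun z hz => hY z (by simp [hz]))
    rw [← ih]
    constructor
    · rintro ⟨t, h1, t', h2, h3⟩
      exact ⟨t', (cand_step hI hu hy hchain.1 t').1 ⟨t, h1, h2⟩, h3⟩
    · rintro ⟨t', h1, h2⟩
      obtain ⟨t, h3, h4⟩ := (cand_step hI hu hy hchain.1 t').2 h1
      exact ⟨t, h3, t', h4, h2⟩

theorem cand_init {a : List (Idem (PM n))} (ha : RegW a) (t : IG (PM n)) :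
    Cand [] a {vl a} a t ↔ t = mkw a := by
  unfold Cand
  rw [mkw_nil, one_mul]
  constructor
  · rintro ⟨h1, h2, h3, h4⟩
    by_cases hr : n ≤ rk (vl a) + 1
    · exact h4 hr
    · have h5 : val t = vl a := h2
      apply F3 h1 ha.reg (by rw [h5]; omega) (by rw [h5, vl_eq]) h3
  · rintro rfl
    exact ⟨ha.reg, (vl_eq a).symm, rfl, fun _ => rfl⟩

theorem iv_init (a : List (Idem (PM n))) : Iv [] a {vl a} a := by
  intro s hs
  have : s = vl a := hs
  subst this
  exact ⟨by simp, fun z => rfl⟩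

/-- Decision of equality of nonempty words. -/
theorem mkw_eq_iff_DD {u v : List (Idem (PM n))} {a : List (Idem (PM n))} {U : List (List (Idem (PM n)))}
    (hu : redF u = a :: U) : mkw u = mkw v ↔ DD U [] a {vl a} a (redF v) := by
  have hR := (redF_spec u).1
  rw [hu] at hR
  rw [mkw_eq_iff_chn hu, ← DD_iff U [] a {vl a} a (redF v) (iv_init a) hR (redF_spec v).1.1]
  constructor
  · intro h
    exact ⟨mkw a, (cand_init (hR.1 a (by simp)) _).2 rfl, h⟩
  · rintro ⟨t, h1, h2⟩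
    rw [(cand_init (hR.1 a (by simp)) _).1 h1] at h2
    exact h2

end Pool.Agent.H213
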