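import Pool.Agent.helper213_IG.TTheory2

/-!
# Regular elements of rank at most `n - 2` are determined by value and weight
-/

namespace Pool.Agent.H213

open RkMonoid PM Relation Module

variable {n : ℕ} {J : Set (Fin n)} {i0 j0 : Fin n}

theorem ker_tt (i j : Fin n) : (tt i j).ker = ⊥ := by
  rw [eq_bot_iff]
  intro f hf
  have := (mem_C_tt.1 (mem_ker.1 hf)).1
  rw [this]; exact Submodule.zero_mem _

theorem tw_eq_zero {x y : PM n} (h : ∀ f : Vec n, f ∈ x.cok → f ∈ y.ker → f = 0) : tw x y = 0 := by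
  unfold tw
  have : x.cok ⊓ y.ker = ⊥ := by
    rw [eq_bot_iff]
    rintro f ⟨h1, h2⟩
    rw [h f h1 h2]; exact Submodule.zero_mem _
  rw [this, finrank_bot]

theorem tw_tt (a : PM n) (i j : Fin n) : tw a (tt i j) = 0 := by
  apply tw_eq_zero
  intro f _ h
  rw [ker_tt] at h
  exact (Submodule.mem_bot _).1 h

theorem mem_ker_ss {i : Fin n} {f : Vec n} : f ∈ (ss i).ker ↔ ∀ k, k ≠ i → f k = 0 := by
  rw [mem_ker, mem_C_ss]; rfl

theorem tw_tt_ss (a : PM n) {i j : Fin n} (hij : i ≠ j) : tw (a * tt i j) (ss i) = 0 := by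
  apply tw_eq_zero
  intro f h1 h2
  rw [mem_ker_ss] at h2
  have h3 := (mem_C_mul_tt.1 (mem_cok.1 h1)).2
  ext k
  by_cases hk : k = i
  · rw [hk, h3, h2 j hij.symm]; rfl
  · rw [h2 k hk]; rfl

theorem tw_ss_ss (i : Fin n) : tw (ss i) (ss i) = 1 := by
  unfold tw
  have h1 : ((ss i).cok ⊓ (ss i).ker : Submodule (ZMod 2) (Vec n)) =
      Submodule.span (ZMod 2) {(Pi.single i 1 : Vec n)} := by
    ext f
    rw [Submodule.mem_inf, mem_ker_ss, mem_cok, mem_C_ss, Submodule.mem_span_singleton]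
    constructor
    · rintro ⟨-, h⟩
      refine ⟨f i, ?_⟩
      ext k
      by_cases hk : k = i
      · rw [hk]; simp
      · rw [h k hk]; simp [hk]
    · rintro ⟨c, rfl⟩
      refine ⟨fun k hk => by simp [hk], fun k hk => by simp [hk]⟩
  rw [h1, finrank_span_singleton]
  intro h
  have := congrFun h i
  simp at this

theorem cst_tt (a : PM n) (i j : Fin n) : cst a (tt i j) = 1 := by unfold cst; rw [tw_tt]; norm_num
theorem cst_tt_ss (a : PM n) {i j : Fin n} (hij : i ≠ j) : cst (a * tt i j) (ss i) = 1 := by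
  unfold cst; rw [tw_tt_ss _ hij]; norm_num
theorem cst_ss_ss (i : Fin n) : cst (ss i) (ss i) = 2 := by unfold cst; rw [tw_ss_ss]; norm_num

theorem W_ta (x : IG (PM n)) (i j : Fin n) : W (x * ta i j) = W x := by
  unfold ta
  rw [W_mul_io]
  simp only [coe_ti]
  rw [cst_tt, cst_tt]; simp

theorem W_ta_sg (x : IG (PM n)) {i j : Fin n} (hij : i ≠ j) : W (x * ta i j * sg i) = W x / 2 := by
  unfold sg
  rw [W_mul_io, W_ta, map_mul, val_ta]
  simp only [coe_si]
  rw [cst_tt_ss _ hij, cst_ss_ss, mul_one]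

theorem W_zt_mul (h0 : i0 ∉ J) (hne : i0 ≠ j0) {u : IG (PM n)}
    (hu2 : eg J * u = u) : W (zt J i0 j0 * u) = W u / 2 := by
  have h1 : W (zt J i0 j0) = W (eg J) / 2 := W_ta_sg _ hne
  have h2 : W (eg J * u) = W (eg J) * W u * cst (Es J) (val u) := by rw [W_mul, val_eg]
  rw [hu2] at h2
  rw [W_mul, val_zt h0 hne, h1]
  have : W (eg J) / 2 * W u * cst (Es J) (val u) = (W (eg J) * W u * cst (Es J) (val u)) / 2 := by ring
  rw [this, ← h2]

theorem Om.W_zt (h0 : i0 ∉ J) (hne : i0 ≠ j0) {u : IG (PM n)} (hu : Om J u) :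
    W (zt J i0 j0 * u) = W u / 2 := W_zt_mul h0 hne (hu.1.g2' hu.2.1)

theorem om_zt_pow (h0 : i0 ∉ J) (hne : i0 ≠ j0) {u : IG (PM n)} (hu : Om J u) (p : ℕ) :
    Om J (zt J i0 j0 ^ p * u) ∧ val (zt J i0 j0 ^ p * u) = val u ∧ W (zt J i0 j0 ^ p * u) = W u / 2 ^ p := by
  induction p with
  | zero => simpa using hu
  | succ p ih =>
    obtain ⟨h1, h2, h3⟩ := ih
    rw [pow_succ', mul_assoc]
    refine ⟨om_zt_mul h0 hne h1, ?_, ?_⟩
    · rw [val_zt_mul h0 hne h1, h2]
    · rw [h1.W_zt h0 hne, h3, pow_succ]; field_simp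

theorem zt_cancel (h0 : i0 ∉ J) (hne : i0 ≠ j0) {u v : IG (PM n)} (hu : Om J u) (hv : Om J v)
    (huv : val u = val v) (h : zt J i0 j0 * u = zt J i0 j0 * v) : u = v := by
  have hs : ∀ w : IG (PM n), Om J w → zt J i0 j0 * w = eg J * (ta i0 j0 * w) := by
    intro w hw
    have h1 : sg i0 * w = w := by
      apply hw.1.g2'
      show ss i0 * val w = val w
      conv_lhs => rw [← hw.2.1]
      rw [← mul_assoc, ss_mul_Es h0, hw.2.1]
    unfold zt
    rw [mul_assoc, h1, mul_assoc]
  rw [hs u hu, hs v hv] at h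
  have r1 : rk (Es J * (tt i0 j0 * val u)) = rk (val u) := by
    have h2 := val_zt_mul h0 hne hu
    rw [hs u hu, map_mul, map_mul, val_eg, val_ta] at h2
    rw [h2]
  have r2 : rk (tt i0 j0 * val u) = rk (val u) := by
    apply le_antisymm (rk_mul_le_right _ _)
    rw [← r1]; exact rk_mul_le_right _ _
  have hut : Reg (ta i0 j0 * u) := reg_mul_left hu.1 _ (by rw [val_ta]; exact r2)
  have hvt : Reg (ta i0 j0 * v) := reg_mul_left hv.1 _ (by rw [val_ta, ← huv]; exact r2)
  have h3 : ta i0 j0 * u = ta i0 j0 * v := by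
    apply hut.cancel_io' hvt (by simp [huv]) _ h
    rw [map_mul, val_ta, coe_ei, r1, r2]
  exact hu.1.cancel_io' hv.1 huv (e := ti i0 j0) r2 h3

theorem zt_pow_cancel (h0 : i0 ∉ J) (hne : i0 ≠ j0) {u v : IG (PM n)} (hu : Om J u) (hv : Om J v)
    (huv : val u = val v) (p : ℕ) (h : zt J i0 j0 ^ p * u = zt J i0 j0 ^ p * v) : u = v := by
  induction p with
  | zero => simpa using h
  | succ p ih =>
    apply ih
    obtain ⟨h1, h2, -⟩ := om_zt_pow h0 hne hu p
    obtain ⟨h3, h4, -⟩ := om_zt_pow h0 hne hv p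
    rw [pow_succ', mul_assoc, mul_assoc] at h
    exact zt_cancel h0 hne h1 h3 (by rw [h2, h4, huv]) h

theorem F3_om (hJ : Nat.card J + 2 ≤ n) (h0 : i0 ∉ J) (hne : i0 ≠ j0) {x y : IG (PM n)} (hx : Om J x)
    (hy : Om J y) (hv : val x = val y) (hW : W x = W y) : x = y := by
  obtain ⟨c, hc, p, q, h⟩ := sim_of_val hJ h0 hne hx hy hv
  obtain ⟨h1, h2, h3⟩ := om_zt_pow h0 hne hx p
  obtain ⟨h4, h5, h6⟩ := om_zt_pow h0 hne hy q
  have h7 : zt J i0 j0 ^ p * x = zt J i0 j0 ^ q * y := by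
    apply h1.1.cancel_io h4.1 (by rw [h2, h5, hv]) (e := ei (Set.range c))
    · rw [h2]; exact hx.2.rk_Es hc (le_refl _)
    · show _ * eg _ = _ * eg _
      rw [mul_assoc, mul_assoc, h]
  have h8 : p = q := by
    have h9 : W x / 2 ^ p = W x / 2 ^ q := by rw [← h3, h7, h6, hW]
    have h10 := W_pos x
    have h11 : (2 : ℚ) ^ p = 2 ^ q := by
      field_simp at h9
      exact h9.symm
    exact pow_right_injective₀ (by norm_num) (by norm_num) h11
  rw [← h8] at h7
  exact zt_pow_cancel h0 hne hx hy hv p h7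

/-- least representatives of the marked top blocks -/
def topRep (a : PM n) : Set (Fin n) :=
  {i | (∃ m, a.r (false, i) (true, m)) ∧ ∀ j, a.r (false, i) (false, j) → i ≤ j}

theorem exists_topRep {a : PM n} {i m : Fin n} (h : a.r (false, i) (true, m)) :
    ∃ k ∈ topRep a, a.r (false, k) (false, i) := by
  classical
  have hne : (Finset.univ.filter (fun j : Fin n => a.r (false, i) (false, j))).Nonempty :=
    ⟨i, Finset.mem_filter.2 ⟨Finset.mem_univ _, a.eqv.refl _⟩⟩
  set k : Fin n := (Finset.univ.filter (fun j : Fin n => a.r (false, i) (false, j))).min' hne with hk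
  have h1 : a.r (false, i) (false, k) := (Finset.mem_filter.1 (Finset.min'_mem _ hne)).2
  refine ⟨k, ⟨⟨m, a.eqv.trans (a.eqv.symm h1) h⟩, ?_⟩, a.eqv.symm h1⟩
  intro j hj
  have hm : j ∈ Finset.univ.filter (fun j : Fin n => a.r (false, i) (false, j)) :=
    Finset.mem_filter.2 ⟨Finset.mem_univ _, a.eqv.trans h1 hj⟩
  exact Finset.min'_le _ _ hm

theorem topRep_unique {a : PM n} {k l : Fin n} (hk : k ∈ topRep a) (hl : l ∈ topRep a)
    (h : a.r (false, k) (false, l)) : k = l :=
  le_antisymm (hk.2 l h) (hl.2 k (a.eqv.symm h))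

theorem rk_topRep_right (a : PM n) : rk (Es (topRep a) * a) = rk a := by
  apply (rank_mul_eq_right_iff _ _).2
  constructor
  · apply le_antisymm (im_mul_le _ _)
    intro g hg
    obtain ⟨f, hf⟩ := mem_im.1 hg
    exact mem_im.2 ⟨f, mem_C_mul.2 ⟨f, PM.mem_C_Es.2 (fun _ _ => rfl), hf⟩⟩
  · apply le_antisymm _ (cok_le_mul _ _)
    intro g hg
    obtain ⟨h, h1, h2⟩ := mem_C_mul.1 (mem_cok.1 hg)
    rw [PM.mem_C_Es] at h1
    have key : ∀ i m, a.r (false, i) (true, m) → g m = 0 := by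
      intro i m him
      obtain ⟨k, hk, hki⟩ := exists_topRep him
      have h3 := h2 _ _ (a.eqv.trans hki him)
      simp only [ev_false, ev_true] at h3
      rw [← h3, ← h1 k hk]; rfl
    apply mem_cok.2
    rintro ⟨b, i⟩ ⟨b', j⟩ hpq
    cases b <;> cases b'
    · simp
    · simp only [ev_false, ev_true]
      rw [key i j hpq]; rfl
    · simp only [ev_false, ev_true]
      rw [key j i (a.eqv.symm hpq)]; rfl
    · have := h2 _ _ hpq
      simpa using this

theorem rk_topRep_left (a : PM n) : rk (Es (topRep a) * a) = rk (Es (topRep a)) := by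
  classical
  apply (rank_mul_eq_left_iff _ _).2
  constructor
  · apply le_antisymm (dom_mul_le _ _)
    intro f _
    set φ : Bool × Fin n → ZMod 2 := fun p =>
      if h : ∃ k ∈ topRep a, a.r (false, k) p then f h.choose else 0 with hφ
    have hφr : ∀ p q, a.r p q → φ p = φ q := by
      intro p q hpq
      by_cases h : ∃ k ∈ topRep a, a.r (false, k) p
      · have h' : ∃ k ∈ topRep a, a.r (false, k) q := by
          obtain ⟨k, h1, h2⟩ := h
          exact ⟨k, h1, a.eqv.trans h2 hpq⟩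
        simp only [hφ]
        rw [dif_pos h, dif_pos h']
        have e1 := h.choose_spec
        have e2 := h'.choose_spec
        rw [topRep_unique e1.1 e2.1 (a.eqv.trans e1.2 (a.eqv.trans hpq (a.eqv.symm e2.2)))]
      · have h' : ¬ ∃ k ∈ topRep a, a.r (false, k) q := by
          rintro ⟨k, h1, h2⟩
          exact h ⟨k, h1, a.eqv.trans h2 (a.eqv.symm hpq)⟩
        simp only [hφ]
        rw [dif_neg h, dif_neg h']
    have hφk : ∀ k ∈ topRep a, φ (false, k) = f k := by
      intro k hk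
      have h : ∃ k' ∈ topRep a, a.r (false, k') (false, k) := ⟨k, hk, a.eqv.refl _⟩
      simp only [hφ]
      rw [dif_pos h]
      have e1 := h.choose_spec
      rw [topRep_unique e1.1 hk e1.2]
    refine mem_dom.2 ⟨fun i => φ (true, i), mem_C_mul.2 ⟨fun i => φ (false, i), ?_, ?_⟩⟩
    · rw [PM.mem_C_Es]
      intro k hk
      exact (hφk k hk).symm
    · rintro ⟨b, i⟩ ⟨b', j⟩ hpq
      have := hφr _ _ hpq
      cases b <;> cases b' <;> simpa using this
  · apply le_antisymm _ (ker_le_mul _ _)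
    intro f hf
    obtain ⟨h, h1, h2⟩ := mem_C_mul.1 (mem_ker.1 hf)
    rw [PM.mem_C_Es] at h1
    rw [mem_ker, PM.mem_C_Es]
    intro k hk
    obtain ⟨m, hm⟩ := hk.1
    have h3 := h2 _ _ hm
    simp only [ev_false, ev_true] at h3
    rw [h1 k hk, h3]; rfl

theorem card_le_rk_Es (A : Set (Fin n)) : Nat.card A ≤ rk (Es A) := by
  classical
  have := Fintype.ofFinite A
  have h1 : (Es A).dom = ⊤ := by
    rw [eq_top_iff]
    intro f _
    exact mem_dom_Es f
  have h2 : (Es A).ker = LinearMap.ker (LinearMap.funLeft (ZMod 2) (ZMod 2) (Subtype.val : A → Fin n)) := by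
    ext f
    rw [mem_ker_Es, LinearMap.mem_ker]
    constructor
    · intro h
      ext k
      exact h k k.2
    · intro h i hi
      exact congrFun h ⟨i, hi⟩
  show _ ≤ (Es A).rank
  unfold rank
  rw [h1, h2]
  have h3 := LinearMap.finrank_range_add_finrank_ker
    (LinearMap.funLeft (ZMod 2) (ZMod 2) (Subtype.val : A → Fin n))
  rw [LinearMap.range_eq_top.2 (LinearMap.funLeft_surjective_of_injective _ _ _ Subtype.val_injective)] at h3
  rw [finrank_top] at h3 ⊢
  have h4 : finrank (ZMod 2) (A → ZMod 2) = Nat.card A := by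
    rw [Module.finrank_fintype_fun_eq_card, Nat.card_eq_fintype_card]
  have h5 : finrank (ZMod 2) (A → ZMod 2) + finrank (ZMod 2) (LinearMap.ker
    (LinearMap.funLeft (ZMod 2) (ZMod 2) (Subtype.val : A → Fin n))) = finrank (ZMod 2) (Vec n) := h3
  rw [h4] at h5
  exact Nat.le_sub_of_add_le (le_of_eq h5)

/-- Regular elements of rank at most `n - 2` are determined by value and weight. -/
theorem F3 {x y : IG (PM n)} (hx : Reg x) (hy : Reg y) (hr : rk (val x) + 2 ≤ n) (hv : val x = val y)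
    (hW : W x = W y) : x = y := by
  set a := val x with ha
  set J := topRep a with hJ
  have h1 : rk (Es J * a) = rk a := rk_topRep_right a
  have h2 : rk (Es J * a) = rk (Es J) := rk_topRep_left a
  have hcard : Nat.card J + 2 ≤ n := by
    have := card_le_rk_Es J
    omega
  have hex : ∃ i0 : Fin n, i0 ∉ J := by
    by_contra hcon
    push Not at hcon
    have h3 : J = Set.univ := Set.eq_univ_of_forall hcon
    rw [h3, Nat.card_congr (Equiv.Set.univ _), Nat.card_eq_fintype_card, Fintype.card_fin] at hcard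
    omega
  obtain ⟨i0, h0⟩ := hex
  obtain ⟨j0, hne⟩ : ∃ j0 : Fin n, i0 ≠ j0 := by
    have : Nontrivial (Fin n) := Fin.nontrivial_iff_two_le.2 (by omega)
    obtain ⟨j, hj⟩ := exists_ne i0
    exact ⟨j, hj.symm⟩
  have ox : Om J (eg J * x) := by
    refine ⟨reg_mul_left hx _ (by rw [val_eg]; exact h1), ?_, ?_⟩
    · rw [map_mul, val_eg, ← mul_assoc, Es_idem]
    · rw [map_mul, val_eg]; exact h2
  have oy : Om J (eg J * y) := by
    refine ⟨reg_mul_left hy _ (by rw [val_eg, ← hv]; exact h1), ?_, ?_⟩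
    · rw [map_mul, val_eg, ← mul_assoc, Es_idem]
    · rw [map_mul, val_eg, ← hv]; exact h2
  have h5 : eg J * x = eg J * y := by
    apply F3_om hcard h0 hne ox oy
    · rw [map_mul, map_mul, ← hv]
    · rw [W_mul, W_mul, hW, ← hv]
  exact hx.cancel_io' hy hv (e := ei J) h1 h5

end Pool.Agent.H213
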