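import Pool.Agent.helper213_IG.Weight

/-!
# Special partitions
-/

namespace Pool.Agent.H213

open RkMonoid PM

variable {n : ℕ}

namespace PM

/-- `Es A`: the points of `A` are joined vertically, all other points are isolated. -/
def Es (A : Set (Fin n)) : PM n where
  r p q := p = q ∨ (p.2 = q.2 ∧ p.2 ∈ A)
  eqv := by
    refine ⟨fun _ => Or.inl rfl, ?_, ?_⟩
    · rintro p q (rfl | ⟨h1, h2⟩)
      · exact Or.inl rfl
      · exact Or.inr ⟨h1.symm, h1 ▸ h2⟩
    · rintro p q s (rfl | ⟨h1, h2⟩) (rfl | ⟨h3, h4⟩)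
      · exact Or.inl rfl
      · exact Or.inr ⟨h3, h4⟩
      · exact Or.inr ⟨h1, h2⟩
      · exact Or.inr ⟨h1.trans h3, h2⟩

theorem mem_C_Es {A : Set (Fin n)} {f g : Vec n} : (f, g) ∈ (Es A).C ↔ ∀ i ∈ A, f i = g i := by
  constructor
  · intro h i hi
    have := h (false, i) (true, i) (Or.inr ⟨rfl, hi⟩)
    simpa using this
  · rintro h p q (rfl | ⟨h1, h2⟩)
    · rfl
    · obtain ⟨bp, ip⟩ := p
      obtain ⟨bq, iq⟩ := q
      simp only at h1 h2
      subst h1
      have := h ip h2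
      cases bp <;> cases bq <;> simp [this]

theorem Es_mul (A B : Set (Fin n)) : Es A * Es B = Es (A ∩ B) := by
  classical
  apply ext_C
  intro f g
  rw [mem_C_mul]
  simp only [mem_C_Es]
  constructor
  · rintro ⟨h, h1, h2⟩ i ⟨hA, hB⟩
    rw [h1 i hA, h2 i hB]
  · intro h
    refine ⟨fun i => if i ∈ A then f i else g i, ?_, ?_⟩
    · intro i hi; simp [hi]
    · intro i hi
      by_cases hA : i ∈ A
      · simp [hA, h i ⟨hA, hi⟩]
      · simp [hA]

theorem Es_idem (A : Set (Fin n)) : Es A * Es A = Es A := by rw [Es_mul, Set.inter_self]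

theorem Es_univ : Es (Set.univ : Set (Fin n)) = 1 := by
  apply ext_C
  intro f g
  rw [mem_C_Es, mem_C_one]
  constructor
  · intro h; ext i; rw [h i (Set.mem_univ i)]
  · rintro rfl i _; rfl

/-- isolating the point `i` -/
def ss (i : Fin n) : PM n := Es {i}ᶜ

theorem mem_C_ss {i : Fin n} {f g : Vec n} : (f, g) ∈ (ss i).C ↔ ∀ k, k ≠ i → f k = g k := by
  unfold ss
  rw [mem_C_Es]
  simp

/-- joining the points `i` and `j` -/
def tt (i j : Fin n) : PM n where
  r p q := p.2 = q.2 ∨ ((p.2 = i ∨ p.2 = j) ∧ (q.2 = i ∨ q.2 = j))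
  eqv := by
    refine ⟨fun _ => Or.inl rfl, ?_, ?_⟩
    · rintro p q (h | ⟨h1, h2⟩)
      · exact Or.inl h.symm
      · exact Or.inr ⟨h2, h1⟩
    · rintro p q s (h | ⟨h1, h2⟩) (h' | ⟨h3, h4⟩)
      · exact Or.inl (h.trans h')
      · exact Or.inr ⟨h ▸ h3, h4⟩
      · exact Or.inr ⟨h1, h' ▸ h2⟩
      · exact Or.inr ⟨h1, h4⟩

theorem mem_C_tt {i j : Fin n} {f g : Vec n} : (f, g) ∈ (tt i j).C ↔ f = g ∧ f i = f j := by
  constructor
  · intro h
    have h1 : f = g := by
      ext k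
      have := h (false, k) (true, k) (Or.inl rfl)
      simpa using this
    refine ⟨h1, ?_⟩
    have := h (false, i) (false, j) (Or.inr ⟨Or.inl rfl, Or.inr rfl⟩)
    simpa using this
  · rintro ⟨rfl, h⟩ p q hpq
    have key : ∀ c : Bool × Fin n, ev f f c = f c.2 := by
      rintro ⟨b, k⟩; cases b <;> simp
    rw [key, key]
    rcases hpq with h1 | ⟨h1 | h1, h2 | h2⟩
    · rw [h1]
    · rw [h1, h2]
    · rw [h1, h2, h]
    · rw [h1, h2, h]
    · rw [h1, h2]

theorem tt_symm (i j : Fin n) : tt i j = tt j i := by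
  apply ext_C; intro f g
  rw [mem_C_tt, mem_C_tt]
  exact ⟨fun ⟨h1, h2⟩ => ⟨h1, h2.symm⟩, fun ⟨h1, h2⟩ => ⟨h1, h2.symm⟩⟩

theorem mem_C_mul_tt {x : PM n} {i j : Fin n} {f g : Vec n} :
    (f, g) ∈ (x * tt i j).C ↔ (f, g) ∈ x.C ∧ g i = g j := by
  rw [mem_C_mul]
  simp only [mem_C_tt]
  constructor
  · rintro ⟨h, h1, rfl, h2⟩; exact ⟨h1, h2⟩
  · rintro ⟨h1, h2⟩; exact ⟨g, h1, rfl, h2⟩

theorem mem_C_tt_mul {x : PM n} {i j : Fin n} {f g : Vec n} :
    (f, g) ∈ (tt i j * x).C ↔ (f, g) ∈ x.C ∧ f i = f j := by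
  rw [mem_C_mul]
  simp only [mem_C_tt]
  constructor
  · rintro ⟨h, ⟨rfl, h1⟩, h2⟩; exact ⟨h2, h1⟩
  · rintro ⟨h1, h2⟩; exact ⟨f, ⟨rfl, h2⟩, h1⟩

theorem mem_C_mul_ss {x : PM n} {i : Fin n} {f g : Vec n} :
    (f, g) ∈ (x * ss i).C ↔ ∃ h, (f, h) ∈ x.C ∧ ∀ k, k ≠ i → h k = g k := by
  rw [mem_C_mul]
  simp only [mem_C_ss]

theorem mem_C_ss_mul {x : PM n} {i : Fin n} {f g : Vec n} :
    (f, g) ∈ (ss i * x).C ↔ ∃ h, (h, g) ∈ x.C ∧ ∀ k, k ≠ i → f k = h k := by
  rw [mem_C_mul]
  simp only [mem_C_ss]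
  constructor
  · rintro ⟨h, h1, h2⟩; exact ⟨h, h2, h1⟩
  · rintro ⟨h, h1, h2⟩; exact ⟨h, h2, h1⟩

theorem tt_idem (i j : Fin n) : tt i j * tt i j = tt i j := by
  apply ext_C; intro f g
  rw [mem_C_mul_tt, mem_C_tt]
  constructor
  · rintro ⟨h, _⟩; exact h
  · rintro ⟨rfl, h⟩; exact ⟨⟨rfl, h⟩, h⟩

theorem tt_self (i : Fin n) : tt i i = 1 := by
  apply ext_C; intro f g
  rw [mem_C_tt, mem_C_one]; simp

theorem tt_comm (i j k l : Fin n) : tt i j * tt k l = tt k l * tt i j := by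
  apply ext_C; intro f g
  rw [mem_C_mul_tt, mem_C_mul_tt, mem_C_tt, mem_C_tt]
  constructor
  · rintro ⟨⟨rfl, h1⟩, h2⟩; exact ⟨⟨rfl, h2⟩, h1⟩
  · rintro ⟨⟨rfl, h1⟩, h2⟩; exact ⟨⟨rfl, h2⟩, h1⟩

theorem tt_tri (i j k : Fin n) : tt j k * tt i j = tt j k * tt i k := by
  apply ext_C; intro f g
  rw [mem_C_mul_tt, mem_C_mul_tt, mem_C_tt]
  constructor
  · rintro ⟨⟨rfl, h1⟩, h2⟩; exact ⟨⟨rfl, h1⟩, by rw [h2, h1]⟩
  · rintro ⟨⟨rfl, h1⟩, h2⟩; exact ⟨⟨rfl, h1⟩, by rw [h2, h1]⟩

theorem ss_idem (i : Fin n) : ss i * ss i = ss i := Es_idem _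

theorem ss_comm (i j : Fin n) : ss i * ss j = ss j * ss i := by
  unfold ss; rw [Es_mul, Es_mul, Set.inter_comm]

theorem ss_mul_Es {i : Fin n} {A : Set (Fin n)} (h : i ∉ A) : ss i * Es A = Es A := by
  unfold ss; rw [Es_mul]
  congr 1
  ext k
  simp only [Set.mem_inter_iff, Set.mem_compl_iff, Set.mem_singleton_iff]
  exact ⟨fun h' => h'.2, fun h' => ⟨fun hk => h (hk ▸ h'), h'⟩⟩

theorem Es_mul_ss {i : Fin n} {A : Set (Fin n)} (h : i ∉ A) : Es A * ss i = Es A := by
  unfold ss; rw [Es_mul]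
  congr 1
  ext k
  simp only [Set.mem_inter_iff, Set.mem_compl_iff, Set.mem_singleton_iff]
  exact ⟨fun h' => h'.1, fun h' => ⟨h', fun hk => h (hk ▸ h')⟩⟩

theorem ss_tt_comm {i j k : Fin n} (h1 : k ≠ i) (h2 : k ≠ j) : ss k * tt i j = tt i j * ss k := by
  apply ext_C; intro f g
  rw [mem_C_mul_tt, mem_C_tt_mul, mem_C_ss]
  constructor
  · rintro ⟨h, h3⟩; exact ⟨h, by rw [h i h1.symm, h j h2.symm, h3]⟩
  · rintro ⟨h, h3⟩; exact ⟨h, by rw [← h i h1.symm, ← h j h2.symm, h3]⟩

theorem Es_tt_comm {A : Set (Fin n)} {i j : Fin n} (h1 : i ∈ A) (h2 : j ∈ A) :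
    Es A * tt i j = tt i j * Es A := by
  apply ext_C; intro f g
  rw [mem_C_mul_tt, mem_C_tt_mul, mem_C_Es]
  constructor
  · rintro ⟨h, h3⟩; exact ⟨h, by rw [h i h1, h j h2, h3]⟩
  · rintro ⟨h, h3⟩; exact ⟨h, by rw [← h i h1, ← h j h2, h3]⟩

theorem mem_C_a {i j : Fin n} {f g : Vec n} :
    (f, g) ∈ (ss i * tt i j).C ↔ (∀ k, k ≠ i → f k = g k) ∧ g i = g j := by
  rw [mem_C_mul_tt, mem_C_ss]

theorem mem_C_b {i j : Fin n} {f g : Vec n} :
    (f, g) ∈ (tt i j * ss i).C ↔ (∀ k, k ≠ i → f k = g k) ∧ f i = f j := by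
  rw [mem_C_tt_mul, mem_C_ss]

theorem sts {i j : Fin n} (hij : i ≠ j) : ss i * tt i j * ss i = ss i := by
  classical
  apply ext_C; intro f g
  rw [mem_C_mul_ss, mem_C_ss]
  simp only [mem_C_a]
  constructor
  · rintro ⟨h, ⟨h1, h2⟩, h3⟩ k hk
    rw [h1 k hk, h3 k hk]
  · intro h
    refine ⟨fun k => if k = i then f j else f k, ⟨?_, ?_⟩, ?_⟩
    · intro k hk; simp [hk]
    · simp [Ne.symm hij]
    · intro k hk; simp [hk, h k hk]

theorem tst {i j : Fin n} (hij : i ≠ j) : tt i j * ss i * tt i j = tt i j := by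
  apply ext_C; intro f g
  rw [mem_C_mul_tt, mem_C_b, mem_C_tt]
  constructor
  · rintro ⟨⟨h1, h2⟩, h3⟩
    refine ⟨?_, h2⟩
    ext k
    by_cases hk : k = i
    · subst hk; rw [h2, h3, h1 j hij.symm]
    · exact h1 k hk
  · rintro ⟨rfl, h⟩
    exact ⟨⟨fun _ _ => rfl, h⟩, h⟩

theorem a_idem (i j : Fin n) : (ss i * tt i j) * (ss i * tt i j) = ss i * tt i j := by
  by_cases h : i = j
  · subst h; rw [tt_self, mul_one, ss_idem]
  · rw [← mul_assoc, sts h]

theorem b_idem (i j : Fin n) : (tt i j * ss i) * (tt i j * ss i) = tt i j * ss i := by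
  by_cases h : i = j
  · subst h; rw [tt_self, one_mul, ss_idem]
  · rw [← mul_assoc, tst h]

end PM

/-- the idempotents -/
def ei (A : Set (Fin n)) : Idem (PM n) := ⟨Es A, Es_idem A⟩
def si (i : Fin n) : Idem (PM n) := ⟨ss i, ss_idem i⟩
def ti (i j : Fin n) : Idem (PM n) := ⟨tt i j, tt_idem i j⟩
def ai (i j : Fin n) : Idem (PM n) := ⟨ss i * tt i j, a_idem i j⟩
def bi (i j : Fin n) : Idem (PM n) := ⟨tt i j * ss i, b_idem i j⟩

@[simp] theorem coe_ei (A : Set (Fin n)) : ((ei A : Idem (PM n)) : PM n) = Es A := rfl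
@[simp] theorem coe_si (i : Fin n) : ((si i : Idem (PM n)) : PM n) = ss i := rfl
@[simp] theorem coe_ti (i j : Fin n) : ((ti i j : Idem (PM n)) : PM n) = tt i j := rfl
@[simp] theorem coe_ai (i j : Fin n) : ((ai i j : Idem (PM n)) : PM n) = ss i * tt i j := rfl
@[simp] theorem coe_bi (i j : Fin n) : ((bi i j : Idem (PM n)) : PM n) = tt i j * ss i := rfl

/-- elements of `IG` -/
def sg (i : Fin n) : IG (PM n) := io (si i)
def ta (i j : Fin n) : IG (PM n) := io (ti i j)
def al (i j : Fin n) : IG (PM n) := io (ai i j)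
def be (i j : Fin n) : IG (PM n) := io (bi i j)
def eg (A : Set (Fin n)) : IG (PM n) := io (ei A)

@[simp] theorem val_sg (i : Fin n) : val (sg i) = ss i := by simp [sg]
@[simp] theorem val_ta (i j : Fin n) : val (ta i j) = tt i j := by simp [ta]
@[simp] theorem val_al (i j : Fin n) : val (al i j) = ss i * tt i j := by simp [al]
@[simp] theorem val_be (i j : Fin n) : val (be i j) = tt i j * ss i := by simp [be]
@[simp] theorem val_eg (A : Set (Fin n)) : val (eg A) = Es A := by simp [eg]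

theorem ta_symm (i j : Fin n) : ta i j = ta j i := by
  unfold ta; congr 1; exact Subtype.ext (tt_symm i j)

theorem sg_al (i j : Fin n) : sg i * al i j = al i j :=
  io_mul_right (by simp [← mul_assoc, ss_idem])
theorem al_sg {i j : Fin n} (h : i ≠ j) : al i j * sg i = sg i :=
  io_mul_right (by simp [sts h])
theorem ta_al {i j : Fin n} (h : i ≠ j) : ta i j * al i j = ta i j :=
  io_mul_left (by simp [← mul_assoc, tst h])
theorem al_ta (i j : Fin n) : al i j * ta i j = al i j :=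
  io_mul_left (by simp [mul_assoc, tt_idem])
theorem ta_be (i j : Fin n) : ta i j * be i j = be i j :=
  io_mul_right (by simp [← mul_assoc, tt_idem])
theorem be_ta {i j : Fin n} (h : i ≠ j) : be i j * ta i j = ta i j :=
  io_mul_right (by simp [tst h])
theorem be_sg (i j : Fin n) : be i j * sg i = be i j :=
  io_mul_left (by simp [mul_assoc, ss_idem])
theorem sg_be {i j : Fin n} (h : i ≠ j) : sg i * be i j = sg i :=
  io_mul_left (by simp [← mul_assoc, sts h])
theorem eg_mul (A B : Set (Fin n)) (h : B ⊆ A) : eg A * eg B = eg B :=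
  io_mul_right (by simp [Es_mul, Set.inter_eq_right.2 h])
theorem sg_eg {i : Fin n} {A : Set (Fin n)} (h : i ∉ A) : sg i * eg A = eg A :=
  io_mul_right (by simp [ss_mul_Es h])

/-! patterns -/

namespace PM

/-- bottom relation -/
def bt (a : PM n) (i j : Fin n) : Prop := a.r (true, i) (true, j)
/-- top-bottom relation -/
def tb (a : PM n) (k i : Fin n) : Prop := a.r (false, k) (true, i)
/-- marked bottom points -/
def mkd (a : PM n) (i : Fin n) : Prop := ∃ k, tb a k i

theorem bt_refl (a : PM n) (i : Fin n) : bt a i i := a.eqv.refl _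
theorem bt_symm {a : PM n} {i j : Fin n} (h : bt a i j) : bt a j i := a.eqv.symm h
theorem bt_trans {a : PM n} {i j k : Fin n} (h : bt a i j) (h' : bt a j k) : bt a i k := a.eqv.trans h h'
theorem tb_bt {a : PM n} {k i j : Fin n} (h : tb a k i) (h' : bt a i j) : tb a k j := a.eqv.trans h h'
theorem tb_tb {a : PM n} {k i j : Fin n} (h : tb a k i) (h' : tb a k j) : bt a i j :=
  a.eqv.trans (a.eqv.symm h) h'

theorem bt_iff {a : PM n} {i j : Fin n} : bt a i j ↔ a * tt i j = a := by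
  constructor
  · intro h
    apply ext_C; intro f g
    rw [mem_C_mul_tt]
    refine ⟨fun h' => h'.1, fun h' => ⟨h', ?_⟩⟩
    have := h' _ _ h
    simpa using this
  · intro h
    show a.r _ _
    rw [r_iff]
    rintro ⟨f, g⟩ hv
    rw [← h, mem_C_mul_tt] at hv
    simpa using hv.2

/-- top relation -/
theorem top_iff {a : PM n} {i j : Fin n} : a.r (false, i) (false, j) ↔ tt i j * a = a := by
  constructor
  · intro h
    apply ext_C; intro f g
    rw [mem_C_tt_mul]
    refine ⟨fun h' => h'.1, fun h' => ⟨h', ?_⟩⟩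
    have := h' _ _ h
    simpa using this
  · intro h
    rw [r_iff]
    rintro ⟨f, g⟩ hv
    rw [← h, mem_C_tt_mul] at hv
    simpa using hv.2

open Classical in
/-- indicator of the block of `p` -/
noncomputable def ind (a : PM n) (p : Bool × Fin n) (b : Bool) : Vec n := fun i => if a.r p (b, i) then 1 else 0

open Classical in
theorem ev_ind (a : PM n) (p c : Bool × Fin n) : ev (ind a p false) (ind a p true) c = if a.r p c then 1 else 0 := by
  rcases c with ⟨b, i⟩
  cases b <;> simp [ind]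

theorem ind_mem (a : PM n) (p : Bool × Fin n) : (ind a p false, ind a p true) ∈ a.C := by
  classical
  intro c d hcd
  simp only [ev_ind]
  have : a.r p c ↔ a.r p d := ⟨fun h => a.eqv.trans h hcd, fun h => a.eqv.trans h (a.eqv.symm hcd)⟩
  simp [this]

/-- pattern after isolating `i` -/
theorem r_mul_ss {a : PM n} {i : Fin n} {p q : Bool × Fin n} (hp : p ≠ (true, i)) (hq : q ≠ (true, i)) :
    (a * ss i).r p q ↔ a.r p q := by
  rw [r_iff, r_iff]
  constructor
  · rintro h ⟨f, g⟩ hv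
    exact h (f, g) (mem_C_mul_ss.2 ⟨g, hv, fun _ _ => rfl⟩)
  · rintro h ⟨f, g⟩ hv
    obtain ⟨g', h1, h2⟩ := mem_C_mul_ss.1 hv
    have key : ∀ c : Bool × Fin n, c ≠ (true, i) → ev f g c = ev f g' c := by
      rintro ⟨b, k⟩ hc
      cases b
      · simp
      · have : k ≠ i := fun h => hc (by rw [h])
        simp [h2 k this]
    have := h _ h1
    simp only at this ⊢
    rw [key p hp, key q hq, this]

theorem r_mul_ss_iso {a : PM n} {i : Fin n} {q : Bool × Fin n} (h : (a * ss i).r (true, i) q) : q = (true, i) := by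
  classical
  rw [r_iff] at h
  have h1 : ((0 : Vec n), (Pi.single i 1 : Vec n)) ∈ (a * ss i).C :=
    mem_C_mul_ss.2 ⟨0, a.C.zero_mem, fun k hk => by simp [hk]⟩
  have h2 := h _ h1
  simp only [ev_true, Pi.single_eq_same] at h2
  obtain ⟨b, k⟩ := q
  cases b
  · simp at h2
  · by_contra hne
    have : k ≠ i := fun h => hne (by rw [h])
    simp [this] at h2

theorem tb_mul_ss {a : PM n} {i k j : Fin n} : tb (a * ss i) k j ↔ j ≠ i ∧ tb a k j := by
  unfold tb
  constructor
  · intro h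
    have hj : j ≠ i := by
      rintro rfl
      have := r_mul_ss_iso ((a * ss j).eqv.symm h)
      simp at this
    exact ⟨hj, (r_mul_ss (by simp) (by simpa using hj)).1 h⟩
  · rintro ⟨hj, h⟩
    exact (r_mul_ss (by simp) (by simpa using hj)).2 h

theorem bt_mul_ss {a : PM n} {i k j : Fin n} (hk : k ≠ i) (hj : j ≠ i) : bt (a * ss i) k j ↔ bt a k j := by
  unfold bt
  exact r_mul_ss (by simpa using hk) (by simpa using hj)

theorem bt_mul_ss_iso {a : PM n} {i j : Fin n} (h : bt (a * ss i) i j) : j = i := by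
  have := r_mul_ss_iso h
  simpa using this

/-- growing under joins -/
theorem r_mul_tt_of {a : PM n} {i j : Fin n} {p q : Bool × Fin n} (h : a.r p q) : (a * tt i j).r p q := by
  rw [r_iff] at h ⊢
  rintro ⟨f, g⟩ hv
  exact h _ (mem_C_mul_tt.1 hv).1

theorem bt_mul_tt (a : PM n) (i j : Fin n) : bt (a * tt i j) i j := by
  rw [bt_iff, mul_assoc, tt_idem]

/-- isolated points -/
theorem iso_iff {a : PM n} {i : Fin n} : a * ss i = a ↔ (∀ j, j ≠ i → ¬ bt a i j) ∧ ¬ mkd a i := by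
  classical
  constructor
  · intro h
    constructor
    · intro j hj hb
      rw [← h] at hb
      exact hj (bt_mul_ss_iso hb)
    · rintro ⟨k, hk⟩
      rw [← h, tb_mul_ss] at hk
      exact hk.1 rfl
  · rintro ⟨h1, h2⟩
    apply ext_C; intro f g
    rw [mem_C_mul_ss]
    constructor
    · rintro ⟨g', h3, h4⟩
      have h5 : ((0 : Vec n), g - g') ∈ a.C := by
        intro p q hpq
        have key : ∀ c : Bool × Fin n, c ≠ (true, i) → ev (0 : Vec n) (g - g') c = 0 := by
          rintro ⟨b, k⟩ hc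
          cases b
          · simp
          · have : k ≠ i := fun h => hc (by rw [h])
            simp [h4 k this]
        have key2 : ∀ c : Bool × Fin n, a.r (true, i) c → c = (true, i) := by
          rintro ⟨b, k⟩ hc
          cases b
          · exact absurd ⟨k, a.eqv.symm hc⟩ h2
          · by_contra hne
            exact h1 k (fun h => hne (by rw [h])) hc
        by_cases hp : p = (true, i)
        · rw [hp] at hpq ⊢
          rw [key2 q hpq]
        · by_cases hq : q = (true, i)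
          · rw [hq] at hpq ⊢
            rw [key2 p (a.eqv.symm hpq)]
          · simp only
            rw [key p hp, key q hq]
      have h6 := a.C.add_mem h5 h3
      simpa using h6
    · intro h3
      exact ⟨g, h3, fun _ _ => rfl⟩

/-- isolated points on the top -/
theorem iso_top_of {a : PM n} {i : Fin n} (h : ∀ q, a.r (false, i) q → q = (false, i)) : ss i * a = a := by
  classical
  apply ext_C; intro f g
  rw [mem_C_ss_mul]
  constructor
  · rintro ⟨f', h3, h4⟩
    have h5 : (f - f', (0 : Vec n)) ∈ a.C := by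
      intro p q hpq
      have key : ∀ c : Bool × Fin n, c ≠ (false, i) → ev (f - f') (0 : Vec n) c = 0 := by
        rintro ⟨b, k⟩ hc
        cases b
        · have : k ≠ i := fun h => hc (by rw [h])
          simp [h4 k this]
        · simp
      by_cases hp : p = (false, i)
      · rw [hp] at hpq ⊢
        rw [h q hpq]
      · by_cases hq : q = (false, i)
        · rw [hq] at hpq ⊢
          rw [h p (a.eqv.symm hpq)]
        · simp only
          rw [key p hp, key q hq]
    have h6 := a.C.add_mem h5 h3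
    simpa using h6
  · intro h3
    exact ⟨f, h3, fun _ _ => rfl⟩

end PM

end Pool.Agent.H213
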