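import Pool.Agent.helper213_IG.Pairs

/-!
# Words of rank at least `n - 1`
-/

namespace Pool.Agent.H213

open RkMonoid PM Relation

variable {n : ℕ}

open Classical in
/-- pushing a letter on a stack -/
noncomputable def push : List (Idem (PM n)) → Idem (PM n) → List (Idem (PM n))
  | [], x => [x]
  | e :: r, x => if (e : PM n) * (x : PM n) = e then e :: r
      else if (e : PM n) * (x : PM n) = x then push r x else x :: e :: r

/-- normal form of a word -/
noncomputable def nf (w : List (Idem (PM n))) : List (Idem (PM n)) := w.foldl push []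

theorem push_sound (st : List (Idem (PM n))) (x : Idem (PM n)) :
    mkw (push st x).reverse = mkw st.reverse * io x := by
  induction st with
  | nil => simp [push, mkw_nil, mkw_cons]
  | cons e r ih =>
    unfold push
    split_ifs with h1 h2
    · rw [List.reverse_cons, mkw_concat, mul_assoc, io_mul_left h1]
    · rw [ih, List.reverse_cons, mkw_concat, mul_assoc, io_mul_right h2]
    · rw [List.reverse_cons, mkw_concat]

theorem nf_sound_aux (w : List (Idem (PM n))) : ∀ st, mkw (w.foldl push st).reverse = mkw st.reverse * mkw w := by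
  induction w with
  | nil => intro st; simp [mkw_nil]
  | cons a w ih =>
    intro st
    rw [List.foldl_cons, ih, push_sound, mkw_cons, mul_assoc]

theorem nf_sound (w : List (Idem (PM n))) : mkw (nf w).reverse = mkw w := by
  unfold nf
  rw [nf_sound_aux]
  simp [mkw_nil]

/-- reduced stacks -/
def RedSt : List (Idem (PM n)) → Prop
  | [] => True
  | [_] => True
  | e :: d :: r => (d : PM n) * (e : PM n) ≠ d ∧ (d : PM n) * (e : PM n) ≠ e ∧ RedSt (d :: r)

theorem RedSt.tail {e : Idem (PM n)} {r : List (Idem (PM n))} (h : RedSt (e :: r)) : RedSt r := by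
  cases r with
  | nil => trivial
  | cons d r => exact h.2.2

theorem push_red {r : List (Idem (PM n))} {e : Idem (PM n)} (h : RedSt (e :: r)) : push r e = e :: r := by
  cases r with
  | nil => rfl
  | cons d r =>
    unfold push
    rw [if_neg h.1, if_neg h.2.1]

theorem redSt_push {r : List (Idem (PM n))} (h : RedSt r) (x : Idem (PM n)) : RedSt (push r x) := by
  induction r with
  | nil => trivial
  | cons e r ih =>
    unfold push
    split_ifs with h1 h2
    · exact h
    · exact ih h.tail
    · exact ⟨h1, h2, h⟩

theorem push_left {a b : Idem (PM n)} (h : (a : PM n) * (b : PM n) = a) (st : List (Idem (PM n))) :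
    push (push st a) b = push st a := by
  induction st with
  | nil =>
    show push [a] b = [a]
    unfold push
    rw [if_pos h]
  | cons e r ih =>
    by_cases h1 : (e : PM n) * (a : PM n) = e
    · have h2 : push (e :: r) a = e :: r := by rw [push, if_pos h1]
      rw [h2]
      rw [push, if_pos]
      conv_lhs => rw [← h1, mul_assoc, h]
      exact h1
    · by_cases h2 : (e : PM n) * (a : PM n) = a
      · have h3 : push (e :: r) a = push r a := by rw [push, if_neg h1, if_pos h2]
        rw [h3, ih]
      · have h3 : push (e :: r) a = a :: e :: r := by rw [push, if_neg h1, if_neg h2]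
        rw [h3, push, if_pos h]

theorem push_right {a b : Idem (PM n)} (h : (a : PM n) * (b : PM n) = b) (st : List (Idem (PM n)))
    (hst : RedSt st) : push (push st a) b = push st b := by
  induction st with
  | nil =>
    show push [a] b = [b]
    rw [push]
    by_cases h1 : (a : PM n) * (b : PM n) = a
    · rw [if_pos h1]
      have : a = b := Subtype.ext (by rw [← h1, h])
      rw [this]
    · rw [if_neg h1, if_pos h]; rfl
  | cons e r ih =>
    by_cases h1 : (e : PM n) * (a : PM n) = e
    · have h2 : push (e :: r) a = e :: r := by rw [push, if_pos h1]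
      rw [h2]
    · by_cases h2 : (e : PM n) * (a : PM n) = a
      · have h3 : push (e :: r) a = push r a := by rw [push, if_neg h1, if_pos h2]
        rw [h3, ih hst.tail]
        have h4 : (e : PM n) * (b : PM n) = b := by
          calc (e : PM n) * (b : PM n) = (e : PM n) * ((a : PM n) * (b : PM n)) := by rw [h]
            _ = b := by rw [← mul_assoc, h2, h]
        by_cases h5 : (e : PM n) * (b : PM n) = e
        · have : b = e := Subtype.ext (by rw [← h4, h5])
          subst this
          rw [push_red hst, push, if_pos h5]
        · conv_rhs => rw [push, if_neg h5, if_pos h4]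
      · have h3 : push (e :: r) a = a :: e :: r := by rw [push, if_neg h1, if_neg h2]
        rw [h3]
        by_cases h4 : (a : PM n) * (b : PM n) = a
        · have : b = a := Subtype.ext (by rw [← h, h4])
          subst this
          rw [h3, push, if_pos h4]
        · rw [push, if_neg h4, if_pos h]

theorem basic_high {a b : PM n} (ha : a * a = a) (hb : b * b = b) (h : Basic a b) (hr : n ≤ rk (a * b) + 1) :
    a * b = a ∨ a * b = b := by
  by_cases ha1 : a = 1
  · right; rw [ha1, one_mul]
  by_cases hb1 : b = 1
  · left; rw [hb1, mul_one]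
  have r1 : rk a + 1 ≤ n := by
    by_contra hcon
    exact ha1 (eq_one_of_rk ha (by omega))
  have r2 : rk b + 1 ≤ n := by
    by_contra hcon
    exact hb1 (eq_one_of_rk hb (by omega))
  have r3 := rk_mul_le_left a b
  have r4 := rk_mul_le_right a b
  rcases h with h | h | h | h
  · exact Or.inl h
  · exact Or.inr h
  · right
    obtain ⟨w, hw⟩ := ex_right b a (by rw [h]; omega)
    rw [h] at hw
    rw [← hw, ← mul_assoc, ha]
  · left
    obtain ⟨w, hw⟩ := ex_left b a (by rw [h]; omega)
    rw [h] at hw
    rw [← hw, mul_assoc, hb]

theorem redSt_foldl (w : List (Idem (PM n))) : ∀ st, RedSt st → RedSt (w.foldl push st) := by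
  induction w with
  | nil => intro st h; exact h
  | cons a w ih => intro st h; exact ih _ (redSt_push h a)

theorem nf_step {u v : List (Idem (PM n))} (h : StepW u v) (hr : n ≤ rk (vl u) + 1) : nf u = nf v := by
  obtain ⟨p, q, a, b, c, hb, hc, rfl, rfl⟩ := h
  have h1 : rk (vl (p ++ [a, b] ++ q)) ≤ rk ((a : PM n) * (b : PM n)) := by
    have e1 : vl (p ++ [a, b] ++ q) = vl p * ((a : PM n) * (b : PM n)) * vl q := by
      simp [mul_assoc]
    rw [e1]
    exact (rk_mul_le_left _ _).trans (rk_mul_le_right _ _)
  have h2 : RedSt (p.foldl push []) := redSt_foldl p [] trivial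
  unfold nf
  simp only [List.foldl_append, List.foldl_cons, List.foldl_nil]
  congr 1
  rcases basic_high a.2 b.2 hb (by omega) with h3 | h3
  · have : c = a := Subtype.ext (by rw [← hc, h3])
    rw [this]
    exact push_left h3 _
  · have : c = b := Subtype.ext (by rw [← hc, h3])
    rw [this]
    exact push_right h3 _ h2

theorem vl_of_step {u v : List (Idem (PM n))} (h : StepW u v) : vl u = vl v := by
  obtain ⟨p, q, a, b, c, hb, hc, rfl, rfl⟩ := h
  exact vl_step hc

theorem nf_eqv {u v : List (Idem (PM n))} (h : EqvGen StepW u v) :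
    vl u = vl v ∧ (n ≤ rk (vl u) + 1 → nf u = nf v) := by
  induction h with
  | rel u v h => exact ⟨vl_of_step h, fun hr => nf_step h hr⟩
  | refl x => exact ⟨rfl, fun _ => rfl⟩
  | symm x y _ ih => exact ⟨ih.1.symm, fun hr => (ih.2 (by rw [ih.1]; exact hr)).symm⟩
  | trans x y z _ _ ih1 ih2 =>
    exact ⟨ih1.1.trans ih2.1, fun hr => (ih1.2 hr).trans (ih2.2 (by rw [← ih1.1]; exact hr))⟩

theorem mid_iff {u v : List (Idem (PM n))} (hr : n ≤ rk (vl u) + 1) : mkw u = mkw v ↔ nf u = nf v := by
  constructor
  · intro h
    exact (nf_eqv (mkw_eq_iff.1 h)).2 hr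
  · intro h
    rw [← nf_sound u, h, nf_sound v]

end Pool.Agent.H213
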