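import Pool.Agent.helper213_IG.Gens

/-!
# Rank conditions and the extension lemma
-/

namespace Pool.Agent.H213

open RkMonoid PM

variable {n : ℕ}

namespace PM

theorem rk_left_iff (x y : PM n) : rk (x * y) = rk x ↔ (x * y).dom = x.dom ∧ (x * y).ker = x.ker :=
  rank_mul_eq_left_iff x y

/-- validity of cutting -/
theorem rk_ss_iff {a : PM n} {i : Fin n} : rk (a * ss i) = rk a ↔ (¬ mkd a i ∨ ∃ j, j ≠ i ∧ bt a i j) := by
  classical
  constructor
  · intro h
    by_contra hcon
    push Not at hcon
    obtain ⟨⟨k, hk⟩, h2⟩ := hcon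
    have h3 := (rk_left_iff _ _).1 h
    have h4 : (ind a (true, i) false, (0 : Vec n)) ∈ (a * ss i).C := by
      rw [mem_C_mul_ss]
      refine ⟨ind a (true, i) true, ind_mem a _, ?_⟩
      intro m hm
      have : ¬ a.r (true, i) (true, m) := h2 m hm
      simp [ind, this]
    have h5 : ind a (true, i) false ∈ a.ker := by rw [← h3.2]; exact mem_ker.2 h4
    have h6 := mem_ker.1 h5 _ _ hk
    have : a.r (true, i) (false, k) := a.eqv.symm hk
    simp [ind, this] at h6
  · intro h
    by_cases h1 : ∃ j, j ≠ i ∧ bt a i j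
    · obtain ⟨j, hj, hb⟩ := h1
      apply le_antisymm (rk_mul_le_left _ _)
      have h2 : a * ss i * tt i j = a := by
        conv_lhs => rw [← bt_iff.1 hb, mul_assoc, mul_assoc, ← mul_assoc (tt i j), tst (Ne.symm hj)]
        exact bt_iff.1 hb
      calc rk a = rk (a * ss i * tt i j) := by rw [h2]
        _ ≤ _ := rk_mul_le_left _ _
    · have h2 : ¬ mkd a i := h.resolve_right h1
      rw [iso_iff.2 ⟨fun j hj hb => h1 ⟨j, hj, hb⟩, h2⟩]

/-- validity of joining -/
theorem rk_tt_iff {a : PM n} {i j : Fin n} : rk (a * tt i j) = rk a ↔ (bt a i j ∨ ¬ mkd a i ∨ ¬ mkd a j) := by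
  classical
  constructor
  · intro h
    by_contra hcon
    push Not at hcon
    obtain ⟨h1, ⟨k, hk⟩, ⟨k', hk'⟩⟩ := hcon
    have h3 := (rk_left_iff _ _).1 h
    have h4 : ind a (true, i) false ∈ (a * tt i j).dom := by
      rw [h3.1]; exact mem_dom.2 ⟨_, ind_mem a _⟩
    obtain ⟨g, hg⟩ := mem_dom.1 h4
    rw [mem_C_mul_tt] at hg
    have h5 := hg.1 _ _ hk
    have h6 := hg.1 _ _ hk'
    have h7 : a.r (true, i) (false, k) := a.eqv.symm hk
    have h8 : ¬ a.r (true, i) (false, k') := fun h => h1 (a.eqv.trans h hk')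
    simp [ind, h7] at h5
    simp [ind, h8] at h6
    rw [hg.2, ← h6] at h5
    exact one_ne_zero h5
  · have key : ∀ (i j : Fin n), ¬ mkd a i → rk (a * tt i j) = rk a := by
      intro i j hi
      by_cases hb : bt a i j
      · rw [bt_iff.1 hb]
      rw [rk_left_iff]
      constructor
      · apply le_antisymm (dom_mul_le _ _)
        intro f hf
        obtain ⟨g, hg⟩ := mem_dom.1 hf
        have h0 : ((0 : Vec n), ind a (true, i) true) ∈ a.C := by
          have h1 := ind_mem a (true, i)
          have h2 : ind a (true, i) false = 0 := by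
            ext k
            have : ¬ a.r (true, i) (false, k) := fun h => hi ⟨k, a.eqv.symm h⟩
            simp [ind, this]
          rwa [h2] at h1
        have h3 := a.C.add_mem hg (a.C.smul_mem (g j - g i) h0)
        refine mem_dom.2 ⟨_, mem_C_mul_tt.2 ⟨by simpa using h3, ?_⟩⟩
        have h4 : a.r (true, i) (true, i) := a.eqv.refl _
        have h5 : ¬ a.r (true, i) (true, j) := hb
        simp [ind, h4, h5]
      · apply le_antisymm _ (ker_le_mul _ _)
        intro f hf
        have := mem_ker.1 hf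
        rw [mem_C_mul_tt] at this
        exact mem_ker.2 this.1
    rintro (h | h | h)
    · rw [bt_iff.1 h]
    · exact key i j h
    · rw [tt_symm]; exact key j i h

/-- validity of `bi` -/
theorem rk_b_iff {a : PM n} {i j : Fin n} (hij : i ≠ j) : rk (a * (tt i j * ss i)) = rk a ↔ rk (a * tt i j) = rk a := by
  constructor
  · intro h
    rw [← mul_assoc] at h
    exact rk_mul_eq_of_mul_mul h
  · intro h
    rw [← mul_assoc, ← h]
    exact rk_ss_iff.2 (Or.inr ⟨j, hij.symm, bt_mul_tt a i j⟩)

theorem mem_dom_Es {A : Set (Fin n)} (f : Vec n) : f ∈ (Es A).dom :=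
  mem_dom.2 ⟨f, mem_C_Es.2 (fun _ _ => rfl)⟩

theorem mem_ker_Es {A : Set (Fin n)} {f : Vec n} : f ∈ (Es A).ker ↔ ∀ i ∈ A, f i = 0 := by
  rw [mem_ker, mem_C_Es]; rfl

/-- elements in the R-class of `Es J` -/
def OmS (J : Set (Fin n)) (a : PM n) : Prop := Es J * a = a ∧ rk a = rk (Es J)

variable {J : Set (Fin n)} {a : PM n}

theorem OmS.dom_ker (h : OmS J a) : a.dom = (Es J).dom ∧ a.ker = (Es J).ker := by
  have h1 : rk (Es J * a) = rk (Es J) := by rw [h.1, h.2]
  have h2 := (rk_left_iff _ _).1 h1
  rwa [h.1] at h2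

theorem OmS.mem_dom' (h : OmS J a) (f : Vec n) : ∃ g, (f, g) ∈ a.C := by
  have : f ∈ a.dom := by rw [h.dom_ker.1]; exact mem_dom_Es f
  exact mem_dom.1 this

theorem OmS.mem_ker' (h : OmS J a) {f : Vec n} : (f, (0 : Vec n)) ∈ a.C ↔ ∀ i ∈ J, f i = 0 := by
  rw [← mem_ker, h.dom_ker.2, mem_ker_Es]

theorem OmS.mul (h : OmS J a) {b : PM n} (hb : rk (a * b) = rk a) : OmS J (a * b) :=
  ⟨by rw [← mul_assoc, h.1], by rw [hb, h.2]⟩

theorem OmS.mem_of_tb (h : OmS J a) {k i : Fin n} (ht : tb a k i) : k ∈ J := by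
  classical
  by_contra hk
  have h1 : ((Pi.single k 1 : Vec n), (0 : Vec n)) ∈ a.C := by
    rw [h.mem_ker']
    intro i hi
    have : i ≠ k := fun h => hk (h ▸ hi)
    simp [this]
  have := h1 _ _ ht
  simp at this

theorem OmS.exists_tb (h : OmS J a) {k : Fin n} (hk : k ∈ J) : ∃ i, tb a k i := by
  classical
  by_contra hcon
  push Not at hcon
  have h1 : (ind a (false, k) false, (0 : Vec n)) ∈ a.C := by
    have h2 := ind_mem a (false, k)
    have h3 : ind a (false, k) true = 0 := by
      ext i
      have : ¬ a.r (false, k) (true, i) := hcon i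
      simp [ind, this]
    rwa [h3] at h2
  rw [h.mem_ker'] at h1
  have h4 := h1 k hk
  have h5 : a.r (false, k) (false, k) := a.eqv.refl _
  simp [ind, h5] at h4

theorem OmS.tb_inj (h : OmS J a) {k k' i : Fin n} (h1 : tb a k i) (h2 : tb a k' i) : k = k' := by
  classical
  by_contra hne
  obtain ⟨g, hg⟩ := h.mem_dom' (Pi.single k 1)
  have h3 := hg _ _ h1
  have h4 := hg _ _ h2
  simp at h3 h4
  rw [← h3] at h4
  have : k' ≠ k := fun h => hne h.symm
  simp [this] at h4

/-- transversals of the marked blocks -/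
def Tr (J : Set (Fin n)) (a : PM n) (c : J → Fin n) : Prop := ∀ k : J, tb a k (c k)

theorem OmS.exists_tr (h : OmS J a) : ∃ c, Tr J a c :=
  ⟨fun k => (h.exists_tb k.2).choose, fun k => (h.exists_tb k.2).choose_spec⟩

theorem OmS.tr_inj (h : OmS J a) {c : J → Fin n} (hc : Tr J a c) : Function.Injective c := by
  intro k k' hkk
  have h1 := hc k
  have h2 := hc k'
  rw [← hkk] at h2
  exact Subtype.ext (h.tb_inj h1 h2)

theorem mem_C_mul_Es {x : PM n} {A : Set (Fin n)} {f g : Vec n} :
    (f, g) ∈ (x * Es A).C ↔ ∃ h, (f, h) ∈ x.C ∧ ∀ k ∈ A, h k = g k := by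
  rw [mem_C_mul]
  simp only [mem_C_Es]

theorem OmS.rk_Es (h : OmS J a) {c : J → Fin n} (hc : Tr J a c) {A : Set (Fin n)} (hA : Set.range c ⊆ A) :
    rk (a * Es A) = rk a := by
  rw [rk_left_iff]
  constructor
  · apply le_antisymm (dom_mul_le _ _)
    intro f hf
    obtain ⟨g, hg⟩ := mem_dom.1 hf
    exact mem_dom.2 ⟨g, mem_C_mul_Es.2 ⟨g, hg, fun _ _ => rfl⟩⟩
  · apply le_antisymm _ (ker_le_mul _ _)
    intro f hf
    obtain ⟨g, hg, hg2⟩ := mem_C_mul_Es.1 (mem_ker.1 hf)
    rw [mem_ker, h.mem_ker']
    intro i hi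
    have h1 := hg _ _ (hc ⟨i, hi⟩)
    simp only [ev_false, ev_true] at h1
    rw [h1, hg2 _ (hA ⟨_, rfl⟩)]
    rfl

theorem OmS.mem_C_Es (h : OmS J a) {c : J → Fin n} (hc : Tr J a c) {f g : Vec n} :
    (f, g) ∈ (a * Es (Set.range c)).C ↔ ∀ k : J, f k = g (c k) := by
  rw [mem_C_mul_Es]
  constructor
  · rintro ⟨g', h1, h2⟩ k
    have h3 := h1 _ _ (hc k)
    simp only [ev_false, ev_true] at h3
    rw [h3, h2 _ ⟨k, rfl⟩]
  · intro h1
    obtain ⟨g', hg'⟩ := h.mem_dom' f
    refine ⟨g', hg', ?_⟩
    rintro _ ⟨k, rfl⟩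
    have h3 := hg' _ _ (hc k)
    simp only [ev_false, ev_true] at h3
    rw [← h3, h1 k]

theorem OmS.Es_unique {a a' : PM n} (h : OmS J a) (h' : OmS J a') {c : J → Fin n} (hc : Tr J a c)
    (hc' : Tr J a' c) : a * Es (Set.range c) = a' * Es (Set.range c) := by
  apply ext_C
  intro f g
  rw [h.mem_C_Es hc, h'.mem_C_Es hc']

/-- counting tokens -/
theorem OmS.card_le (h : OmS J a) (X : Finset (Fin n)) (h1 : ∀ m ∈ X, mkd a m)
    (h2 : ∀ m ∈ X, ∀ m' ∈ X, bt a m m' → m = m') : X.card ≤ Nat.card J := by
  have h3 : Nat.card X ≤ Nat.card J := Nat.card_le_card_of_injective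
    (fun m : X => (⟨(h1 m.1 m.2).choose, h.mem_of_tb (h1 m.1 m.2).choose_spec⟩ : J)) (by
      intro m m' hmm
      have h4 := (h1 m.1 m.2).choose_spec
      have h5 := (h1 m'.1 m'.2).choose_spec
      have h6 : (h1 m.1 m.2).choose = (h1 m'.1 m'.2).choose := congrArg Subtype.val hmm
      rw [← h6] at h5
      exact Subtype.ext (h2 _ m.2 _ m'.2 (tb_tb h4 h5)))
  rwa [Nat.card_eq_fintype_card, Fintype.card_coe] at h3

/-- points that cannot be isolated -/
def Inv (a : PM n) (i : Fin n) : Prop := mkd a i ∧ ∀ j, j ≠ i → ¬ bt a i j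

theorem not_inv_iff {a : PM n} {i : Fin n} : ¬ Inv a i ↔ rk (a * ss i) = rk a := by
  rw [rk_ss_iff]
  unfold Inv
  constructor
  · intro h
    by_cases h1 : mkd a i
    · right
      by_contra h2
      push Not at h2
      exact h ⟨h1, h2⟩
    · exact Or.inl h1
  · rintro (h | ⟨j, h1, h2⟩) ⟨h3, h4⟩
    · exact h h3
    · exact h4 j h1 h2

/-- a family of isolated points can be removed at once -/
theorem Es_compl_mul {f : PM n} (F : Finset (Fin n)) (h : ∀ i ∈ F, ss i * f = f) : Es ((F : Set (Fin n))ᶜ) * f = f := by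
  classical
  induction F using Finset.induction_on with
  | empty => simp [Es_univ]
  | insert i F hi ih =>
    have h1 : Es (((insert i F : Finset (Fin n)) : Set (Fin n))ᶜ) = Es ((F : Set (Fin n))ᶜ) * ss i := by
      unfold ss
      rw [Es_mul]
      congr 1
      ext k
      simp [and_comm]
    rw [h1, mul_assoc, h i (Finset.mem_insert_self _ _), ih (fun k hk => h k (Finset.mem_insert_of_mem hk))]

theorem mul_Es_compl {f : PM n} (F : Finset (Fin n)) (h : ∀ i ∈ F, f * ss i = f) : f * Es ((F : Set (Fin n))ᶜ) = f := by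
  classical
  induction F using Finset.induction_on with
  | empty => simp [Es_univ]
  | insert i F hi ih =>
    have h1 : Es (((insert i F : Finset (Fin n)) : Set (Fin n))ᶜ) = ss i * Es ((F : Set (Fin n))ᶜ) := by
      unfold ss
      rw [Es_mul]
      congr 1
      ext k
      simp
    rw [h1, ← mul_assoc, h i (Finset.mem_insert_self _ _), ih (fun k hk => h k (Finset.mem_insert_of_mem hk))]

/-- points isolated on both sides -/
def IsoP (f : PM n) : Set (Fin n) := {i | ss i * f = f ∧ f * ss i = f}

/-- base case of the extension lemma -/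
theorem eq_Es_of_base {f : PM n} (hf : f * f = f) (h1 : ∀ i ∉ IsoP f, ss i * f ≠ f)
    (h2 : ∀ i ∉ IsoP f, ∀ j, j ≠ i → tt i j * f ≠ f) : f = Es (IsoP f)ᶜ := by
  classical
  set e := Es (IsoP f)ᶜ with he
  have hF : (((IsoP f).toFinite.toFinset : Finset (Fin n)) : Set (Fin n)) = IsoP f := by simp
  have hef : e * f = f := by
    have := Es_compl_mul (f := f) (IsoP f).toFinite.toFinset (fun i hi => by
      have : i ∈ IsoP f := by simpa using hi
      exact this.1)
    rwa [hF] at this
  have hfe : f * e = f := by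
    have := mul_Es_compl (f := f) (IsoP f).toFinite.toFinset (fun i hi => by
      have : i ∈ IsoP f := by simpa using hi
      exact this.2)
    rwa [hF] at this
  -- top blocks are singletons
  have htop : ∀ i j, f.r (false, i) (false, j) → i = j := by
    intro i j hij
    by_contra hne
    by_cases hi : i ∈ IsoP f
    · -- i isolated
      have h3 : ((Pi.single i 1 : Vec n), (0 : Vec n)) ∈ f.C := by
        rw [← hi.1, mem_C_ss_mul]
        exact ⟨0, f.C.zero_mem, fun k hk => by simp [hk]⟩
      have := h3 _ _ hij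
      simp only [ev_false, Pi.single_eq_same] at this
      rw [Pi.single_eq_of_ne (Ne.symm hne)] at this
      exact one_ne_zero this
    · exact h2 i hi j (Ne.symm hne) (top_iff.1 hij)
  have hmark : ∀ i ∉ IsoP f, ∃ m, tb f i m := by
    intro i hi
    by_contra hcon
    push Not at hcon
    apply h1 i hi
    apply iso_top_of
    rintro ⟨b, q⟩ hq
    cases b
    · rw [htop _ _ hq]
    · exact absurd hq (hcon q)
  have hdom : ∀ g : Vec n, ∃ h, (g, h) ∈ f.C := by
    intro g
    refine ⟨fun m => if h : ∃ i, tb f i m then g h.choose else 0, ?_⟩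
    have huniq : ∀ i i' m, tb f i m → tb f i' m → i = i' := fun i i' m h h' =>
      htop _ _ (f.eqv.trans h (f.eqv.symm h'))
    have hval : ∀ i m, tb f i m → (if h : ∃ i, tb f i m then g h.choose else 0) = g i := by
      intro i m him
      have hex : ∃ i, tb f i m := ⟨i, him⟩
      rw [dif_pos hex]
      rw [huniq _ _ _ hex.choose_spec him]
    rintro ⟨b, p⟩ ⟨b', q⟩ hpq
    cases b <;> cases b'
    · simp only [ev_false]; rw [htop _ _ hpq]
    · simp only [ev_false, ev_true]; exact (hval p q hpq).symm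
    · simp only [ev_false, ev_true]; exact hval q p (f.eqv.symm hpq)
    · simp only [ev_true]
      by_cases hex : ∃ i, tb f i p
      · obtain ⟨i, hi⟩ := hex
        rw [hval i p hi, hval i q (tb_bt hi hpq)]
      · have hex' : ¬ ∃ i, tb f i q := by
          rintro ⟨i, hi⟩
          exact hex ⟨i, tb_bt hi (bt_symm hpq)⟩
        rw [dif_neg hex, dif_neg hex']
  have hrk : rk (e * f) = rk e := by
    rw [rk_left_iff]
    constructor
    · apply le_antisymm (dom_mul_le _ _)
      intro g _
      rw [hef]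
      exact mem_dom.2 (hdom g)
    · apply le_antisymm _ (ker_le_mul _ _)
      intro g hg
      rw [hef] at hg
      rw [he, mem_ker_Es]
      intro i hi
      obtain ⟨m, hm⟩ := hmark i hi
      have := mem_ker.1 hg _ _ hm
      simpa using this
  obtain ⟨w, hw⟩ := ex_right _ _ hrk
  rw [hef] at hw
  calc f = f * e := hfe.symm
    _ = f * (f * w) := by rw [hw]
    _ = e := by rw [← mul_assoc, hf, hw]

end PM

/-- elements of `IG` in the R-class of `Es J` -/
def Om (J : Set (Fin n)) (x : IG (PM n)) : Prop := Reg x ∧ OmS J (val x)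

theorem Om.mul_io {J : Set (Fin n)} {x : IG (PM n)} (h : Om J x) {e : Idem (PM n)}
    (he : rk (val x * (e : PM n)) = rk (val x)) : Om J (x * io e) :=
  ⟨h.1.mul_io he, by rw [map_mul, val_io]; exact h.2.mul he⟩

theorem Om.mul {J : Set (Fin n)} {x : IG (PM n)} (h : Om J x) {y : IG (PM n)}
    (he : rk (val x * val y) = rk (val x)) : Om J (x * y) :=
  ⟨h.1.mul_right he, by rw [map_mul]; exact h.2.mul he⟩

theorem om_eg (J : Set (Fin n)) : Om J (eg J) := ⟨reg_io _, by simp [OmS, Es_idem]⟩

/-- isolating all points outside `A`, one by one -/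
theorem T_eg {J : Set (Fin n)} (T : IG (PM n) → Prop)
    (hs : ∀ x, Om J x → ∀ i, rk (val x * ss i) = rk (val x) → (T x ↔ T (x * sg i)))
    (F : Finset (Fin n)) : ∀ (x : IG (PM n)) (_ : Om J x)
      (_ : rk (val x * Es ((F : Set (Fin n))ᶜ)) = rk (val x)), (T x ↔ T (x * eg ((F : Set (Fin n))ᶜ))) := by
  classical
  induction F using Finset.induction_on with
  | empty =>
    intro x hx _
    have : x * eg (((∅ : Finset (Fin n)) : Set (Fin n))ᶜ) = x := by
      apply hx.1.g2
      simp [Es_univ]
    rw [this]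
  | insert i F hi ih =>
    intro x hx hr
    have h1 : Es (((insert i F : Finset (Fin n)) : Set (Fin n))ᶜ) = Es ((F : Set (Fin n))ᶜ) * ss i := by
      unfold ss
      rw [Es_mul]
      congr 1
      ext k
      simp [and_comm]
    have h2 : Es (((insert i F : Finset (Fin n)) : Set (Fin n))ᶜ) = ss i * Es ((F : Set (Fin n))ᶜ) := by
      unfold ss
      rw [Es_mul]
      congr 1
      ext k
      simp
    have h3 : x * io (ei ((F : Set (Fin n))ᶜ)) * io (si i) = x * io (ei (((insert i F : Finset (Fin n)) : Set (Fin n))ᶜ)) :=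
      hx.1.comm_mul h1.symm h2.symm hr
    have h4 : rk (val x * Es ((F : Set (Fin n))ᶜ)) = rk (val x) := by
      rw [h1, ← mul_assoc] at hr
      exact rk_mul_eq_of_mul_mul hr
    rw [ih x hx h4]
    have h5 : Om J (x * eg ((F : Set (Fin n))ᶜ)) := hx.mul_io h4
    rw [hs _ h5 i]
    · unfold eg sg
      rw [h3]
    · rw [map_mul, val_eg, mul_assoc, ← h1, hr, h4]

/-- The extension lemma: a property invariant under cutting and under `be` moves is invariant under
all idempotents. -/
theorem ext_lemma {J : Set (Fin n)} (T : IG (PM n) → Prop)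
    (hs : ∀ x, Om J x → ∀ i, rk (val x * ss i) = rk (val x) → (T x ↔ T (x * sg i)))
    (hb : ∀ x, Om J x → ∀ k l, k ≠ l → rk (val x * (tt k l * ss k)) = rk (val x) → (T x ↔ T (x * be k l)))
    (N : ℕ) : ∀ (f : Idem (PM n)) (_ : ((IsoP (f : PM n))ᶜ).ncard = N) (x : IG (PM n)) (_ : Om J x)
      (_ : rk (val x * (f : PM n)) = rk (val x)), (T x ↔ T (x * io f)) := by
  classical
  induction N using Nat.strong_induction_on with
  | _ N ih =>
  intro f hN x hx hr
  by_cases hA : ∃ i, i ∉ IsoP (f : PM n) ∧ ∃ j, j ≠ i ∧ tt i j * (f : PM n) = f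
  · obtain ⟨i, hi, j, hji, hf⟩ := hA
    have hij : i ≠ j := hji.symm
    have hbf : (tt i j * ss i) * (f : PM n) = f := by
      calc (tt i j * ss i) * (f : PM n) = (tt i j * ss i) * (tt i j * (f : PM n)) := by rw [hf]
        _ = (tt i j * ss i * tt i j) * (f : PM n) := by simp only [mul_assoc]
        _ = f := by rw [tst hij, hf]
    have hB1 : Basic (f : PM n) ((bi i j : Idem (PM n)) : PM n) := Or.inr (Or.inr (Or.inl hbf))
    have hf2s : (bmul f (bi i j) hB1 : PM n) * ss i = (bmul f (bi i j) hB1 : PM n) := by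
      show (f : PM n) * (tt i j * ss i) * ss i = (f : PM n) * (tt i j * ss i)
      simp only [mul_assoc, ss_idem]
    have hB2 : Basic ((si i : Idem (PM n)) : PM n) (bmul f (bi i j) hB1 : PM n) :=
      Or.inr (Or.inr (Or.inr hf2s))
    have e1 : io f * be i j = io (bmul f (bi i j) hB1) := io_bmul _ _ _
    have e2 : sg i * io (bmul f (bi i j) hB1) = io (bmul (si i) (bmul f (bi i j) hB1) hB2) := io_bmul _ _ _
    have e3 : be i j * io f = io f := io_mul_right hbf
    have e4 : x * be i j * io (bmul (si i) (bmul f (bi i j) hB1) hB2) = x * io f * be i j := by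
      rw [← e2, ← e1]
      calc x * be i j * (sg i * (io f * be i j)) = x * (be i j * sg i) * io f * be i j := by
            simp only [mul_assoc]
        _ = x * (be i j * io f) * be i j := by rw [be_sg]; simp only [mul_assoc]
        _ = _ := by rw [e3]
    have r1 : rk (val x * (tt i j * ss i)) = rk (val x) := by
      apply le_antisymm (rk_mul_le_left _ _)
      calc rk (val x) = rk (val x * (tt i j * ss i) * (f : PM n)) := by rw [mul_assoc, hbf, hr]
        _ ≤ _ := rk_mul_le_left _ _
    have r2 : rk (val (x * io f) * (tt i j * ss i)) = rk (val (x * io f)) := by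
      apply le_antisymm (rk_mul_le_left _ _)
      have h1 : val (x * io f) * (tt i j * ss i) * (f : PM n) = val (x * io f) := by
        rw [mul_assoc, hbf, map_mul, val_io, mul_assoc, f.mul_self]
      calc rk (val (x * io f)) = rk (val (x * io f) * (tt i j * ss i) * (f : PM n)) := by rw [h1]
        _ ≤ _ := rk_mul_le_left _ _
    have r3 : rk (val (x * be i j) * (bmul (si i) (bmul f (bi i j) hB1) hB2 : PM n)) = rk (val (x * be i j)) := by
      have h1 : val (x * be i j) * (bmul (si i) (bmul f (bi i j) hB1) hB2 : PM n) = val (x * io f) * (tt i j * ss i) := by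
        have := congrArg val e4
        rw [map_mul val (x * be i j), val_io, map_mul val (x * io f), val_be] at this
        exact this
      rw [h1, r2, map_mul, val_io, hr, map_mul, val_be, r1]
    have hcard : ((IsoP (bmul (si i) (bmul f (bi i j) hB1) hB2 : PM n))ᶜ).ncard < N := by
      rw [← hN]
      apply Set.ncard_lt_ncard _ (Set.toFinite _)
      have hval : (bmul (si i) (bmul f (bi i j) hB1) hB2 : PM n) = ss i * ((f : PM n) * (tt i j * ss i)) := rfl
      have hi3 : i ∈ IsoP (bmul (si i) (bmul f (bi i j) hB1) hB2 : PM n) := by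
        rw [hval]
        refine ⟨?_, ?_⟩
        · rw [← mul_assoc, ss_idem]
        · simp only [mul_assoc, ss_idem]
      rw [Set.ssubset_iff_of_subset]
      · exact ⟨i, hi, fun h => h hi3⟩
      · intro m hm hm2
        apply hm
        have hmi : m ≠ i := fun h => hi (h ▸ hm2)
        have hmj : m ≠ j := by
          rintro rfl
          have h3 : ((Pi.single m 1 : Vec n), (0 : Vec n)) ∈ (f : PM n).C := by
            rw [← hm2.1, mem_C_ss_mul]
            exact ⟨0, (f : PM n).C.zero_mem, fun k hk => by simp [hk]⟩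
          rw [← hf, mem_C_tt_mul] at h3
          have := h3.2
          rw [Pi.single_eq_same, Pi.single_eq_of_ne hij] at this
          exact one_ne_zero this.symm
        have hc : ss m * (tt i j * ss i) = (tt i j * ss i) * ss m := by
          rw [← mul_assoc, ss_tt_comm hmi hmj, mul_assoc, ss_comm m i, ← mul_assoc]
        rw [hval]
        refine ⟨?_, ?_⟩
        · calc ss m * (ss i * ((f : PM n) * (tt i j * ss i))) = ss i * (ss m * (f : PM n)) * (tt i j * ss i) := by
                rw [← mul_assoc, ss_comm m i]; simp only [mul_assoc]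
            _ = _ := by rw [hm2.1, mul_assoc]
        · calc ss i * ((f : PM n) * (tt i j * ss i)) * ss m = ss i * ((f : PM n) * ((tt i j * ss i) * ss m)) := by
                simp only [mul_assoc]
            _ = ss i * (((f : PM n) * ss m) * (tt i j * ss i)) := by rw [← hc]; simp only [mul_assoc]
            _ = _ := by rw [hm2.2]
    have hxb : Om J (x * be i j) := hx.mul_io r1
    have hxf : Om J (x * io f) := hx.mul_io hr
    rw [hb x hx i j hij r1, ih _ hcard _ rfl (x * be i j) hxb r3, e4, ← hb _ hxf i j hij r2]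
  · by_cases hB : ∃ i, i ∉ IsoP (f : PM n) ∧ ss i * (f : PM n) = f
    · obtain ⟨i, hi, hf⟩ := hB
      have hB1 : Basic (f : PM n) ((si i : Idem (PM n)) : PM n) := Or.inr (Or.inr (Or.inl hf))
      have e1 : io f * sg i = io (bmul f (si i) hB1) := io_bmul _ _ _
      have e2 : sg i * io (bmul f (si i) hB1) = io (bmul f (si i) hB1) := by
        apply io_mul_right
        show ss i * ((f : PM n) * ss i) = (f : PM n) * ss i
        rw [← mul_assoc, hf]
      have r1 : rk (val x * ss i) = rk (val x) := by
        apply le_antisymm (rk_mul_le_left _ _)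
        calc rk (val x) = rk (val x * ss i * (f : PM n)) := by rw [mul_assoc, hf, hr]
          _ ≤ _ := rk_mul_le_left _ _
      have r2 : rk (val (x * io f) * ss i) = rk (val (x * io f)) := by
        apply le_antisymm (rk_mul_le_left _ _)
        have h1 : val (x * io f) * ss i * (f : PM n) = val (x * io f) := by
          rw [mul_assoc, hf, map_mul, val_io, mul_assoc, f.mul_self]
        calc rk (val (x * io f)) = rk (val (x * io f) * ss i * (f : PM n)) := by rw [h1]
          _ ≤ _ := rk_mul_le_left _ _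
      have e4 : x * sg i * io (bmul f (si i) hB1) = x * io f * sg i := by
        rw [mul_assoc, e2, ← e1, mul_assoc]
      have r3 : rk (val (x * sg i) * (bmul f (si i) hB1 : PM n)) = rk (val (x * sg i)) := by
        have h1 : val (x * sg i) * (bmul f (si i) hB1 : PM n) = val (x * io f) * ss i := by
          have := congrArg val e4
          rw [map_mul val (x * sg i), val_io, map_mul val (x * io f), val_sg] at this
          exact this
        rw [h1, r2, map_mul, val_io, hr, map_mul, val_sg, r1]
      have hcard : ((IsoP (bmul f (si i) hB1 : PM n))ᶜ).ncard < N := by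
        rw [← hN]
        apply Set.ncard_lt_ncard _ (Set.toFinite _)
        have hval : (bmul f (si i) hB1 : PM n) = (f : PM n) * ss i := rfl
        have hi3 : i ∈ IsoP (bmul f (si i) hB1 : PM n) := by
          rw [hval]
          refine ⟨?_, ?_⟩
          · rw [← mul_assoc, hf]
          · rw [mul_assoc, ss_idem]
        rw [Set.ssubset_iff_of_subset]
        · exact ⟨i, hi, fun h => h hi3⟩
        · intro m hm hm2
          apply hm
          rw [hval]
          refine ⟨?_, ?_⟩
          · rw [← mul_assoc, hm2.1]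
          · rw [mul_assoc, ss_comm, ← mul_assoc, hm2.2]
      have hxs : Om J (x * sg i) := hx.mul_io r1
      have hxf : Om J (x * io f) := hx.mul_io hr
      rw [hs x hx i r1, ih _ hcard _ rfl (x * sg i) hxs r3, e4, ← hs _ hxf i r2]
    · push Not at hA hB
      have h1 : (f : PM n) = Es (IsoP (f : PM n))ᶜ := eq_Es_of_base f.2 hB hA
      have h2 : f = ei (IsoP (f : PM n))ᶜ := Subtype.ext h1
      have hF : (((IsoP (f : PM n)).toFinite.toFinset : Finset (Fin n)) : Set (Fin n)) = IsoP (f : PM n) := by simp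
      have h3 := T_eg T hs (IsoP (f : PM n)).toFinite.toFinset x hx (by
        rw [hF, ← h1, hr])
      rw [hF] at h3
      have h4 : io f = eg (IsoP (f : PM n))ᶜ := by
        unfold eg; exact congrArg io h2
      rw [h4]; exact h3

end Pool.Agent.H213
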