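import Pool.Agent.helper213_IG.F3
import Pool.Agent.helper213_IG.Chain

/-!
# Equivalence of pairs under moves
-/

namespace Pool.Agent.H213

open RkMonoid PM Relation Module

variable {n : ℕ}

/-- the maximal idempotents different from `1` -/
def PP (p : PM n) : Prop := (∃ i, p = ss i) ∨ ∃ i j, i ≠ j ∧ p = tt i j

theorem star_mul (x y : PM n) : (x * y).star = y.star * x.star := by
  apply ext_C
  intro f g
  rw [mem_C_star, mem_C_mul, mem_C_mul]
  constructor
  · rintro ⟨h, h1, h2⟩; exact ⟨h, mem_C_star.2 h2, mem_C_star.2 h1⟩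
  · rintro ⟨h, h1, h2⟩; exact ⟨h, mem_C_star.1 h2, mem_C_star.1 h1⟩

theorem star_star (x : PM n) : x.star.star = x := by
  apply ext_C
  intro f g
  rw [mem_C_star, mem_C_star]

theorem star_ss (i : Fin n) : (ss i).star = ss i := by
  apply ext_C
  intro f g
  rw [mem_C_star, mem_C_ss, mem_C_ss]
  exact ⟨fun h k hk => (h k hk).symm, fun h k hk => (h k hk).symm⟩

theorem star_tt (i j : Fin n) : (tt i j).star = tt i j := by
  apply ext_C
  intro f g
  rw [mem_C_star, mem_C_tt, mem_C_tt]
  constructor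
  · rintro ⟨h, h1⟩; exact ⟨h.symm, h ▸ h1⟩
  · rintro ⟨h, h1⟩; exact ⟨h.symm, h ▸ h1⟩

theorem PP.star_eq {p : PM n} (hp : PP p) : p.star = p := by
  rcases hp with ⟨i, rfl⟩ | ⟨i, j, _, rfl⟩
  · exact star_ss i
  · exact star_tt i j

theorem star_one : (1 : PM n).star = 1 := by
  apply ext_C
  intro f g
  rw [mem_C_star, mem_C_one, mem_C_one]
  exact ⟨Eq.symm, Eq.symm⟩

theorem PP.idem {p : PM n} (hp : PP p) : p * p = p := by
  rcases hp with ⟨i, rfl⟩ | ⟨i, j, _, rfl⟩
  · exact ss_idem i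
  · exact tt_idem i j

theorem exists_p_left {e : PM n} (he : e * e = e) (hne : e ≠ 1) : ∃ p, PP p ∧ p * e = e := by
  by_contra hcon
  push Not at hcon
  have h1 : IsoP e = ∅ := by
    ext i
    simp only [Set.mem_empty_iff_false, iff_false]
    intro hi
    exact hcon (ss i) (Or.inl ⟨i, rfl⟩) hi.1
  have h2 := eq_Es_of_base he (fun i _ => hcon (ss i) (Or.inl ⟨i, rfl⟩))
    (fun i _ j hji => hcon (tt i j) (Or.inr ⟨i, j, hji.symm, rfl⟩))
  rw [h1, Set.compl_empty, Es_univ] at h2
  exact hne h2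

theorem exists_p_right {e : PM n} (he : e * e = e) (hne : e ≠ 1) : ∃ p, PP p ∧ e * p = e := by
  have h1 : e.star * e.star = e.star := by rw [← star_mul, he]
  have h2 : e.star ≠ 1 := by
    intro h
    apply hne
    rw [← star_star e, h, star_one]
  obtain ⟨p, hp, h3⟩ := exists_p_left h1 h2
  refine ⟨p, hp, ?_⟩
  have h4 := congrArg star h3
  rwa [star_mul, star_star, hp.star_eq] at h4

theorem rank_le (x : PM n) : rk x ≤ n := by
  show x.rank ≤ n
  unfold rank
  have := Submodule.finrank_le x.dom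
  rw [Module.finrank_fin_fun] at this
  omega

theorem PP.rk_lt {p : PM n} (hp : PP p) : rk p + 1 ≤ n := by
  rcases hp with ⟨i, rfl⟩ | ⟨i, j, hij, rfl⟩
  · have h1 : 0 < finrank (ZMod 2) (ss i).ker := by
      have hm : (Pi.single i 1 : Vec n) ∈ (ss i).ker := by
        rw [mem_ker_ss]
        intro k hk
        simp [hk]
      have hne : (⟨_, hm⟩ : (ss i).ker) ≠ 0 := by
        intro h
        have h' := congrArg Subtype.val h
        have := congrFun h' i
        simp at this
      have : Nontrivial (ss i).ker := ⟨⟨_, _, hne⟩⟩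
      exact Module.finrank_pos
    have h2 := Submodule.finrank_le (ss i).dom
    rw [Module.finrank_fin_fun] at h2
    have h3 : 0 < n := i.pos
    show (ss i).rank + 1 ≤ n
    unfold rank
    omega
  · have h1 : (tt i j).dom ≠ ⊤ := by
      intro h
      have hm : (Pi.single i 1 : Vec n) ∈ (tt i j).dom := by rw [h]; trivial
      obtain ⟨g, hg⟩ := mem_dom.1 hm
      have := (mem_C_tt.1 hg).2
      simp [hij.symm] at this
    have h2 := Submodule.finrank_lt h1
    rw [Module.finrank_fin_fun] at h2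
    show (tt i j).rank + 1 ≤ n
    unfold rank
    omega

theorem eq_one_of_rk {e : PM n} (he : e * e = e) (hr : n ≤ rk e) : e = 1 := by
  by_contra hne
  obtain ⟨p, hp, h1⟩ := exists_p_left he hne
  have h2 : rk e ≤ rk p := by rw [← h1]; exact rk_mul_le_left _ _
  have := hp.rk_lt
  omega

/-- `p` as an idempotent -/
def PP.i {p : PM n} (hp : PP p) : Idem (PM n) := ⟨p, hp.idem⟩

theorem PP.coe_i {p : PM n} (hp : PP p) : ((hp.i : Idem (PM n)) : PM n) = p := rfl

/-- a pair at which some nontrivial move is possible -/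
def Nrg (s t : PM n) : Prop :=
  ∃ p, PP p ∧ ((s * p = s ∧ rk (p * t) = rk t) ∨ (p * t = t ∧ rk (s * p) = rk s))

/-- one move in the monoid -/
def Step0 (a b : PM n × PM n) : Prop :=
  ∃ (s t : PM n) (e : Idem (PM n)), rk (s * (e : PM n)) = rk s ∧ rk ((e : PM n) * t) = rk t ∧
    a = (s * (e : PM n), t) ∧ b = (s, (e : PM n) * t)

/-- moves in the monoid -/
def E0 (a b : PM n × PM n) : Prop := EqvGen Step0 a b

theorem PEqv.e0 {p q : IG (PM n) × IG (PM n)} (h : PEqv p q) : E0 (val p.1, val p.2) (val q.1, val q.2) := by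
  induction h with
  | rel p q h =>
    obtain ⟨x, y, e, h1, h2, h3, h4, rfl, rfl⟩ := h
    apply EqvGen.rel
    exact ⟨val x, val y, e, h3, h4, by simp, by simp⟩
  | refl x => exact EqvGen.refl _
  | symm x y _ ih => exact EqvGen.symm _ _ ih
  | trans x y z _ _ ih1 ih2 => exact EqvGen.trans _ _ _ ih1 ih2

theorem one_idem' : ((1 : PM n) * 1) = 1 := mul_one 1

theorem PStep.rigid {p q : IG (PM n) × IG (PM n)} (h : PStep p q) :
    p = q ∨ (Nrg (val p.1) (val p.2) ∧ Nrg (val q.1) (val q.2)) := by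
  obtain ⟨x, y, e, h1, h2, h3, h4, rfl, rfl⟩ := h
  by_cases he : (e : PM n) = 1
  · left
    have h5 : x * io e = x := h1.g2 (by rw [he, mul_one])
    have h6 : io e * y = y := h2.g2' (by rw [he, one_mul])
    rw [h5, h6]
  · right
    constructor
    · obtain ⟨p, hp, hep⟩ := exists_p_right e.2 he
      refine ⟨p, hp, Or.inl ⟨?_, ?_⟩⟩
      · simp only [map_mul, val_io]
        rw [mul_assoc, hep]
      · apply le_antisymm (rk_mul_le_right _ _)
        show rk (val y) ≤ _
        rw [← h4]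
        conv_lhs => rw [← hep]
        rw [mul_assoc]
        exact rk_mul_le_right _ _
    · obtain ⟨p, hp, hep⟩ := exists_p_left e.2 he
      refine ⟨p, hp, Or.inr ⟨?_, ?_⟩⟩
      · simp only [map_mul, val_io]
        rw [← mul_assoc, hep]
      · apply le_antisymm (rk_mul_le_left _ _)
        show rk (val x) ≤ _
        rw [← h3]
        conv_lhs => rw [← hep]
        rw [← mul_assoc]
        exact rk_mul_le_left _ _

theorem PEqv.rigid {p q : IG (PM n) × IG (PM n)} (h : PEqv p q) :
    p = q ∨ (Nrg (val p.1) (val p.2) ∧ Nrg (val q.1) (val q.2)) := by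
  induction h with
  | rel p q h => exact h.rigid
  | refl x => exact Or.inl rfl
  | symm x y _ ih =>
    rcases ih with h | ⟨h1, h2⟩
    · exact Or.inl h.symm
    · exact Or.inr ⟨h2, h1⟩
  | trans x y z _ _ ih1 ih2 =>
    rcases ih1 with h | ⟨h1, h2⟩
    · rw [h]; exact ih2
    · rcases ih2 with h | ⟨h3, h4⟩
      · rw [← h]; exact Or.inr ⟨h1, h2⟩
      · exact Or.inr ⟨h1, h4⟩

theorem mul_star_mul (s : PM n) : s * (s.star * s) = s := by
  apply ext_C; intro f g
  rw [mem_C_mul]
  constructor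
  · rintro ⟨h, h1, h2⟩
    obtain ⟨h', h5, h6⟩ := mem_C_mul.1 h2
    rw [mem_C_star] at h5
    have := s.C.sub_mem (s.C.add_mem h1 h6) h5
    simpa using this
  · intro h1
    exact ⟨g, h1, mem_C_mul.2 ⟨f, mem_C_star.2 h1, h1⟩⟩

theorem star_mul_idem (s : PM n) : s.star * s * (s.star * s) = s.star * s := by
  rw [mul_assoc, mul_star_mul]

theorem rk_star_mul (s : PM n) : rk (s.star * s) = rk s := by
  apply le_antisymm (rk_mul_le_right _ _)
  calc rk s = rk (s * (s.star * s)) := by rw [mul_star_mul]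
    _ ≤ _ := rk_mul_le_right _ _

theorem mul_star_idem (s : PM n) : s * s.star * (s * s.star) = s * s.star := by
  rw [← mul_assoc, mul_assoc s, mul_star_mul]

theorem rk_mul_star (s : PM n) : rk (s * s.star) = rk s := by
  apply le_antisymm (rk_mul_le_left _ _)
  calc rk s = rk (s * s.star * s) := by rw [mul_assoc, mul_star_mul]
    _ ≤ _ := rk_mul_le_left _ _

theorem lift_left {s : PM n} {e : Idem (PM n)} (h : rk (s * (e : PM n)) = rk s) {x : IG (PM n)}
    (hx : Reg x) (hv : val x = s * (e : PM n)) : ∃ x1, Reg x1 ∧ val x1 = s ∧ x1 * io e = x := by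
  obtain ⟨k, u, hk1, hk2, hk3⟩ := Pool.Agent.H213.exists_k (mul_star_mul s) (rk_star_mul s) h
  have hek : (e : PM n) * (k : PM n) = k := by rw [hk1, ← mul_assoc, ← mul_assoc, e.mul_self]
  have hv1 : val (x * io k) = s := by rw [map_mul, val_io, hv, mul_assoc, hek, hk2]
  refine ⟨x * io k, ?_, hv1, ?_⟩
  · apply hx.mul_io
    have := congrArg rk hv1
    rw [map_mul, val_io] at this
    rw [this, hv, h]
  · have hb : Basic (k : PM n) (e : PM n) := Or.inr (Or.inr (Or.inl hek))
    rw [mul_assoc, io_bmul k e hb]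
    apply hx.g2
    show val x * ((k : PM n) * (e : PM n)) = val x
    rw [hv, ← mul_assoc, mul_assoc s, hek, hk2]

theorem lift_right {t : PM n} {e : Idem (PM n)} (h : rk ((e : PM n) * t) = rk t) {y : IG (PM n)}
    (hy : Reg y) (hv : val y = (e : PM n) * t) : ∃ y1, Reg y1 ∧ val y1 = t ∧ io e * y1 = y := by
  have h1 : t * t.star * t = t := by rw [mul_assoc, mul_star_mul]
  obtain ⟨k, u, hk1, hk2, hk3⟩ := Pool.Agent.H213.exists_k' h1 (rk_mul_star t) h
  have hke : (k : PM n) * (e : PM n) = k := by rw [hk1, mul_assoc, e.mul_self]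
  have hv1 : val (io k * y) = t := by rw [map_mul, val_io, hv, ← mul_assoc, hke, hk2]
  refine ⟨io k * y, ?_, hv1, ?_⟩
  · apply hy.io_mul
    have := congrArg rk hv1
    rw [map_mul, val_io] at this
    rw [this, hv, h]
  · have hb : Basic (e : PM n) (k : PM n) := Or.inr (Or.inr (Or.inr hke))
    rw [← mul_assoc, io_bmul e k hb]
    apply hy.g2'
    show (e : PM n) * (k : PM n) * val y = val y
    rw [hv, ← mul_assoc, mul_assoc (e : PM n), hke, mul_assoc, hk2]

/-- lifting moves of the monoid -/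
theorem E0.lift {a b : PM n × PM n} (h : E0 a b) :
    (∀ x y : IG (PM n), Reg x → Reg y → val x = a.1 → val y = a.2 →
      ∃ x' y', Reg x' ∧ Reg y' ∧ val x' = b.1 ∧ val y' = b.2 ∧ PEqv (x, y) (x', y')) ∧
    (∀ x y : IG (PM n), Reg x → Reg y → val x = b.1 → val y = b.2 →
      ∃ x' y', Reg x' ∧ Reg y' ∧ val x' = a.1 ∧ val y' = a.2 ∧ PEqv (x, y) (x', y')) := by
  induction h with
  | rel a b h =>
    obtain ⟨s, t, e, h3, h4, rfl, rfl⟩ := h
    constructor
    · intro x y hx hy hvx hvy
      simp only at hvx hvy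
      obtain ⟨x1, h5, h6, h7⟩ := lift_left h3 hx hvx
      refine ⟨x1, io e * y, h5, hy.io_mul (by rw [hvy, h4]), h6, by simp [hvy], ?_⟩
      apply EqvGen.rel
      exact ⟨x1, y, e, h5, hy, by rw [h6, h3], by rw [hvy, h4], by rw [h7], rfl⟩
    · intro x y hx hy hvx hvy
      simp only at hvx hvy
      obtain ⟨y1, h5, h6, h7⟩ := lift_right h4 hy hvy
      refine ⟨x * io e, y1, hx.mul_io (by rw [hvx, h3]), h5, by simp [hvx], h6, ?_⟩
      apply EqvGen.symm
      apply EqvGen.rel
      exact ⟨x, y1, e, hx, h5, by rw [hvx, h3], by rw [h6, h4], rfl, by rw [h7]⟩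
  | refl x => exact ⟨fun x y hx hy h1 h2 => ⟨x, y, hx, hy, h1, h2, EqvGen.refl _⟩,
      fun x y hx hy h1 h2 => ⟨x, y, hx, hy, h1, h2, EqvGen.refl _⟩⟩
  | symm x y _ ih => exact ⟨ih.2, ih.1⟩
  | trans a b c _ _ ih1 ih2 =>
    constructor
    · intro x y hx hy h1 h2
      obtain ⟨x', y', h3, h4, h5, h6, h7⟩ := ih1.1 x y hx hy h1 h2
      obtain ⟨x'', y'', h8, h9, h10, h11, h12⟩ := ih2.1 x' y' h3 h4 h5 h6
      exact ⟨x'', y'', h8, h9, h10, h11, EqvGen.trans _ _ _ h7 h12⟩
    · intro x y hx hy h1 h2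
      obtain ⟨x', y', h3, h4, h5, h6, h7⟩ := ih2.2 x y hx hy h1 h2
      obtain ⟨x'', y'', h8, h9, h10, h11, h12⟩ := ih1.2 x' y' h3 h4 h5 h6
      exact ⟨x'', y'', h8, h9, h10, h11, EqvGen.trans _ _ _ h7 h12⟩


/-! ### transfer of weight -/

theorem pe_right {x y : IG (PM n)} (hx : Reg x) (hy : Reg y) {e : Idem (PM n)} (h1 : x * io e = x)
    (h2 : rk ((e : PM n) * val y) = rk (val y)) : PEqv (x, y) (x, io e * y) := by
  apply EqvGen.rel
  refine ⟨x, y, e, hx, hy, ?_, h2, by rw [h1], rfl⟩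
  have := congrArg val h1
  rw [map_mul, val_io] at this
  rw [this]

theorem pe_left {x y : IG (PM n)} (hx : Reg x) (hy : Reg y) {e : Idem (PM n)} (h1 : io e * y = y)
    (h2 : rk (val x * (e : PM n)) = rk (val x)) : PEqv (x, y) (x * io e, y) := by
  apply EqvGen.symm
  apply EqvGen.rel
  refine ⟨x, y, e, hx, hy, h2, ?_, rfl, by rw [h1]⟩
  have := congrArg val h1
  rw [map_mul, val_io] at this
  rw [this]

theorem tw_b (a : PM n) {i j : Fin n} (hij : i ≠ j) : tw a (tt i j * ss i) = 0 := by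
  apply tw_eq_zero
  intro f _ h
  have h1 := mem_C_b.1 (mem_ker.1 h)
  ext k
  by_cases hk : k = i
  · rw [hk, h1.2, h1.1 j hij.symm]; rfl
  · rw [h1.1 k hk]

theorem tw_a_a {i j : Fin n} (hij : i ≠ j) (y : PM n) : tw (ss i * tt i j) y = 0 := by
  apply tw_eq_zero
  intro f h _
  have h1 := mem_C_a.1 (mem_cok.1 h)
  ext k
  by_cases hk : k = i
  · rw [hk, h1.2, ← h1.1 j hij.symm]; rfl
  · rw [← h1.1 k hk]

theorem tw_iso_a {a : PM n} {i j : Fin n} (h : a * ss i = a) : tw a (ss i * tt i j) = 1 := by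
  unfold tw
  have h1 : (a.cok ⊓ (ss i * tt i j).ker : Submodule (ZMod 2) (Vec n)) =
      Submodule.span (ZMod 2) {(Pi.single i 1 : Vec n)} := by
    ext f
    rw [Submodule.mem_inf, mem_ker, mem_cok, mem_C_a, Submodule.mem_span_singleton]
    constructor
    · rintro ⟨-, h, -⟩
      refine ⟨f i, ?_⟩
      ext k
      by_cases hk : k = i
      · rw [hk]; simp
      · rw [h k hk]; simp [hk]
    · rintro ⟨c, rfl⟩
      refine ⟨?_, fun k hk => by simp [hk], rfl⟩
      rw [← h, mem_C_mul_ss]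
      exact ⟨0, a.C.zero_mem, fun k hk => by simp [hk]⟩
  rw [h1, finrank_span_singleton]
  intro h
  have := congrFun h i
  simp at this

theorem W_be (x : IG (PM n)) {i j : Fin n} (hij : i ≠ j) : W (x * be i j) = W x := by
  unfold be
  rw [W_mul_io, coe_bi]
  unfold cst
  rw [tw_b _ hij, tw_b _ hij]; simp

theorem W_al {x : IG (PM n)} {i j : Fin n} (hij : i ≠ j) (h : val x * ss i = val x) :
    W (x * al i j) = 2 * W x := by
  unfold al
  rw [W_mul_io, coe_ai]
  unfold cst
  rw [tw_iso_a h, tw_a_a hij]; simp [mul_comm]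

/-- one transfer of weight -/
theorem up {p : PM n} (hp : PP p) {X Y : IG (PM n)} (hX : Reg X) (hY : Reg Y) (h1 : val X * p = val X)
    (h2 : p * val Y = val Y) (hn : 2 ≤ n) : ∃ X' Y', Reg X' ∧ Reg Y' ∧ val X' = val X ∧ val Y' = val Y ∧
      W X' = 2 * W X ∧ PEqv (X, Y) (X', Y') := by
  rcases hp with ⟨i, rfl⟩ | ⟨i, j, hij, rfl⟩
  · -- isolated point
    obtain ⟨j, hij⟩ : ∃ j : Fin n, i ≠ j := by
      have : Nontrivial (Fin n) := Fin.nontrivial_iff_two_le.2 hn
      obtain ⟨j, hj⟩ := exists_ne i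
      exact ⟨j, hj.symm⟩
    have hYs : sg i * Y = Y := hY.g2' h2
    have hYa : al i j * Y = Y := by
      calc al i j * Y = al i j * (sg i * Y) := by rw [hYs]
        _ = Y := by rw [← mul_assoc, al_sg hij, hYs]
    have v1 : val X * (ss i * tt i j) * (tt i j * ss i) = val X := by
      calc val X * (ss i * tt i j) * (tt i j * ss i) = val X * (ss i * (tt i j * tt i j) * ss i) := by
            simp only [mul_assoc]
        _ = val X := by rw [tt_idem, sts hij, h1]
    have r1 : rk (val X * (ss i * tt i j)) = rk (val X) := by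
      apply le_antisymm (rk_mul_le_left _ _)
      conv_lhs => rw [← v1]
      exact rk_mul_le_left _ _
    have g1 : Reg (X * al i j) := hX.mul_io r1
    have s1 : PEqv (X, Y) (X * al i j, Y) := pe_left hX hY hYa r1
    have r2 : rk (tt i j * val Y) = rk (val Y) := by
      apply le_antisymm (rk_mul_le_right _ _)
      calc rk (val Y) = rk (ss i * (tt i j * val Y)) := by
            congr 1
            calc val Y = ss i * tt i j * ss i * val Y := by rw [sts hij, h2]
              _ = ss i * (tt i j * (ss i * val Y)) := by simp only [mul_assoc]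
              _ = _ := by rw [h2]
        _ ≤ _ := rk_mul_le_right _ _
    have s2 : PEqv (X * al i j, Y) (X * al i j, ta i j * Y) :=
      pe_right g1 hY (by rw [mul_assoc]; exact congrArg _ (al_ta i j)) r2
    have g2 : Reg (ta i j * Y) := hY.io_mul r2
    have r3 : rk (val (X * al i j) * (tt i j * ss i)) = rk (val (X * al i j)) := by
      rw [map_mul, val_al, v1, r1]
    have s3 : PEqv (X * al i j, ta i j * Y) (X * al i j * be i j, ta i j * Y) :=
      pe_left g1 g2 (by rw [← mul_assoc]; exact congrArg (· * Y) (be_ta hij)) r3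
    have g3 : Reg (X * al i j * be i j) := g1.mul_io r3
    have v4 : ss i * val (ta i j * Y) = val Y := by
      rw [map_mul, val_ta]
      calc ss i * (tt i j * val Y) = ss i * (tt i j * (ss i * val Y)) := by rw [h2]
        _ = ss i * tt i j * ss i * val Y := by simp only [mul_assoc]
        _ = val Y := by rw [sts hij, h2]
    have r4 : rk (ss i * val (ta i j * Y)) = rk (val (ta i j * Y)) := by
      rw [v4, map_mul, val_ta, r2]
    have s4 : PEqv (X * al i j * be i j, ta i j * Y) (X * al i j * be i j, sg i * (ta i j * Y)) :=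
      pe_right g3 g2 (by rw [mul_assoc]; exact congrArg _ (be_sg i j)) r4
    refine ⟨X * al i j * be i j, sg i * (ta i j * Y), g3, g2.io_mul r4, ?_, ?_, ?_,
      EqvGen.trans _ _ _ s1 (EqvGen.trans _ _ _ s2 (EqvGen.trans _ _ _ s3 s4))⟩
    · rw [map_mul, map_mul, val_al, val_be, v1]
    · rw [map_mul, val_sg, v4]
    · rw [W_be _ hij, W_al hij h1]
  · -- related points
    have hYt : ta i j * Y = Y := hY.g2' h2
    have hYb : be i j * Y = Y := by
      calc be i j * Y = be i j * (ta i j * Y) := by rw [hYt]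
        _ = Y := by rw [← mul_assoc, be_ta hij, hYt]
    have v1 : val X * (tt i j * ss i) * (ss i * tt i j) = val X := by
      calc val X * (tt i j * ss i) * (ss i * tt i j) = val X * (tt i j * (ss i * ss i) * tt i j) := by
            simp only [mul_assoc]
        _ = val X := by rw [ss_idem, tst hij, h1]
    have r1 : rk (val X * (tt i j * ss i)) = rk (val X) := by
      apply le_antisymm (rk_mul_le_left _ _)
      conv_lhs => rw [← v1]
      exact rk_mul_le_left _ _
    have g1 : Reg (X * be i j) := hX.mul_io r1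
    have s1 : PEqv (X, Y) (X * be i j, Y) := pe_left hX hY hYb r1
    have r2 : rk (ss i * val Y) = rk (val Y) := by
      apply le_antisymm (rk_mul_le_right _ _)
      calc rk (val Y) = rk (tt i j * (ss i * val Y)) := by
            congr 1
            calc val Y = tt i j * ss i * tt i j * val Y := by rw [tst hij, h2]
              _ = tt i j * (ss i * (tt i j * val Y)) := by simp only [mul_assoc]
              _ = _ := by rw [h2]
        _ ≤ _ := rk_mul_le_right _ _
    have s2 : PEqv (X * be i j, Y) (X * be i j, sg i * Y) :=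
      pe_right g1 hY (by rw [mul_assoc]; exact congrArg _ (be_sg i j)) r2
    have g2 : Reg (sg i * Y) := hY.io_mul r2
    have r3 : rk (val (X * be i j) * (ss i * tt i j)) = rk (val (X * be i j)) := by
      rw [map_mul, val_be, v1, r1]
    have s3 : PEqv (X * be i j, sg i * Y) (X * be i j * al i j, sg i * Y) :=
      pe_left g1 g2 (by rw [← mul_assoc]; exact congrArg (· * Y) (al_sg hij)) r3
    have g3 : Reg (X * be i j * al i j) := g1.mul_io r3
    have v4 : tt i j * val (sg i * Y) = val Y := by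
      rw [map_mul, val_sg]
      calc tt i j * (ss i * val Y) = tt i j * (ss i * (tt i j * val Y)) := by rw [h2]
        _ = tt i j * ss i * tt i j * val Y := by simp only [mul_assoc]
        _ = val Y := by rw [tst hij, h2]
    have r4 : rk (tt i j * val (sg i * Y)) = rk (val (sg i * Y)) := by
      rw [v4, map_mul, val_sg, r2]
    have s4 : PEqv (X * be i j * al i j, sg i * Y) (X * be i j * al i j, ta i j * (sg i * Y)) :=
      pe_right g3 g2 (by rw [mul_assoc]; exact congrArg _ (al_ta i j)) r4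
    refine ⟨X * be i j * al i j, ta i j * (sg i * Y), g3, g2.io_mul r4, ?_, ?_, ?_,
      EqvGen.trans _ _ _ s1 (EqvGen.trans _ _ _ s2 (EqvGen.trans _ _ _ s3 s4))⟩
    · rw [map_mul, map_mul, val_al, val_be, v1]
    · rw [map_mul, val_ta, v4]
    · rw [W_al hij, W_be _ hij]
      rw [map_mul, val_be, mul_assoc, mul_assoc, ss_idem]


theorem up_iter {p : PM n} (hp : PP p) {X Y : IG (PM n)} (hX : Reg X) (hY : Reg Y) (h1 : val X * p = val X)
    (h2 : p * val Y = val Y) (hn : 2 ≤ n) (m : ℕ) : ∃ X' Y', Reg X' ∧ Reg Y' ∧ val X' = val X ∧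
      val Y' = val Y ∧ W X' = 2 ^ m * W X ∧ PEqv (X, Y) (X', Y') := by
  induction m with
  | zero => exact ⟨X, Y, hX, hY, rfl, rfl, by simp, EqvGen.refl _⟩
  | succ m ih =>
    obtain ⟨X1, Y1, a1, a2, a3, a4, a5, a6⟩ := ih
    obtain ⟨X2, Y2, b1, b2, b3, b4, b5, b6⟩ := up hp a1 a2 (by rw [a3, h1]) (by rw [a4, h2]) hn
    exact ⟨X2, Y2, b1, b2, by rw [b3, a3], by rw [b4, a4], by rw [b5, a5, pow_succ]; ring,
      EqvGen.trans _ _ _ a6 b6⟩

theorem F4_aux {p : PM n} (hp : PP p) {X Y X' Y' : IG (PM n)} (hX : Reg X) (hY : Reg Y) (hX' : Reg X')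
    (hY' : Reg Y') (rX : rk (val X) + 2 ≤ n) (rY : rk (val Y) + 2 ≤ n) (h1 : val X * p = val X)
    (h2 : p * val Y = val Y) (vX : val X' = val X) (vY : val Y' = val Y) (hW : W X * W Y = W X' * W Y')
    (m : ℕ) (hm : W X' = 2 ^ m * W X) : PEqv (X, Y) (X', Y') := by
  obtain ⟨X1, Y1, a1, a2, a3, a4, a5, a6⟩ := up_iter hp hX hY h1 h2 (by omega) m
  have e1 : X1 = X' := F3 a1 hX' (by rw [a3]; exact rX) (by rw [a3, vX]) (by rw [a5, hm])
  have e2 : W Y1 = W Y' := by
    have h3 := congrArg W a6.mul_eq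
    simp only at h3
    rw [W_mul, W_mul, a3, a4] at h3
    have h4 := (cst_pos (val X) (val Y)).ne'
    have h5 : W X * W Y = W X1 * W Y1 := mul_right_cancel₀ h4 h3
    rw [hW, e1] at h5
    exact (mul_left_cancel₀ (W_pos X').ne' h5).symm
  have e3 : Y1 = Y' := F3 a2 hY' (by rw [a4]; exact rY) (by rw [a4, vY]) e2
  rw [e1, e3] at a6
  exact a6

theorem W_ratio (x y : IG (PM n)) : ∃ m : ℕ, W y = 2 ^ m * W x ∨ W x = 2 ^ m * W y := by
  obtain ⟨a, b, h1⟩ := W_pow x
  obtain ⟨c, d, h2⟩ := W_pow y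
  -- W x = 2^b / 2^a, W y = 2^d / 2^c
  have e1 : W x = 2 ^ b / 2 ^ a := by rw [← h1]; field_simp
  have e2 : W y = 2 ^ d / 2 ^ c := by rw [← h2]; field_simp
  rcases le_total (b + c) (a + d) with h | h
  · refine ⟨a + d - (b + c), Or.inl ?_⟩
    rw [e1, e2, pow_sub₀ _ (by norm_num) h, pow_add, pow_add]
    field_simp
  · refine ⟨b + c - (a + d), Or.inr ?_⟩
    rw [e1, e2, pow_sub₀ _ (by norm_num) h, pow_add, pow_add]
    field_simp

/-- Weight can be moved freely across a nonrigid interface. -/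
theorem F4 {p : PM n} (hp : PP p) {X Y X' Y' : IG (PM n)} (hX : Reg X) (hY : Reg Y) (hX' : Reg X')
    (hY' : Reg Y') (rX : rk (val X) + 2 ≤ n) (rY : rk (val Y) + 2 ≤ n) (h1 : val X * p = val X)
    (h2 : p * val Y = val Y) (vX : val X' = val X) (vY : val Y' = val Y) (hW : W X * W Y = W X' * W Y') :
    PEqv (X, Y) (X', Y') := by
  obtain ⟨m, hm | hm⟩ := W_ratio X X'
  · exact F4_aux hp hX hY hX' hY' rX rY h1 h2 vX vY hW m hm
  · apply EqvGen.symm
    exact F4_aux hp hX' hY' hX hY (by rw [vX]; exact rX) (by rw [vY]; exact rY) (by rw [vX, h1])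
      (by rw [vY, h2]) vX.symm vY.symm hW.symm m hm

theorem rk_lt_left {a b p : PM n} (h : NR a b) (h1 : a * p = a) (h2 : p * b = b) : rk a < rk p := by
  by_contra hcon
  have h3 : rk a ≤ rk p := by conv_lhs => rw [← h1]
                              exact rk_mul_le_right _ _
  obtain ⟨w, hw⟩ := ex_left a p (by rw [h1]; omega)
  rw [h1] at hw
  have h4 : rk b ≤ rk (a * b) := by
    calc rk b = rk (w * (a * b)) := by rw [← mul_assoc, hw, h2]
      _ ≤ _ := rk_mul_le_right _ _
  exact absurd h.2 (by omega)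

theorem rk_lt_right {a b p : PM n} (h : NR a b) (h1 : a * p = a) (h2 : p * b = b) : rk b < rk p := by
  by_contra hcon
  have h3 : rk b ≤ rk p := by conv_lhs => rw [← h2]
                              exact rk_mul_le_left _ _
  obtain ⟨w, hw⟩ := ex_right p b (by rw [h2]; omega)
  rw [h2] at hw
  have h4 : rk a ≤ rk (a * b) := by
    calc rk a = rk (a * b * w) := by rw [mul_assoc, hw, h1]
      _ ≤ _ := rk_mul_le_left _ _
  exact absurd h.1 (by omega)

/-- Characterization of the equivalence of pairs. -/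
theorem pair_iff {x y x' y' : IG (PM n)} (hx : Reg x) (hy : Reg y) (hx' : Reg x') (hy' : Reg y')
    (hNR : NR (val x) (val y)) :
    PEqv (x, y) (x', y') ↔ (x = x' ∧ y = y') ∨
      (Nrg (val x) (val y) ∧ E0 (val x, val y) (val x', val y') ∧ W (x * y) = W (x' * y')) := by
  constructor
  · intro h
    rcases h.rigid with h1 | ⟨h1, h2⟩
    · left
      exact ⟨congrArg Prod.fst h1, congrArg Prod.snd h1⟩
    · right
      exact ⟨h1, h.e0, congrArg W h.mul_eq⟩
  · rintro (⟨rfl, rfl⟩ | ⟨⟨p, hp, hpp⟩, h2, h3⟩)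
    · exact EqvGen.refl _
    · -- normalise the first pair
      obtain ⟨X, Y, hX, hY, h4, h5, h6⟩ : ∃ X Y, Reg X ∧ Reg Y ∧ val X * p = val X ∧ p * val Y = val Y ∧
          PEqv (x, y) (X, Y) := by
        rcases hpp with ⟨a1, a2⟩ | ⟨a1, a2⟩
        · refine ⟨x, io hp.i * y, hx, hy.io_mul a2, a1, ?_, pe_right hx hy (hx.g2 a1) a2⟩
          rw [map_mul, val_io, ← mul_assoc, hp.coe_i, hp.idem]
        · refine ⟨x * io hp.i, y, hx.mul_io a2, hy, ?_, a1, pe_left hx hy (hy.g2' a1) a2⟩
          rw [map_mul, val_io, mul_assoc, hp.coe_i, hp.idem]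
      have hNR' : NR (val X) (val Y) := by
        have e1 : val X * val Y = val x * val y := by
          rw [← map_mul, ← map_mul]; exact congrArg val h6.mul_eq.symm
        have e2 : rk (val x) = rk (val X) := h6.rk1
        have e3 : rk (val y) = rk (val Y) := h6.rk2
        unfold NR at *
        rw [e1, ← e2, ← e3]; exact hNR
      have hpr := hp.rk_lt
      have r1 := rk_lt_left hNR' h4 h5
      have r2 := rk_lt_right hNR' h4 h5
      have h7 : E0 (val x', val y') (val X, val Y) :=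
        EqvGen.trans _ _ _ (EqvGen.symm _ _ h2) h6.e0
      obtain ⟨x2, y2, b1, b2, b3, b4, b5⟩ := (E0.lift h7).1 x' y' hx' hy' rfl rfl
      simp only at b3 b4
      have h8 : PEqv (X, Y) (x2, y2) := by
        apply F4 hp hX hY b1 b2 (by omega) (by omega) h4 h5 b3 b4
        have e1 : W (X * Y) = W (x2 * y2) := by
          have c1 := congrArg W h6.mul_eq
          have c2 := congrArg W b5.mul_eq
          simp only at c1 c2
          rw [← c1, ← c2, h3]
        rw [W_mul, W_mul, b3, b4] at e1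
        exact mul_right_cancel₀ (cst_pos (val X) (val Y)).ne' e1
      exact EqvGen.trans _ _ _ h6 (EqvGen.trans _ _ _ h8 (EqvGen.symm _ _ b5))

end Pool.Agent.H213
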