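import Pool.Agent.helper213_IG.Reg

/-!
# The partition monoid and its linear representation
-/

namespace Pool.Agent.H213

open RkMonoid

/-- vectors over the field with two elements -/
abbrev Vec (n : ℕ) := Fin n → ZMod 2

/-- Value at a point of the two rows. -/
def ev {n : ℕ} (f h : Vec n) (p : Bool × Fin n) : ZMod 2 := if p.1 = true then h p.2 else f p.2

@[simp] theorem ev_false {n : ℕ} (f h : Vec n) (i : Fin n) : ev f h (false, i) = f i := by simp [ev]
@[simp] theorem ev_true {n : ℕ} (f h : Vec n) (i : Fin n) : ev f h (true, i) = h i := by simp [ev]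

/-- The partition monoid: equivalence relations on two rows of `n` points. -/
@[ext] structure PM (n : ℕ) where
  r : Bool × Fin n → Bool × Fin n → Prop
  eqv : Equivalence r

namespace PM

variable {n : ℕ}

/-- The subspace of pairs of vectors constant on the blocks. -/
def C (x : PM n) : Submodule (ZMod 2) (Vec n × Vec n) where
  carrier := {v | ∀ p q, x.r p q → ev v.1 v.2 p = ev v.1 v.2 q}
  add_mem' := by
    intro a b ha hb p q h
    have h1 := ha p q h
    have h2 := hb p q h
    simp only [ev, Prod.fst_add, Prod.snd_add, Pi.add_apply] at *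
    split_ifs at * <;> simp_all
  zero_mem' := by intro p q h; simp [ev]
  smul_mem' := by
    intro c a ha p q h
    have h1 := ha p q h
    simp only [ev, Prod.smul_fst, Prod.smul_snd, Pi.smul_apply] at *
    split_ifs at * <;> simp_all

theorem mem_C {x : PM n} {v : Vec n × Vec n} : v ∈ x.C ↔ ∀ p q, x.r p q → ev v.1 v.2 p = ev v.1 v.2 q := Iff.rfl

open Classical in
/-- characteristic function of a block -/
theorem r_iff (x : PM n) (p q : Bool × Fin n) : x.r p q ↔ ∀ v ∈ x.C, ev v.1 v.2 p = ev v.1 v.2 q := by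
  constructor
  · intro h v hv; exact hv p q h
  · intro h
    have h1 : ((fun i => if x.r p (false, i) then (1 : ZMod 2) else 0),
        (fun i => if x.r p (true, i) then (1 : ZMod 2) else 0)) ∈ x.C := by
      intro a b hab
      have key : ∀ c : Bool × Fin n, ev (fun i => if x.r p (false, i) then (1 : ZMod 2) else 0)
          (fun i => if x.r p (true, i) then (1 : ZMod 2) else 0) c = if x.r p c then 1 else 0 := by
        rintro ⟨b, i⟩
        cases b <;> simp
      simp only [key]
      have : x.r p a ↔ x.r p b := ⟨fun h => x.eqv.trans h hab, fun h => x.eqv.trans h (x.eqv.symm hab)⟩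
      simp [this]
    have h2 := h _ h1
    have key : ∀ c : Bool × Fin n, ev (fun i => if x.r p (false, i) then (1 : ZMod 2) else 0)
        (fun i => if x.r p (true, i) then (1 : ZMod 2) else 0) c = if x.r p c then 1 else 0 := by
      rintro ⟨b, i⟩
      cases b <;> simp
    simp only [key, x.eqv.refl p, if_true] at h2
    by_contra h3
    simp [h3] at h2

theorem C_injective : Function.Injective (C (n := n)) := by
  intro x y h
  ext p q
  rw [r_iff, r_iff, h]

theorem ext_C {x y : PM n} (h : ∀ f g, (f, g) ∈ x.C ↔ (f, g) ∈ y.C) : x = y := by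
  apply C_injective
  ext ⟨f, g⟩
  exact h f g

/-- generating relation of the product -/
def gen (α β : Bool × Fin n → Bool × Fin n → Prop) (p q : Fin 3 × Fin n) : Prop :=
  (∃ u v : Bool × Fin n, α u v ∧ p = ((if u.1 = true then 1 else 0 : Fin 3), u.2) ∧
    q = ((if v.1 = true then 1 else 0 : Fin 3), v.2)) ∨
  (∃ u v : Bool × Fin n, β u v ∧ p = ((if u.1 = true then 2 else 1 : Fin 3), u.2) ∧
    q = ((if v.1 = true then 2 else 1 : Fin 3), v.2))

/-- the product relation -/
def mulr (α β : Bool × Fin n → Bool × Fin n → Prop) (x y : Bool × Fin n) : Prop :=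
  Relation.EqvGen (gen α β) ((if x.1 = true then 2 else 0 : Fin 3), x.2)
    ((if y.1 = true then 2 else 0 : Fin 3), y.2)

instance : Mul (PM n) where
  mul x y :=
    { r := mulr x.r y.r
      eqv := ⟨fun _ => Relation.EqvGen.refl _, fun h => Relation.EqvGen.symm _ _ h,
        fun h1 h2 => Relation.EqvGen.trans _ _ _ h1 h2⟩ }

theorem mul_r (x y : PM n) : (x * y).r = mulr x.r y.r := rfl

/-- function on three rows -/
def ev3 (f h g : Vec n) (p : Fin 3 × Fin n) : ZMod 2 :=
  if p.1 = 0 then f p.2 else if p.1 = 1 then h p.2 else g p.2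

theorem mem_C_mul {x y : PM n} {f g : Vec n} :
    (f, g) ∈ (x * y).C ↔ ∃ h, (f, h) ∈ x.C ∧ (h, g) ∈ y.C := by
  constructor
  · intro hfg
    classical
    -- extend
    let T : Fin 3 × Fin n → Prop := fun p => ∃ q : Bool × Fin n,
      Relation.EqvGen (gen x.r y.r) p ((if q.1 = true then 2 else 0 : Fin 3), q.2)
    let F : Fin 3 × Fin n → ZMod 2 := fun p => if h : T p then ev f g h.choose else 0
    have hF : ∀ p q, Relation.EqvGen (gen x.r y.r) p q → F p = F q := by
      intro p q hpq
      by_cases hp : T p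
      · have hq : T q := by
          obtain ⟨a, ha⟩ := hp
          exact ⟨a, Relation.EqvGen.trans _ _ _ (Relation.EqvGen.symm _ _ hpq) ha⟩
        simp only [F, hp, hq, dif_pos]
        apply hfg
        have h1 := hp.choose_spec
        have h2 := hq.choose_spec
        exact Relation.EqvGen.trans _ _ _ (Relation.EqvGen.symm _ _ h1)
          (Relation.EqvGen.trans _ _ _ hpq h2)
      · have hq : ¬ T q := by
          rintro ⟨a, ha⟩
          exact hp ⟨a, Relation.EqvGen.trans _ _ _ hpq ha⟩
        simp only [F, hp, hq, dif_neg, not_false_eq_true]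
    have hout : ∀ q : Bool × Fin n, F ((if q.1 = true then 2 else 0 : Fin 3), q.2) = ev f g q := by
      intro q
      have hq : T ((if q.1 = true then 2 else 0 : Fin 3), q.2) := ⟨q, Relation.EqvGen.refl _⟩
      simp only [F, hq, dif_pos]
      apply hfg
      exact Relation.EqvGen.symm _ _ hq.choose_spec
    refine ⟨fun i => F (1, i), ?_, ?_⟩
    · intro p q hpq
      have h1 := hF _ _ (Relation.EqvGen.rel _ _ (Or.inl ⟨p, q, hpq, rfl, rfl⟩))
      have key : ∀ c : Bool × Fin n, F ((if c.1 = true then 1 else 0 : Fin 3), c.2) =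
          ev f (fun i => F (1, i)) c := by
        rintro ⟨b, i⟩
        cases b
        · have := hout (false, i)
          simpa using this
        · simp
      rw [key, key] at h1
      exact h1
    · intro p q hpq
      have h1 := hF _ _ (Relation.EqvGen.rel _ _ (Or.inr ⟨p, q, hpq, rfl, rfl⟩))
      have key : ∀ c : Bool × Fin n, F ((if c.1 = true then 2 else 1 : Fin 3), c.2) =
          ev (fun i => F (1, i)) g c := by
        rintro ⟨b, i⟩
        cases b
        · simp
        · have := hout (true, i)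
          simpa using this
      rw [key, key] at h1
      exact h1
  · rintro ⟨h, h1, h2⟩ p q hpq
    have key : ∀ a b, Relation.EqvGen (gen x.r y.r) a b → ev3 f h g a = ev3 f h g b := by
      intro a b hab
      induction hab with
      | rel a b hab =>
        rcases hab with ⟨u, v, huv, rfl, rfl⟩ | ⟨u, v, huv, rfl, rfl⟩
        · have h3 := h1 u v huv
          obtain ⟨bu, iu⟩ := u
          obtain ⟨bv, iv⟩ := v
          cases bu <;> cases bv <;> simpa [ev3] using h3
        · have h3 := h2 u v huv
          obtain ⟨bu, iu⟩ := u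
          obtain ⟨bv, iv⟩ := v
          cases bu <;> cases bv <;> simpa [ev3] using h3
      | refl a => rfl
      | symm a b _ ih => exact ih.symm
      | trans a b c _ _ ih1 ih2 => exact ih1.trans ih2
    have h3 := key _ _ hpq
    obtain ⟨bp, ip⟩ := p
    obtain ⟨bq, iq⟩ := q
    cases bp <;> cases bq <;> simpa [ev3] using h3

instance : One (PM n) where
  one :=
    { r := fun p q => p.2 = q.2
      eqv := ⟨fun _ => rfl, fun h => h.symm, fun h1 h2 => h1.trans h2⟩ }

theorem mem_C_one {f g : Vec n} : (f, g) ∈ (1 : PM n).C ↔ f = g := by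
  constructor
  · intro h
    ext i
    have := h (false, i) (true, i) rfl
    simpa using this
  · rintro rfl p q hpq
    obtain ⟨bp, ip⟩ := p
    obtain ⟨bq, iq⟩ := q
    have : ip = iq := hpq
    subst this
    cases bp <;> cases bq <;> simp

instance : Monoid (PM n) where
  mul_assoc x y z := by
    apply ext_C
    intro f g
    simp only [mem_C_mul]
    constructor
    · rintro ⟨h, ⟨k, h1, h2⟩, h3⟩; exact ⟨k, h1, h, h2, h3⟩
    · rintro ⟨k, h1, h, h2, h3⟩; exact ⟨h, ⟨k, h1, h2⟩, h3⟩
  one_mul x := by
    apply ext_C; intro f g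
    simp only [mem_C_mul, mem_C_one]
    exact ⟨fun ⟨h, h1, h2⟩ => h1 ▸ h2, fun h => ⟨f, rfl, h⟩⟩
  mul_one x := by
    apply ext_C; intro f g
    simp only [mem_C_mul, mem_C_one]
    exact ⟨fun ⟨h, h1, h2⟩ => h2 ▸ h1, fun h => ⟨g, h, rfl⟩⟩

/-- the transposed partition -/
def star (x : PM n) : PM n where
  r p q := x.r (!p.1, p.2) (!q.1, q.2)
  eqv := ⟨fun _ => x.eqv.refl _, fun h => x.eqv.symm h, fun h1 h2 => x.eqv.trans h1 h2⟩

theorem mem_C_star {x : PM n} {f g : Vec n} : (f, g) ∈ x.star.C ↔ (g, f) ∈ x.C := by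
  have key : ∀ (f g : Vec n) (p : Bool × Fin n), ev f g (!p.1, p.2) = ev g f p := by
    rintro f g ⟨b, i⟩
    cases b <;> simp
  constructor
  · intro h p q hpq
    have h1 : x.star.r (!p.1, p.2) (!q.1, q.2) := by
      show x.r (!(!p.1), p.2) (!(!q.1), q.2)
      simpa using hpq
    have := h _ _ h1
    simp only [key] at this
    exact this
  · intro h p q hpq
    have := h _ _ hpq
    simp only [key] at this
    exact this

/-- domain, image, kernel, cokernel of the linear relation -/
def dom (x : PM n) : Submodule (ZMod 2) (Vec n) := x.C.map (LinearMap.fst _ _ _)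
def im (x : PM n) : Submodule (ZMod 2) (Vec n) := x.C.map (LinearMap.snd _ _ _)
def ker (x : PM n) : Submodule (ZMod 2) (Vec n) := x.C.comap (LinearMap.inl _ _ _)
def cok (x : PM n) : Submodule (ZMod 2) (Vec n) := x.C.comap (LinearMap.inr _ _ _)

theorem mem_dom {x : PM n} {f : Vec n} : f ∈ x.dom ↔ ∃ g, (f, g) ∈ x.C := by
  simp [dom, Submodule.mem_map]

theorem mem_im {x : PM n} {g : Vec n} : g ∈ x.im ↔ ∃ f, (f, g) ∈ x.C := by
  simp [im, Submodule.mem_map]

theorem mem_ker {x : PM n} {f : Vec n} : f ∈ x.ker ↔ (f, 0) ∈ x.C := by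
  simp [ker]

theorem mem_cok {x : PM n} {g : Vec n} : g ∈ x.cok ↔ (0, g) ∈ x.C := by
  simp [cok]

theorem ker_le_dom (x : PM n) : x.ker ≤ x.dom := fun _ h => mem_dom.2 ⟨0, mem_ker.1 h⟩
theorem cok_le_im (x : PM n) : x.cok ≤ x.im := fun _ h => mem_im.2 ⟨0, mem_cok.1 h⟩

open Module

theorem finrank_dom_add (x : PM n) : finrank (ZMod 2) x.dom + finrank (ZMod 2) x.cok = finrank (ZMod 2) x.C := by
  have h := LinearMap.finrank_range_add_finrank_ker
    ((LinearMap.fst (ZMod 2) (Vec n) (Vec n)).comp x.C.subtype)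
  have h1 : LinearMap.range ((LinearMap.fst (ZMod 2) (Vec n) (Vec n)).comp x.C.subtype) = x.dom := by
    rw [LinearMap.range_comp, Submodule.range_subtype]; rfl
  have h2 : finrank (ZMod 2) (LinearMap.ker ((LinearMap.fst (ZMod 2) (Vec n) (Vec n)).comp x.C.subtype))
      = finrank (ZMod 2) x.cok := by
    apply LinearEquiv.finrank_eq
    refine LinearEquiv.ofBijective
      ({ toFun := fun v => ⟨v.1.1.2, ?_⟩, map_add' := ?_, map_smul' := ?_ } :
        LinearMap.ker ((LinearMap.fst (ZMod 2) (Vec n) (Vec n)).comp x.C.subtype) →ₗ[ZMod 2] x.cok) ?_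
    · rw [mem_cok]
      have h3 := v.2
      rw [LinearMap.mem_ker] at h3
      have h4 : v.1.1.1 = 0 := h3
      have h5 := v.1.2
      rw [← h4]
      exact h5
    · intro a b; rfl
    · intro a b; rfl
    · constructor
      · intro a b hab
        have ha := a.2
        have hb := b.2
        rw [LinearMap.mem_ker] at ha hb
        apply Subtype.ext
        apply Subtype.ext
        apply Prod.ext
        · exact (show a.1.1.1 = 0 from ha).trans (show b.1.1.1 = 0 from hb).symm
        · exact congrArg Subtype.val hab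
      · intro g
        refine ⟨⟨⟨(0, g.1), mem_cok.1 g.2⟩, ?_⟩, rfl⟩
        rw [LinearMap.mem_ker]
        rfl
  rw [h1, h2] at h
  exact h

theorem finrank_im_add (x : PM n) : finrank (ZMod 2) x.im + finrank (ZMod 2) x.ker = finrank (ZMod 2) x.C := by
  have h := LinearMap.finrank_range_add_finrank_ker
    ((LinearMap.snd (ZMod 2) (Vec n) (Vec n)).comp x.C.subtype)
  have h1 : LinearMap.range ((LinearMap.snd (ZMod 2) (Vec n) (Vec n)).comp x.C.subtype) = x.im := by
    rw [LinearMap.range_comp, Submodule.range_subtype]; rfl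
  have h2 : finrank (ZMod 2) (LinearMap.ker ((LinearMap.snd (ZMod 2) (Vec n) (Vec n)).comp x.C.subtype))
      = finrank (ZMod 2) x.ker := by
    apply LinearEquiv.finrank_eq
    refine LinearEquiv.ofBijective
      ({ toFun := fun v => ⟨v.1.1.1, ?_⟩, map_add' := ?_, map_smul' := ?_ } :
        LinearMap.ker ((LinearMap.snd (ZMod 2) (Vec n) (Vec n)).comp x.C.subtype) →ₗ[ZMod 2] x.ker) ?_
    · rw [mem_ker]
      have h3 := v.2
      rw [LinearMap.mem_ker] at h3
      have h4 : v.1.1.2 = 0 := h3
      have h5 := v.1.2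
      rw [← h4]
      exact h5
    · intro a b; rfl
    · intro a b; rfl
    · constructor
      · intro a b hab
        have ha := a.2
        have hb := b.2
        rw [LinearMap.mem_ker] at ha hb
        apply Subtype.ext
        apply Subtype.ext
        apply Prod.ext
        · exact congrArg Subtype.val hab
        · exact (show a.1.1.2 = 0 from ha).trans (show b.1.1.2 = 0 from hb).symm
      · intro g
        refine ⟨⟨⟨(g.1, 0), mem_ker.1 g.2⟩, ?_⟩, rfl⟩
        rw [LinearMap.mem_ker]
        rfl
  rw [h1, h2] at h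
  exact h

/-- The rank. -/
noncomputable def rank (x : PM n) : ℕ := finrank (ZMod 2) x.dom - finrank (ZMod 2) x.ker

theorem rank_eq' (x : PM n) : x.rank = finrank (ZMod 2) x.im - finrank (ZMod 2) x.cok := by
  have h1 := finrank_dom_add x
  have h2 := finrank_im_add x
  have h3 := Submodule.finrank_mono (ker_le_dom x)
  have h4 := Submodule.finrank_mono (cok_le_im x)
  unfold rank
  omega

theorem dom_mul_le (x y : PM n) : (x * y).dom ≤ x.dom := by
  intro f hf
  obtain ⟨g, hg⟩ := mem_dom.1 hf
  obtain ⟨h, h1, _⟩ := mem_C_mul.1 hg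
  exact mem_dom.2 ⟨h, h1⟩

theorem ker_le_mul (x y : PM n) : x.ker ≤ (x * y).ker := by
  intro f hf
  exact mem_ker.2 (mem_C_mul.2 ⟨0, mem_ker.1 hf, y.C.zero_mem⟩)

theorem im_mul_le (x y : PM n) : (x * y).im ≤ y.im := by
  intro g hg
  obtain ⟨f, hf⟩ := mem_im.1 hg
  obtain ⟨h, _, h2⟩ := mem_C_mul.1 hf
  exact mem_im.2 ⟨h, h2⟩

theorem cok_le_mul (x y : PM n) : y.cok ≤ (x * y).cok := by
  intro g hg
  exact mem_cok.2 (mem_C_mul.2 ⟨0, x.C.zero_mem, mem_cok.1 hg⟩)

theorem rank_mul_le_left (x y : PM n) : (x * y).rank ≤ x.rank := by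
  have h1 := Submodule.finrank_mono (dom_mul_le x y)
  have h2 := Submodule.finrank_mono (ker_le_mul x y)
  unfold rank
  omega

theorem rank_mul_le_right (x y : PM n) : (x * y).rank ≤ y.rank := by
  have h1 := Submodule.finrank_mono (im_mul_le x y)
  have h2 := Submodule.finrank_mono (cok_le_mul x y)
  rw [rank_eq', rank_eq']
  omega

theorem rank_mul_eq_left_iff (x y : PM n) : (x * y).rank = x.rank ↔ (x * y).dom = x.dom ∧ (x * y).ker = x.ker := by
  have h1 := Submodule.finrank_mono (dom_mul_le x y)
  have h2 := Submodule.finrank_mono (ker_le_mul x y)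
  have h3 := Submodule.finrank_mono (ker_le_dom (x * y))
  have h4 := Submodule.finrank_mono (ker_le_dom x)
  constructor
  · intro h
    unfold rank at h
    constructor
    · exact Submodule.eq_of_le_of_finrank_eq (dom_mul_le x y) (by omega)
    · exact (Submodule.eq_of_le_of_finrank_eq (ker_le_mul x y) (by omega)).symm
  · rintro ⟨h5, h6⟩
    unfold rank
    rw [h5, h6]

theorem rank_mul_eq_right_iff (x y : PM n) : (x * y).rank = y.rank ↔ (x * y).im = y.im ∧ (x * y).cok = y.cok := by
  have h1 := Submodule.finrank_mono (im_mul_le x y)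
  have h2 := Submodule.finrank_mono (cok_le_mul x y)
  have h3 := Submodule.finrank_mono (cok_le_im (x * y))
  have h4 := Submodule.finrank_mono (cok_le_im y)
  constructor
  · intro h
    rw [rank_eq', rank_eq'] at h
    constructor
    · exact Submodule.eq_of_le_of_finrank_eq (im_mul_le x y) (by omega)
    · exact (Submodule.eq_of_le_of_finrank_eq (cok_le_mul x y) (by omega)).symm
  · rintro ⟨h5, h6⟩
    rw [rank_eq', rank_eq', h5, h6]

noncomputable instance : RkMonoid (PM n) where
  rk := rank
  rk_mul_le_left := rank_mul_le_left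
  rk_mul_le_right := rank_mul_le_right
  ex_right := by
    intro x y h
    obtain ⟨h1, h2⟩ := (rank_mul_eq_left_iff x y).1 h
    refine ⟨(x * y).star * x, ?_⟩
    apply ext_C
    intro f g
    rw [mem_C_mul]
    constructor
    · rintro ⟨a, h3, h4⟩
      obtain ⟨f', h5, h6⟩ := mem_C_mul.1 h4
      rw [mem_C_star] at h5
      have h7 : (f - f', (0 : Vec n)) ∈ (x * y).C := by
        have := (x * y).C.sub_mem h3 h5
        simpa using this
      have h8 : f - f' ∈ x.ker := by rw [← h2]; exact mem_ker.2 h7
      have := x.C.add_mem (mem_ker.1 h8) h6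
      simpa using this
    · intro h3
      have h4 : f ∈ (x * y).dom := by rw [h1]; exact mem_dom.2 ⟨g, h3⟩
      obtain ⟨a, ha⟩ := mem_dom.1 h4
      exact ⟨a, ha, mem_C_mul.2 ⟨f, mem_C_star.2 ha, h3⟩⟩
  ex_left := by
    intro x y h
    obtain ⟨h1, h2⟩ := (rank_mul_eq_right_iff x y).1 h
    refine ⟨y * (x * y).star, ?_⟩
    apply ext_C
    intro f g
    rw [mem_C_mul]
    constructor
    · rintro ⟨a, h3, h4⟩
      obtain ⟨g', h5, h6⟩ := mem_C_mul.1 h3
      rw [mem_C_star] at h6
      have h7 : ((0 : Vec n), g - g') ∈ (x * y).C := by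
        have := (x * y).C.sub_mem h4 h6
        simpa using this
      have h8 : g - g' ∈ y.cok := by rw [← h2]; exact mem_cok.2 h7
      have := y.C.add_mem (mem_cok.1 h8) h5
      simpa using this
    · intro h3
      have h4 : g ∈ (x * y).im := by rw [h1]; exact mem_im.2 ⟨f, h3⟩
      obtain ⟨a, ha⟩ := mem_im.1 h4
      exact ⟨a, mem_C_mul.2 ⟨g, h3, mem_C_star.2 ha⟩, ha⟩

theorem rk_def (x : PM n) : rk x = x.rank := rfl

instance : Finite (PM n) := by
  apply Finite.of_injective (fun x : PM n => x.r)
  intro x y h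
  ext p q
  exact iff_of_eq (congrFun (congrFun h p) q)

end PM

end Pool.Agent.H213
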