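import Pool.Agent.helper213_IG.Dec

/-!
# The twisted monoid modulo `m`
-/

namespace Pool.Agent.H213

open RkMonoid PM Relation Module

/-- universal property of `IG` -/
def IG.lift {S : Type*} [Monoid S] {M : Type*} [Monoid M] (f : Idem S → M)
    (h : ∀ e e' g : Idem S, Basic (e : S) (e' : S) → (e : S) * (e' : S) = g → f e * f e' = f g) :
    IG S →* M :=
  Con.lift _ (FreeMonoid.lift f) (by
    rw [Con.conGen_le]
    intro x y hxy
    cases hxy with
    | mk e e' g hb hg => simpa [Con.ker_rel] using h e e' g hb hg)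

@[simp] theorem IG.lift_io {S : Type*} [Monoid S] {M : Type*} [Monoid M] (f : Idem S → M)
    (h : ∀ e e' g : Idem S, Basic (e : S) (e' : S) → (e : S) * (e' : S) = g → f e * f e' = f g)
    (e : Idem S) : IG.lift f h (io e) = f e := by
  change FreeMonoid.lift f (FreeMonoid.of e) = _
  simp

variable {n : ℕ}

theorem tw_cocycle (s t r : PM n) : tw s t + tw (s * t) r = tw t r + tw s (t * r) := by
  have h1 : Mx s * Mx t * Mx r = (cst s t * cst (s * t) r) • Mx (s * t * r) := by
    rw [Mx_mul, Matrix.smul_mul, Mx_mul, smul_smul]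
  have h2 : Mx s * (Mx t * Mx r) = (cst t r * cst s (t * r)) • Mx (s * t * r) := by
    rw [Mx_mul, Matrix.mul_smul, Mx_mul, smul_smul, ← mul_assoc s t r]
  rw [mul_assoc] at h1
  have h3 := smul_cancel (Mx_ne_zero (s * t * r)) (h1.symm.trans h2)
  unfold cst at h3
  rw [← pow_add, ← pow_add] at h3
  exact pow_right_injective₀ (by norm_num) (by norm_num) h3

theorem tw_one_left (s : PM n) : tw 1 s = 0 := by
  apply tw_eq_zero
  intro f h _
  exact (mem_C_one.1 (mem_cok.1 h)).symm

theorem tw_one_right (s : PM n) : tw s 1 = 0 := by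
  apply tw_eq_zero
  intro f _ h
  exact mem_C_one.1 (mem_ker.1 h)

theorem tw_basic {e f g : Idem (PM n)} (hb : Basic (e : PM n) (f : PM n)) (h : (e : PM n) * (f : PM n) = g) :
    tw (e : PM n) f + tw (g : PM n) g = tw (e : PM n) e + tw (f : PM n) f := by
  have h1 := Mh_basic e f g hb h
  unfold Mh at h1
  rw [Matrix.smul_mul, Matrix.mul_smul, Mx_mul, h, smul_smul, smul_smul] at h1
  have h2 := smul_cancel (Mx_ne_zero (g : PM n)) h1
  have c1 := (cst_pos (e : PM n) e).ne'
  have c2 := (cst_pos (f : PM n) f).ne'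
  have c3 := (cst_pos (g : PM n) g).ne'
  have h3 : cst (e : PM n) f * cst (g : PM n) g = cst (e : PM n) e * cst (f : PM n) f := by
    field_simp at h2
    linarith
  unfold cst at h3
  rw [← pow_add, ← pow_add] at h3
  exact pow_right_injective₀ (by norm_num) (by norm_num) h3

/-- the twisted partition monoid with twists modulo `m` (integers for `m = 0`) -/
@[ext] structure TwM (n m : ℕ) where
  /-- value -/
  v : PM n
  /-- weight -/
  w : ZMod m

instance (n m : ℕ) [NeZero m] : Finite (TwM n m) := by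
  apply Finite.of_injective (fun x : TwM n m => (x.v, x.w))
  intro x y h
  have h1 := congrArg Prod.fst h
  have h2 := congrArg Prod.snd h
  exact TwM.ext h1 h2

noncomputable instance instMonoidTwM (n m : ℕ) : Monoid (TwM n m) where
  mul x y := ⟨x.v * y.v, x.w + y.w + (tw x.v y.v : ZMod m)⟩
  one := ⟨1, 0⟩
  mul_assoc := by
    intro x y z
    have h := tw_cocycle x.v y.v z.v
    apply TwM.ext
    · exact mul_assoc _ _ _
    · show x.w + y.w + (tw x.v y.v : ZMod m) + z.w + (tw (x.v * y.v) z.v : ZMod m) =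
        x.w + (y.w + z.w + (tw y.v z.v : ZMod m)) + (tw x.v (y.v * z.v) : ZMod m)
      have h' := congrArg (Nat.cast : ℕ → ZMod m) h
      push_cast at h'
      linear_combination h'
  one_mul := by
    intro x
    apply TwM.ext
    · exact one_mul _
    · show 0 + x.w + (tw 1 x.v : ZMod m) = x.w
      rw [tw_one_left]; simp
  mul_one := by
    intro x
    apply TwM.ext
    · exact mul_one _
    · show x.w + 0 + (tw x.v 1 : ZMod m) = x.w
      rw [tw_one_right]; simp

theorem TwM.mul_v {m : ℕ} (x y : TwM n m) : (x * y).v = x.v * y.v := rfl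
theorem TwM.mul_w {m : ℕ} (x y : TwM n m) : (x * y).w = x.w + y.w + (tw x.v y.v : ZMod m) := rfl
theorem TwM.one_v {m : ℕ} : (1 : TwM n m).v = 1 := rfl
theorem TwM.one_w {m : ℕ} : (1 : TwM n m).w = 0 := rfl

/-- the twisted value -/
noncomputable def tv (m : ℕ) : IG (PM n) →* TwM n m :=
  IG.lift (fun e => ⟨(e : PM n), -(tw (e : PM n) e : ZMod m)⟩) (by
    intro e f g hb hg
    apply TwM.ext
    · exact hg
    · show -(tw (e : PM n) e : ZMod m) + -(tw (f : PM n) f : ZMod m) + (tw (e : PM n) f : ZMod m) =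
        -(tw (g : PM n) g : ZMod m)
      have h' := congrArg (Nat.cast : ℕ → ZMod m) (tw_basic hb hg)
      push_cast at h'
      linear_combination h')

theorem tv_v (m : ℕ) (x : IG (PM n)) : (tv m x).v = val x := by
  induction x using IG.induction_right with
  | h1 => rw [map_one, map_one]; rfl
  | hm x e ih => rw [map_mul, map_mul, TwM.mul_v, ih]; simp [tv]

/-- the exponent of the weight -/
noncomputable def wx (x : IG (PM n)) : ℤ := (tv 0 x).w

theorem wx_one : wx (1 : IG (PM n)) = 0 := by
  unfold wx; rw [map_one]; rfl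

theorem wx_mul (x y : IG (PM n)) : wx (x * y) = wx x + wx y + tw (val x) (val y) := by
  unfold wx
  rw [map_mul, TwM.mul_w, tv_v, tv_v]
  rfl

theorem wx_io (e : Idem (PM n)) : wx (io e) = -(tw (e : PM n) e : ℤ) := by
  unfold wx tv
  rw [IG.lift_io]
  rfl

theorem W_eq_wx (x : IG (PM n)) : W x = 2 ^ wx x := by
  induction x using IG.induction_right with
  | h1 => rw [W_one, wx_one]; simp
  | hm x e ih =>
    rw [W_mul_io, wx_mul, wx_io, ih, val_io]
    unfold cst
    rw [zpow_add₀ (by norm_num), zpow_add₀ (by norm_num), zpow_neg, zpow_natCast, zpow_natCast]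
    field_simp

theorem W_eq_iff_wx (x y : IG (PM n)) : W x = W y ↔ wx x = wx y := by
  rw [W_eq_wx, W_eq_wx]
  constructor
  · intro h
    exact zpow_right_injective₀ (by norm_num) (by norm_num) h
  · intro h; rw [h]

theorem tv_w (m : ℕ) (x : IG (PM n)) : (tv m x).w = ((wx x : ℤ) : ZMod m) := by
  induction x using IG.induction_right with
  | h1 => rw [map_one, wx_one]; simp [TwM.one_w]
  | hm x e ih =>
    rw [map_mul, TwM.mul_w, wx_mul, ih, tv_v, tv_v, wx_io]
    unfold tv
    rw [IG.lift_io]
    push_cast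
    ring

end Pool.Agent.H213
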