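import Pool.Agent.helper213_IG.RF1

/-!
# Separating elements of rank `n - 1` by finite monoids
-/

namespace Pool.Agent.H213

open RkMonoid PM Relation

variable {n : ℕ}

theorem rk_star (s : PM n) : rk s.star = rk s := by
  have h1 := rk_mul_star s.star
  rw [star_star] at h1
  rw [← h1, rk_star_mul]

theorem R_unique {e p p' : PM n} (hp : PP p) (hp' : PP p') (h1 : p * e = e) (h2 : p' * e = e)
    (hr : n ≤ rk e + 1) : p = p' := by
  have a1 := hp.rk_lt
  have a2 := hp'.rk_lt
  have b1 : rk e ≤ rk p := by rw [← h1]; exact rk_mul_le_left _ _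
  have b2 : rk e ≤ rk p' := by rw [← h2]; exact rk_mul_le_left _ _
  obtain ⟨w, hw⟩ := ex_right p e (by rw [h1]; omega)
  obtain ⟨w', hw'⟩ := ex_right p' e (by rw [h2]; omega)
  rw [h1] at hw
  rw [h2] at hw'
  have c1 : p' * p = p := by rw [← hw, ← mul_assoc, h2]
  have c2 : p * p' = p' := by rw [← hw', ← mul_assoc, h1]
  have c3 := congrArg star c1
  rw [star_mul, hp.star_eq, hp'.star_eq] at c3
  rw [← c3, c2]

theorem L_unique {e q q' : PM n} (hq : PP q) (hq' : PP q') (h1 : e * q = e) (h2 : e * q' = e)
    (hr : n ≤ rk e + 1) : q = q' := by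
  apply R_unique (e := e.star) hq hq'
  · have := congrArg star h1
    rwa [star_mul, hq.star_eq] at this
  · have := congrArg star h2
    rwa [star_mul, hq'.star_eq] at this
  · rw [rk_star]; exact hr

/-- the idempotent is the product of its types -/
theorem eq_types {e p q : PM n} (he : e * e = e) (hp : PP p) (hq : PP q) (h1 : p * e = e) (h2 : e * q = e)
    (hr : n ≤ rk e + 1) : e = p * q := by
  have a1 := hp.rk_lt
  have a2 := hq.rk_lt
  have hs1 : e.star * p = e.star := by
    have := congrArg star h1
    rwa [star_mul, hp.star_eq] at this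
  have hs2 : q * e.star = e.star := by
    have := congrArg star h2
    rwa [star_mul, hq.star_eq] at this
  have hss : e.star * e.star = e.star := by rw [← star_mul, he]
  have r1 : rk e ≤ rk (p * q) := by
    calc rk e = rk e.star := (rk_star e).symm
      _ = rk (e.star * (p * q) * e.star) := by
        congr 1
        calc e.star = e.star * e.star := hss.symm
          _ = (e.star * p) * (q * e.star) := by rw [hs1, hs2]
          _ = _ := by simp only [mul_assoc]
      _ ≤ rk (e.star * (p * q)) := rk_mul_le_left _ _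
      _ ≤ _ := rk_mul_le_right _ _
  have r2 : rk (p * q) ≤ rk p := rk_mul_le_left _ _
  have r3 : rk (p * q) ≤ rk q := rk_mul_le_right _ _
  obtain ⟨w, hw⟩ := ex_right p q (by omega)
  obtain ⟨w', hw'⟩ := ex_left p q (by omega)
  obtain ⟨y, hy⟩ := ex_right p e (by rw [h1]; omega)
  rw [h1] at hy
  have h3 : e * (p * q) = p * q := by rw [← mul_assoc, ← hy, ← mul_assoc, he]
  have h4 : e * (p * q) = e := by
    have h5 : e * (p * q) * (p * q) = e * (p * q) := by
      have h6 := mul_star_mul (p * q)
      rw [star_mul, hp.star_eq, hq.star_eq] at h6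
      have h7 : (p * q) * (p * q) = p * q := by
        calc (p * q) * (p * q) = (p * q) * ((q * p) * (p * q)) := by
              calc (p * q) * (p * q) = p * (q * (p * q)) := by rw [mul_assoc]
                _ = p * ((q * q) * ((p * p) * q)) := by rw [hq.idem, hp.idem]
                _ = _ := by simp only [mul_assoc]
          _ = p * q := h6
      rw [mul_assoc, h7]
    calc e * (p * q) = e * q * (p * q) := by rw [h2]
      _ = e * (w' * (p * q)) * (p * q) := by rw [hw']
      _ = e * w' * ((p * q) * (p * q)) := by simp only [mul_assoc]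
      _ = e * w' * (p * q) := by
          have h6 := mul_star_mul (p * q)
          rw [star_mul, hp.star_eq, hq.star_eq] at h6
          have h7 : (p * q) * (p * q) = p * q := by
            calc (p * q) * (p * q) = (p * q) * ((q * p) * (p * q)) := by
                  calc (p * q) * (p * q) = p * (q * (p * q)) := by rw [mul_assoc]
                    _ = p * ((q * q) * ((p * p) * q)) := by rw [hq.idem, hp.idem]
                    _ = _ := by simp only [mul_assoc]
              _ = p * q := h6
          rw [h7]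
      _ = e * q := by rw [mul_assoc, hw']
      _ = e := h2
  rw [← h4, h3]

theorem exists_pt (e : Idem (PM n)) : ∃ p : PM n, (e : PM n) ≠ 1 → (PP p ∧ p * (e : PM n) = e) := by
  by_cases h : (e : PM n) = 1
  · exact ⟨1, fun h' => absurd h h'⟩
  · obtain ⟨p, hp, h1⟩ := exists_p_left e.2 h
    exact ⟨p, fun _ => ⟨hp, h1⟩⟩

theorem exists_qt (e : Idem (PM n)) : ∃ q : PM n, (e : PM n) ≠ 1 → (PP q ∧ (e : PM n) * q = e) := by
  by_cases h : (e : PM n) = 1
  · exact ⟨1, fun h' => absurd h h'⟩
  · obtain ⟨p, hp, h1⟩ := exists_p_right e.2 h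
    exact ⟨p, fun _ => ⟨hp, h1⟩⟩

/-- left type -/
noncomputable def pt (e : Idem (PM n)) : PM n := (exists_pt e).choose
/-- right type -/
noncomputable def qt (e : Idem (PM n)) : PM n := (exists_qt e).choose

theorem pt_spec {e : Idem (PM n)} (h : (e : PM n) ≠ 1) : PP (pt e) ∧ pt e * (e : PM n) = e :=
  (exists_pt e).choose_spec h
theorem qt_spec {e : Idem (PM n)} (h : (e : PM n) ≠ 1) : PP (qt e) ∧ (e : PM n) * qt e = e :=
  (exists_qt e).choose_spec h

theorem eq_pt_qt {e : Idem (PM n)} (h : (e : PM n) ≠ 1) (hr : n ≤ rk (e : PM n) + 1) :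
    (e : PM n) = pt e * qt e :=
  eq_types e.2 (pt_spec h).1 (qt_spec h).1 (pt_spec h).2 (qt_spec h).2 hr

/-- linked types -/
def Lk (l p : PM n) : Prop := n ≤ rk (l * p) + 1

theorem lk_self {e : Idem (PM n)} (h : (e : PM n) ≠ 1) (hr : n ≤ rk (e : PM n) + 1) : Lk (qt e) (pt e) := by
  unfold Lk
  have h1 := (pt_spec h).2
  have h2 := (qt_spec h).2
  have : rk (e : PM n) ≤ rk (qt e * pt e) := by
    calc rk (e : PM n) = rk ((e : PM n) * (qt e * pt e) * e) := by
          congr 1
          calc (e : PM n) = (e : PM n) * e := e.2.symm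
            _ = ((e : PM n) * qt e) * (pt e * e) := by rw [h1, h2]
            _ = _ := by simp only [mul_assoc]
      _ ≤ rk ((e : PM n) * (qt e * pt e)) := rk_mul_le_left _ _
      _ ≤ _ := rk_mul_le_right _ _
  omega

/-- linkedness of letters is seen on types -/
theorem lk_iff {e f : Idem (PM n)} (he : (e : PM n) ≠ 1) (hf : (f : PM n) ≠ 1) (hre : n ≤ rk (e : PM n) + 1)
    (hrf : n ≤ rk (f : PM n) + 1) : Lk (qt e) (pt f) ↔ n ≤ rk ((e : PM n) * (f : PM n)) + 1 := by
  have a1 := (qt_spec he).1.rk_lt
  have a2 := (pt_spec hf).1.rk_lt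
  have h1 := (qt_spec he).2
  have h2 := (pt_spec hf).2
  have b1 : rk (e : PM n) ≤ rk (qt e) := by conv_lhs => rw [← h1]
                                            exact rk_mul_le_right _ _
  have b2 : rk (f : PM n) ≤ rk (pt f) := by conv_lhs => rw [← h2]
                                            exact rk_mul_le_left _ _
  obtain ⟨w, hw⟩ := ex_left (e : PM n) (qt e) (by rw [h1]; omega)
  obtain ⟨w', hw'⟩ := ex_right (pt f) (f : PM n) (by rw [h2]; omega)
  rw [h1] at hw
  rw [h2] at hw'
  unfold Lk
  have c1 : rk (qt e * pt f) ≤ rk ((e : PM n) * (f : PM n)) := by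
    calc rk (qt e * pt f) = rk (w * ((e : PM n) * (f : PM n)) * w') := by
          congr 1
          calc qt e * pt f = (w * (e : PM n)) * ((f : PM n) * w') := by rw [hw, hw']
            _ = _ := by simp only [mul_assoc]
      _ ≤ rk (w * ((e : PM n) * (f : PM n))) := rk_mul_le_left _ _
      _ ≤ _ := rk_mul_le_right _ _
  have c2 : rk ((e : PM n) * (f : PM n)) ≤ rk (qt e * pt f) := by
    calc rk ((e : PM n) * (f : PM n)) = rk ((e : PM n) * (qt e * pt f) * (f : PM n)) := by
          congr 1
          calc (e : PM n) * (f : PM n) = ((e : PM n) * qt e) * (pt f * (f : PM n)) := by rw [h1, h2]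
            _ = _ := by simp only [mul_assoc]
      _ ≤ rk ((e : PM n) * (qt e * pt f)) := rk_mul_le_left _ _
      _ ≤ _ := rk_mul_le_right _ _
  constructor
  · intro h; omega
  · intro h; omega

end Pool.Agent.H213
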