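import Pool.Agent.helper213_IG.RF2

/-!
# The action on paths
-/

namespace Pool.Agent.H213

open RkMonoid PM Relation

variable {n : ℕ}

/-- edges -/
abbrev Edg (n : ℕ) := PM n × PM n

/-- vectors attached to a path -/
abbrev Yv (G : List (Edg n)) := Fin (G.length + 1) → ZMod 2

open Classical in
/-- the involution attached to an edge -/
noncomputable def phi (G : List (Edg n)) (g : Edg n) (y : Yv G) : Yv G :=
  fun j => y j + if 0 < j.val ∧ G[j.val - 1]? = some g then y ⟨j.val - 1, by omega⟩ else 0

theorem phi_invol {G : List (Edg n)} (hG : List.IsChain (· ≠ ·) G) (g : Edg n) (y : Yv G) :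
    phi G g (phi G g y) = y := by
  classical
  funext j
  unfold phi
  by_cases h : 0 < j.val ∧ G[j.val - 1]? = some g
  · rw [if_pos h, if_pos h]
    have h2 : ¬ (0 < (⟨j.val - 1, by omega⟩ : Fin (G.length + 1)).val ∧
        G[(⟨j.val - 1, by omega⟩ : Fin (G.length + 1)).val - 1]? = some g) := by
      rintro ⟨h3, h4⟩
      simp only at h3 h4
      have h5 : G[j.val - 1 - 1]? = G[j.val - 1]? := by rw [h4, h.2]
      rw [List.isChain_iff_getElem] at hG
      have h6 : j.val - 1 < G.length := by
        by_contra hcon
        rw [List.getElem?_eq_none (by omega)] at h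
        simp at h
      have h7 := hG (j.val - 1 - 1) (by omega)
      rw [List.getElem?_eq_getElem (by omega), List.getElem?_eq_getElem h6] at h5
      have h8 := Option.some.inj h5
      apply h7
      rw [h8]
      congr 1
      omega
    rw [if_neg h2, add_zero, add_assoc, CharTwo.add_self_eq_zero, add_zero]
  · rw [if_neg h, if_neg h]; simp

/-- states -/
abbrev Stt (G : List (Edg n)) := Option (PM n × Yv G)

open Classical in
/-- action of a letter -/
noncomputable def act (G : List (Edg n)) (e : Idem (PM n)) : Stt G → Stt G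
  | none => none
  | some (l, y) => if (e : PM n) = 1 then some (l, y)
      else if n ≤ rk (e : PM n) + 1 ∧ Lk l (pt e) then some (qt e, phi G (pt e, qt e) (phi G (pt e, l) y))
      else none

theorem act_one {G : List (Edg n)} {e : Idem (PM n)} (h : (e : PM n) = 1) (s : Stt G) : act G e s = s := by
  cases s with
  | none => rfl
  | some s => obtain ⟨l, y⟩ := s; rw [act, if_pos h]

theorem act_low {G : List (Edg n)} {e : Idem (PM n)} (h : ¬ n ≤ rk (e : PM n) + 1) (s : Stt G) :
    act G e s = none := by
  have h1 : (e : PM n) ≠ 1 := by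
    intro h1; rw [h1, rk_one] at h; omega
  cases s with
  | none => rfl
  | some s => obtain ⟨l, y⟩ := s; rw [act, if_neg h1, if_neg (fun h2 => h h2.1)]

theorem act_some {G : List (Edg n)} {e : Idem (PM n)} (h : (e : PM n) ≠ 1) (hr : n ≤ rk (e : PM n) + 1)
    {l : PM n} {y : Yv G} (hl : Lk l (pt e)) :
    act G e (some (l, y)) = some (qt e, phi G (pt e, qt e) (phi G (pt e, l) y)) := by
  rw [act, if_neg h, if_pos ⟨hr, hl⟩]

theorem act_none {G : List (Edg n)} {e : Idem (PM n)} (h : (e : PM n) ≠ 1)
    {l : PM n} {y : Yv G} (hl : ¬ Lk l (pt e)) : act G e (some (l, y)) = none := by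
  rw [act, if_neg h, if_neg (fun h2 => hl h2.2)]

theorem act_rel {G : List (Edg n)} (hG : List.IsChain (· ≠ ·) G) {e f g : Idem (PM n)}
    (hb : Basic (e : PM n) (f : PM n)) (hg : (e : PM n) * (f : PM n) = g) (s : Stt G) :
    act G f (act G e s) = act G g s := by
  by_cases he : (e : PM n) = 1
  · have : g = f := Subtype.ext (by rw [← hg, he, one_mul])
    rw [this, act_one he]
  by_cases hf : (f : PM n) = 1
  · have : g = e := Subtype.ext (by rw [← hg, hf, mul_one])
    rw [this, act_one hf]
  by_cases hr : n ≤ rk (g : PM n) + 1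
  · have hre : n ≤ rk (e : PM n) + 1 := by
      have : rk (g : PM n) ≤ rk (e : PM n) := by rw [← hg]; exact rk_mul_le_left _ _
      omega
    have hrf : n ≤ rk (f : PM n) + 1 := by
      have : rk (g : PM n) ≤ rk (f : PM n) := by rw [← hg]; exact rk_mul_le_right _ _
      omega
    cases s with
    | none => rfl
    | some s =>
      obtain ⟨l, y⟩ := s
      rcases basic_high e.2 f.2 hb (by rw [hg]; exact hr) with h | h
      · -- e * f = e
        have h1 : g = e := Subtype.ext (by rw [← hg, h])
        rw [h1]
        have hq : qt e = qt f := by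
          apply L_unique (e := (e : PM n)) (qt_spec he).1 (qt_spec hf).1 (qt_spec he).2 _ hre
          conv_lhs => rw [← h, mul_assoc, (qt_spec hf).2]
          exact h
        by_cases hl : Lk l (pt e)
        · rw [act_some he hre hl, act_some hf hrf (by rw [hq]; exact lk_self hf hrf), ← hq, phi_invol hG]
        · rw [act_none he hl]; rfl
      · -- e * f = f
        have h1 : g = f := Subtype.ext (by rw [← hg, h])
        rw [h1]
        have hp : pt e = pt f := by
          apply R_unique (e := (f : PM n)) (pt_spec he).1 (pt_spec hf).1 _ (pt_spec hf).2 hrf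
          conv_lhs => rw [← h, ← mul_assoc, (pt_spec he).2]
          exact h
        by_cases hl : Lk l (pt e)
        · rw [act_some he hre hl, act_some hf hrf (by rw [← hp]; exact lk_self he hre), ← hp, phi_invol hG,
            act_some hf hrf (by rw [← hp]; exact hl), ← hp]
        · rw [act_none he hl, act_none hf (by rw [← hp]; exact hl)]; rfl
  · rw [act_low hr]
    rcases rk_basic e.2 f.2 hb with h | h
    · rw [act_low (e := e)]
      · rfl
      · rw [hg] at h; rw [← h]; exact hr
    · rw [act_low (e := f)]
      rw [hg] at h; rw [← h]; exact hr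

/-- the representation -/
noncomputable def rho (G : List (Edg n)) (hG : List.IsChain (· ≠ ·) G) :
    IG (PM n) →* (Function.End (Stt G))ᵐᵒᵖ :=
  IG.lift (fun e => MulOpposite.op (act G e)) (by
    intro e f g hb hg
    apply MulOpposite.unop_injective
    funext s
    exact act_rel hG hb hg s)

theorem rho_mul {G : List (Edg n)} (hG : List.IsChain (· ≠ ·) G) (x y : IG (PM n)) (s : Stt G) :
    (rho G hG (x * y)).unop s = (rho G hG y).unop ((rho G hG x).unop s) := by
  rw [map_mul]; rfl

theorem rho_io {G : List (Edg n)} (hG : List.IsChain (· ≠ ·) G) (e : Idem (PM n)) (s : Stt G) :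
    (rho G hG (io e)).unop s = act G e s := by
  unfold rho
  rw [IG.lift_io]
  rfl

/-- path of a word -/
noncomputable def pe : List (Idem (PM n)) → List (Edg n)
  | [] => []
  | [e] => [(pt e, qt e)]
  | e :: f :: r => (pt e, qt e) :: (pt f, qt e) :: pe (f :: r)

/-- applying a path -/
noncomputable def phiL (G : List (Edg n)) (L : List (Edg n)) (y : Yv G) : Yv G :=
  L.foldl (fun y g => phi G g y) y

/-- a word all of whose letters have rank `n - 1` and with linked neighbours -/
def Mw (w : List (Idem (PM n))) : Prop :=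
  (∀ e ∈ w, (e : PM n) ≠ 1 ∧ n ≤ rk (e : PM n) + 1) ∧ List.IsChain (fun e f => Lk (qt e) (pt f)) w

theorem rho_word {G : List (Edg n)} (hG : List.IsChain (· ≠ ·) G) : ∀ (w : List (Idem (PM n))) (e : Idem (PM n)),
    Mw (e :: w) → ∀ (l : PM n) (y : Yv G), Lk l (pt e) →
      ∃ q, (rho G hG (mkw (e :: w))).unop (some (l, y)) = some (q, phiL G (pe (e :: w)) (phi G (pt e, l) y))
  | [], e, hw, l, y, hl => by
    have he := hw.1 e (by simp)
    refine ⟨qt e, ?_⟩
    have : mkw [e] = io e := rfl
    rw [this, rho_io, act_some he.1 he.2 hl]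
    rfl
  | f :: r, e, hw, l, y, hl => by
    have he := hw.1 e (by simp)
    have hf := hw.1 f (by simp)
    have hc := hw.2
    rw [List.isChain_cons_cons] at hc
    rw [mkw_cons, rho_mul, rho_io, act_some he.1 he.2 hl]
    obtain ⟨q, hq⟩ := rho_word hG r f ⟨fun x hx => hw.1 x (by simp [hx]), hc.2⟩ (qt e)
      (phi G (pt e, qt e) (phi G (pt e, l) y)) hc.1
    refine ⟨q, ?_⟩
    rw [hq]
    rfl

/-- starting vector -/
def y0 (G : List (Edg n)) : Yv G := fun j => if j.val = 0 then 1 else 0

open Classical in
theorem phiL_count (G : List (Edg n)) (L : List (Edg n)) :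
    ∀ j : Fin (G.length + 1), (L.length < j.val → phiL G L (y0 G) j = 0) ∧
      (L.length = j.val → phiL G L (y0 G) j = if L = G.take j.val then 1 else 0) := by
  induction L using List.reverseRecOn with
  | nil =>
    intro j
    constructor
    · intro h
      have h1 : j.val ≠ 0 := by simp at h; omega
      show y0 G j = 0
      unfold y0; rw [if_neg h1]
    · intro h
      have h1 : j.val = 0 := by simp at h; omega
      show y0 G j = _
      unfold y0; rw [if_pos h1, h1]; simp
  | append_singleton L g ih =>
    intro j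
    have hs : phiL G (L ++ [g]) (y0 G) = phi G g (phiL G L (y0 G)) := by
      unfold phiL; rw [List.foldl_append]; rfl
    rw [hs]
    constructor
    · intro h
      rw [List.length_append, List.length_singleton] at h
      unfold phi
      rw [(ih j).1 (by omega)]
      by_cases hc : 0 < j.val ∧ G[j.val - 1]? = some g
      · rw [if_pos hc, (ih ⟨j.val - 1, by omega⟩).1 (by simp only; omega)]; simp
      · rw [if_neg hc]; simp
    · intro h
      rw [List.length_append, List.length_singleton] at h
      unfold phi
      rw [(ih j).1 (by omega), zero_add]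
      have hlt : j.val - 1 < G.length := by omega
      by_cases hc : 0 < j.val ∧ G[j.val - 1]? = some g
      · rw [if_pos hc, (ih ⟨j.val - 1, by omega⟩).2 (by simp only; omega)]
        have h1 : G.take j.val = G.take (j.val - 1) ++ [g] := by
          have h2 : j.val = (j.val - 1) + 1 := by omega
          conv_lhs => rw [h2]
          rw [List.take_add_one, hc.2]; rfl
        rw [h1]
        simp
      · rw [if_neg hc, if_neg]
        intro h1
        apply hc
        refine ⟨by omega, ?_⟩
        have h2 : (L ++ [g])[j.val - 1]? = some g := by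
          rw [List.getElem?_append_right (by omega)]
          have : j.val - 1 - L.length = 0 := by omega
          rw [this]; rfl
        rw [h1, List.getElem?_take] at h2
        rw [if_pos (by omega)] at h2
        exact h2

theorem pe_length : ∀ w : List (Idem (PM n)), w ≠ [] → (pe w).length + 1 = 2 * w.length
  | [], h => absurd rfl h
  | [e], _ => by simp [pe]
  | e :: f :: r, _ => by
    have := pe_length (f :: r) (by simp)
    simp only [pe, List.length_cons] at this ⊢
    omega

theorem pe_inj : ∀ (w w' : List (Idem (PM n))), (∀ e ∈ w, (e : PM n) ≠ 1 ∧ n ≤ rk (e : PM n) + 1) →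
    (∀ e ∈ w', (e : PM n) ≠ 1 ∧ n ≤ rk (e : PM n) + 1) → pe w = pe w' → w = w'
  | [], [], _, _, _ => rfl
  | [], [e], _, _, h => by simp [pe] at h
  | [], e :: f :: r, _, _, h => by simp [pe] at h
  | [e], [], _, _, h => by simp [pe] at h
  | [e], [e'], hw, hw', h => by
    simp only [pe, List.cons.injEq, Prod.mk.injEq, and_true] at h
    have h1 := hw e (by simp)
    have h2 := hw' e' (by simp)
    have : e = e' := Subtype.ext (by rw [eq_pt_qt h1.1 h1.2, eq_pt_qt h2.1 h2.2, h.1, h.2])
    rw [this]
  | [e], e' :: f' :: r', _, _, h => by simp [pe] at h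
  | e :: f :: r, [], _, _, h => by simp [pe] at h
  | e :: f :: r, [e'], _, _, h => by simp [pe] at h
  | e :: f :: r, e' :: f' :: r', hw, hw', h => by
    simp only [pe, List.cons.injEq, Prod.mk.injEq] at h
    obtain ⟨⟨h1, h2⟩, ⟨h3, h4⟩, h5⟩ := h
    have h6 := hw e (by simp)
    have h7 := hw' e' (by simp)
    have h8 : e = e' := Subtype.ext (by rw [eq_pt_qt h6.1 h6.2, eq_pt_qt h7.1 h7.2, h1, h2])
    have h9 := pe_inj (f :: r) (f' :: r') (fun x hx => hw x (by simp [hx])) (fun x hx => hw' x (by simp [hx])) h5
    rw [h8, h9]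

theorem pt_ne {d e : Idem (PM n)} (hd : (d : PM n) ≠ 1) (he : (e : PM n) ≠ 1) (hrd : n ≤ rk (d : PM n) + 1)
    (h : (d : PM n) * (e : PM n) ≠ e) : pt d ≠ pt e := by
  intro hp
  apply h
  have a1 := (pt_spec hd).1.rk_lt
  have h1 := (pt_spec hd).2
  have b1 : rk (d : PM n) ≤ rk (pt d) := by conv_lhs => rw [← h1]
                                            exact rk_mul_le_left _ _
  obtain ⟨w, hw⟩ := ex_right (pt d) (d : PM n) (by rw [h1]; omega)
  rw [h1] at hw
  calc (d : PM n) * (e : PM n) = (d : PM n) * (pt d * e) := by rw [hp, (pt_spec he).2]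
    _ = (d : PM n) * ((d : PM n) * w * e) := by rw [hw]
    _ = ((d : PM n) * (d : PM n)) * w * e := by simp only [mul_assoc]
    _ = pt d * e := by rw [d.mul_self, hw]
    _ = e := by rw [hp, (pt_spec he).2]

theorem qt_ne {d e : Idem (PM n)} (hd : (d : PM n) ≠ 1) (he : (e : PM n) ≠ 1) (hre : n ≤ rk (e : PM n) + 1)
    (h : (d : PM n) * (e : PM n) ≠ d) : qt d ≠ qt e := by
  intro hq
  apply h
  have a1 := (qt_spec he).1.rk_lt
  have h1 := (qt_spec he).2
  have b1 : rk (e : PM n) ≤ rk (qt e) := by conv_lhs => rw [← h1]
                                            exact rk_mul_le_right _ _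
  obtain ⟨w, hw⟩ := ex_left (e : PM n) (qt e) (by rw [h1]; omega)
  rw [h1] at hw
  calc (d : PM n) * (e : PM n) = ((d : PM n) * qt e) * e := by rw [← hq, (qt_spec hd).2]
    _ = (d : PM n) * (w * e) * e := by rw [hw]
    _ = (d : PM n) * w * ((e : PM n) * e) := by simp only [mul_assoc]
    _ = (d : PM n) * qt e := by rw [e.mul_self, mul_assoc, hw]
    _ = d := by rw [← hq, (qt_spec hd).2]

/-- reduced words -/
def Rw (w : List (Idem (PM n))) : Prop :=
  List.IsChain (fun d e : Idem (PM n) => (d : PM n) * (e : PM n) ≠ d ∧ (d : PM n) * (e : PM n) ≠ e) w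

theorem pe_chain : ∀ w : List (Idem (PM n)), (∀ e ∈ w, (e : PM n) ≠ 1 ∧ n ≤ rk (e : PM n) + 1) → Rw w →
    List.IsChain (· ≠ ·) (pe w)
  | [], _, _ => by simp [pe]
  | [e], _, _ => by simp [pe]
  | [e, f], hw, hr => by
    have he := hw e (by simp)
    have hf := hw f (by simp)
    have hc := hr
    unfold Rw at hc
    rw [List.isChain_cons_cons] at hc
    simp only [pe]
    rw [List.isChain_cons_cons, List.isChain_cons_cons]
    refine ⟨?_, ?_, by simp⟩
    · intro h
      exact pt_ne he.1 hf.1 he.2 hc.1.2 (congrArg Prod.fst h)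
    · intro h
      exact qt_ne he.1 hf.1 hf.2 hc.1.1 (congrArg Prod.snd h)
  | e :: f :: g :: r, hw, hr => by
    have he := hw e (by simp)
    have hf := hw f (by simp)
    have hc := hr
    unfold Rw at hc
    rw [List.isChain_cons_cons] at hc
    have ih := pe_chain (f :: g :: r) (fun x hx => hw x (by simp [hx])) hc.2
    simp only [pe] at ih ⊢
    rw [List.isChain_cons_cons, List.isChain_cons_cons]
    refine ⟨?_, ?_, ih⟩
    · intro h
      exact pt_ne he.1 hf.1 he.2 hc.1.2 (congrArg Prod.fst h)
    · intro h
      exact qt_ne he.1 hf.1 hf.2 hc.1.1 (congrArg Prod.snd h)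

end Pool.Agent.H213
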