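import Pool.Agent.helper213_IG.RF3

/-!
# Separation in rank `n - 1`
-/

namespace Pool.Agent.H213

open RkMonoid PM Relation

variable {n : ℕ}

theorem sep_aux {e e' : Idem (PM n)} {w w' : List (Idem (PM n))} (hw : Mw (e :: w)) (hw' : Mw (e' :: w'))
    (hR : Rw (e :: w)) (hp : pt e = pt e') (hne : e :: w ≠ e' :: w')
    (hl : (pe (e' :: w')).length ≤ (pe (e :: w)).length) :
    ∃ (F : Type) (_ : Monoid F) (_ : Finite F) (ρ : IG (PM n) →* F), ρ (mkw (e :: w)) ≠ ρ (mkw (e' :: w')) := by
  classical
  set G := pe (e :: w) with hGdef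
  have hG : List.IsChain (· ≠ ·) G := pe_chain _ hw.1 hR
  refine ⟨(Function.End (Stt G))ᵐᵒᵖ, inferInstance, ?_, rho G hG, ?_⟩
  · have : Finite (Function.End (Stt G)) := inferInstanceAs (Finite (Stt G → Stt G))
    exact Finite.of_injective MulOpposite.unop MulOpposite.unop_injective
  · intro h
    have he := hw.1 e (by simp)
    have hlk : Lk (qt e) (pt e) := lk_self he.1 he.2
    obtain ⟨q, hq⟩ := rho_word hG w e hw (qt e) (phi G (pt e, qt e) (y0 G)) hlk
    obtain ⟨q', hq'⟩ := rho_word hG w' e' hw' (qt e) (phi G (pt e, qt e) (y0 G)) (by rw [← hp]; exact hlk)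
    rw [h, hq', ← hp, phi_invol hG] at hq
    have h1 := congrArg Prod.snd (Option.some.inj hq)
    simp only at h1
    have h2 := congrFun h1 ⟨G.length, by omega⟩
    have c1 := (phiL_count G G ⟨G.length, by omega⟩).2 rfl
    rw [← hGdef] at h2
    simp only [List.take_length, if_true] at c1
    rw [c1] at h2
    rcases lt_or_eq_of_le hl with hlt | heq
    · have c2 := (phiL_count G (pe (e' :: w')) ⟨G.length, by omega⟩).1 hlt
      rw [c2] at h2
      exact absurd h2 (by decide)
    · have c2 := (phiL_count G (pe (e' :: w')) ⟨G.length, by omega⟩).2 heq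
      simp only [List.take_length] at c2
      rw [if_neg] at c2
      · rw [c2] at h2
        exact absurd h2 (by decide)
      · intro h3
        exact hne (pe_inj _ _ hw.1 hw'.1 h3.symm)

theorem redSt_iff : ∀ st : List (Idem (PM n)), RedSt st ↔
    List.IsChain (fun e d : Idem (PM n) => (d : PM n) * (e : PM n) ≠ d ∧ (d : PM n) * (e : PM n) ≠ e) st
  | [] => by simp [RedSt]
  | [_] => by simp [RedSt]
  | e :: d :: r => by
    rw [List.isChain_cons_cons, ← redSt_iff (d :: r)]
    simp only [RedSt, and_assoc]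

theorem vl_infix {w p q : List (Idem (PM n))} {e f : Idem (PM n)} (h : w = p ++ [e, f] ++ q) :
    rk (vl w) ≤ rk ((e : PM n) * (f : PM n)) := by
  rw [h, vl_append, vl_append]
  have : vl [e, f] = (e : PM n) * (f : PM n) := by simp
  rw [this]
  exact (rk_mul_le_left _ _).trans (rk_mul_le_right _ _)

theorem mw_of_red {w : List (Idem (PM n))} (hR : Rw w) (hr : n ≤ rk (vl w) + 1) (hlt : rk (vl w) + 1 ≤ n) :
    Mw w := by
  have hsplit : ∀ i (h : i + 1 < w.length), w = w.take i ++ [w[i], w[i + 1]] ++ w.drop (i + 2) := by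
    intro i h
    have h1 : w.drop i = w[i] :: w.drop (i + 1) := List.drop_eq_getElem_cons (by omega)
    have h2 : w.drop (i + 1) = w[i + 1] :: w.drop (i + 2) := List.drop_eq_getElem_cons h
    conv_lhs => rw [← List.take_append_drop i w, h1, h2]
    simp
  have hone : ∀ e ∈ w, (e : PM n) ≠ 1 := by
    intro e he h1
    obtain ⟨i, hi, rfl⟩ := List.getElem_of_mem he
    unfold Rw at hR
    rw [List.isChain_iff_getElem] at hR
    by_cases h2 : i + 1 < w.length
    · have := (hR i h2).2
      apply this
      rw [h1, one_mul]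
    · by_cases h3 : 0 < i
      · have h4 := (hR (i - 1) (by omega)).1
        have h5 : w[i - 1 + 1]'(by omega) = w[i] := by congr 1; omega
        apply h4
        rw [h5, h1, mul_one]
      · have h4 : i = 0 := by omega
        subst h4
        have h6 : w = [w[0]] := by
          apply List.ext_getElem
          · simp; omega
          · intro j hj1 hj2
            simp at hj2
            subst hj2
            simp
        have h7 : vl w = 1 := by
          rw [h6]
          simp only [vl_cons, vl_nil, mul_one]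
          exact h1
        rw [h7, rk_one] at hlt
        omega
  refine ⟨fun e he => ⟨hone e he, ?_⟩, ?_⟩
  · have := rk_vl_le he
    omega
  · rw [List.isChain_iff_getElem]
    intro i h
    have h1 := vl_infix (hsplit i h)
    have e1 := hone w[i] (List.getElem_mem _)
    have e2 := hone w[i + 1] (List.getElem_mem _)
    rw [lk_iff e1 e2]
    · omega
    · have := rk_vl_le (List.getElem_mem (l := w) (n := i) (by omega))
      omega
    · have := rk_vl_le (List.getElem_mem (l := w) (n := i + 1) (by omega))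
      omega

/-- Distinct elements of rank `n - 1` with the same value are separated by a finite monoid. -/
theorem mid_sep {r s : List (Idem (PM n))} (hr : n ≤ rk (vl r) + 1) (hlt : rk (vl r) + 1 ≤ n)
    (hv : vl r = vl s) (hne : mkw r ≠ mkw s) :
    ∃ (F : Type) (_ : Monoid F) (_ : Finite F) (ρ : IG (PM n) →* F), ρ (mkw r) ≠ ρ (mkw s) := by
  have key : ∀ u : List (Idem (PM n)), vl u = vl r → ∃ (e : Idem (PM n)) (w : List (Idem (PM n))),
      mkw (e :: w) = mkw u ∧ Mw (e :: w) ∧ Rw (e :: w) ∧ vl (e :: w) = vl r := by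
    intro u hu
    have h1 : mkw (nf u).reverse = mkw u := nf_sound u
    have h2 : vl (nf u).reverse = vl r := by rw [vl_eq, h1, ← vl_eq, hu]
    have h3 : Rw (nf u).reverse := by
      unfold Rw
      rw [List.isChain_reverse]
      exact (redSt_iff _).1 (redSt_foldl u [] trivial)
    have h4 : Mw (nf u).reverse := mw_of_red h3 (by rw [h2]; exact hr) (by rw [h2]; exact hlt)
    cases hw : (nf u).reverse with
    | nil =>
      rw [hw, vl_nil] at h2
      rw [← h2, rk_one] at hlt
      omega
    | cons e w =>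
      rw [hw] at h1 h2 h3 h4
      exact ⟨e, w, h1, h4, h3, h2⟩
  obtain ⟨e, w, a1, a2, a3, a4⟩ := key r rfl
  obtain ⟨e', w', b1, b2, b3, b4⟩ := key s hv.symm
  rw [← a1, ← b1]
  have hne' : e :: w ≠ e' :: w' := by
    intro h
    apply hne
    rw [← a1, ← b1, h]
  have hp : pt e = pt e' := by
    apply R_unique (e := vl r) (pt_spec (a2.1 e (by simp)).1).1 (pt_spec (b2.1 e' (by simp)).1).1 _ _ hr
    · rw [← a4, vl_cons, ← mul_assoc, (pt_spec (a2.1 e (by simp)).1).2]
    · rw [← b4, vl_cons, ← mul_assoc, (pt_spec (b2.1 e' (by simp)).1).2]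
  rcases le_total (pe (e' :: w')).length (pe (e :: w)).length with h | h
  · exact sep_aux a2 b2 a3 hp hne' h
  · obtain ⟨F, i1, i2, ρ, h1⟩ := sep_aux b2 a2 b3 hp.symm hne'.symm h
    exact ⟨F, i1, i2, ρ, h1.symm⟩

/-- the identity as an idempotent -/
def oneI : Idem (PM n) := ⟨1, mul_one 1⟩

/-- Regular words of rank `n` represent the same element. -/
theorem top_eq {r s : List (Idem (PM n))} (hr : RegW r) (hs : RegW s) (h1 : n ≤ rk (vl r))
    (h2 : n ≤ rk (vl s)) : mkw r = mkw s := by
  have key : ∀ u : List (Idem (PM n)), n ≤ rk (vl u) → u ≠ [] → mkw u = io oneI := by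
    intro u
    induction u with
    | nil => intro _ h; exact absurd rfl h
    | cons a u ih =>
      intro h _
      have ha : (a : PM n) = 1 := eq_one_of_rk a.2 (h.trans (rk_vl_le (by simp)))
      have ha' : a = oneI := Subtype.ext ha
      have hu : n ≤ rk (vl u) := by
        rw [vl_cons] at h
        exact h.trans (rk_mul_le_right _ _)
      rw [mkw_cons, ha']
      by_cases hu' : u = []
      · rw [hu', mkw_nil, mul_one]
      · rw [ih hu hu']; exact io_mul_self _
  rw [key r h1 hr.ne_nil, key s h2 hs.ne_nil]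

/-- For any two words there is a finite monoid separating them if they are distinct regular words of
the same value and rank at least `n - 1`. -/
theorem mid_sep' (r s : List (Idem (PM n))) :
    ∃ (F : Type) (_ : Monoid F) (_ : Finite F) (ρ : IG (PM n) →* F), RegW r → RegW s → n ≤ rk (vl r) + 1 →
      vl r = vl s → ρ (mkw r) = ρ (mkw s) → mkw r = mkw s := by
  by_cases h : RegW r ∧ RegW s ∧ n ≤ rk (vl r) + 1 ∧ vl r = vl s ∧ mkw r ≠ mkw s
  · obtain ⟨h1, h2, h3, h4, h5⟩ := h
    by_cases hlt : rk (vl r) + 1 ≤ n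
    · obtain ⟨F, i1, i2, ρ, h6⟩ := mid_sep h3 hlt h4 h5
      exact ⟨F, i1, i2, ρ, fun _ _ _ _ h7 => absurd h7 h6⟩
    · exact absurd (top_eq h1 h2 (by omega) (by rw [← h4]; omega)) h5
  · refine ⟨Unit, inferInstance, inferInstance, 1, fun h1 h2 h3 h4 _ => ?_⟩
    by_contra h5
    exact h ⟨h1, h2, h3, h4, h5⟩

end Pool.Agent.H213
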