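import Pool.Agent.helper213_IG.Chain

/-!
# Recognizable saturated sets of products of regular elements
-/

namespace Pool.Agent.H213

open RkMonoid Relation

section General

variable {S : Type} [RkMonoid S]

/-- reduced lists of regular elements -/
def RL (X : List (IG S)) : Prop :=
  (∀ x ∈ X, Reg x) ∧ List.IsChain (fun x y : IG S => NR (val x) (val y)) X

theorem word_of_reg {x : IG S} (h : Reg x) : ∃ w, RegW w ∧ mkw w = x := by
  obtain ⟨f, h1, h2⟩ := h
  obtain ⟨w, hw⟩ := mkw_surj x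
  have h3 : mkw (f :: w) = x := by rw [mkw_cons, hw, h1]
  refine ⟨f :: w, ⟨f, by simp, ?_⟩, h3⟩
  rw [vl_eq, h3, h2]

theorem words_of_reg : ∀ (X : List (IG S)), (∀ x ∈ X, Reg x) → ∃ U : List (List (Idem S)),
    (∀ u ∈ U, RegW u) ∧ U.map mkw = X
  | [], _ => ⟨[], by simp, rfl⟩
  | x :: X, h => by
    obtain ⟨w, h1, h2⟩ := word_of_reg (h x (by simp))
    obtain ⟨U, h3, h4⟩ := words_of_reg X (fun y hy => h y (by simp [hy]))
    refine ⟨w :: U, ?_, by rw [List.map_cons, h2, h4]⟩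
    intro u hu
    rcases List.mem_cons.1 hu with rfl | hu
    · exact h1
    · exact h3 u hu

theorem redW_iff (U : List (List (Idem S))) (hU : ∀ u ∈ U, RegW u) : RedW U ↔ RL (U.map mkw) := by
  unfold RedW RL
  rw [List.isChain_map]
  constructor
  · rintro ⟨_, h2⟩
    refine ⟨?_, ?_⟩
    · intro x hx
      obtain ⟨u, hu, rfl⟩ := List.mem_map.1 hx
      exact (hU u hu).reg
    · apply h2.imp
      intro a b hab
      rw [← vl_eq, ← vl_eq]; exact hab
  · rintro ⟨_, h2⟩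
    refine ⟨hU, ?_⟩
    apply h2.imp
    intro a b hab
    rw [← vl_eq, ← vl_eq] at hab; exact hab

theorem words_of_RL {X : List (IG S)} (h : RL X) : ∃ U : List (List (Idem S)), RedW U ∧ U.map mkw = X := by
  obtain ⟨U, h1, h2⟩ := words_of_reg X h.1
  exact ⟨U, (redW_iff U h1).2 (by rw [h2]; exact h), h2⟩

theorem eqv_of_prod {X Y : List (IG S)} (hX : RL X) (hY : RL Y) (h : X.prod = Y.prod) :
    EqvGen MvStep X Y := by
  obtain ⟨U, h1, rfl⟩ := words_of_RL hX
  obtain ⟨V, h2, rfl⟩ := words_of_RL hY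
  rw [← mkw_flatten, ← mkw_flatten] at h
  have h3 := red_of_eqvGen (mkw_eq_iff.1 h)
  have h4 := red_unique h1 (redF_spec U.flatten).1 (redF_spec U.flatten).2.symm
  have h5 := red_unique (redF_spec V.flatten).1 h2 (redF_spec V.flatten).2
  exact EqvGen.trans _ _ _ h4 (EqvGen.trans _ _ _ h3 h5)

theorem mv_prod {X Y : List (IG S)} (h : EqvGen MvStep X Y) : X.prod = Y.prod ∧ X.length = Y.length := by
  induction h with
  | rel X Y h =>
    obtain ⟨l, r, x, y, e, _, _, _, _, rfl, rfl⟩ := h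
    simp [mul_assoc]
  | refl x => exact ⟨rfl, rfl⟩
  | symm x y _ ih => exact ⟨ih.1.symm, ih.2.symm⟩
  | trans x y z _ _ ih1 ih2 => exact ⟨ih1.1.trans ih2.1, ih1.2.trans ih2.2⟩

variable {F : Type} [Monoid F] (ψ : IG S →* F)

/-- entrywise congruence of lists of regular elements -/
def Eqs (X Y : List (IG S)) : Prop := List.Forall₂ (fun x y => Reg x ∧ Reg y ∧ ψ x = ψ y) X Y

variable {ψ}

theorem Eqs.symm {X Y : List (IG S)} (h : Eqs ψ X Y) : Eqs ψ Y X := by
  induction h with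
  | nil => exact List.Forall₂.nil
  | cons h _ ih => exact List.Forall₂.cons ⟨h.2.1, h.1, h.2.2.symm⟩ ih

theorem Eqs.trans {X Y Z : List (IG S)} (h : Eqs ψ X Y) (h' : Eqs ψ Y Z) : Eqs ψ X Z := by
  induction h generalizing Z with
  | nil => exact h'
  | cons h _ ih =>
    cases h' with
    | cons h1 h2 => exact List.Forall₂.cons ⟨h.1, h1.2.1, h.2.2.trans h1.2.2⟩ (ih h2)

theorem Eqs.rfl' {X : List (IG S)} (h : ∀ x ∈ X, Reg x) : Eqs ψ X X := by
  induction X with
  | nil => exact List.Forall₂.nil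
  | cons x X ih =>
    exact List.Forall₂.cons ⟨h x (by simp), h x (by simp), rfl⟩ (ih (fun y hy => h y (by simp [hy])))

theorem Eqs.length {X Y : List (IG S)} (h : Eqs ψ X Y) : X.length = Y.length := List.Forall₂.length_eq h

theorem Eqs.append {X Y X' Y' : List (IG S)} (h : Eqs ψ X Y) (h' : Eqs ψ X' Y') : Eqs ψ (X ++ X') (Y ++ Y') := by
  induction h with
  | nil => exact h'
  | cons h _ ih => exact List.Forall₂.cons h ih

theorem Eqs.split {l : List (IG S)} : ∀ {X r : List (IG S)} {p q : IG S}, Eqs ψ X (l ++ [p, q] ++ r) →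
    ∃ l1 a b r1, X = l1 ++ [a, b] ++ r1 ∧ Eqs ψ l1 l ∧ (Reg a ∧ ψ a = ψ p) ∧ (Reg b ∧ ψ b = ψ q) ∧ Eqs ψ r1 r := by
  induction l with
  | nil =>
    intro X r p q h
    cases h with
    | cons h1 h2 =>
      cases h2 with
      | cons h3 h4 =>
        exact ⟨[], _, _, _, rfl, List.Forall₂.nil, ⟨h1.1, h1.2.2⟩, ⟨h3.1, h3.2.2⟩, h4⟩
  | cons x l ih =>
    intro X r p q h
    cases h with
    | cons h1 h2 =>
      obtain ⟨l1, a, b, r1, rfl, a1, a2, a3, a4⟩ := ih h2
      exact ⟨_ :: l1, a, b, r1, rfl, List.Forall₂.cons h1 a1, a2, a3, a4⟩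

variable (hψ : ∀ x y : IG S, ψ x = ψ y → val x = val y)

include hψ

theorem lift_psi_left {x : IG S} (hx : Reg x) {e : Idem S} (hr : rk (val x * (e : S)) = rk (val x)) {a : IG S}
    (ha : Reg a) (h : ψ a = ψ (x * io e)) : ∃ a1, Reg a1 ∧ ψ a1 = ψ x ∧ a1 * io e = a := by
  obtain ⟨k, u, hk1, hk2, hk3⟩ := hx.exists_k hr
  have hek : (e : S) * (k : S) = k := by rw [hk1, ← mul_assoc, ← mul_assoc, e.mul_self]
  have hva : val a = val x * (e : S) := by rw [hψ _ _ h, map_mul, val_io]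
  have hxk : val x * (k : S) = val x := by
    have := congrArg val hk2
    simpa using this
  refine ⟨a * io k, ?_, ?_, ?_⟩
  · apply ha.mul_io
    rw [hva, mul_assoc, hek, hxk, hr]
  · rw [map_mul, h, ← map_mul, mul_assoc, io_mul_right hek, hk2]
  · have hb : Basic (k : S) (e : S) := Or.inr (Or.inr (Or.inl hek))
    rw [mul_assoc, io_bmul k e hb]
    apply ha.g2
    show val a * ((k : S) * (e : S)) = val a
    rw [hva, ← mul_assoc, mul_assoc (val x), hek, hxk]

theorem lift_psi_right {y : IG S} (hy : Reg y) {e : Idem S} (hr : rk ((e : S) * val y) = rk (val y)) {b : IG S}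
    (hb : Reg b) (h : ψ b = ψ (io e * y)) : ∃ b1, Reg b1 ∧ ψ b1 = ψ y ∧ io e * b1 = b := by
  obtain ⟨k, u, hk1, hk2, hk3⟩ := hy.exists_k' hr
  have hke : (k : S) * (e : S) = k := by rw [hk1, mul_assoc, e.mul_self]
  have hvb : val b = (e : S) * val y := by rw [hψ _ _ h, map_mul, val_io]
  have hky : (k : S) * val y = val y := by
    have := congrArg val hk2
    simpa using this
  refine ⟨io k * b, ?_, ?_, ?_⟩
  · apply hb.io_mul
    rw [hvb, ← mul_assoc, hke, hky, hr]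
  · rw [map_mul, h, ← map_mul, ← mul_assoc, io_mul_left hke, hk2]
  · have hbb : Basic (e : S) (k : S) := Or.inr (Or.inr (Or.inr hke))
    rw [← mul_assoc, io_bmul e k hbb]
    apply hb.g2'
    show (e : S) * (k : S) * val b = val b
    rw [hvb, ← mul_assoc, mul_assoc (e : S), hke, mul_assoc, hky]

theorem eqs_mv {X' Y : List (IG S)} (h : EqvGen MvStep X' Y) :
    (∀ X, Eqs ψ X X' → ∃ Z, EqvGen MvStep X Z ∧ Eqs ψ Z Y) ∧
    (∀ X, Eqs ψ X Y → ∃ Z, EqvGen MvStep X Z ∧ Eqs ψ Z X') := by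
  induction h with
  | rel X' Y h =>
    obtain ⟨l, r, x, y, e, hx, hy, h3, h4, rfl, rfl⟩ := h
    constructor
    · intro X hX
      obtain ⟨l1, a, b, r1, rfl, a1, ⟨a2, a3⟩, ⟨a4, a5⟩, a6⟩ := hX.split
      obtain ⟨c, c1, c2, c3⟩ := lift_psi_left hψ hx h3 a2 a3
      have hvc : val c = val x := hψ _ _ c2
      have hvb : val b = val y := hψ _ _ a5
      refine ⟨l1 ++ [c, io e * b] ++ r1, EqvGen.rel _ _ ⟨l1, r1, c, b, e, c1, a4, by rw [hvc, h3],
        by rw [hvb, h4], by rw [c3], rfl⟩, ?_⟩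
      refine (a1.append (List.Forall₂.cons ⟨c1, hx, c2⟩ (List.Forall₂.cons ⟨a4.io_mul (by rw [hvb, h4]),
        hy.io_mul h4, by rw [map_mul, map_mul, a5]⟩ List.Forall₂.nil))).append a6
    · intro X hX
      obtain ⟨l1, a, b, r1, rfl, a1, ⟨a2, a3⟩, ⟨a4, a5⟩, a6⟩ := hX.split
      obtain ⟨c, c1, c2, c3⟩ := lift_psi_right hψ hy h4 a4 a5
      have hvc : val c = val y := hψ _ _ c2
      have hva : val a = val x := hψ _ _ a3
      refine ⟨l1 ++ [a * io e, c] ++ r1, EqvGen.symm _ _ (EqvGen.rel _ _ ⟨l1, r1, a, c, e, a2, c1,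
        by rw [hva, h3], by rw [hvc, h4], rfl, by rw [c3]⟩), ?_⟩
      refine (a1.append (List.Forall₂.cons ⟨a2.mul_io (by rw [hva, h3]), hx.mul_io h3,
        by rw [map_mul, map_mul, a3]⟩ (List.Forall₂.cons ⟨c1, hy, c2⟩ List.Forall₂.nil))).append a6
  | refl x => exact ⟨fun X h => ⟨X, EqvGen.refl _, h⟩, fun X h => ⟨X, EqvGen.refl _, h⟩⟩
  | symm x y _ ih => exact ⟨ih.2, ih.1⟩
  | trans x y z _ _ ih1 ih2 =>
    constructor
    · intro X hX
      obtain ⟨Z, h1, h2⟩ := ih1.1 X hX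
      obtain ⟨Z', h3, h4⟩ := ih2.1 Z h2
      exact ⟨Z', EqvGen.trans _ _ _ h1 h3, h4⟩
    · intro X hX
      obtain ⟨Z, h1, h2⟩ := ih2.2 X hX
      obtain ⟨Z', h3, h4⟩ := ih1.2 Z h2
      exact ⟨Z', EqvGen.trans _ _ _ h1 h3, h4⟩

theorem RL.eqs {X Y : List (IG S)} (hX : RL X) (h : Eqs ψ X Y) : RL Y := by
  have key : ∀ X Y : List (IG S), Eqs ψ X Y → (∀ y ∈ Y, Reg y) ∧ X.map val = Y.map val := by
    intro X Y h
    induction h with
    | nil => exact ⟨by simp, rfl⟩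
    | cons h _ ih =>
      refine ⟨?_, ?_⟩
      · intro y hy
        rcases List.mem_cons.1 hy with rfl | hy
        · exact h.2.1
        · exact ih.1 y hy
      · rw [List.map_cons, List.map_cons, ih.2, hψ _ _ h.2.2]
  obtain ⟨h1, h2⟩ := key X Y h
  refine ⟨h1, ?_⟩
  have h3 := hX.2
  rw [← List.isChain_map (R := fun a b : S => NR a b) val] at h3 ⊢
  rw [← h2]; exact h3

omit hψ
variable (ψ)

/-- the elements which are products of regular elements congruent to the given ones -/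
def Lz (X0 : List (IG S)) (z : IG S) : Prop := ∃ X', Eqs ψ X0 X' ∧ X'.prod = z

variable {ψ}
include hψ

theorem mem_Lz_iff {X0 : List (IG S)} (hX0 : RL X0) (w : List (Idem S)) :
    Lz ψ X0 (mkw w) ↔ ∃ V, RedW V ∧ V.flatten = w ∧ V.length = X0.length ∧
      ∃ Y', Eqs ψ (V.map mkw) Y' ∧ Y'.prod = X0.prod := by
  constructor
  · rintro ⟨X', h1, h2⟩
    have hX' := hX0.eqs hψ h1
    have hV := redF_spec w
    have hRL : RL ((redF w).map mkw) := (redW_iff _ hV.1.1).1 hV.1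
    have h3 : EqvGen MvStep ((redF w).map mkw) X' := eqv_of_prod hRL hX' (by
      rw [← mkw_flatten, hV.2, h2])
    obtain ⟨Z, h4, h5⟩ := (eqs_mv hψ (EqvGen.symm _ _ h3)).1 X0 h1
    have h6 := mv_prod h3
    refine ⟨redF w, hV.1, hV.2, ?_, Z, h5.symm, (mv_prod h4).1.symm⟩
    rw [h1.length, ← h6.2, List.length_map]
  · rintro ⟨V, h1, h2, h3, Y', h4, h5⟩
    have hRL : RL (V.map mkw) := (redW_iff _ h1.1).1 h1
    have hY' := hRL.eqs hψ h4
    have h6 : EqvGen MvStep Y' X0 := eqv_of_prod hY' hX0 h5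
    obtain ⟨Z, h7, h8⟩ := (eqs_mv hψ h6).1 (V.map mkw) h4
    refine ⟨Z, h8.symm, ?_⟩
    rw [← (mv_prod h7).1, ← mkw_flatten, h2]

end General

end Pool.Agent.H213
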