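import Pool.Agent.helper213_IG.RF5

/-!
# The finite quotient
-/

namespace Pool.Agent.H213

open RkMonoid Relation

section General

variable {S : Type} [RkMonoid S] {F : Type} [Monoid F] (ψ : IG S →* F)

/-- data of a word -/
def kap (w : List (Idem S)) : F × Set (Idem S) := (ψ (mkw w), {e | e ∈ w})

variable {ψ}

theorem kap_append {u v u' v' : List (Idem S)} (h1 : kap ψ u = kap ψ u') (h2 : kap ψ v = kap ψ v') :
    kap ψ (u ++ v) = kap ψ (u' ++ v') := by
  unfold kap at *
  have a1 := congrArg Prod.fst h1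
  have a2 := congrArg Prod.snd h1
  have b1 := congrArg Prod.fst h2
  have b2 := congrArg Prod.snd h2
  simp only at a1 a2 b1 b2
  apply Prod.ext
  · simp only [mkw_append, map_mul, a1, b1]
  · simp only
    ext e
    have c1 : e ∈ u ↔ e ∈ u' := Set.ext_iff.1 a2 e
    have c2 : e ∈ v ↔ e ∈ v' := Set.ext_iff.1 b2 e
    simp only [Set.mem_ofPred_eq, List.mem_append, c1, c2]

variable (ψ)

/-- data of all factorizations with at most `N` factors -/
def Th (N : ℕ) (w : List (Idem S)) : Set {l : List (F × Set (Idem S)) // l.length ≤ N} :=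
  {l | ∃ us : List (List (Idem S)), us.flatten = w ∧ us.map (kap ψ) = l.1}

variable {ψ}

theorem flatten_split {us : List (List (Idem S))} : ∀ {p w : List (Idem S)}, us ≠ [] → us.flatten = p ++ w →
    ∃ us1 x y us2, us = us1 ++ [x ++ y] ++ us2 ∧ us1.flatten ++ x = p ∧ y ++ us2.flatten = w := by
  induction us with
  | nil => intro p w h; exact absurd rfl h
  | cons u us ih =>
    intro p w _ h
    rw [List.flatten_cons, List.append_eq_append_iff] at h
    rcases h with ⟨a, h1, h2⟩ | ⟨a, h1, h2⟩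
    · -- p = u ++ a, us.flatten = a ++ w
      by_cases hus : us = []
      · subst hus
        simp only [List.flatten_nil] at h2
        have h3 := List.append_eq_nil_iff.1 h2.symm
        refine ⟨[], u, [], [], by simp, ?_, ?_⟩
        · rw [h1, h3.1]; simp
        · rw [h3.2]; simp
      · obtain ⟨us1, x, y, us2, e1, e2, e3⟩ := ih hus h2
        refine ⟨u :: us1, x, y, us2, by rw [e1]; simp, ?_, e3⟩
        rw [List.flatten_cons, List.append_assoc, e2, h1]
    · -- u = p ++ a, w = a ++ us.flatten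
      exact ⟨[], p, a, us, by simp [h1], by simp, h2.symm⟩

theorem Th_nil_mem {N : ℕ} {w : List (Idem S)} : (⟨[], by simp⟩ : {l : List (F × Set (Idem S)) // l.length ≤ N}) ∈
    Th ψ N w ↔ w = [] := by
  unfold Th
  constructor
  · rintro ⟨us, h1, h2⟩
    have : us = [] := List.map_eq_nil_iff.1 h2
    rw [← h1, this]; rfl
  · rintro rfl
    exact ⟨[], rfl, rfl⟩

theorem Th_left_aux {N : ℕ} {w w' : List (Idem S)} (h : Th ψ N w = Th ψ N w') (p : List (Idem S)) :
    Th ψ N (p ++ w) ⊆ Th ψ N (p ++ w') := by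
  rintro ⟨l, hl⟩ ⟨us, h1, h2⟩
  simp only at h2
  by_cases hus : us = []
  · subst hus
    simp only [List.flatten_nil] at h1
    have h3 := List.append_eq_nil_iff.1 h1.symm
    have h4 : w' = [] := by
      rw [← Th_nil_mem (ψ := ψ) (N := N), ← h, Th_nil_mem]; exact h3.2
    refine ⟨[], ?_, h2⟩
    rw [h3.1, h4]; rfl
  · obtain ⟨us1, x, y, us2, e1, e2, e3⟩ := flatten_split hus h1
    have hlen : (us.map (kap ψ)).length ≤ N := by rw [h2]; exact hl
    rw [e1] at hlen
    simp only [List.length_map, List.length_append, List.length_cons, List.length_nil] at hlen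
    have h5 : (⟨(y :: us2).map (kap ψ), by simp; omega⟩ : {l : List (F × Set (Idem S)) // l.length ≤ N}) ∈ Th ψ N w :=
      ⟨y :: us2, by rw [List.flatten_cons, e3], rfl⟩
    rw [h] at h5
    obtain ⟨vs, f1, f2⟩ := h5
    simp only at f2
    cases vs with
    | nil => simp at f2
    | cons y' us2' =>
      simp only [List.map_cons, List.cons.injEq] at f2
      refine ⟨us1 ++ [x ++ y'] ++ us2', ?_, ?_⟩
      · simp only [List.flatten_append, List.flatten_cons, List.flatten_nil, List.append_nil,
          List.append_assoc] at f1 e2 ⊢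
        rw [f1, ← e2]; simp
      · simp only
        rw [← h2, e1]
        simp only [List.map_append, List.map_cons, List.map_nil, f2.2]
        rw [kap_append (rfl : kap ψ x = kap ψ x) f2.1]

theorem Th_right_aux {N : ℕ} {w w' : List (Idem S)} (h : Th ψ N w = Th ψ N w') (p : List (Idem S)) :
    Th ψ N (w ++ p) ⊆ Th ψ N (w' ++ p) := by
  rintro ⟨l, hl⟩ ⟨us, h1, h2⟩
  simp only at h2
  by_cases hus : us = []
  · subst hus
    simp only [List.flatten_nil] at h1
    have h3 := List.append_eq_nil_iff.1 h1.symm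
    have h4 : w' = [] := by
      rw [← Th_nil_mem (ψ := ψ) (N := N), ← h, Th_nil_mem]; exact h3.1
    refine ⟨[], ?_, h2⟩
    rw [h3.2, h4]; rfl
  · obtain ⟨us1, x, y, us2, e1, e2, e3⟩ := flatten_split hus h1
    have hlen : (us.map (kap ψ)).length ≤ N := by rw [h2]; exact hl
    rw [e1] at hlen
    simp only [List.length_map, List.length_append, List.length_cons, List.length_nil] at hlen
    have h5 : (⟨(us1 ++ [x]).map (kap ψ), by simp; omega⟩ : {l : List (F × Set (Idem S)) // l.length ≤ N}) ∈ Th ψ N w :=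
      ⟨us1 ++ [x], by rw [List.flatten_append, ← e2]; simp, rfl⟩
    rw [h] at h5
    obtain ⟨vs, f1, f2⟩ := h5
    simp only [List.map_append, List.map_cons, List.map_nil] at f2
    obtain ⟨us1', r, rfl, g1, g2⟩ := List.map_eq_append_iff.1 f2
    obtain ⟨x', r', rfl, g3, g4⟩ := List.map_eq_cons_iff.1 g2
    have g5 : r' = [] := List.map_eq_nil_iff.1 g4
    subst g5
    refine ⟨us1' ++ [x' ++ y] ++ us2, ?_, ?_⟩
    · rw [← f1, ← e3]
      simp
    · simp only
      rw [← h2, e1]
      simp only [List.map_append, List.map_cons, List.map_nil, g1]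
      rw [kap_append g3 (rfl : kap ψ y = kap ψ y)]

theorem Th_congr {N : ℕ} {w w' : List (Idem S)} (h : Th ψ N w = Th ψ N w') (p q : List (Idem S)) :
    Th ψ N (p ++ w ++ q) = Th ψ N (p ++ w' ++ q) := by
  have h1 : Th ψ N (p ++ w) = Th ψ N (p ++ w') :=
    Set.Subset.antisymm (Th_left_aux h p) (Th_left_aux h.symm p)
  exact Set.Subset.antisymm (Th_right_aux h1 q) (Th_right_aux h1.symm q)

variable (hψ : ∀ x y : IG S, ψ x = ψ y → val x = val y)
include hψ

theorem kap_reg {u u' : List (Idem S)} (h : kap ψ u = kap ψ u') : vl u = vl u' ∧ (RegW u → RegW u') := by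
  have a1 := congrArg Prod.fst h
  have a2 := congrArg Prod.snd h
  unfold kap at a1 a2
  simp only at a1 a2
  have h1 : vl u = vl u' := by rw [vl_eq, vl_eq, hψ _ _ a1]
  refine ⟨h1, ?_⟩
  rintro ⟨e, he, hr⟩
  exact ⟨e, (Set.ext_iff.1 a2 e).1 he, by rw [← h1, hr]⟩

theorem Lz_of_Th {X0 : List (IG S)} (hX0 : RL X0) {w w' : List (Idem S)}
    (h : Th ψ X0.length w = Th ψ X0.length w') (hw : Lz ψ X0 (mkw w)) : Lz ψ X0 (mkw w') := by
  rw [mem_Lz_iff hψ hX0] at hw ⊢
  obtain ⟨V, h1, h2, h3, Y', h4, h5⟩ := hw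
  have h6 : (⟨V.map (kap ψ), by simp [h3]⟩ : {l : List (F × Set (Idem S)) // l.length ≤ X0.length}) ∈
      Th ψ X0.length w := ⟨V, h2, rfl⟩
  rw [h] at h6
  obtain ⟨V', f1, f2⟩ := h6
  simp only at f2
  have key : ∀ V V' : List (List (Idem S)), V'.map (kap ψ) = V.map (kap ψ) → (∀ u ∈ V, RegW u) →
      (∀ u ∈ V', RegW u) ∧ V'.map vl = V.map vl ∧ Eqs ψ (V'.map mkw) (V.map mkw) := by
    intro V
    induction V with
    | nil =>
      intro V' hV' _
      have : V' = [] := List.map_eq_nil_iff.1 hV'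
      subst this
      exact ⟨by simp, rfl, List.Forall₂.nil⟩
    | cons v V ih =>
      intro V' hV' hr
      cases V' with
      | nil => simp at hV'
      | cons v' V' =>
        simp only [List.map_cons, List.cons.injEq] at hV'
        obtain ⟨g1, g2, g3⟩ := ih V' hV'.2 (fun u hu => hr u (by simp [hu]))
        have g4 := kap_reg hψ hV'.1.symm
        have hv := hr v (by simp)
        have hv' := g4.2 hv
        refine ⟨?_, ?_, ?_⟩
        · intro u hu
          rcases List.mem_cons.1 hu with rfl | hu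
          · exact hv'
          · exact g1 u hu
        · rw [List.map_cons, List.map_cons, g2, g4.1]
        · exact List.Forall₂.cons ⟨hv'.reg, hv.reg, congrArg Prod.fst hV'.1⟩ g3
  obtain ⟨g1, g2, g3⟩ := key V V' f2 h1.1
  refine ⟨V', ⟨g1, ?_⟩, f1, ?_, Y', g3.trans h4, h5⟩
  · have h7 := h1.2
    rw [← List.isChain_map (R := fun a b : S => NR a b) vl] at h7 ⊢
    rw [g2]; exact h7
  · rw [← h3]
    have := congrArg List.length f2
    simpa using this

omit hψ
variable (ψ)

/-- the syntactic congruence -/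
def scon (X0 : List (IG S)) : Con (IG S) where
  r z z' := ∀ p q, Lz ψ X0 (p * z * q) ↔ Lz ψ X0 (p * z' * q)
  iseqv := ⟨fun _ _ _ => Iff.rfl, fun h p q => (h p q).symm, fun h h' p q => (h p q).trans (h' p q)⟩
  mul' := by
    intro a b c d h1 h2 p q
    have e1 := h1 p (c * q)
    have e2 := h2 (p * b) q
    simp only [mul_assoc] at e1 e2 ⊢
    exact e1.trans e2

variable {ψ}
include hψ

theorem scon_finite [Finite F] [Finite (Idem S)] {X0 : List (IG S)} (hX0 : RL X0) :
    Finite (scon ψ X0).Quotient := by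
  have hf : Finite {l : List (F × Set (Idem S)) // l.length ≤ X0.length} :=
    (List.finite_length_le (F × Set (Idem S)) X0.length)
  have hrep : ∀ t : (scon ψ X0).Quotient, ∃ w : List (Idem S), ((mkw w : IG S) : (scon ψ X0).Quotient) = t := by
    intro t
    obtain ⟨z, rfl⟩ := Quotient.exists_rep t
    obtain ⟨w, rfl⟩ := mkw_surj z
    exact ⟨w, rfl⟩
  choose g hg using hrep
  apply Finite.of_injective (fun t => Th ψ X0.length (g t))
  intro t t' h
  simp only at h
  rw [← hg t, ← hg t']
  apply (Con.eq _).2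
  intro p q
  obtain ⟨p', rfl⟩ := mkw_surj p
  obtain ⟨q', rfl⟩ := mkw_surj q
  rw [← mkw_append, ← mkw_append, ← mkw_append, ← mkw_append]
  exact ⟨fun h1 => Lz_of_Th hψ hX0 (Th_congr h p' q') h1,
    fun h1 => Lz_of_Th hψ hX0 (Th_congr h.symm p' q') h1⟩

/-- A finite monoid recognizing the set of products of congruent factors. -/
theorem exists_recognizer [Finite F] [Finite (Idem S)] {X0 : List (IG S)} (hX0 : RL X0) :
    ∃ (T : Type) (_ : Monoid T) (_ : Finite T) (τ : IG S →* T), ∀ z z', τ z = τ z' →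
      (Lz ψ X0 z ↔ Lz ψ X0 z') := by
  refine ⟨(scon ψ X0).Quotient, inferInstance, scon_finite hψ hX0, (scon ψ X0).mk', ?_⟩
  intro z z' h
  have h1 : (scon ψ X0) z z' := (Con.eq _).1 h
  have h2 := h1 1 1
  simpa using h2

end General

end Pool.Agent.H213
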