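import Pool.Agent.helper213_IG.RF4
import Pool.Agent.helper213_IG.RF6
import Pool.Agent.helper213_IG.Comp

/-!
# Separating two words by a finite monoid
-/

namespace Pool.Agent.H213

open RkMonoid PM Relation

variable {n : ℕ}

theorem nxt_mono {A' A : Set (PM n)} (hA : A' ⊆ A) (u y : PM n) {r r' : Prop} (hr : r' → r) :
    nxt A' u y r' ⊆ nxt A u y r := by
  rintro s' ⟨s, hs, h | ⟨h1, h2, h3⟩⟩
  · exact ⟨s, hA hs, Or.inl h⟩
  · exact ⟨s, hA hs, Or.inr ⟨h1, h2, hr h3⟩⟩

section Compare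

variable {F : Type} [Monoid F] {ψ : IG (PM n) →* F} {m : ℕ} {u v : Wd n}
  (hψ : ∀ x y : IG (PM n), ψ x = ψ y → val x = val y ∧ (m : ℤ) ∣ wx x - wx y)
  (hm : ∀ p q : Wd n, p <+: u → q <+: v → (m : ℤ) ∣ wx (mkw p) - wx (mkw q) → wx (mkw p) = wx (mkw q))
  (hρ : ∀ y ∈ redF u, ∀ a ∈ redF v, RegW y → RegW a → n ≤ rk (vl y) + 1 → vl y = vl a →
    ψ (mkw y) = ψ (mkw a) → mkw y = mkw a)

include hψ hm hρ

theorem rg_compare {p' p q a y y' : Wd n} (hp : p ++ y <+: u) (hq : q <+: v) (hy : y ∈ redF u)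
    (ha : a ∈ redF v) (hvp : vl p' = vl p) (hwp : (m : ℤ) ∣ wx (mkw p') - wx (mkw p))
    (hyy : ψ (mkw y) = ψ (mkw y')) (h : rg p' q a y') : rg p q a y := by
  obtain ⟨h1, h2⟩ := h
  obtain ⟨k1, k2⟩ := hψ _ _ hyy
  rw [← vl_eq, ← vl_eq] at k1
  constructor
  · rw [W_eq_iff_wx] at h1 ⊢
    apply hm _ _ hp hq
    rw [← h1, mkw_append, mkw_append, wx_mul, wx_mul, ← vl_eq, ← vl_eq, ← vl_eq, ← vl_eq, hvp, k1]
    have e : wx (mkw p) + wx (mkw y) + (tw (vl p) (vl y') : ℤ) -
        (wx (mkw p') + wx (mkw y') + (tw (vl p) (vl y') : ℤ)) =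
        (wx (mkw y) - wx (mkw y')) - (wx (mkw p') - wx (mkw p)) := by ring
    rw [e]
    exact dvd_sub k2 hwp
  · intro hr
    have h3 := h2 hr
    have h4 : mkw a = mkw y' := (mid_iff hr).2 h3
    have h5 : vl a = vl y' := by rw [vl_eq, h4, ← vl_eq]
    have h6 : mkw y = mkw a := by
      apply hρ y hy a ha ((redF_spec u).1.1 y hy) ((redF_spec v).1.1 a ha)
      · rw [k1, ← h5]; exact hr
      · rw [k1, h5]
      · rw [h4]; exact hyy
    exact (mid_iff hr).1 h6.symm

theorem DD_compare : ∀ (Y Y' us : List (Wd n)) (p' p q a : Wd n) (A' A : Set (PM n)),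
    q ++ us.flatten = v → p ++ Y.flatten = u → vl p' = vl p → (m : ℤ) ∣ wx (mkw p') - wx (mkw p) →
    List.Forall₂ (fun y y' => ψ (mkw y) = ψ (mkw y')) Y Y' → a ∈ redF v → (∀ x ∈ us, x ∈ redF v) →
    (∀ y ∈ Y, y ∈ redF u) → A' ⊆ A → DD us p' q A' a Y' → DD us p q A a Y
  | [], Y', us, p', p, q, a, A', A, _, _, _, _, hF, _, _, _, _, h => by
    cases hF
    cases us <;> exact absurd h (by simp [DD])
  | y :: Y, Y', us, p', p, q, a, A', A, hq, hp, hvp, hwp, hF, ha, hus, hY, hA, h => by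
    cases hF with
    | @cons _ y' _ Y' hyy hF =>
      have hpre : p ++ y <+: u := ⟨Y.flatten, by rw [← hp]; simp⟩
      have hpre2 : q <+: v := ⟨us.flatten, hq⟩
      have hrg := rg_compare hψ hm hρ hpre hpre2 (hY y (by simp)) ha hvp hwp hyy
      have hvy : vl y = vl y' := by
        have := (hψ _ _ hyy).1
        rwa [← vl_eq, ← vl_eq] at this
      cases us with
      | nil =>
        simp only [DD] at h ⊢
        obtain ⟨h1, h2, h3⟩ := h
        subst h1
        have : Y = [] := by cases hF; rfl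
        refine ⟨this, hA (hvy ▸ h2), hrg h3⟩
      | cons x us =>
        simp only [DD] at h ⊢
        refine DD_compare Y Y' us (p' ++ y') (p ++ y) (q ++ x) x _ _ ?_ ?_ ?_ ?_ hF (hus x (by simp))
          (fun z hz => hus z (by simp [hz])) (fun z hz => hY z (by simp [hz])) ?_ h
        · rw [← hq]; simp
        · rw [← hp]; simp
        · rw [vl_append, vl_append, hvp, hvy]
        · rw [mkw_append, mkw_append, wx_mul, wx_mul, ← vl_eq, ← vl_eq, ← vl_eq, ← vl_eq, hvp, hvy]
          have e : wx (mkw p') + wx (mkw y') + (tw (vl p) (vl y') : ℤ) -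
              (wx (mkw p) + wx (mkw y) + (tw (vl p) (vl y') : ℤ)) =
              (wx (mkw p') - wx (mkw p)) - (wx (mkw y) - wx (mkw y')) := by ring
          rw [e]
          exact dvd_sub hwp (hψ _ _ hyy).2
        · rw [hvy]
          exact nxt_mono hA _ _ hrg

theorem eq_of_Lz (hv : v ≠ []) (h : Lz ψ ((redF u).map mkw) (mkw v)) : mkw v = mkw u := by
  have hψ' : ∀ x y : IG (PM n), ψ x = ψ y → val x = val y := fun x y h => (hψ x y h).1
  have hRL : RL ((redF u).map mkw) := (redW_iff _ (redF_spec u).1.1).1 (redF_spec u).1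
  obtain ⟨X', h1, h2⟩ := h
  have hX' := hRL.eqs hψ' h1
  obtain ⟨V', h3, h4⟩ := words_of_RL hX'
  have h5 : redF v ≠ [] := fun h => hv (redF_nil_iff.1 h)
  obtain ⟨a, U, h6⟩ := List.exists_cons_of_ne_nil h5
  have hRv : RL ((redF v).map mkw) := (redW_iff _ (redF_spec v).1.1).1 (redF_spec v).1
  have h7 : EqvGen MvStep ((redF v).map mkw) (V'.map mkw) := by
    rw [h4]
    apply eqv_of_prod hRv hX'
    rw [← mkw_flatten, (redF_spec v).2, h2]
  have hred := (redF_spec v).1
  rw [h6] at hred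
  have h8 : Chn (mkw a) (U.map mkw) (V'.map mkw) := by
    rw [h6, List.map_cons] at h7
    have h9 : ∀ z ∈ mkw a :: U.map mkw, Reg z := by
      have := redF_reg v
      rwa [h6, List.map_cons] at this
    exact ((chn_of_mv h7).2 h9 (mkw a) (U.map mkw) (fun z hz => h9 z (by simp [hz]))).1 (Chn.refl _ _)
  have h10 : DD U [] a {vl a} a V' := by
    rw [← DD_iff U [] a {vl a} a V' (iv_init a) hred h3.1]
    exact ⟨mkw a, (cand_init (hred.1 a (by simp)) _).2 rfl, h8⟩
  rw [mkw_eq_iff_DD h6]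
  refine DD_compare hψ hm hρ (redF u) V' U [] [] a a {vl a} {vl a} ?_ ?_ rfl ?_ ?_ ?_ ?_ ?_ (le_refl _) h10
  · have := (redF_spec v).2
    rwa [h6, List.flatten_cons] at this
  · rw [List.nil_append]; exact (redF_spec u).2
  · simp
  · rw [← h4] at h1
    have key : ∀ (Y Y' : List (Wd n)), Eqs ψ (Y.map mkw) (Y'.map mkw) →
        List.Forall₂ (fun y y' => ψ (mkw y) = ψ (mkw y')) Y Y' := by
      intro Y
      induction Y with
      | nil =>
        intro Y' h
        cases Y' with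
        | nil => exact List.Forall₂.nil
        | cons y' Y' => cases h
      | cons y Y ih =>
        intro Y' h
        cases Y' with
        | nil => cases h
        | cons y' Y' =>
          cases h with
          | cons h1 h2 => exact List.Forall₂.cons h1.2.2 (ih Y' h2)
    exact key _ _ h1
  · rw [h6]; simp
  · intro x hx; rw [h6]; simp [hx]
  · intro y hy; exact hy

end Compare

/-- Two words representing distinct elements, not both empty, are separated by a finite monoid. -/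
theorem word_sep {u v : Wd n} (hv : v ≠ []) (hne : mkw u ≠ mkw v) :
    ∃ (T : Type) (_ : Monoid T) (_ : Finite T) (τ : IG (PM n) →* T), τ (mkw u) ≠ τ (mkw v) := by
  classical
  choose Fm i1 i2 ρm hm' using (mid_sep' (n := n))
  let ι := {x // x ∈ redF u} × {y // y ∈ redF v}
  have hι : Finite ι := by
    have h1 : Finite {x // x ∈ redF u} := List.finite_toSet (redF u)
    have h2 : Finite {x // x ∈ redF v} := List.finite_toSet (redF v)
    exact inferInstanceAs (Finite ({x // x ∈ redF u} × {y // y ∈ redF v}))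
  letI inst1 : ∀ i : ι, Monoid (Fm i.1.1 i.2.1) := fun i => i1 _ _
  have inst2 : ∀ i : ι, Finite (Fm i.1.1 i.2.1) := fun i => i2 _ _
  -- modulus
  set m : ℕ := 1 + ∑ i ∈ Finset.range (u.length + 1), ∑ j ∈ Finset.range (v.length + 1),
    (wx (mkw (u.take i)) - wx (mkw (v.take j))).natAbs with hmdef
  have hm0 : NeZero m := ⟨by omega⟩
  have hmb : ∀ p q : Wd n, p <+: u → q <+: v → (m : ℤ) ∣ wx (mkw p) - wx (mkw q) →
      wx (mkw p) = wx (mkw q) := by
    intro p q hp hq hd
    have e1 : p = u.take p.length := List.prefix_iff_eq_take.1 hp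
    have e2 : q = v.take q.length := List.prefix_iff_eq_take.1 hq
    have l1 := hp.length_le
    have l2 := hq.length_le
    have h1 : (wx (mkw p) - wx (mkw q)).natAbs ≤ ∑ i ∈ Finset.range (u.length + 1),
        ∑ j ∈ Finset.range (v.length + 1), (wx (mkw (u.take i)) - wx (mkw (v.take j))).natAbs := by
      refine le_trans ?_ (Finset.single_le_sum (f := fun i => ∑ j ∈ Finset.range (v.length + 1),
        (wx (mkw (u.take i)) - wx (mkw (v.take j))).natAbs) (fun _ _ => Nat.zero_le _)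
        (Finset.mem_range.2 (by omega : p.length < u.length + 1)))
      refine le_trans ?_ (Finset.single_le_sum (f := fun j =>
        (wx (mkw (u.take p.length)) - wx (mkw (v.take j))).natAbs) (fun _ _ => Nat.zero_le _)
        (Finset.mem_range.2 (by omega : q.length < v.length + 1)))
      rw [← e1, ← e2]
    have h2 : |wx (mkw p) - wx (mkw q)| < (m : ℤ) := by
      rw [Int.abs_eq_natAbs]
      exact_mod_cast (by omega : (wx (mkw p) - wx (mkw q)).natAbs < m)
    have h3 := Int.eq_zero_of_abs_lt_dvd hd h2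
    omega
  let ρ : IG (PM n) →* (∀ i : ι, Fm i.1.1 i.2.1) := Pi.monoidHom (fun i => ρm i.1.1 i.2.1)
  let ψ : IG (PM n) →* TwM n m × (∀ i : ι, Fm i.1.1 i.2.1) := (tv m).prod ρ
  have hψ : ∀ x y : IG (PM n), ψ x = ψ y → val x = val y ∧ (m : ℤ) ∣ wx x - wx y := by
    intro x y h
    have h1 : tv m x = tv m y := congrArg Prod.fst h
    constructor
    · rw [← tv_v m x, ← tv_v m y, h1]
    · have h2 := congrArg TwM.w h1
      rw [tv_w, tv_w] at h2
      have h3 := (ZMod.intCast_eq_intCast_iff_dvd_sub _ _ _).1 h2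
      have : wx x - wx y = -(wx y - wx x) := by ring
      rw [this]
      exact (dvd_neg).2 h3
  have hρ : ∀ y ∈ redF u, ∀ a ∈ redF v, RegW y → RegW a → n ≤ rk (vl y) + 1 → vl y = vl a →
      ψ (mkw y) = ψ (mkw a) → mkw y = mkw a := by
    intro y hy a ha r1 r2 r3 r4 r5
    apply hm' y a r1 r2 r3 r4
    have h1 : ρ (mkw y) = ρ (mkw a) := congrArg Prod.snd r5
    exact congrFun h1 (⟨y, hy⟩, ⟨a, ha⟩)
  have hψ' : ∀ x y : IG (PM n), ψ x = ψ y → val x = val y := fun x y h => (hψ x y h).1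
  have hRL : RL ((redF u).map mkw) := (redW_iff _ (redF_spec u).1.1).1 (redF_spec u).1
  have hfin : Finite (TwM n m × (∀ i : ι, Fm i.1.1 i.2.1)) := inferInstance
  obtain ⟨T, j1, j2, τ, hτ⟩ := exists_recognizer hψ' hRL
  refine ⟨T, j1, j2, τ, fun h => ?_⟩
  have h1 : Lz ψ ((redF u).map mkw) (mkw u) := by
    refine ⟨(redF u).map mkw, Eqs.rfl' hRL.1, ?_⟩
    rw [← mkw_flatten, (redF_spec u).2]
  rw [hτ _ _ h] at h1
  exact hne (eq_of_Lz hψ hmb hρ hv h1).symm

end Pool.Agent.H213
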