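import Pool.Agent.helper213_IG.Base

/-!
# Regular elements of `IG S`
-/

namespace Pool.Agent.H213

open RkMonoid

variable {S : Type*} [RkMonoid S]

/-- `x` is regular: it has a left unit of the same rank. -/
def Reg (x : IG S) : Prop := ∃ f : Idem S, io f * x = x ∧ rk (f : S) = rk (val x)

theorem rk_val_mul_le_left (x y : IG S) : rk (val (x * y)) ≤ rk (val x) := by
  rw [map_mul]; exact rk_mul_le_left _ _

theorem rk_val_mul_le_right (x y : IG S) : rk (val (x * y)) ≤ rk (val y) := by
  rw [map_mul]; exact rk_mul_le_right _ _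

theorem reg_io (e : Idem S) : Reg (io e) := ⟨e, io_mul_self e, by simp⟩

/-- right extension keeps regularity as long as the rank is kept. -/
theorem Reg.mul_right {x : IG S} (hx : Reg x) {y : IG S} (h : rk (val x * val y) = rk (val x)) :
    Reg (x * y) := by
  obtain ⟨f, hf, hr⟩ := hx
  exact ⟨f, by rw [← mul_assoc, hf], by rw [map_mul, h, hr]⟩

/-- rank preserved at intermediate steps. -/
theorem rk_mul_eq_of_mul_mul {x y z : S} (h : rk (x * y * z) = rk x) : rk (x * y) = rk x :=
  le_antisymm (rk_mul_le_left _ _) (h ▸ rk_mul_le_left _ _)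

theorem rk_mul_eq_of_mul_mul' {x y z : S} (h : rk (z * (y * x)) = rk x) : rk (y * x) = rk x :=
  le_antisymm (rk_mul_le_right _ _) (h ▸ rk_mul_le_right _ _)

/-- rank condition passes to left multiples. -/
theorem rk_mul_left_congr {x y : S} (h : rk (x * y) = rk x) (z : S) : rk (z * (x * y)) = rk (z * x) := by
  obtain ⟨w, hw⟩ := ex_right x y h
  apply le_antisymm
  · rw [← mul_assoc]; exact rk_mul_le_left _ _
  · calc rk (z * x) = rk (z * (x * y) * w) := by rw [mul_assoc z, hw]
      _ ≤ _ := rk_mul_le_left _ _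

theorem rk_mul_right_congr {x y : S} (h : rk (y * x) = rk x) (z : S) : rk (y * x * z) = rk (x * z) := by
  obtain ⟨w, hw⟩ := ex_left y x h
  apply le_antisymm
  · rw [mul_assoc]; exact rk_mul_le_right _ _
  · calc rk (x * z) = rk (w * (y * x * z)) := by rw [← mul_assoc, hw]
      _ ≤ _ := rk_mul_le_right _ _

/-- If `y * f = y` with `rk f = rk y`, there is `w'` with `w' * y = f`. -/
theorem exists_left_inv {y f : S} (h : y * f = y) (hr : rk f = rk y) : ∃ w', w' * y = f := by
  obtain ⟨w, hw⟩ := ex_left y f (by rw [h, hr])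
  exact ⟨w, by rw [h] at hw; exact hw⟩

theorem exists_right_inv {y f : S} (h : f * y = y) (hr : rk f = rk y) : ∃ w', y * w' = f := by
  obtain ⟨w, hw⟩ := ex_right f y (by rw [h, hr])
  exact ⟨w, by rw [h] at hw; exact hw⟩


/-- Given `y` with a right unit of the same rank and `g` with `rk (y g) = rk y`, there is an idempotent
`k` in `g S y` with `y k = y`. -/
theorem exists_k {y f g : S} (h : y * f = y) (hr : rk f = rk y) (hg : rk (y * g) = rk y) :
    ∃ (k : Idem S) (u : S), (k : S) = g * u * y ∧ y * (k : S) = y ∧ rk (k : S) = rk y := by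
  obtain ⟨w, hw⟩ := ex_right y g hg
  obtain ⟨w', hw'⟩ := exists_left_inv h hr
  have h1 : y * w' * y = y := by rw [mul_assoc, hw', h]
  have hk : (g * (w * w') * y) * (g * (w * w') * y) = g * (w * w') * y := by
    calc (g * (w * w') * y) * (g * (w * w') * y)
        = g * w * w' * (y * g * w) * w' * y := by simp only [mul_assoc]
      _ = g * w * w' * (y * w' * y) := by rw [hw]; simp only [mul_assoc]
      _ = g * (w * w') * y := by rw [h1]; simp only [mul_assoc]
  have hy : y * (g * (w * w') * y) = y := by
    calc y * (g * (w * w') * y) = (y * g * w) * w' * y := by simp only [mul_assoc]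
      _ = y := by rw [hw, h1]
  refine ⟨⟨g * (w * w') * y, hk⟩, w * w', rfl, hy, ?_⟩
  apply le_antisymm
  · exact rk_mul_le_right _ _
  · calc rk y = rk (y * (g * (w * w') * y)) := by rw [hy]
      _ ≤ _ := rk_mul_le_right _ _

theorem exists_k' {y f g : S} (h : f * y = y) (hr : rk f = rk y) (hg : rk (g * y) = rk y) :
    ∃ (k : Idem S) (u : S), (k : S) = y * u * g ∧ (k : S) * y = y ∧ rk (k : S) = rk y := by
  obtain ⟨w, hw⟩ := ex_left g y hg
  obtain ⟨w', hw'⟩ := exists_right_inv h hr
  have h1 : y * w' * y = y := by rw [hw', h]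
  have hk : (y * (w' * w) * g) * (y * (w' * w) * g) = y * (w' * w) * g := by
    calc (y * (w' * w) * g) * (y * (w' * w) * g)
        = y * w' * (w * (g * y)) * w' * w * g := by simp only [mul_assoc]
      _ = (y * w' * y) * w' * w * g := by rw [hw]
      _ = y * (w' * w) * g := by rw [h1]; simp only [mul_assoc]
  have hy : (y * (w' * w) * g) * y = y := by
    calc (y * (w' * w) * g) * y = y * w' * (w * (g * y)) := by simp only [mul_assoc]
      _ = y := by rw [hw, h1]
  refine ⟨⟨y * (w' * w) * g, hk⟩, w' * w, rfl, hy, ?_⟩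
  apply le_antisymm
  · show rk (y * (w' * w) * g) ≤ rk y
    rw [mul_assoc]; exact rk_mul_le_left _ _
  · calc rk y = rk ((y * (w' * w) * g) * y) := by rw [hy]
      _ ≤ _ := rk_mul_le_left _ _

/-- Right unit of the same rank. -/
def RUnit (x : IG S) : Prop := ∃ f : Idem S, x * io f = x ∧ rk (f : S) = rk (val x)

theorem runit_io (e : Idem S) : RUnit (io e) := ⟨e, io_mul_self e, by simp⟩

theorem val_mul_of_eq {x y : IG S} (h : x * y = x) : val x * val y = val x := by
  rw [← map_mul, h]

/-- (G2) for elements with a right unit. -/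
theorem RUnit.g2 {x : IG S} (hx : RUnit x) {e : Idem S} (h : val x * (e : S) = val x) : x * io e = x := by
  obtain ⟨f, hf, hr⟩ := hx
  have hf' : val x * (f : S) = val x := by simpa using val_mul_of_eq hf
  obtain ⟨w', hw'⟩ := exists_left_inv hf' hr
  have hfe : (f : S) * (e : S) = f := by rw [← hw', mul_assoc, h]
  calc x * io e = x * (io f * io e) := by rw [← mul_assoc, hf]
    _ = x := by rw [io_mul_left hfe, hf]

/-- (G1) -/
theorem RUnit.exists_k {x : IG S} (hx : RUnit x) {g : S} (hg : rk (val x * g) = rk (val x)) :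
    ∃ (k : Idem S) (u : S), (k : S) = g * u * val x ∧ x * io k = x ∧ rk (k : S) = rk (val x) := by
  have hx' := hx
  obtain ⟨f, hf, hr⟩ := hx
  have hf' : val x * (f : S) = val x := by simpa using val_mul_of_eq hf
  obtain ⟨k, u, h1, h2, h3⟩ := H213.exists_k hf' hr hg
  exact ⟨k, u, h1, hx'.g2 h2, h3⟩

theorem RUnit.mul_io {x : IG S} (hx : RUnit x) {e : Idem S} (h : rk (val x * (e : S)) = rk (val x)) :
    RUnit (x * io e) := by
  obtain ⟨k, u, h1, h2, h3⟩ := hx.exists_k h
  have hek : (e : S) * (k : S) = k := by rw [h1, ← mul_assoc, ← mul_assoc, e.mul_self]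
  have hb : Basic (k : S) (e : S) := Or.inr (Or.inr (Or.inl hek))
  refine ⟨bmul k e hb, ?_, ?_⟩
  · have h4 : x * io e = x * io (bmul k e hb) := by
      rw [← io_bmul, ← mul_assoc, h2]
    rw [h4, mul_assoc, io_mul_self]
  · have h5 : (bmul k e hb : S) * (k : S) = k := by
      show (k : S) * (e : S) * (k : S) = k
      rw [mul_assoc, hek, k.mul_self]
    have h6 : rk (bmul k e hb : S) = rk (k : S) := by
      apply le_antisymm
      · exact rk_mul_le_left _ _
      · calc rk (k : S) = rk ((bmul k e hb : S) * (k : S)) := by rw [h5]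
          _ ≤ _ := rk_mul_le_left _ _
    rw [h6, h3, map_mul, val_io, h]

/-- dual development: left units. -/
theorem Reg.g2' {x : IG S} (hx : Reg x) {e : Idem S} (h : (e : S) * val x = val x) : io e * x = x := by
  obtain ⟨f, hf, hr⟩ := hx
  have hf' : (f : S) * val x = val x := by
    have := congrArg val hf
    simpa using this
  obtain ⟨w', hw'⟩ := exists_right_inv hf' hr
  have hfe : (e : S) * (f : S) = f := by rw [← hw', ← mul_assoc, h]
  calc io e * x = io e * (io f * x) := by rw [hf]
    _ = x := by rw [← mul_assoc, io_mul_right hfe, hf]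

theorem Reg.exists_k' {x : IG S} (hx : Reg x) {g : S} (hg : rk (g * val x) = rk (val x)) :
    ∃ (k : Idem S) (u : S), (k : S) = val x * u * g ∧ io k * x = x ∧ rk (k : S) = rk (val x) := by
  have hx' := hx
  obtain ⟨f, hf, hr⟩ := hx
  have hf' : (f : S) * val x = val x := by
    have := congrArg val hf
    simpa using this
  obtain ⟨k, u, h1, h2, h3⟩ := H213.exists_k' hf' hr hg
  exact ⟨k, u, h1, hx'.g2' h2, h3⟩

theorem Reg.io_mul {x : IG S} (hx : Reg x) {e : Idem S} (h : rk ((e : S) * val x) = rk (val x)) :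
    Reg (io e * x) := by
  obtain ⟨k, u, h1, h2, h3⟩ := hx.exists_k' h
  have hek : (k : S) * (e : S) = k := by rw [h1, mul_assoc, e.mul_self]
  have hb : Basic (e : S) (k : S) := Or.inr (Or.inr (Or.inr hek))
  refine ⟨bmul e k hb, ?_, ?_⟩
  · have h4 : io e * x = io (bmul e k hb) * x := by
      rw [← io_bmul, mul_assoc, h2]
    rw [h4, ← mul_assoc, io_mul_self]
  · have h5 : (k : S) * (bmul e k hb : S) = k := by
      show (k : S) * ((e : S) * (k : S)) = k
      rw [← mul_assoc, hek, k.mul_self]
    have h6 : rk (bmul e k hb : S) = rk (k : S) := by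
      apply le_antisymm
      · exact rk_mul_le_right _ _
      · calc rk (k : S) = rk ((k : S) * (bmul e k hb : S)) := by rw [h5]
          _ ≤ _ := rk_mul_le_right _ _
    rw [h6, h3, map_mul, val_io, h]

/-- A product with a seed is regular, and has a right unit. -/
theorem runit_of_seed {x : IG S} (hx : RUnit x) (y : IG S) (h : rk (val x * val y) = rk (val x)) :
    RUnit (x * y) := by
  induction y using IG.induction_right with
  | h1 => simpa using hx
  | hm y e ih =>
    rw [map_mul, val_io, ← mul_assoc] at h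
    have h1 : rk (val x * val y) = rk (val x) := rk_mul_eq_of_mul_mul h
    have h2 := ih h1
    rw [← mul_assoc]
    apply h2.mul_io
    rw [map_mul, h, h1]

theorem runit_mul_left {x : IG S} (hx : RUnit x) (y : IG S) (h : rk (val y * val x) = rk (val x)) :
    RUnit (y * x) := by
  obtain ⟨f, hf, hr⟩ := hx
  exact ⟨f, by rw [mul_assoc, hf], by rw [map_mul, h, hr]⟩

theorem reg_mul_left {x : IG S} (hx : Reg x) (y : IG S) (h : rk (val y * val x) = rk (val x)) :
    Reg (y * x) := by
  induction y using IG.induction_left with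
  | h1 => simpa using hx
  | hm y e ih =>
    rw [map_mul, val_io, mul_assoc] at h
    have h1 : rk (val y * val x) = rk (val x) := rk_mul_eq_of_mul_mul' h
    have h2 := ih h1
    rw [mul_assoc]
    apply h2.io_mul
    rw [map_mul, h, h1]

/-- Regular elements have right units. -/
theorem Reg.runit {x : IG S} (hx : Reg x) : RUnit x := by
  obtain ⟨f, hf, hr⟩ := hx
  have h := runit_of_seed (runit_io f) x (by
    rw [val_io]
    have := congrArg val hf
    rw [map_mul, val_io] at this
    rw [this, hr])
  rwa [hf] at h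

theorem RUnit.reg {x : IG S} (hx : RUnit x) : Reg x := by
  obtain ⟨f, hf, hr⟩ := hx
  have h := reg_mul_left (reg_io f) x (by
    rw [val_io]
    have := congrArg val hf
    rw [map_mul, val_io] at this
    rw [this, hr])
  rwa [hf] at h

/-- (G2) -/
theorem Reg.g2 {x : IG S} (hx : Reg x) {e : Idem S} (h : val x * (e : S) = val x) : x * io e = x :=
  hx.runit.g2 h

/-- (G1): there is an idempotent `k` with `x k = x`, `g k = k`. -/
theorem Reg.exists_k {x : IG S} (hx : Reg x) {g : S} (hg : rk (val x * g) = rk (val x)) :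
    ∃ (k : Idem S) (u : S), (k : S) = g * u * val x ∧ x * io k = x ∧ rk (k : S) = rk (val x) :=
  hx.runit.exists_k hg

theorem Reg.mul_io {x : IG S} (hx : Reg x) {e : Idem S} (h : rk (val x * (e : S)) = rk (val x)) :
    Reg (x * io e) := hx.mul_right (by simpa using h)

/-- (G3) -/
theorem Reg.g3 {x : IG S} (hx : Reg x) {e f : Idem S} {g : S} (he : (e : S) * g = g) (hf : (f : S) * g = g)
    (hg : rk (val x * g) = rk (val x)) (h : val x * (e : S) = val x * (f : S)) :
    x * io e = x * io f := by
  obtain ⟨k, u, h1, h2, h3⟩ := hx.exists_k hg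
  have hek : (e : S) * (k : S) = k := by rw [h1, ← mul_assoc, ← mul_assoc, he]
  have hfk : (f : S) * (k : S) = k := by rw [h1, ← mul_assoc, ← mul_assoc, hf]
  have hbe : Basic (k : S) (e : S) := Or.inr (Or.inr (Or.inl hek))
  have hbf : Basic (k : S) (f : S) := Or.inr (Or.inr (Or.inl hfk))
  have h4 : bmul k e hbe = bmul k f hbf := by
    apply Subtype.ext
    show (k : S) * (e : S) = (k : S) * (f : S)
    rw [h1, mul_assoc (g * u) (val x) (e : S), h, ← mul_assoc (g * u) (val x) (f : S)]
  calc x * io e = x * io k * io e := by rw [h2]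
    _ = x * io (bmul k e hbe) := by rw [mul_assoc, io_bmul]
    _ = x * io k * io f := by rw [h4, mul_assoc, io_bmul]
    _ = x * io f := by rw [h2]

/-- dual of (G3) -/
theorem Reg.g3' {x : IG S} (hx : Reg x) {e f : Idem S} {g : S} (he : g * (e : S) = g) (hf : g * (f : S) = g)
    (hg : rk (g * val x) = rk (val x)) (h : (e : S) * val x = (f : S) * val x) :
    io e * x = io f * x := by
  obtain ⟨k, u, h1, h2, h3⟩ := hx.exists_k' hg
  have hek : (k : S) * (e : S) = k := by rw [h1, mul_assoc, he]
  have hfk : (k : S) * (f : S) = k := by rw [h1, mul_assoc, hf]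
  have hbe : Basic (e : S) (k : S) := Or.inr (Or.inr (Or.inr hek))
  have hbf : Basic (f : S) (k : S) := Or.inr (Or.inr (Or.inr hfk))
  have h4 : bmul e k hbe = bmul f k hbf := by
    apply Subtype.ext
    show (e : S) * (k : S) = (f : S) * (k : S)
    rw [h1, ← mul_assoc, ← mul_assoc, ← mul_assoc, ← mul_assoc, h]
  calc io e * x = io e * (io k * x) := by rw [h2]
    _ = io (bmul e k hbe) * x := by rw [← mul_assoc, io_bmul]
    _ = io f * (io k * x) := by rw [h4, ← mul_assoc, io_bmul]
    _ = io f * x := by rw [h2]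

/-- (B1) commuting idempotents -/
theorem Reg.comm_mul {x : IG S} (hx : Reg x) {e f g : Idem S} (hg : (e : S) * (f : S) = g)
    (hc : (f : S) * (e : S) = g) (hr : rk (val x * (g : S)) = rk (val x)) :
    x * io e * io f = x * io g := by
  have hxe : rk (val x * (e : S)) = rk (val x) := by
    rw [← hg, ← mul_assoc] at hr
    exact rk_mul_eq_of_mul_mul hr
  have hy : Reg (x * io e) := hx.mul_io hxe
  have heg : (e : S) * (g : S) = g := by rw [← hg, ← mul_assoc, e.mul_self]
  have h1 : x * io e * io f = x * io e * io g := by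
    apply hy.g3 (g := (g : S))
    · rw [← hc, ← mul_assoc, f.mul_self]
    · exact g.mul_self
    · rw [map_mul, val_io, mul_assoc, heg, hr, hxe]
    · rw [map_mul, val_io, mul_assoc, hg, mul_assoc, heg]
  rw [h1, mul_assoc, io_mul_right heg]

theorem Reg.comm {x : IG S} (hx : Reg x) {e f : Idem S} (hc : (e : S) * (f : S) = (f : S) * (e : S))
    (hr : rk (val x * ((e : S) * (f : S))) = rk (val x)) :
    x * io e * io f = x * io f * io e := by
  have hi : ((e : S) * (f : S)) * ((e : S) * (f : S)) = (e : S) * (f : S) := by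
    calc ((e : S) * (f : S)) * ((e : S) * (f : S)) = (e : S) * ((f : S) * (e : S)) * (f : S) := by
          simp only [mul_assoc]
      _ = ((e : S) * (e : S)) * ((f : S) * (f : S)) := by rw [← hc]; simp only [mul_assoc]
      _ = _ := by rw [e.mul_self, f.mul_self]
  rw [hx.comm_mul (g := ⟨_, hi⟩) rfl hc.symm hr]
  rw [hx.comm_mul (e := f) (f := e) (g := ⟨_, hi⟩) hc.symm rfl hr]

/-- right cancellation -/
theorem Reg.cancel_io {x y : IG S} (hx : Reg x) (hy : Reg y) (hv : val x = val y) {e : Idem S}
    (hr : rk (val x * (e : S)) = rk (val x)) (h : x * io e = y * io e) : x = y := by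
  obtain ⟨k, u, h1, h2, h3⟩ := hx.exists_k hr
  have hek : (e : S) * (k : S) = k := by rw [h1, ← mul_assoc, ← mul_assoc, e.mul_self]
  have h2' : val x * (k : S) = val x := by simpa using val_mul_of_eq h2
  have h4 : y * io k = y := hy.g2 (by rw [← hv, h2'])
  calc x = x * io e * io k := by rw [mul_assoc, io_mul_right hek, h2]
    _ = y * io e * io k := by rw [h]
    _ = y := by rw [mul_assoc, io_mul_right hek, h4]

theorem Reg.cancel {x y : IG S} (hx : Reg x) (hy : Reg y) (hv : val x = val y) (w : IG S)
    (hr : rk (val x * val w) = rk (val x)) (h : x * w = y * w) : x = y := by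
  induction w using IG.induction_right with
  | h1 => simpa using h
  | hm w e ih =>
    rw [map_mul, val_io, ← mul_assoc] at hr
    have h1 : rk (val x * val w) = rk (val x) := rk_mul_eq_of_mul_mul hr
    apply ih h1
    rw [← mul_assoc, ← mul_assoc] at h
    apply (hx.mul_right h1).cancel_io (hy.mul_right (hv ▸ h1)) (by simp [hv]) _ h
    rw [map_mul, hr, h1]

/-- left cancellation -/
theorem Reg.cancel_io' {x y : IG S} (hx : Reg x) (hy : Reg y) (hv : val x = val y) {e : Idem S}
    (hr : rk ((e : S) * val x) = rk (val x)) (h : io e * x = io e * y) : x = y := by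
  obtain ⟨k, u, h1, h2, h3⟩ := hx.exists_k' hr
  have hek : (k : S) * (e : S) = k := by rw [h1, mul_assoc, e.mul_self]
  have h2' : (k : S) * val x = val x := by
    have := congrArg val h2
    simpa using this
  have h4 : io k * y = y := hy.g2' (by rw [← hv, h2'])
  calc x = io k * (io e * x) := by rw [← mul_assoc, io_mul_left hek, h2]
    _ = io k * (io e * y) := by rw [h]
    _ = y := by rw [← mul_assoc, io_mul_left hek, h4]

end Pool.Agent.H213
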