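import Mathlib

/-!
# Moving tokens on a complete graph with two empty sites

If tokens `K` sit on sites `T` with at least two empty sites, then closed sequences of moves act
trivially on any structure in which moves are invertible, composable, and commute.
-/

set_option linter.unusedSectionVars false

namespace Pool.Agent.H213

open Relation

section TokSort

variable {K T X : Type*} [DecidableEq K] [Finite K] [Finite T] (c : X → K → T) (mv : X → K → T → X)

/-- moves of tokens outside `F` -/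
def St (F : Set K) (x y : X) : Prop := ∃ k i, k ∉ F ∧ i ∉ Set.range (c x) ∧ y = mv x k i

variable (hcard : Nat.card K + 2 ≤ Nat.card T) (inj : ∀ x, Function.Injective (c x))
  (H0 : ∀ x k i, i ∉ Set.range (c x) → c (mv x k i) = Function.update (c x) k i)
  (H1 : ∀ x k i, i ∉ Set.range (c x) → mv (mv x k i) k (c x k) = x)
  (H2 : ∀ x k i j, i ∉ Set.range (c x) → j ∉ Set.range (c x) → i ≠ j → mv (mv x k i) k j = mv x k j)
  (H3 : ∀ x k l i j, i ∉ Set.range (c x) → j ∉ Set.range (c x) → i ≠ j → k ≠ l →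
    mv (mv x k i) l j = mv (mv x l j) k i)

include hcard inj in
omit [DecidableEq K] in
theorem ex_empty (x : X) (i : T) : ∃ e, e ∉ Set.range (c x) ∧ e ≠ i := by
  classical
  have := Fintype.ofFinite K
  have := Fintype.ofFinite T
  by_contra hcon
  push Not at hcon
  have h1 : (Finset.univ : Finset T) ⊆ insert i (Finset.univ.image (c x)) := by
    intro e _
    by_cases he : e ∈ Set.range (c x)
    · obtain ⟨k, hk⟩ := he
      exact Finset.mem_insert_of_mem (Finset.mem_image.2 ⟨k, Finset.mem_univ _, hk⟩)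
    · rw [hcon e he]; exact Finset.mem_insert_self _ _
  have h2 := Finset.card_le_card h1
  have h3 := Finset.card_insert_le i (Finset.univ.image (c x))
  have h4 : (Finset.univ.image (c x)).card ≤ (Finset.univ : Finset K).card := Finset.card_image_le
  rw [Finset.card_univ] at h2 h4
  rw [Nat.card_eq_fintype_card, Nat.card_eq_fintype_card] at hcard
  omega

/-- images of the operation: bring token `t` to the site `s` -/
def Br (F : Set K) (t : K) (s : T) (z z' : X) : Prop :=
  (c z t = s ∧ z' = z) ∨ (c z t ≠ s ∧ s ∉ Set.range (c z) ∧ z' = mv z t s) ∨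
  (∃ l e, l ≠ t ∧ l ∉ F ∧ c z l = s ∧ e ∉ Set.range (c z) ∧ z' = mv (mv z l e) t s)

include inj H0 in
theorem range_mv {x : X} {k : K} {i : T} (hi : i ∉ Set.range (c x)) {j : T} :
    j ∉ Set.range (c (mv x k i)) ↔ (j ≠ i ∧ (j = c x k ∨ j ∉ Set.range (c x))) := by
  rw [H0 x k i hi]
  constructor
  · intro h
    refine ⟨?_, ?_⟩
    · rintro rfl
      exact h ⟨k, by simp⟩
    · by_contra hcon
      push Not at hcon
      obtain ⟨h1, ⟨l, hl⟩⟩ := hcon
      have hlk : l ≠ k := by rintro rfl; exact h1 hl.symm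
      exact h ⟨l, by rw [Function.update_of_ne hlk]; exact hl⟩
  · rintro ⟨h1, h2⟩ ⟨l, hl⟩
    by_cases hlk : l = k
    · rw [hlk, Function.update_self] at hl
      exact h1 hl.symm
    · rw [Function.update_of_ne hlk] at hl
      rcases h2 with h2 | h2
      · rw [h2] at hl
        exact hlk (inj x hl)
      · exact h2 ⟨l, hl⟩

include H0 in
theorem c_mv_self {x : X} {k : K} {i : T} (hi : i ∉ Set.range (c x)) : c (mv x k i) k = i := by
  rw [H0 x k i hi, Function.update_self]

include H0 in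
theorem c_mv_ne {x : X} {k l : K} {i : T} (hi : i ∉ Set.range (c x)) (hkl : l ≠ k) : c (mv x k i) l = c x l := by
  rw [H0 x k i hi, Function.update_of_ne hkl]

include hcard inj in
theorem ex_Br {F : Set K} {t : K} {s : T} {z : X} (hinv : ∀ f ∈ F, c z f ≠ s) : ∃ z', Br c mv F t s z z' := by
  by_cases h1 : c z t = s
  · exact ⟨z, Or.inl ⟨h1, rfl⟩⟩
  by_cases h2 : s ∈ Set.range (c z)
  · obtain ⟨l, hl⟩ := h2
    obtain ⟨e, he, _⟩ := ex_empty c hcard inj z s
    refine ⟨_, Or.inr (Or.inr ⟨l, e, ?_, ?_, hl, he, rfl⟩)⟩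
    · rintro rfl; exact h1 hl
    · intro hF; exact hinv l hF hl
  · exact ⟨_, Or.inr (Or.inl ⟨h1, h2, rfl⟩)⟩

include inj H0 H2 H3 in
theorem Br_unique {F : Set K} {t : K} {s : T} {z z1 z2 : X} (h1 : Br c mv F t s z z1) (h2 : Br c mv F t s z z2) :
    EqvGen (St c mv (insert t F)) z1 z2 := by
  rcases h1 with ⟨h1, rfl⟩ | ⟨h1, h1', rfl⟩ | ⟨l, e, hl, hlF, hc, he, rfl⟩
  · rcases h2 with ⟨h2, rfl⟩ | ⟨h2, h2', rfl⟩ | ⟨l, e, hl, hlF, hc, he, rfl⟩
    · exact EqvGen.refl _
    · exact absurd h1 h2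
    · exact absurd (inj _ (h1.trans hc.symm)) hl.symm
  · rcases h2 with ⟨h2, rfl⟩ | ⟨h2, h2', rfl⟩ | ⟨l, e, hl, hlF, hc, he, rfl⟩
    · exact absurd h2 h1
    · exact EqvGen.refl _
    · exact absurd ⟨l, hc⟩ h1'
  · rcases h2 with ⟨h2, rfl⟩ | ⟨h2, h2', rfl⟩ | ⟨l', e', hl', hlF', hc', he', rfl⟩
    · exact absurd (inj _ (h2.trans hc.symm)) hl.symm
    · exact absurd ⟨l, hc⟩ h2'
    · have hll : l' = l := inj _ (hc'.trans hc.symm)
      subst hll
      by_cases hee : e = e'
      · rw [hee]; exact EqvGen.refl _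
      · have hse : s ≠ e := by rintro rfl; exact he ⟨l', hc⟩
        have hse' : s ≠ e' := by rintro rfl; exact he' ⟨l', hc⟩
        have r1 : e' ∉ Set.range (c (mv z l' e)) :=
          (range_mv c mv inj H0 he).2 ⟨Ne.symm hee, Or.inr he'⟩
        have r2 : s ∉ Set.range (c (mv z l' e)) :=
          (range_mv c mv inj H0 he).2 ⟨hse, Or.inl hc.symm⟩
        have e1 : mv z l' e' = mv (mv z l' e) l' e' := (H2 z l' e e' he he' hee).symm
        apply EqvGen.rel
        refine ⟨l', e', ?_, ?_, ?_⟩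
        · rintro (h | h)
          · exact hl h
          · exact hlF h
        · exact (range_mv c mv inj H0 r2).2 ⟨hse'.symm, Or.inr r1⟩
        · rw [e1, H3 (mv z l' e) l' t e' s r1 r2 hse'.symm hl]

include hcard inj H0 H1 H2 H3 in
theorem Br_step {F : Set K} {t : K} {s : T} {z w : X} (hinv : ∀ f ∈ F, c z f ≠ s)
    (h : St c mv F z w) : ∃ z' w', Br c mv F t s z z' ∧ Br c mv F t s w w' ∧
      EqvGen (St c mv (insert t F)) z' w' := by
  obtain ⟨m, i, hm, hi, rfl⟩ := h
  by_cases hmt : m = t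
  · subst hmt
    by_cases h1 : c z m = s
    · -- token was at s
      refine ⟨z, z, Or.inl ⟨h1, rfl⟩, Or.inr (Or.inl ⟨?_, ?_, ?_⟩), EqvGen.refl _⟩
      · rw [c_mv_self c mv H0 hi]
        rintro rfl
        exact hi ⟨m, h1⟩
      · exact (range_mv c mv inj H0 hi).2 ⟨by rintro rfl; exact hi ⟨m, h1⟩, Or.inl h1.symm⟩
      · rw [← h1, H1 z m i hi]
    · by_cases h2 : i = s
      · subst h2
        exact ⟨mv z m i, mv z m i, Or.inr (Or.inl ⟨h1, hi, rfl⟩),
          Or.inl ⟨c_mv_self c mv H0 hi, rfl⟩, EqvGen.refl _⟩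
      · by_cases h3 : s ∈ Set.range (c z)
        · obtain ⟨l, hl⟩ := h3
          have hlm : l ≠ m := by rintro rfl; exact h1 hl
          have hlF : l ∉ F := fun hF => hinv l hF hl
          obtain ⟨e, he, hei⟩ := ex_empty c hcard inj z i
          have hes : e ≠ s := by rintro rfl; exact he ⟨l, hl⟩
          have r1 : e ∉ Set.range (c (mv z m i)) := (range_mv c mv inj H0 hi).2 ⟨hei, Or.inr he⟩
          have r2 : i ∉ Set.range (c (mv z l e)) := (range_mv c mv inj H0 he).2 ⟨hei.symm, Or.inr hi⟩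
          have r3 : s ∉ Set.range (c (mv z l e)) := (range_mv c mv inj H0 he).2 ⟨hes.symm, Or.inl hl.symm⟩
          refine ⟨_, _, Or.inr (Or.inr ⟨l, e, hlm, hlF, hl, he, rfl⟩),
            Or.inr (Or.inr ⟨l, e, hlm, hlF, ?_, r1, rfl⟩), ?_⟩
          · rw [c_mv_ne c mv H0 hi hlm]; exact hl
          · rw [H3 z m l i e hi he hei.symm (Ne.symm hlm), H2 (mv z l e) m i s r2 r3 h2]
            exact EqvGen.refl _
        · have r1 : s ∉ Set.range (c (mv z m i)) := (range_mv c mv inj H0 hi).2 ⟨Ne.symm h2, Or.inr h3⟩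
          refine ⟨_, _, Or.inr (Or.inl ⟨h1, h3, rfl⟩), Or.inr (Or.inl ⟨?_, r1, rfl⟩), ?_⟩
          · rw [c_mv_self c mv H0 hi]; exact h2
          · rw [H2 z m i s hi h3 h2]; exact EqvGen.refl _
  · have hmF' : m ∉ insert t F := by
      rintro (h | h)
      · exact hmt h
      · exact hm h
    by_cases h1 : c z t = s
    · refine ⟨z, mv z m i, Or.inl ⟨h1, rfl⟩, Or.inl ⟨?_, rfl⟩, EqvGen.rel _ _ ⟨m, i, hmF', hi, rfl⟩⟩
      rw [c_mv_ne c mv H0 hi (Ne.symm hmt)]; exact h1
    · by_cases h3 : s ∈ Set.range (c z)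
      · obtain ⟨l, hl⟩ := h3
        have hlt : l ≠ t := by rintro rfl; exact h1 hl
        have hlF : l ∉ F := fun hF => hinv l hF hl
        have his : i ≠ s := by rintro rfl; exact hi ⟨l, hl⟩
        by_cases hlm : l = m
        · subst hlm
          have r1 : s ∉ Set.range (c (mv z l i)) := (range_mv c mv inj H0 hi).2 ⟨his.symm, Or.inl hl.symm⟩
          refine ⟨_, _, Or.inr (Or.inr ⟨l, i, hlt, hlF, hl, hi, rfl⟩), Or.inr (Or.inl ⟨?_, r1, rfl⟩),
            EqvGen.refl _⟩
          rw [c_mv_ne c mv H0 hi (Ne.symm hmt)]; exact h1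
        · obtain ⟨e, he, hei⟩ := ex_empty c hcard inj z i
          have hes : e ≠ s := by rintro rfl; exact he ⟨l, hl⟩
          have r1 : e ∉ Set.range (c (mv z m i)) := (range_mv c mv inj H0 hi).2 ⟨hei, Or.inr he⟩
          have r2 : i ∉ Set.range (c (mv z l e)) := (range_mv c mv inj H0 he).2 ⟨hei.symm, Or.inr hi⟩
          have r3 : s ∉ Set.range (c (mv z l e)) := (range_mv c mv inj H0 he).2 ⟨hes.symm, Or.inl hl.symm⟩
          refine ⟨_, _, Or.inr (Or.inr ⟨l, e, hlt, hlF, hl, he, rfl⟩),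
            Or.inr (Or.inr ⟨l, e, hlt, hlF, ?_, r1, rfl⟩), ?_⟩
          · rw [c_mv_ne c mv H0 hi hlm]; exact hl
          · rw [H3 z m l i e hi he hei.symm (Ne.symm hlm), H3 (mv z l e) m t i s r2 r3 his hmt]
            apply EqvGen.rel
            exact ⟨m, i, hmF', (range_mv c mv inj H0 r3).2 ⟨his, Or.inr r2⟩, rfl⟩
      · by_cases h2 : i = s
        · subst h2
          -- m moves onto s
          have r1 : c z m ∉ Set.range (c (mv z m i)) :=
            (range_mv c mv inj H0 hi).2 ⟨by rintro h; exact hi ⟨m, h⟩, Or.inl rfl⟩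
          refine ⟨_, _, Or.inr (Or.inl ⟨h1, h3, rfl⟩),
            Or.inr (Or.inr ⟨m, c z m, hmt, hm, c_mv_self c mv H0 hi, r1, rfl⟩), ?_⟩
          rw [H1 z m i hi]; exact EqvGen.refl _
        · have r1 : s ∉ Set.range (c (mv z m i)) := (range_mv c mv inj H0 hi).2 ⟨Ne.symm h2, Or.inr h3⟩
          refine ⟨_, _, Or.inr (Or.inl ⟨h1, h3, rfl⟩), Or.inr (Or.inl ⟨?_, r1, rfl⟩), ?_⟩
          · rw [c_mv_ne c mv H0 hi (Ne.symm hmt)]; exact h1
          · rw [H3 z m t i s hi h3 h2 hmt]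
            apply EqvGen.rel
            exact ⟨m, i, hmF', (range_mv c mv inj H0 h3).2 ⟨h2, Or.inr hi⟩, rfl⟩

include hcard inj H0 H1 H2 H3 in
theorem Br_eqv {F : Set K} {t : K} {s : T} {x y : X} (h : EqvGen (St c mv F) x y) :
    ((∀ f ∈ F, c x f ≠ s) ↔ (∀ f ∈ F, c y f ≠ s)) ∧
    ((∀ f ∈ F, c x f ≠ s) → ∀ x' y', Br c mv F t s x x' → Br c mv F t s y y' →
      EqvGen (St c mv (insert t F)) x' y') := by
  induction h with
  | rel x y h =>
    have h' := h
    obtain ⟨m, i, hm, hi, rfl⟩ := h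
    refine ⟨?_, ?_⟩
    · have : ∀ f ∈ F, c (mv x m i) f = c x f := by
        intro f hf
        apply c_mv_ne c mv H0 hi
        rintro rfl; exact hm hf
      constructor
      · intro h f hf; rw [this f hf]; exact h f hf
      · intro h f hf; rw [← this f hf]; exact h f hf
    · intro hinv x' y' h1 h2
      obtain ⟨z', w', h3, h4, h5⟩ := Br_step c mv hcard inj H0 H1 H2 H3 (t := t) hinv h'
      exact EqvGen.trans _ _ _ (Br_unique c mv inj H0 H2 H3 h1 h3)
        (EqvGen.trans _ _ _ h5 (Br_unique c mv inj H0 H2 H3 h4 h2))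
  | refl x => exact ⟨Iff.rfl, fun _ x' y' h1 h2 => Br_unique c mv inj H0 H2 H3 h1 h2⟩
  | symm x y _ ih =>
    exact ⟨ih.1.symm, fun hinv x' y' h1 h2 => EqvGen.symm _ _ (ih.2 (ih.1.2 hinv) y' x' h2 h1)⟩
  | trans x y z _ _ ih1 ih2 =>
    refine ⟨ih1.1.trans ih2.1, fun hinv x' z' h1 h2 => ?_⟩
    obtain ⟨y', hy'⟩ := ex_Br c mv hcard inj (t := t) (ih1.1.1 hinv)
    exact EqvGen.trans _ _ _ (ih1.2 hinv x' y' h1 hy') (ih2.2 (ih1.1.1 hinv) y' z' hy' h2)

include hcard inj H0 H1 H2 H3 in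
theorem sort_aux (N : ℕ) : ∀ (F : Set K) (_ : Fᶜ.ncard = N) (x y : X) (_ : EqvGen (St c mv F) x y)
    (_ : c x = c y), x = y := by
  induction N with
  | zero =>
    intro F hF x y h _
    have hF' : F = Set.univ := by
      rw [Set.ncard_eq_zero (Set.toFinite _)] at hF
      rwa [Set.compl_empty_iff] at hF
    subst hF'
    have key : ∀ x y : X, EqvGen (St c mv (Set.univ : Set K)) x y → x = y := by
      intro x y h
      induction h with
      | rel x y h => obtain ⟨k, i, hk, _⟩ := h; exact absurd (Set.mem_univ k) hk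
      | refl x => rfl
      | symm x y _ ih => exact ih.symm
      | trans x y z _ _ ih1 ih2 => exact ih1.trans ih2
    exact key x y h
  | succ N ih =>
    intro F hF x y h hc
    have hne : (Fᶜ : Set K).Nonempty := by
      rw [← Set.ncard_pos (Set.toFinite _), hF]; omega
    obtain ⟨t, ht⟩ := hne
    have hinv : ∀ f ∈ F, c x f ≠ c x t := by
      intro f hf h'
      have := inj x h'
      subst this
      exact ht hf
    have h1 := (Br_eqv c mv hcard inj H0 H1 H2 H3 (t := t) (s := c x t) h).2 hinv x y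
      (Or.inl ⟨rfl, rfl⟩) (Or.inl ⟨by rw [hc], rfl⟩)
    apply ih (insert t F) _ x y h1 hc
    have h2 : (insert t F : Set K)ᶜ = Fᶜ \ {t} := by
      ext k
      simp only [Set.mem_compl_iff, Set.mem_insert_iff, Set.mem_sdiff, Set.mem_singleton_iff]
      tauto
    rw [h2, Set.ncard_sdiff_singleton_of_mem ht, hF]
    rfl

include hcard inj H0 H1 H2 H3 in
/-- closed sequences of moves act trivially -/
theorem sort_lemma {x y : X} (h : EqvGen (St c mv (∅ : Set K)) x y) (hc : c x = c y) : x = y :=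
  sort_aux c mv hcard inj H0 H1 H2 H3 _ ∅ rfl x y h hc

end TokSort

end Pool.Agent.H213
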