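import Pool.Agent.helper213_IG.ZTheory
import Pool.Agent.helper213_IG.Sort

/-!
# Regular elements of low rank are determined by value and weight
-/

namespace Pool.Agent.H213

open RkMonoid PM Relation

variable {n : ℕ} {J : Set (Fin n)}

/-- paths of token moves -/
inductive Pth (J : Set (Fin n)) : (J → Fin n) → IG (PM n) → (J → Fin n) → Prop
  | refl (c : J → Fin n) : Pth J c 1 c
  | step {c c' : J → Fin n} {w : IG (PM n)} (k : J) (i : Fin n) (h : Pth J c w c')
      (hi : i ∉ Set.range c') : Pth J c (w * be (c' k) i) (Function.update c' k i)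

/-- description of configurations -/
def CD (J : Set (Fin n)) (a : PM n) (c : J → Fin n) : Prop :=
  Function.Injective c ∧ ∀ f g : Vec n, (f, g) ∈ a.C ↔ ∀ k : J, f k = g (c k)

theorem CD.dom {a : PM n} {c : J → Fin n} (h : CD J a c) : a.dom = (Es J).dom ∧ a.ker = (Es J).ker := by
  classical
  constructor
  · ext f
    refine ⟨fun _ => mem_dom_Es f, fun _ => ?_⟩
    rw [mem_dom]
    refine ⟨fun i => if h : ∃ k, c k = i then f h.choose else 0, (h.2 _ _).2 ?_⟩
    intro k
    have hex : ∃ k', c k' = c k := ⟨k, rfl⟩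
    rw [dif_pos hex, h.1 hex.choose_spec]
  · ext f
    rw [mem_ker, h.2, mem_ker_Es]
    constructor
    · intro h1 i hi; exact h1 ⟨i, hi⟩
    · intro h1 k; exact h1 k k.2

theorem CD.rk {a : PM n} {c : J → Fin n} (h : CD J a c) : rk a = rk (Es J) := by
  show a.rank = (Es J).rank
  unfold rank
  rw [h.dom.1, h.dom.2]

theorem CD.iso {a : PM n} {c : J → Fin n} (h : CD J a c) {i : Fin n} (hi : i ∉ Set.range c) :
    a * ss i = a := by
  apply ext_C
  intro f g
  rw [mem_C_mul_ss]
  constructor
  · rintro ⟨g', h1, h2⟩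
    rw [h.2] at h1 ⊢
    intro k
    rw [h1 k, h2 (c k) (fun hk => hi ⟨k, hk⟩)]
  · intro h1; exact ⟨g, h1, fun _ _ => rfl⟩

theorem CD.move {a : PM n} {c : J → Fin n} (h : CD J a c) (k : J) {i : Fin n} (hi : i ∉ Set.range c) :
    CD J (a * (tt (c k) i * ss (c k))) (Function.update c k i) := by
  classical
  have hik : i ≠ c k := fun h => hi ⟨k, h.symm⟩
  constructor
  · intro l m hlm
    by_cases hl : l = k
    · by_cases hm : m = k
      · rw [hl, hm]
      · rw [hl] at hlm
        rw [Function.update_self, Function.update_of_ne hm] at hlm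
        exact absurd ⟨m, hlm.symm⟩ hi
    · by_cases hm : m = k
      · rw [hm] at hlm
        rw [Function.update_self, Function.update_of_ne hl] at hlm
        exact absurd ⟨l, hlm⟩ hi
      · rw [Function.update_of_ne hl, Function.update_of_ne hm] at hlm
        exact h.1 hlm
  · intro f g
    rw [mem_C_mul]
    simp only [mem_C_b, h.2]
    constructor
    · rintro ⟨g', h1, h2, h3⟩ l
      by_cases hl : l = k
      · rw [hl, Function.update_self, h1 k, h3, h2 i hik]
      · rw [Function.update_of_ne hl, h1 l, h2 (c l) (fun hcl => hl (h.1 hcl))]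
    · intro h1
      refine ⟨Function.update g (c k) (g i), ?_, ?_, ?_⟩
      · intro l
        have h2 := h1 l
        by_cases hl : l = k
        · rw [hl] at h2 ⊢
          rw [Function.update_self] at h2 ⊢
          exact h2
        · rw [Function.update_of_ne hl] at h2
          rw [Function.update_of_ne (fun hcl => hl (h.1 hcl))]
          exact h2
      · intro m hm; rw [Function.update_of_ne hm]
      · rw [Function.update_self, Function.update_of_ne hik]

variable (J) in
/-- configuration states -/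
@[ext] structure Cfg : Type where
  /-- element -/
  x : IG (PM n)
  /-- configuration -/
  c : J → Fin n
  om : Om J x
  cd : CD J (val x) c

theorem cfg_move {x : IG (PM n)} {c : J → Fin n} (hx : Om J x) (hc : CD J (val x) c) (k : J) {i : Fin n}
    (hi : i ∉ Set.range c) : Om J (x * be (c k) i) ∧
      CD J (val (x * be (c k) i)) (Function.update c k i) := by
  have h1 := hc.move k hi
  refine ⟨hx.mul_io ?_, ?_⟩
  · rw [coe_bi, h1.rk, hc.rk]
  · rw [map_mul, val_be]; exact h1

open Classical in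
/-- the move on states -/
noncomputable def cmv (p : Cfg J) (k : J) (i : Fin n) : Cfg J :=
  if hi : i ∉ Set.range p.c then
    ⟨p.x * be (p.c k) i, Function.update p.c k i, (cfg_move p.om p.cd k hi).1, (cfg_move p.om p.cd k hi).2⟩
  else p

/-- configuration of a state -/
def ccf (p : Cfg J) : J → Fin n := p.c

theorem be_be_inv {x : IG (PM n)} (hx : Reg x) {i j : Fin n} (hij : i ≠ j) (hi : val x * ss i = val x) :
    x * be j i * be i j = x := by
  have h1 : be j i * be i j = be i j := by
    apply io_mul_right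
    show (tt j i * ss j) * (tt i j * ss i) = tt i j * ss i
    rw [tt_symm i j, ← mul_assoc, tst hij.symm]
  have h2 : x * sg i = x := hx.g2 hi
  rw [mul_assoc, h1]
  calc x * be i j = x * sg i * be i j := by rw [h2]
    _ = x := by rw [mul_assoc, sg_be hij, h2]

theorem mem_C_bb {i j k : Fin n} (hij : i ≠ j) (hik : i ≠ k) (hjk : j ≠ k) {f g : Vec n} :
    (f, g) ∈ ((tt j i * ss j) * (tt i k * ss i)).C ↔
      (f j = f k ∧ f i = f k ∧ ∀ m, m ≠ i → m ≠ j → f m = g m) := by
  classical
  rw [mem_C_mul]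
  simp only [mem_C_b]
  constructor
  · rintro ⟨h, ⟨h1, h2⟩, h3, h4⟩
    have e1 : f i = h i := h1 i hij
    have e2 : f k = h k := h1 k hjk.symm
    refine ⟨by rw [h2, e1, h4, e2], by rw [e1, h4, e2], ?_⟩
    intro m hmi hmj
    rw [h1 m hmj, h3 m hmi]
  · rintro ⟨h1, h2, h3⟩
    refine ⟨Function.update f j (g j), ⟨?_, ?_⟩, ?_, ?_⟩
    · intro m hm; rw [Function.update_of_ne hm]
    · rw [h1, h2]
    · intro m hm
      by_cases hmj : m = j
      · rw [hmj, Function.update_self]
      · rw [Function.update_of_ne hmj]; exact h3 m hm hmj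
    · rw [Function.update_of_ne hij, Function.update_of_ne hjk.symm, h2]

theorem be_be_comp {x : IG (PM n)} (hx : Reg x) {i j k : Fin n} (hij : i ≠ j) (hik : i ≠ k) (hjk : j ≠ k)
    (hi : val x * ss i = val x) (hk : val x * ss k = val x)
    (hr : rk (val x * (tt j k * ss j)) = rk (val x)) :
    x * be j i * be i k = x * be j k := by
  classical
  have hE : ((tt j i * ss j) * (tt i k * ss i)) * ((tt j i * ss j) * (tt i k * ss i)) =
      (tt j i * ss j) * (tt i k * ss i) := by
    apply ext_C; intro f g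
    rw [mem_C_mul]
    simp only [mem_C_bb hij hik hjk]
    constructor
    · rintro ⟨h, ⟨h1, h2, h3⟩, h4, h5, h6⟩
      exact ⟨h1, h2, fun m hmi hmj => by rw [h3 m hmi hmj, h6 m hmi hmj]⟩
    · rintro ⟨h1, h2, h3⟩
      exact ⟨f, ⟨h1, h2, fun _ _ _ => rfl⟩, h1, h2, h3⟩
  set E : Idem (PM n) := ⟨_, hE⟩ with hEdef
  have v1 : ((bi j k : Idem (PM n)) : PM n) * (E : PM n) = E := by
    show (tt j k * ss j) * ((tt j i * ss j) * (tt i k * ss i)) = (tt j i * ss j) * (tt i k * ss i)
    apply ext_C; intro f g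
    rw [mem_C_mul]
    simp only [mem_C_bb hij hik hjk, mem_C_b]
    constructor
    · rintro ⟨h, ⟨h1, h2⟩, h3, h4, h5⟩
      refine ⟨h2, ?_, ?_⟩
      · rw [h1 i hij, h4, ← h1 k hjk.symm]
      · intro m hmi hmj; rw [h1 m hmj, h5 m hmi hmj]
    · rintro ⟨h1, h2, h3⟩
      exact ⟨f, ⟨fun _ _ => rfl, h1⟩, h1, h2, h3⟩
  have v2 : ((bi j i : Idem (PM n)) : PM n) * (E : PM n) = E := by
    show (tt j i * ss j) * ((tt j i * ss j) * (tt i k * ss i)) = (tt j i * ss j) * (tt i k * ss i)
    rw [← mul_assoc, b_idem]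
  have v3 : ((bi i k : Idem (PM n)) : PM n) * (E : PM n) = E := by
    show (tt i k * ss i) * ((tt j i * ss j) * (tt i k * ss i)) = (tt j i * ss j) * (tt i k * ss i)
    apply ext_C; intro f g
    rw [mem_C_mul]
    simp only [mem_C_bb hij hik hjk, mem_C_b]
    constructor
    · rintro ⟨h, ⟨h1, h2⟩, h3, h4, h5⟩
      refine ⟨?_, h2, ?_⟩
      · rw [h1 j hij.symm, h3, ← h1 k hik.symm]
      · intro m hmi hmj; rw [h1 m hmi, h5 m hmi hmj]
    · rintro ⟨h1, h2, h3⟩
      exact ⟨f, ⟨fun _ _ => rfl, h2⟩, h1, h2, h3⟩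
  -- values
  have w1 : val x * (tt j k * ss j) = val x * (E : PM n) := by
    have e1 : ss i * (tt j k * ss j) = ss i * (E : PM n) := by
      apply ext_C; intro f g
      rw [mem_C_ss_mul, mem_C_ss_mul]
      show _ ↔ ∃ h, (h, g) ∈ ((tt j i * ss j) * (tt i k * ss i)).C ∧ _
      simp only [mem_C_bb hij hik hjk, mem_C_b]
      constructor
      · rintro ⟨h, ⟨h1, h2⟩, h3⟩
        refine ⟨Function.update h i (h k), ⟨?_, ?_, ?_⟩, ?_⟩
        · rw [Function.update_of_ne hij.symm, Function.update_of_ne hik.symm, h2]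
        · rw [Function.update_self, Function.update_of_ne hik.symm]
        · intro m hmi hmj; rw [Function.update_of_ne hmi]; exact h1 m hmj
        · intro m hm; rw [Function.update_of_ne hm]; exact h3 m hm
      · rintro ⟨h, ⟨h1, h2, h3⟩, h4⟩
        refine ⟨Function.update h i (g i), ⟨?_, ?_⟩, ?_⟩
        · intro m hm
          by_cases hmi : m = i
          · rw [hmi, Function.update_self]
          · rw [Function.update_of_ne hmi]; exact h3 m hmi hm
        · rw [Function.update_of_ne hij.symm, Function.update_of_ne hik.symm, h1]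
        · intro m hm; rw [Function.update_of_ne hm]; exact h4 m hm
    calc val x * (tt j k * ss j) = val x * (ss i * (tt j k * ss j)) := by rw [← mul_assoc (val x) (ss i), hi]
      _ = val x * (E : PM n) := by rw [e1, ← mul_assoc, hi]
  have hrE : rk (val x * (E : PM n)) = rk (val x) := by rw [← w1, hr]
  have s1 : x * be j k = x * io E := hx.g3 v1 E.mul_self hrE w1
  have s2 : x * be j i * io E = x * io E := by
    rw [mul_assoc]; congr 1; exact io_mul_right v2
  have r3 : rk (val x * (tt j i * ss j)) = rk (val x) := by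
    have : rk (val x * (tt j i * ss j) * (tt i k * ss i)) = rk (val x) := by
      rw [mul_assoc]; exact hrE
    exact rk_mul_eq_of_mul_mul this
  have hy : Reg (x * be j i) := hx.mul_io r3
  have vE : val (x * be j i) * (E : PM n) = val x * (E : PM n) := by
    rw [map_mul, val_be, mul_assoc]; congr 1
  have s3 : x * be j i * be i k = x * be j i * io E := by
    apply hy.g3 v3 E.mul_self
    · rw [vE, hrE, map_mul, val_be, r3]
    · rw [vE, map_mul, val_be, mul_assoc]; rfl
  rw [s3, s2, s1]

theorem be_be_comm {x : IG (PM n)} (hx : Reg x) {a i b j : Fin n} (hab : a ≠ b) (haj : a ≠ j)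
    (hib : i ≠ b) (hij : i ≠ j)
    (hr : rk (val x * ((tt a i * ss a) * (tt b j * ss b))) = rk (val x)) :
    x * be a i * be b j = x * be b j * be a i := by
  apply hx.comm (e := bi a i) (f := bi b j) _ hr
  show (tt a i * ss a) * (tt b j * ss b) = (tt b j * ss b) * (tt a i * ss a)
  calc (tt a i * ss a) * (tt b j * ss b) = tt a i * (ss a * tt b j) * ss b := by simp only [mul_assoc]
    _ = tt a i * tt b j * (ss a * ss b) := by rw [ss_tt_comm hab haj]; simp only [mul_assoc]
    _ = tt b j * (tt a i * ss b) * ss a := by rw [tt_comm, ss_comm]; simp only [mul_assoc]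
    _ = _ := by rw [← ss_tt_comm hab.symm (Ne.symm hib)]; simp only [mul_assoc]

/-- the token system of the configurations satisfies the hypotheses of the sorting lemma -/
theorem cfg_sort (hJ : Nat.card J + 2 ≤ n) {p q : Cfg J}
    (h : EqvGen (St (ccf (J := J)) cmv (∅ : Set J)) p q) (hc : ccf p = ccf q) : p = q := by
  classical
  have hcmv1 : ∀ (p : Cfg J) (k : J) (i : Fin n), i ∉ Set.range (ccf p) →
      (cmv p k i).x = p.x * be (ccf p k) i := fun p k i hi => by
    have hi' : i ∉ Set.range p.c := hi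
    unfold cmv
    rw [dif_pos hi']
    rfl
  have hcmv2 : ∀ (p : Cfg J) (k : J) (i : Fin n), i ∉ Set.range (ccf p) →
      ccf (cmv p k i) = Function.update (ccf p) k i := fun p k i hi => by
    have hi' : i ∉ Set.range p.c := hi
    unfold cmv
    rw [dif_pos hi']
    rfl
  have hr2 : ∀ (p : Cfg J) (k : J) (i j : Fin n), i ∉ Set.range (ccf p) → j ∉ Set.range (ccf p) →
      i ≠ j → j ∉ Set.range (ccf (cmv p k i)) := by
    intro p k i j hi hj hij
    rw [hcmv2 p k i hi]
    rintro ⟨l, hl⟩
    by_cases hlk : l = k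
    · rw [hlk, Function.update_self] at hl; exact hij hl
    · rw [Function.update_of_ne hlk] at hl; exact hj ⟨l, hl⟩
  apply sort_lemma (ccf (J := J)) cmv _ (fun p => p.cd.1) hcmv2 _ _ _ h hc
  · rw [Nat.card_eq_fintype_card (α := Fin n), Fintype.card_fin]; exact hJ
  · -- H1
    intro p k i hi
    have hck : ccf p k ∉ Set.range (ccf (cmv p k i)) := by
      rw [hcmv2 p k i hi]
      rintro ⟨l, hl⟩
      by_cases hlk : l = k
      · rw [hlk, Function.update_self] at hl; exact hi ⟨k, hl.symm⟩
      · rw [Function.update_of_ne hlk] at hl; exact hlk (p.cd.1 hl)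
    apply Cfg.ext
    · rw [hcmv1 _ _ _ hck, hcmv1 _ _ _ hi, hcmv2 _ _ _ hi, Function.update_self]
      apply be_be_inv p.om.1 (fun h => hi ⟨k, h.symm⟩) (p.cd.iso hi)
    · show ccf (cmv (cmv p k i) k (ccf p k)) = ccf p
      rw [hcmv2 _ _ _ hck, hcmv2 _ _ _ hi, Function.update_idem, Function.update_eq_self]
  · -- H2
    intro p k i j hi hj hij
    have hj' := hr2 p k i j hi hj hij
    apply Cfg.ext
    · rw [hcmv1 _ _ _ hj', hcmv1 _ _ _ hi, hcmv1 _ _ _ hj, hcmv2 _ _ _ hi, Function.update_self]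
      apply be_be_comp p.om.1 (fun h => hi ⟨k, h.symm⟩) hij (fun h => hj ⟨k, h⟩) (p.cd.iso hi)
        (p.cd.iso hj)
      have h1 := cfg_move p.om p.cd k hj
      have h2 := h1.2.rk
      rw [map_mul, val_be] at h2
      rw [p.cd.rk]; exact h2
    · show ccf (cmv (cmv p k i) k j) = ccf (cmv p k j)
      rw [hcmv2 _ _ _ hj', hcmv2 _ _ _ hi, hcmv2 _ _ _ hj, Function.update_idem]
  · -- H3
    intro p k l i j hi hj hij hkl
    have hj' := hr2 p k i j hi hj hij
    have hi' := hr2 p l j i hj hi hij.symm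
    apply Cfg.ext
    · rw [hcmv1 _ _ _ hj', hcmv1 _ _ _ hi, hcmv1 _ _ _ hi', hcmv1 _ _ _ hj, hcmv2 _ _ _ hi, hcmv2 _ _ _ hj,
        Function.update_of_ne hkl.symm, Function.update_of_ne hkl]
      apply be_be_comm p.om.1 (fun h => hkl (p.cd.1 h)) (fun h => hj ⟨k, h⟩) (fun h => hi ⟨l, h.symm⟩) hij
      have h1 := cfg_move p.om p.cd k hi
      have hj'' : j ∉ Set.range (Function.update p.c k i) := by
        have := hj'
        rw [hcmv2 _ _ _ hi] at this
        exact this
      have h2 := cfg_move h1.1 h1.2 l hj''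
      have h3 := h2.2.rk
      rw [map_mul, map_mul, val_be, val_be, Function.update_of_ne hkl.symm, mul_assoc] at h3
      rw [p.cd.rk]; exact h3
    · show ccf (cmv (cmv p k i) l j) = ccf (cmv (cmv p l j) k i)
      rw [hcmv2 _ _ _ hj', hcmv2 _ _ _ hi, hcmv2 _ _ _ hi', hcmv2 _ _ _ hj, Function.update_comm hkl]

theorem pth_cfg {c0 c : J → Fin n} {w : IG (PM n)} (h : Pth J c0 w c) {x : IG (PM n)} (hx : Om J x)
    (hc : CD J (val x) c0) : ∃ (h1 : Om J (x * w)) (h2 : CD J (val (x * w)) c),
      EqvGen (St (ccf (J := J)) cmv (∅ : Set J)) ⟨x, c0, hx, hc⟩ ⟨x * w, c, h1, h2⟩ := by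
  induction h with
  | refl => exact ⟨by rw [mul_one]; exact hx, by rw [mul_one]; exact hc, by
      have : (⟨x, c0, hx, hc⟩ : Cfg J) = ⟨x * 1, c0, by rw [mul_one]; exact hx, by rw [mul_one]; exact hc⟩ := by
        apply Cfg.ext
        · exact (mul_one x).symm
        · rfl
      rw [← this]; exact EqvGen.refl _⟩
  | @step c' w k i h hi ih =>
    obtain ⟨h1, h2, h3⟩ := ih
    have h4 := cfg_move h1 h2 k hi
    rw [mul_assoc] at h4
    refine ⟨h4.1, h4.2, EqvGen.trans _ _ _ h3 (EqvGen.rel _ _ ⟨k, i, by simp, hi, ?_⟩)⟩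
    apply Cfg.ext
    · unfold cmv
      rw [dif_pos hi]
      simp only [mul_assoc]
    · unfold cmv
      rw [dif_pos hi]

theorem cd_Es (J : Set (Fin n)) : CD J (Es J) (Subtype.val : J → Fin n) := by
  refine ⟨Subtype.val_injective, ?_⟩
  intro f g
  rw [PM.mem_C_Es]
  exact ⟨fun h k => h k k.2, fun h i hi => h ⟨i, hi⟩⟩

theorem pth_unique (hJ : Nat.card J + 2 ≤ n) {c : J → Fin n} {w w' : IG (PM n)}
    (h : Pth J (Subtype.val : J → Fin n) w c) (h' : Pth J (Subtype.val : J → Fin n) w' c) :
    eg J * w = eg J * w' := by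
  have hc : CD J (val (eg J)) (Subtype.val : J → Fin n) := by rw [val_eg]; exact cd_Es J
  obtain ⟨h1, h2, h3⟩ := pth_cfg h (om_eg J) hc
  obtain ⟨h1', h2', h3'⟩ := pth_cfg h' (om_eg J) hc
  have := cfg_sort hJ (EqvGen.trans _ _ _ (EqvGen.symm _ _ h3) h3') rfl
  exact congrArg Cfg.x this

end Pool.Agent.H213
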