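import Pool.Agent.helper213_IG.Pn

/-!
# The weight of an element of `IG (PM n)`
-/

namespace Pool.Agent.H213

open RkMonoid PM Module

variable {n : ℕ}

/-- exponent of the twist -/
noncomputable def tw (x y : PM n) : ℕ := finrank (ZMod 2) (x.cok ⊓ y.ker : Submodule (ZMod 2) (Vec n))

/-- the twist -/
noncomputable def cst (x y : PM n) : ℚ := 2 ^ tw x y

theorem cst_pos (x y : PM n) : 0 < cst x y := by unfold cst; positivity

open Classical in
/-- the matrix of a partition -/
noncomputable def Mx (x : PM n) : Matrix (Vec n) (Vec n) ℚ := fun f g => if (f, g) ∈ x.C then 1 else 0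

theorem Mx_zero (x : PM n) : Mx x 0 0 = 1 := by
  have : ((0 : Vec n), (0 : Vec n)) ∈ x.C := x.C.zero_mem
  simp [Mx, this]

theorem Mx_one : Mx (1 : PM n) = 1 := by
  ext f g
  simp only [Mx, mem_C_one, Matrix.one_apply]

theorem Mx_mul (x y : PM n) : Mx x * Mx y = cst x y • Mx (x * y) := by
  classical
  ext f g
  rw [Matrix.mul_apply, Matrix.smul_apply]
  have h1 : ∀ h : Vec n, Mx x f h * Mx y h g = if ((f, h) ∈ x.C ∧ (h, g) ∈ y.C) then 1 else 0 := by
    intro h
    unfold Mx
    by_cases h2 : (f, h) ∈ x.C <;> by_cases h3 : (h, g) ∈ y.C <;> simp [h2, h3]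
  rw [Finset.sum_congr rfl (fun h _ => h1 h), Finset.sum_boole]
  by_cases h4 : (f, g) ∈ (x * y).C
  · obtain ⟨h0, h5, h6⟩ := mem_C_mul.1 h4
    have h7 : (Finset.univ.filter (fun h : Vec n => (f, h) ∈ x.C ∧ (h, g) ∈ y.C)).card =
        Nat.card (x.cok ⊓ y.ker : Submodule (ZMod 2) (Vec n)) := by
      rw [Nat.card_eq_fintype_card, ← Fintype.card_coe]
      apply Fintype.card_congr
      refine ⟨fun h => ⟨h.1 - h0, ?_, ?_⟩, fun h => ⟨h.1 + h0, ?_⟩, ?_, ?_⟩
      · have := (Finset.mem_filter.1 h.2).2.1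
        have h8 := x.C.sub_mem this h5
        exact mem_cok.2 (by simpa using h8)
      · have := (Finset.mem_filter.1 h.2).2.2
        have h8 := y.C.sub_mem this h6
        exact mem_ker.2 (by simpa using h8)
      · rw [Finset.mem_filter]
        refine ⟨Finset.mem_univ _, ?_, ?_⟩
        · have := x.C.add_mem (mem_cok.1 h.2.1) h5
          simpa using this
        · have := y.C.add_mem (mem_ker.1 h.2.2) h6
          simpa using this
      · intro h; ext; simp
      · intro h; ext; simp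
    rw [h7, Module.natCard_eq_pow_finrank (K := ZMod 2)]
    simp [Mx, h4, cst, tw]
  · have h8 : (Finset.univ.filter (fun h : Vec n => (f, h) ∈ x.C ∧ (h, g) ∈ y.C)) = ∅ := by
      rw [Finset.filter_eq_empty_iff]
      rintro h _ ⟨h9, h10⟩
      exact h4 (mem_C_mul.2 ⟨h, h9, h10⟩)
    rw [h8]
    simp [Mx, h4]

theorem Mx_ne_zero (x : PM n) : Mx x ≠ 0 := by
  intro h
  have := Mx_zero x
  rw [h] at this
  simp at this

/-- normalised idempotent -/
noncomputable def Mh (e : Idem (PM n)) : Matrix (Vec n) (Vec n) ℚ := (cst (e : PM n) e)⁻¹ • Mx (e : PM n)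

theorem Mh_idem (e : Idem (PM n)) : Mh e * Mh e = Mh e := by
  unfold Mh
  rw [Matrix.smul_mul, Matrix.mul_smul, Mx_mul, e.mul_self, smul_smul, smul_smul]
  congr 1
  field_simp [(cst_pos (e : PM n) e).ne']

theorem Mh_ne (e : Idem (PM n)) : Mh e ≠ 0 := by
  unfold Mh
  exact smul_ne_zero (inv_ne_zero (cst_pos _ _).ne') (Mx_ne_zero _)

theorem Mh_mul (e f g : Idem (PM n)) (h : (e : PM n) * (f : PM n) = g) :
    ∃ c : ℚ, c ≠ 0 ∧ Mh e * Mh f = c • Mh g := by
  refine ⟨(cst (e : PM n) e)⁻¹ * (cst (f : PM n) f)⁻¹ * cst (e : PM n) f * cst (g : PM n) g, ?_, ?_⟩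
  · have h1 := (cst_pos (e : PM n) e).ne'
    have h2 := (cst_pos (f : PM n) f).ne'
    have h3 := (cst_pos (e : PM n) f).ne'
    have h4 := (cst_pos (g : PM n) g).ne'
    positivity
  · unfold Mh
    rw [Matrix.smul_mul, Matrix.mul_smul, Mx_mul, h, smul_smul, smul_smul, smul_smul]
    congr 1
    have h4 := (cst_pos (g : PM n) g).ne'
    field_simp

theorem smul_cancel {A : Matrix (Vec n) (Vec n) ℚ} (hA : A ≠ 0) {c d : ℚ} (h : c • A = d • A) : c = d := by
  by_contra hne
  have : (c - d) • A = 0 := by rw [sub_smul, h, sub_self]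
  rcases smul_eq_zero.1 this with h1 | h1
  · exact hne (sub_eq_zero.1 h1)
  · exact hA h1

theorem Mh_basic (e f g : Idem (PM n)) (hb : Basic (e : PM n) (f : PM n))
    (h : (e : PM n) * (f : PM n) = g) : Mh e * Mh f = Mh g := by
  obtain ⟨c, hc, hm⟩ := Mh_mul e f g h
  have left : ∀ (a b : Idem (PM n)), (a : PM n) * (b : PM n) = a → Mh a * Mh b = Mh a := by
    intro a b hab
    obtain ⟨c, hc, hm⟩ := Mh_mul a b a hab
    have h1 : Mh a * Mh b * Mh b = Mh a * Mh b := by rw [mul_assoc, Mh_idem]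
    rw [hm, Matrix.smul_mul, hm] at h1
    have h2 := smul_cancel (smul_ne_zero hc (Mh_ne a)) (c := c) (d := 1) (by rw [h1, one_smul])
    rw [hm, h2, one_smul]
  have right : ∀ (a b : Idem (PM n)), (a : PM n) * (b : PM n) = b → Mh a * Mh b = Mh b := by
    intro a b hab
    obtain ⟨c, hc, hm⟩ := Mh_mul a b b hab
    have h1 : Mh a * (Mh a * Mh b) = Mh a * Mh b := by rw [← mul_assoc, Mh_idem]
    rw [hm, Matrix.mul_smul, hm] at h1
    have h2 := smul_cancel (smul_ne_zero hc (Mh_ne b)) (c := c) (d := 1) (by rw [h1, one_smul])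
    rw [hm, h2, one_smul]
  have fin : (Mh e * Mh f) * (Mh e * Mh f) = Mh e * Mh f → Mh e * Mh f = Mh g := by
    intro h1
    rw [hm] at h1 ⊢
    rw [Matrix.smul_mul, Matrix.mul_smul, Mh_idem] at h1
    have h2 := smul_cancel (smul_ne_zero hc (Mh_ne g)) (c := c) (d := 1) (by rw [h1, one_smul])
    rw [h2, one_smul]
  rcases hb with h1 | h1 | h1 | h1
  · have : g = e := Subtype.ext (by rw [← h, h1])
    rw [this]; exact left e f h1
  · have : g = f := Subtype.ext (by rw [← h, h1])
    rw [this]; exact right e f h1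
  · apply fin
    have h2 := right f e h1
    calc Mh e * Mh f * (Mh e * Mh f) = Mh e * (Mh f * Mh e) * Mh f := by simp only [mul_assoc]
      _ = _ := by rw [h2, Mh_idem]
  · apply fin
    have h2 := left f e h1
    calc Mh e * Mh f * (Mh e * Mh f) = Mh e * (Mh f * Mh e) * Mh f := by simp only [mul_assoc]
      _ = _ := by rw [h2, mul_assoc, Mh_idem]

/-- the matrix representation of `IG` -/
noncomputable def Phi : IG (PM n) →* Matrix (Vec n) (Vec n) ℚ :=
  Con.lift _ (FreeMonoid.lift (fun e : Idem (PM n) => Mh e)) (by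
    rw [Con.conGen_le]
    intro x y h
    cases h with
    | mk e f g hb hg => simpa [Con.ker_rel] using Mh_basic e f g hb hg)

@[simp] theorem Phi_io (e : Idem (PM n)) : Phi (io e) = Mh e := by
  change FreeMonoid.lift (fun e : Idem (PM n) => Mh e) (FreeMonoid.of e) = _
  simp

/-- the weight -/
noncomputable def W (x : IG (PM n)) : ℚ := Phi x 0 0

theorem Phi_eq (x : IG (PM n)) : Phi x = W x • Mx (val x) := by
  induction x using IG.induction_right with
  | h1 =>
    rw [map_one, map_one, Mx_one]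
    unfold W
    rw [map_one]
    simp
  | hm x e ih =>
    have h1 : Phi (x * io e) = (W x * cst (val x) e * (cst (e : PM n) e)⁻¹) • Mx (val (x * io e)) := by
      rw [map_mul, ih, Phi_io, Mh, Matrix.smul_mul, Matrix.mul_smul, Mx_mul, smul_smul, smul_smul,
        map_mul, val_io]
      congr 1
      ring
    have h2 : W (x * io e) = W x * cst (val x) e * (cst (e : PM n) e)⁻¹ := by
      rw [W, h1, Matrix.smul_apply, Mx_zero, smul_eq_mul, mul_one]
    rw [h1, h2]

theorem W_mul (x y : IG (PM n)) : W (x * y) = W x * W y * cst (val x) (val y) := by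
  rw [W, map_mul, Phi_eq x, Phi_eq y, Matrix.smul_mul, Matrix.mul_smul, Mx_mul, Matrix.smul_apply,
    Matrix.smul_apply, Matrix.smul_apply, Mx_zero]
  simp only [smul_eq_mul, mul_one]
  ring

theorem W_io (e : Idem (PM n)) : W (io e) = (cst (e : PM n) e)⁻¹ := by
  rw [W, Phi_io, Mh, Matrix.smul_apply, Mx_zero, smul_eq_mul, mul_one]

theorem W_one : W (1 : IG (PM n)) = 1 := by
  rw [W, map_one]; simp

theorem W_mul_io (x : IG (PM n)) (e : Idem (PM n)) :
    W (x * io e) = W x * cst (val x) e / cst (e : PM n) e := by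
  rw [W_mul, W_io, div_eq_mul_inv, val_io]; ring

theorem W_io_mul (x : IG (PM n)) (e : Idem (PM n)) :
    W (io e * x) = W x * cst (e : PM n) (val x) / cst (e : PM n) e := by
  rw [W_mul, W_io, div_eq_mul_inv, val_io]; ring

theorem W_pos (x : IG (PM n)) : 0 < W x := by
  induction x using IG.induction_right with
  | h1 => rw [W_one]; norm_num
  | hm x e ih =>
    rw [W_mul_io]
    exact div_pos (mul_pos ih (cst_pos _ _)) (cst_pos _ _)

/-- weights are powers of two -/
theorem W_pow (x : IG (PM n)) : ∃ a b : ℕ, W x * 2 ^ a = 2 ^ b := by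
  induction x using IG.induction_right with
  | h1 => exact ⟨0, 0, by rw [W_one]; norm_num⟩
  | hm x e ih =>
    obtain ⟨a, b, h⟩ := ih
    refine ⟨a + tw (e : PM n) e, b + tw (val x) e, ?_⟩
    rw [W_mul_io, pow_add, pow_add, ← h]
    unfold cst
    field_simp

end Pool.Agent.H213
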