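import Pool.Agent.helper213_IG.TTheory
import Pool.Agent.helper213_IG.Weight

/-!
# Regular elements of low rank are determined by value and weight (second part)
-/

namespace Pool.Agent.H213

open RkMonoid PM Relation

variable {n : ℕ} {J : Set (Fin n)} {i0 j0 : Fin n}

/-- equality up to powers of the central element -/
def Sim (J : Set (Fin n)) (i0 j0 : Fin n) (u v : IG (PM n)) : Prop :=
  ∃ p q : ℕ, zt J i0 j0 ^ p * u = zt J i0 j0 ^ q * v

theorem Sim.rfl' (u : IG (PM n)) : Sim J i0 j0 u u := ⟨0, 0, rfl⟩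

theorem Sim.symm {u v : IG (PM n)} (h : Sim J i0 j0 u v) : Sim J i0 j0 v u := by
  obtain ⟨p, q, h⟩ := h; exact ⟨q, p, h.symm⟩

theorem Sim.trans {u v w : IG (PM n)} (h : Sim J i0 j0 u v) (h' : Sim J i0 j0 v w) : Sim J i0 j0 u w := by
  obtain ⟨p, q, h⟩ := h
  obtain ⟨r, s, h'⟩ := h'
  refine ⟨r + p, q + s, ?_⟩
  rw [pow_add, mul_assoc, h, ← mul_assoc, ← pow_add, add_comm r q, pow_add, mul_assoc, h', ← mul_assoc, ← pow_add]

theorem Sim.mul_right {u v : IG (PM n)} (h : Sim J i0 j0 u v) (w : IG (PM n)) : Sim J i0 j0 (u * w) (v * w) := by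
  obtain ⟨p, q, h⟩ := h
  exact ⟨p, q, by rw [← mul_assoc, h, mul_assoc]⟩

theorem sim_zt (u : IG (PM n)) : Sim J i0 j0 (zt J i0 j0 * u) u := ⟨0, 1, by simp⟩

/-- the element is, at the transversal `c`, a path of token moves -/
def T1 (J : Set (Fin n)) (i0 j0 : Fin n) (x : IG (PM n)) (c : J → Fin n) : Prop :=
  ∃ w, Pth J (Subtype.val : J → Fin n) w c ∧ Sim J i0 j0 (x * eg (Set.range c)) (eg J * w)

theorem T1_change (hJ : Nat.card J + 2 ≤ n) (h0 : i0 ∉ J) (hne : i0 ≠ j0) {x : IG (PM n)} (hx : Om J x)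
    {c : J → Fin n} (hc : Tr J (val x) c) (k : J) {i : Fin n} (hi : tb (val x) k i) (hci : c k ≠ i)
    (h : T1 J i0 j0 x (Function.update c k i)) : T1 J i0 j0 x c := by
  have hinj := hx.2.tr_inj hc
  have hir : i ∉ Set.range c := by
    rintro ⟨l, hl⟩
    have h1 := hc l
    rw [hl] at h1
    have h2 : l = k := Subtype.ext (hx.2.tb_inj h1 hi)
    rw [h2] at hl
    exact hci hl
  set A : Set (Fin n) := insert i (Set.range c) with hA
  have hrA : rk (val x * Es A) = rk (val x) := hx.2.rk_Es hc (Set.subset_insert _ _)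
  have hy : Om J (x * eg A) := hx.mul_io hrA
  have hb : bt (val x) i (c k) := tb_tb hi (hc k)
  have hcA : c k ∈ A := Set.mem_insert_of_mem _ ⟨k, rfl⟩
  have hiA : i ∈ A := Set.mem_insert _ _
  have hyt : val (x * eg A) * tt i (c k) = val (x * eg A) := by
    rw [map_mul, val_eg, mul_assoc, Es_tt_comm hiA hcA, ← mul_assoc, bt_iff.1 hb]
  have hyt' : val (x * eg A) * tt (c k) i = val (x * eg A) := by rw [tt_symm]; exact hyt
  have hrange : Set.range (Function.update c k i) = A \ {c k} := by
    ext m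
    constructor
    · rintro ⟨l, hl⟩
      by_cases hlk : l = k
      · rw [hlk, Function.update_self] at hl
        rw [← hl]
        exact ⟨hiA, fun h => hci h.symm⟩
      · rw [Function.update_of_ne hlk] at hl
        refine ⟨Set.mem_insert_of_mem _ ⟨l, hl⟩, fun h => hlk (hinj ?_)⟩
        rw [hl]; exact h
    · rintro ⟨h1, h2⟩
      rcases h1 with h1 | ⟨l, hl⟩
      · exact ⟨k, by rw [Function.update_self]; exact h1.symm⟩
      · refine ⟨l, ?_⟩
        rw [Function.update_of_ne, hl]
        rintro rfl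
        exact h2 hl.symm
  have e1 : x * eg A * sg (c k) = x * eg (Set.range (Function.update c k i)) := by
    apply hx.1.comm_mul (e := ei A) (f := si (c k)) (g := ei (Set.range (Function.update c k i)))
    · show Es A * ss (c k) = Es _
      unfold ss
      rw [Es_mul, hrange]; rfl
    · show ss (c k) * Es A = Es _
      unfold ss
      rw [Es_mul, hrange, Set.inter_comm]; rfl
    · apply hx.2.rk_Es (c := Function.update c k i) _ (le_refl _)
      intro l
      by_cases hlk : l = k
      · rw [hlk, Function.update_self]; exact hi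
      · rw [Function.update_of_ne hlk]; exact hc l
  have e2 : x * eg A * sg i = x * eg (Set.range c) := by
    have hAi : A ∩ {i}ᶜ = Set.range c := by
      ext m
      simp only [hA, Set.mem_inter_iff, Set.mem_insert_iff, Set.mem_compl_iff, Set.mem_singleton_iff]
      constructor
      · rintro ⟨h1 | h1, h2⟩
        · exact absurd h1 h2
        · exact h1
      · intro h1
        exact ⟨Or.inr h1, fun h2 => hir (h2 ▸ h1)⟩
    apply hx.1.comm_mul (e := ei A) (f := si i) (g := ei (Set.range c))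
    · show Es A * ss i = Es _
      unfold ss
      rw [Es_mul, hAi]
    · show ss i * Es A = Es _
      unfold ss
      rw [Es_mul, Set.inter_comm, hAi]
    · exact hx.2.rk_Es hc (le_refl _)
  have e3 : x * eg (Set.range (Function.update c k i)) * be i (c k) = x * eg (Set.range c) := by
    rw [← e1, ← e2, ← Z3 hJ h0 hne hy hyt (Ne.symm hci), ← Z2 hJ h0 hne hy hyt' hci, ta_symm,
      mul_assoc (x * eg A * sg (c k)), ta_be]
  obtain ⟨w, hw, hs⟩ := h
  refine ⟨w * be (Function.update c k i k) (c k), ?_, ?_⟩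
  · have h1 := Pth.step k (c k) hw (by rw [hrange]; exact fun h => h.2 rfl)
    rwa [Function.update_idem, Function.update_eq_self] at h1
  · rw [← e3, Function.update_self, ← mul_assoc]
    exact hs.mul_right _

theorem T1_change' (hJ : Nat.card J + 2 ≤ n) (h0 : i0 ∉ J) (hne : i0 ≠ j0) {x : IG (PM n)} (hx : Om J x)
    {c : J → Fin n} (hc : Tr J (val x) c) (k : J) {i : Fin n} (hi : tb (val x) k i)
    (h : T1 J i0 j0 x c) : T1 J i0 j0 x (Function.update c k i) := by
  by_cases hci : c k = i
  · rw [← hci, Function.update_eq_self]; exact h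
  · apply T1_change hJ h0 hne hx (c := Function.update c k i) _ k (hc k)
    · rw [Function.update_self]; exact Ne.symm hci
    · rw [Function.update_idem, Function.update_eq_self]; exact h
    · intro l
      by_cases hlk : l = k
      · rw [hlk, Function.update_self]; exact hi
      · rw [Function.update_of_ne hlk]; exact hc l

theorem T1_all (hJ : Nat.card J + 2 ≤ n) (h0 : i0 ∉ J) (hne : i0 ≠ j0) {x : IG (PM n)} (hx : Om J x)
    {c c' : J → Fin n} (hc : Tr J (val x) c) (hc' : Tr J (val x) c')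
    (h : T1 J i0 j0 x c) : T1 J i0 j0 x c' := by
  classical
  have := Fintype.ofFinite J
  have key : ∀ F : Finset J, T1 J i0 j0 x (fun k => if k ∈ F then c' k else c k) ∧
      Tr J (val x) (fun k => if k ∈ F then c' k else c k) := by
    intro F
    induction F using Finset.induction_on with
    | empty => simpa using ⟨h, hc⟩
    | insert k F hk ih =>
      have h1 : (fun l => if l ∈ insert k F then c' l else c l) =
          Function.update (fun l => if l ∈ F then c' l else c l) k (c' k) := by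
        ext l
        by_cases hlk : l = k
        · rw [hlk, Function.update_self]; simp
        · rw [Function.update_of_ne hlk]
          simp [hlk]
      rw [h1]
      refine ⟨T1_change' hJ h0 hne hx ih.2 k (hc' k) ih.1, ?_⟩
      intro l
      by_cases hlk : l = k
      · rw [hlk, Function.update_self]; exact hc' k
      · rw [Function.update_of_ne hlk]; exact ih.2 l
  have := (key Finset.univ).1
  simpa using this

/-- the property at all transversals -/
def Tp (J : Set (Fin n)) (i0 j0 : Fin n) (x : IG (PM n)) : Prop :=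
  ∀ c, Tr J (val x) c → T1 J i0 j0 x c

theorem Tp_iff (hJ : Nat.card J + 2 ≤ n) (h0 : i0 ∉ J) (hne : i0 ≠ j0) {x : IG (PM n)} (hx : Om J x)
    {c : J → Fin n} (hc : Tr J (val x) c) : Tp J i0 j0 x ↔ T1 J i0 j0 x c :=
  ⟨fun h => h c hc, fun h _ hc' => T1_all hJ h0 hne hx hc hc' h⟩

theorem Tp_sg (hJ : Nat.card J + 2 ≤ n) (h0 : i0 ∉ J) (hne : i0 ≠ j0) {x : IG (PM n)} (hx : Om J x)
    {i : Fin n} (hi : rk (val x * ss i) = rk (val x)) : Tp J i0 j0 x ↔ Tp J i0 j0 (x * sg i) := by
  have hy : Om J (x * sg i) := hx.mul_io hi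
  obtain ⟨c, hc⟩ := hy.2.exists_tr
  have hc2 : Tr J (val x) c ∧ i ∉ Set.range c := by
    constructor
    · intro k
      have := hc k
      rw [map_mul, val_sg] at this
      exact (tb_mul_ss.1 this).2
    · rintro ⟨k, hk⟩
      have := hc k
      rw [map_mul, val_sg] at this
      exact (tb_mul_ss.1 this).1 hk
  rw [Tp_iff hJ h0 hne hy hc, Tp_iff hJ h0 hne hx hc2.1]
  have : x * sg i * eg (Set.range c) = x * eg (Set.range c) := by
    rw [mul_assoc, sg_eg hc2.2]
  unfold T1
  rw [this]

theorem Tp_zt (h0 : i0 ∉ J) (hne : i0 ≠ j0) {x : IG (PM n)} (hx : Om J x) :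
    Tp J i0 j0 x ↔ Tp J i0 j0 (zt J i0 j0 * x) := by
  have hv := val_zt_mul h0 hne hx
  unfold Tp T1
  rw [hv]
  constructor
  · intro h c hc
    obtain ⟨w, hw, hs⟩ := h c hc
    exact ⟨w, hw, by rw [mul_assoc]; exact (sim_zt _).trans hs⟩
  · intro h c hc
    obtain ⟨w, hw, hs⟩ := h c hc
    exact ⟨w, hw, by rw [mul_assoc] at hs; exact (sim_zt _).symm.trans hs⟩

theorem ta_cut (hJ : Nat.card J + 2 ≤ n) (h0 : i0 ∉ J) (hne : i0 ≠ j0) {x : IG (PM n)} (hx : Om J x)
    {k l : Fin n} (hkl : k ≠ l) (hk : ¬ mkd (val x) k) (hb : ¬ bt (val x) k l) {c : J → Fin n}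
    (hc : Tr J (val x) c) :
    x * ta k l * eg (Set.range c) = zt J i0 j0 * (x * eg (Set.range c)) := by
  set A : Set (Fin n) := insert k (insert l (Set.range c)) with hA
  have hrt : rk (val x * tt k l) = rk (val x) := rk_tt_iff.2 (Or.inr (Or.inl hk))
  have hkA : k ∈ A := Set.mem_insert _ _
  have hlA : l ∈ A := Set.mem_insert_of_mem _ (Set.mem_insert _ _)
  have hcA : Set.range c ⊆ A := (Set.subset_insert _ _).trans (Set.subset_insert _ _)
  have hrA : rk (val x * Es A) = rk (val x) := hx.2.rk_Es hc hcA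
  have hy : Om J (x * eg A) := hx.mul_io hrA
  have hxt : Om J (x * ta k l) := hx.mul_io hrt
  have hct : Tr J (val (x * ta k l)) c := by
    intro m
    rw [map_mul, val_ta]
    exact r_mul_tt_of (hc m)
  have hcomm : x * ta k l * eg A = x * eg A * ta k l := by
    apply hx.1.comm (e := ti k l) (f := ei A) (Es_tt_comm hkA hlA).symm
    show rk (val x * (tt k l * Es A)) = rk (val x)
    have := hxt.2.rk_Es hct hcA
    rw [map_mul, val_ta, mul_assoc] at this
    rw [this, hrt]
  have hiso : val (x * eg A) * ss k = val (x * eg A) := by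
    rw [map_mul, val_eg]
    apply ext_C
    intro f g
    rw [mem_C_mul_ss]
    simp only [mem_C_mul_Es]
    constructor
    · rintro ⟨g', ⟨h, h1, h2⟩, h3⟩
      -- modify h on the block of k
      refine ⟨h + (g k - h k) • ind (val x) (true, k) true, ?_, ?_⟩
      · have h4 := ind_mem (val x) (true, k)
        have h5 : ind (val x) (true, k) false = 0 := by
          ext m
          unfold ind
          rw [if_neg]
          · rfl
          · intro hm
            exact hk ⟨m, (val x).eqv.symm hm⟩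
        rw [h5] at h4
        have h6 := (val x).C.add_mem h1 ((val x).C.smul_mem (g k - h k) h4)
        simpa using h6
      · intro m hm
        rcases hm with rfl | hm
        · have : ind (val x) (true, m) true m = 1 := by
            unfold ind
            rw [if_pos ((val x).eqv.refl _)]
          simp [this]
        · have h7 : m ≠ k := by
            rintro rfl
            rcases hm with hm | ⟨t, ht⟩
            · exact hkl hm
            · exact hk ⟨t, ht ▸ hc t⟩
          have : ind (val x) (true, k) true m = 0 := by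
            unfold ind
            rw [if_neg]
            intro h8
            rcases hm with rfl | ⟨t, ht⟩
            · exact hb h8
            · apply hk
              refine ⟨t, tb_bt (hc t) ?_⟩
              rw [ht]
              exact bt_symm h8
          have h9 : h m = g' m := h2 m (Set.mem_insert_of_mem _ hm)
          simp [this, h9, h3 m h7]
    · intro h1
      exact ⟨g, h1, fun _ _ => rfl⟩
  have hkr : k ∉ Set.range c := by
    rintro ⟨t, ht⟩
    exact hk ⟨t, ht ▸ hc t⟩
  calc x * ta k l * eg (Set.range c) = x * ta k l * (eg A * (sg k * eg (Set.range c))) := by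
        rw [sg_eg hkr, eg_mul _ _ hcA]
    _ = x * ta k l * eg A * sg k * eg (Set.range c) := by simp only [mul_assoc]
    _ = (x * eg A * ta k l * sg k) * eg (Set.range c) := by rw [hcomm]
    _ = zt J i0 j0 * (x * eg A) * eg (Set.range c) := by rw [Z1 hJ h0 hne hy hiso hkl]
    _ = zt J i0 j0 * (x * (eg A * eg (Set.range c))) := by simp only [mul_assoc]
    _ = _ := by rw [eg_mul _ _ hcA]

theorem Tp_ta_aux (hJ : Nat.card J + 2 ≤ n) (h0 : i0 ∉ J) (hne : i0 ≠ j0) {x : IG (PM n)} (hx : Om J x)
    {k l : Fin n} (hkl : k ≠ l) (hk : ¬ mkd (val x) k) : Tp J i0 j0 x ↔ Tp J i0 j0 (x * ta k l) := by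
  by_cases hb : bt (val x) k l
  · have : x * ta k l = x := hx.1.g2 (bt_iff.1 hb)
    rw [this]
  · have hrt : rk (val x * tt k l) = rk (val x) := rk_tt_iff.2 (Or.inr (Or.inl hk))
    have hxt : Om J (x * ta k l) := hx.mul_io hrt
    obtain ⟨c, hc⟩ := hx.2.exists_tr
    have hct : Tr J (val (x * ta k l)) c := by
      intro m
      rw [map_mul, val_ta]
      exact r_mul_tt_of (hc m)
    rw [Tp_iff hJ h0 hne hx hc, Tp_iff hJ h0 hne hxt hct]
    unfold T1
    rw [ta_cut hJ h0 hne hx hkl hk hb hc]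
    constructor
    · rintro ⟨w, hw, hs⟩
      exact ⟨w, hw, (sim_zt _).trans hs⟩
    · rintro ⟨w, hw, hs⟩
      exact ⟨w, hw, (sim_zt _).symm.trans hs⟩

theorem Tp_ta (hJ : Nat.card J + 2 ≤ n) (h0 : i0 ∉ J) (hne : i0 ≠ j0) {x : IG (PM n)} (hx : Om J x)
    {k l : Fin n} (hkl : k ≠ l) (hr : rk (val x * tt k l) = rk (val x)) :
    Tp J i0 j0 x ↔ Tp J i0 j0 (x * ta k l) := by
  rcases rk_tt_iff.1 hr with h | h | h
  · have : x * ta k l = x := hx.1.g2 (bt_iff.1 h)
    rw [this]
  · exact Tp_ta_aux hJ h0 hne hx hkl h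
  · rw [ta_symm]; exact Tp_ta_aux hJ h0 hne hx hkl.symm h

theorem Tp_be (hJ : Nat.card J + 2 ≤ n) (h0 : i0 ∉ J) (hne : i0 ≠ j0) {x : IG (PM n)} (hx : Om J x)
    {k l : Fin n} (hkl : k ≠ l) (hr : rk (val x * (tt k l * ss k)) = rk (val x)) :
    Tp J i0 j0 x ↔ Tp J i0 j0 (x * be k l) := by
  have hrt := (rk_b_iff hkl).1 hr
  have hxt : Om J (x * ta k l) := hx.mul_io hrt
  have hv : val (x * ta k l) * tt k l = val (x * ta k l) := by
    rw [map_mul, val_ta, mul_assoc, tt_idem]
  have hvs : rk (val (x * ta k l) * ss k) = rk (val (x * ta k l)) :=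
    rk_ss_iff.2 (Or.inr ⟨l, hkl.symm, bt_iff.2 hv⟩)
  have hxb : Om J (x * be k l) := hx.mul_io hr
  have e1 : x * ta k l * be k l = x * be k l := by rw [mul_assoc, ta_be]
  have e2 := Z3 hJ h0 hne hxt hv hkl
  rw [mul_assoc, e1] at e2
  rw [Tp_ta hJ h0 hne hx hkl hrt, Tp_sg hJ h0 hne hxt hvs, ← e2, ← Tp_zt h0 hne hxb]

theorem Tp_true (hJ : Nat.card J + 2 ≤ n) (h0 : i0 ∉ J) (hne : i0 ≠ j0) {x : IG (PM n)} (hx : Om J x) :
    Tp J i0 j0 x := by
  apply om_induct (J := J) (Tp J i0 j0) _ _ hx
  · have hc : Tr J (val (eg J)) (Subtype.val : J → Fin n) := by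
      intro k
      rw [val_eg]
      unfold tb
      rw [r_iff]
      intro v hv
      rw [ev_false, ev_true]
      exact mem_C_Es.1 hv k k.2
    rw [Tp_iff hJ h0 hne (om_eg J) hc]
    refine ⟨1, Pth.refl _, ?_⟩
    rw [mul_one, Subtype.range_coe_subtype]
    have : {x | x ∈ J} = J := rfl
    rw [this]
    unfold eg
    rw [io_mul_self]
    exact Sim.rfl' _
  · intro x f hx hf
    exact ext_lemma (J := J) (Tp J i0 j0) (fun x hx i hi => Tp_sg hJ h0 hne hx hi)
      (fun x hx k l hkl hr => Tp_be hJ h0 hne hx hkl hr) _ f rfl x hx hf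

theorem sim_of_val (hJ : Nat.card J + 2 ≤ n) (h0 : i0 ∉ J) (hne : i0 ≠ j0) {x y : IG (PM n)} (hx : Om J x)
    (hy : Om J y) (hv : val x = val y) : ∃ c, Tr J (val x) c ∧
      Sim J i0 j0 (x * eg (Set.range c)) (y * eg (Set.range c)) := by
  obtain ⟨c, hc⟩ := hx.2.exists_tr
  obtain ⟨w, hw, hs⟩ := Tp_true hJ h0 hne hx c hc
  obtain ⟨w', hw', hs'⟩ := Tp_true hJ h0 hne hy c (hv ▸ hc)
  rw [← pth_unique hJ hw hw'] at hs'
  exact ⟨c, hc, hs.trans hs'.symm⟩

end Pool.Agent.H213
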