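import Pool.Agent.helper213_IG.Reg

/-!
# Reduced factorizations
-/

namespace Pool.Agent.H213

open RkMonoid Relation

variable {S : Type*} [RkMonoid S]

/-- The value of a word. -/
def vl (w : List (Idem S)) : S := (w.map (fun e => (e : S))).prod

theorem vl_eq (w : List (Idem S)) : vl w = val (mkw w) := (val_mkw w).symm

@[simp] theorem vl_nil : vl ([] : List (Idem S)) = 1 := rfl

@[simp] theorem vl_append (u v : List (Idem S)) : vl (u ++ v) = vl u * vl v := by simp [vl]

@[simp] theorem vl_cons (a : Idem S) (v : List (Idem S)) : vl (a :: v) = (a : S) * vl v := by simp [vl]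

theorem vl_singleton (a : Idem S) : vl [a] = (a : S) := by simp [vl]

/-- A word is regular if it has a letter (a seed) of the same rank. -/
def RegW (w : List (Idem S)) : Prop := ∃ e ∈ w, rk (vl w) = rk (e : S)

theorem rk_vl_le {w : List (Idem S)} {e : Idem S} (h : e ∈ w) : rk (vl w) ≤ rk (e : S) := by
  obtain ⟨p, q, rfl⟩ := List.append_of_mem h
  rw [vl_append, vl_cons]
  exact (rk_mul_le_right _ _).trans (rk_mul_le_left _ _)

theorem rk_vl_append_left (u v : List (Idem S)) : rk (vl (u ++ v)) ≤ rk (vl u) := by
  rw [vl_append]; exact rk_mul_le_left _ _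

theorem rk_vl_append_right (u v : List (Idem S)) : rk (vl (u ++ v)) ≤ rk (vl v) := by
  rw [vl_append]; exact rk_mul_le_right _ _

theorem RegW.ne_nil {w : List (Idem S)} (h : RegW w) : w ≠ [] := by
  rintro rfl
  obtain ⟨e, he, _⟩ := h
  simp at he

theorem regW_singleton (a : Idem S) : RegW [a] := ⟨a, by simp, by simp⟩

theorem RegW.reg {w : List (Idem S)} (h : RegW w) : Reg (mkw w) := by
  obtain ⟨e, he, hr⟩ := h
  obtain ⟨p, q, rfl⟩ := List.append_of_mem he
  rw [mkw_append, mkw_cons]
  rw [vl_append, vl_cons] at hr
  have h1 : rk ((e : S) * vl q) = rk (e : S) :=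
    le_antisymm (rk_mul_le_left _ _) (hr ▸ rk_mul_le_right _ _)
  have h2 : Reg (io e * mkw q) := (reg_io e).mul_right (by rw [val_io, ← vl_eq, h1])
  apply reg_mul_left h2
  rw [map_mul, val_io, ← vl_eq, ← vl_eq, hr, h1]

/-- Two elements whose product is not regular. -/
def NR (a b : S) : Prop := rk (a * b) < rk a ∧ rk (a * b) < rk b

theorem regW_append_iff {u v : List (Idem S)} (hu : RegW u) (hv : RegW v) :
    RegW (u ++ v) ↔ ¬ NR (vl u) (vl v) := by
  constructor
  · rintro ⟨e, he, hr⟩ ⟨h1, h2⟩
    rw [← vl_append] at h1 h2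
    rcases List.mem_append.1 he with h | h
    · have := rk_vl_le h; omega
    · have := rk_vl_le h; omega
  · intro h
    unfold NR at h
    have h1 := rk_mul_le_left (vl u) (vl v)
    have h2 := rk_mul_le_right (vl u) (vl v)
    by_cases h3 : rk (vl u * vl v) = rk (vl u)
    · obtain ⟨e, he, hr⟩ := hu
      exact ⟨e, List.mem_append.2 (Or.inl he), by rw [vl_append, h3, hr]⟩
    · obtain ⟨e, he, hr⟩ := hv
      exact ⟨e, List.mem_append.2 (Or.inr he), by rw [vl_append]; omega⟩

theorem vl_step {p q : List (Idem S)} {a b c : Idem S} (hc : (a : S) * (b : S) = c) :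
    vl (p ++ [a, b] ++ q) = vl (p ++ [c] ++ q) := by
  simp [← hc, mul_assoc]

theorem rk_basic {a b : S} (ha : a * a = a) (hb : b * b = b) (h : Basic a b) :
    rk (a * b) = rk a ∨ rk (a * b) = rk b := by
  rcases h with h | h | h | h
  · left; rw [h]
  · right; rw [h]
  · left
    apply le_antisymm (rk_mul_le_left _ _)
    calc rk a = rk (a * b * a) := by rw [mul_assoc, h, ha]
      _ ≤ _ := rk_mul_le_left _ _
  · right
    apply le_antisymm (rk_mul_le_right _ _)
    calc rk b = rk (b * (a * b)) := by rw [← mul_assoc, h, hb]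
      _ ≤ _ := rk_mul_le_right _ _

theorem regW_step_iff {p q : List (Idem S)} {a b c : Idem S} (hb : Basic (a : S) (b : S))
    (hc : (a : S) * (b : S) = c) : RegW (p ++ [a, b] ++ q) ↔ RegW (p ++ [c] ++ q) := by
  have hv := vl_step (p := p) (q := q) hc
  have hac : rk (c : S) ≤ rk (a : S) := by rw [← hc]; exact rk_mul_le_left _ _
  have hbc : rk (c : S) ≤ rk (b : S) := by rw [← hc]; exact rk_mul_le_right _ _
  have hcle : rk (vl (p ++ [c] ++ q)) ≤ rk (c : S) := rk_vl_le (by simp)
  constructor
  · rintro ⟨e, he, hr⟩
    rw [hv] at hr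
    simp only [List.append_assoc, List.mem_append, List.mem_cons, List.cons_append,
      List.nil_append] at he
    rcases he with h | rfl | rfl | h
    · exact ⟨e, by simp [h], hr⟩
    · exact ⟨c, by simp, by omega⟩
    · exact ⟨c, by simp, by omega⟩
    · exact ⟨e, by simp [h], hr⟩
  · rintro ⟨e, he, hr⟩
    rw [← hv] at hr
    simp only [List.append_assoc, List.mem_append, List.mem_cons, List.cons_append,
      List.nil_append] at he
    rcases he with h | rfl | h
    · exact ⟨e, by simp [h], hr⟩
    · rcases rk_basic a.2 b.2 hb with h | h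
      · exact ⟨a, by simp, by rw [hr, ← hc, h]⟩
      · exact ⟨b, by simp, by rw [hr, ← hc, h]⟩
    · exact ⟨e, by simp [h], hr⟩

/-- Reduced lists of regular words. -/
def RedW (U : List (List (Idem S))) : Prop :=
  (∀ u ∈ U, RegW u) ∧ List.IsChain (fun a b => NR (vl a) (vl b)) U

/-- One move between neighbours in a list of elements of `IG`. -/
def MvStep (X Y : List (IG S)) : Prop :=
  ∃ (l r : List (IG S)) (x y : IG S) (e : Idem S), Reg x ∧ Reg y ∧
    rk (val x * (e : S)) = rk (val x) ∧ rk ((e : S) * val y) = rk (val y) ∧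
    X = l ++ [x * io e, y] ++ r ∧ Y = l ++ [x, io e * y] ++ r

theorem mv_context {X Y : List (IG S)} (h : EqvGen MvStep X Y) (p q : List (IG S)) :
    EqvGen MvStep (p ++ X ++ q) (p ++ Y ++ q) := by
  induction h with
  | rel X Y h =>
    obtain ⟨l, r, x, y, e, h1, h2, h3, h4, rfl, rfl⟩ := h
    exact EqvGen.rel _ _ ⟨p ++ l, r ++ q, x, y, e, h1, h2, h3, h4, by simp, by simp⟩
  | refl x => exact EqvGen.refl _
  | symm x y _ ih => exact EqvGen.symm _ _ ih
  | trans x y z _ _ ih1 ih2 => exact EqvGen.trans _ _ _ ih1 ih2

theorem mv_cons {X Y : List (IG S)} (h : EqvGen MvStep X Y) (a : IG S) :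
    EqvGen MvStep (a :: X) (a :: Y) := by
  simpa using mv_context h [a] []

theorem mv_word (w : List (Idem S)) (x y : IG S) (hx : Reg x) (hy : Reg y)
    (h1 : rk (val x * vl w) = rk (val x)) (h2 : rk (vl w * val y) = rk (val y)) (r : List (IG S)) :
    EqvGen MvStep (x * mkw w :: y :: r) (x :: mkw w * y :: r) := by
  induction w generalizing x with
  | nil => simpa [mkw_nil] using EqvGen.refl _
  | cons a w ih =>
    rw [vl_cons, ← mul_assoc] at h1
    rw [vl_cons, mul_assoc] at h2
    have h1' := rk_mul_eq_of_mul_mul h1
    have h2' := rk_mul_eq_of_mul_mul' h2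
    have hxa : Reg (x * io a) := hx.mul_io h1'
    have hwy : Reg (mkw w * y) := reg_mul_left hy _ (by rw [← vl_eq]; exact h2')
    have s1 := ih (x * io a) hxa (by rw [map_mul, val_io, h1, h1']) h2'
    rw [mkw_cons, ← mul_assoc]
    refine EqvGen.trans _ _ _ s1 ?_
    apply EqvGen.rel
    refine ⟨[], r, x, mkw w * y, a, hx, hwy, h1', ?_, by simp, by simp [mul_assoc]⟩
    rw [map_mul, ← vl_eq, h2, h2']

/-- Seeds of a prefix cannot lie beyond the first factor. -/
theorem seed_lemma (U : List (List (Idem S))) : ∀ (u u' t : List (Idem S)) (_ : RedW (u :: U))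
    (_ : u' ++ t = U.flatten) (e : Idem S) (_ : e ∈ u'), rk (vl (u ++ u')) < rk (e : S) := by
  induction U with
  | nil =>
    intro u u' t _ h e he
    simp at h
    simp [h.1] at he
  | cons u2 U ih =>
    intro u u' t hred h e he
    have hchain := hred.2
    rw [List.isChain_cons_cons] at hchain
    have hred2 : RedW (u2 :: U) := ⟨fun a ha => hred.1 a (List.mem_cons_of_mem _ ha), hchain.2⟩
    rw [List.flatten_cons, List.append_eq_append_iff] at h
    have hle : rk (vl (u ++ u')) ≤ rk (e : S) := rk_vl_le (List.mem_append.2 (Or.inr he))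
    rcases h with ⟨u'', h1, h2⟩ | ⟨s, h1, h2⟩
    · -- u2 = u' ++ u''
      rcases hle.lt_or_eq with h3 | h3
      · exact h3
      exfalso
      have h4 : rk (vl u * vl u') = rk (vl u') := by
        apply le_antisymm (rk_mul_le_right _ _)
        rw [← vl_append, h3]
        exact rk_vl_le he
      have h5 := rk_mul_right_congr h4 (vl u'')
      rw [mul_assoc, ← vl_append, ← h1] at h5
      exact absurd h5 hchain.1.2.ne
    · -- u' = u2 ++ s
      subst h1
      rcases List.mem_append.1 he with h3 | h3
      · calc rk (vl (u ++ (u2 ++ s))) ≤ rk (vl (u ++ u2)) := by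
              rw [← List.append_assoc]; exact rk_vl_append_left _ _
          _ < rk (vl u2) := by rw [vl_append]; exact hchain.1.2
          _ ≤ _ := rk_vl_le h3
      · calc rk (vl (u ++ (u2 ++ s))) ≤ rk (vl (u2 ++ s)) := rk_vl_append_right _ _
          _ < _ := ih u2 s t hred2 h2.symm e h3

theorem redW_tail {u : List (Idem S)} {U : List (List (Idem S))} (h : RedW (u :: U)) : RedW U :=
  ⟨fun a ha => h.1 a (List.mem_cons_of_mem _ ha), h.2.tail⟩

/-- Shifting the first boundary of a reduced factorization. -/
theorem shift_lemma {u v : List (Idem S)} {U V : List (List (Idem S))} (hU : RedW (u :: U)) (hV : RedW (v :: V))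
    {u' : List (Idem S)} (hv : v = u ++ u') (hne : u' ≠ []) (hfl : (u :: U).flatten = (v :: V).flatten) :
    ∃ U', RedW (v :: U') ∧ (v :: U').flatten = (v :: V).flatten ∧
      EqvGen MvStep ((u :: U).map mkw) ((v :: U').map mkw) := by
  subst hv
  have hfl' : u' ++ V.flatten = U.flatten := by
    simp only [List.flatten_cons, List.append_assoc, List.append_cancel_left_eq] at hfl
    exact hfl.symm
  obtain ⟨e, he, hr⟩ := hV.1 (u ++ u') (by simp)
  have hseed : rk (vl (u ++ u')) = rk (vl u) := by
    rcases List.mem_append.1 he with h | h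
    · apply le_antisymm (rk_vl_append_left _ _)
      rw [hr]; exact rk_vl_le h
    · exact absurd hr (seed_lemma U u u' V.flatten hU hfl' e h).ne
  cases U with
  | nil =>
    simp at hfl'
    exact absurd hfl'.1 hne
  | cons u2 U =>
    have hchain := hU.2
    rw [List.isChain_cons_cons] at hchain
    rw [List.flatten_cons, List.append_eq_append_iff] at hfl'
    rcases hfl' with ⟨u'', h1, h2⟩ | ⟨s, h1, h2⟩
    · -- u2 = u' ++ u''
      subst h1
      have hseed2 : rk (vl u'') = rk (vl (u' ++ u'')) ∧ RegW u'' := by
        obtain ⟨e2, he2, hr2⟩ := hU.1 (u' ++ u'') (by simp)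
        rcases List.mem_append.1 he2 with h | h
        · exfalso
          have h3 : rk (vl u' * vl u'') = rk (vl u') := by
            apply le_antisymm (rk_mul_le_left _ _)
            rw [← vl_append, hr2]; exact rk_vl_le h
          have h4 := rk_mul_left_congr h3 (vl u)
          rw [← vl_append, ← vl_append u u', hseed] at h4
          exact absurd h4 hchain.1.1.ne
        · have h3 : rk (vl u'') = rk (vl (u' ++ u'')) := by
            apply le_antisymm _ (rk_vl_append_right _ _)
            rw [hr2]; exact rk_vl_le h
          exact ⟨h3, e2, h, by rw [h3, hr2]⟩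
      refine ⟨u'' :: U, ⟨?_, ?_⟩, ?_, ?_⟩
      · intro a ha
        rcases List.mem_cons.1 ha with rfl | ha
        · exact hV.1 _ (by simp)
        rcases List.mem_cons.1 ha with rfl | ha
        · exact hseed2.2
        · exact hU.1 _ (by simp [ha])
      · rw [List.isChain_cons_cons]
        constructor
        · -- NR (vl (u++u')) (vl u'')
          have h5 : vl (u ++ u') * vl u'' = vl u * vl (u' ++ u'') := by simp [mul_assoc]
          refine ⟨?_, ?_⟩
          · rw [h5, hseed]; exact hchain.1.1
          · rw [h5, hseed2.1]; exact hchain.1.2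
        · cases U with
          | nil => simp
          | cons u3 U =>
            have hc2 := hchain.2
            rw [List.isChain_cons_cons] at hc2 ⊢
            refine ⟨?_, hc2.2⟩
            have h6 : rk (vl u' * vl u'') = rk (vl u'') := by rw [← vl_append, hseed2.1]
            have h7 := rk_mul_right_congr h6 (vl u3)
            rw [← vl_append] at h7
            refine ⟨?_, ?_⟩
            · rw [← h7, hseed2.1]; exact hc2.1.1
            · rw [← h7]; exact hc2.1.2
      · simp only [List.flatten_cons, List.append_assoc] at hfl ⊢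
        exact hfl
      · simp only [List.map_cons, mkw_append]
        apply EqvGen.symm
        apply mv_word
        · exact (hU.1 u (by simp)).reg
        · exact hseed2.2.reg
        · rw [← vl_eq, ← vl_append, hseed]
        · rw [← vl_eq, ← vl_append, hseed2.1]
    · -- u' = u2 ++ s
      exfalso
      subst h1
      have h3 : rk (vl (u ++ (u2 ++ s))) ≤ rk (vl (u ++ u2)) := by
        rw [← List.append_assoc]; exact rk_vl_append_left _ _
      have h4 := hchain.1.1
      rw [← vl_append] at h4
      omega

theorem red_unique_aux (N : ℕ) : ∀ (U V : List (List (Idem S))) (_ : RedW U) (_ : RedW V)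
    (_ : U.flatten = V.flatten) (_ : U.flatten.length ≤ N),
    EqvGen MvStep (U.map mkw) (V.map mkw) := by
  induction N with
  | zero =>
    intro U V hU hV hfl hN
    have hn : ∀ (W : List (List (Idem S))), RedW W → W.flatten.length ≤ 0 → W = [] := by
      intro W hW h
      cases W with
      | nil => rfl
      | cons w W =>
        exfalso
        have := (hW.1 w (by simp)).ne_nil
        simp at h
        exact this h.1
    rw [hn U hU hN, hn V hV (hfl ▸ hN)]
    exact EqvGen.refl _
  | succ N ih =>
    have key : ∀ (U V : List (List (Idem S))) (u : List (Idem S)), RedW (u :: U) → RedW (u :: V) →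
        (u :: U).flatten = (u :: V).flatten → (u :: U).flatten.length ≤ N + 1 →
        EqvGen MvStep ((u :: U).map mkw) ((u :: V).map mkw) := by
      intro U V u hU hV hfl hN
      have h1 : U.flatten = V.flatten := by simpa using hfl
      have h2 : U.flatten.length ≤ N := by
        have hne := (hU.1 u (by simp)).ne_nil
        have : 0 < u.length := List.length_pos_iff.2 hne
        rw [List.flatten_cons, List.length_append] at hN
        omega
      exact mv_cons (ih U V (redW_tail hU) (redW_tail hV) h1 h2) _
    have main : ∀ (U V : List (List (Idem S))) (u v : List (Idem S)), RedW (u :: U) → RedW (v :: V) →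
        (u :: U).flatten = (v :: V).flatten → (u :: U).flatten.length ≤ N + 1 → (∃ u', v = u ++ u') →
        EqvGen MvStep ((u :: U).map mkw) ((v :: V).map mkw) := by
      rintro U V u v hU hV hfl hN ⟨u', hv⟩
      by_cases hne : u' = []
      · subst hne
        rw [List.append_nil] at hv
        subst hv
        exact key U V v hU hV hfl hN
      · obtain ⟨U', h1, h2, h3⟩ := shift_lemma hU hV hv hne hfl
        refine EqvGen.trans _ _ _ h3 (key U' V v h1 hV h2 ?_)
        rw [h2, ← hfl]; exact hN
    intro U V hU hV hfl hN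
    cases U with
    | nil =>
      cases V with
      | nil => exact EqvGen.refl _
      | cons v V =>
        exfalso
        have := (hV.1 v (by simp)).ne_nil
        simp at hfl
        exact this hfl.1
    | cons u U =>
      cases V with
      | nil =>
        exfalso
        have := (hU.1 u (by simp)).ne_nil
        simp at hfl
        exact this hfl.1
      | cons v V =>
        have h4 : u ++ U.flatten = v ++ V.flatten := by simpa using hfl
        rcases List.append_eq_append_iff.1 h4 with ⟨a, h5, _⟩ | ⟨a, h5, _⟩
        · exact main U V u v hU hV hfl hN ⟨a, h5⟩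
        · exact EqvGen.symm _ _ (main V U v u hV hU hfl.symm (hfl ▸ hN) ⟨a, h5⟩)

theorem red_unique {U V : List (List (Idem S))} (hU : RedW U) (hV : RedW V)
    (hfl : U.flatten = V.flatten) : EqvGen MvStep (U.map mkw) (V.map mkw) :=
  red_unique_aux _ U V hU hV hfl le_rfl

/-- locating a letter in a flattened list. -/
theorem locate (V : List (List (Idem S))) : ∀ (p q : List (Idem S)) (c : Idem S), V.flatten = p ++ [c] ++ q →
    ∃ V1 V2 p' q', V = V1 ++ [p' ++ [c] ++ q'] ++ V2 ∧ p = V1.flatten ++ p' ∧ q = q' ++ V2.flatten := by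
  induction V with
  | nil => intro p q c h; simp at h
  | cons v V ih =>
    intro p q c h
    rw [List.flatten_cons, List.append_assoc, List.append_eq_append_iff] at h
    rcases h with ⟨a, h1, h2⟩ | ⟨a, h1, h2⟩
    · -- p = v ++ a
      obtain ⟨V1, V2, p', q', h3, h4, h5⟩ := ih a q c (by rw [h2]; simp)
      refine ⟨v :: V1, V2, p', q', by simp [h3], by simp [h1, h4], h5⟩
    · -- v = p ++ a, [c] ++ q = a ++ V.flatten
      cases a with
      | nil =>
        simp only [List.append_nil, List.nil_append] at h1 h2
        obtain ⟨V1, V2, p', q', h3, h4, h5⟩ := ih [] q c (by rw [← h2]; simp)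
        refine ⟨v :: V1, V2, p', q', by simp [h3], ?_, h5⟩
        rw [List.flatten_cons, List.append_assoc, ← h4, List.append_nil, h1]
      | cons b a =>
        simp only [List.cons_append, List.nil_append, List.cons.injEq] at h2
        obtain ⟨rfl, h2⟩ := h2
        refine ⟨[], V, p, a, by simp [h1], by simp, h2⟩

theorem step_lift {u v : List (Idem S)} (h : StepW u v) {V : List (List (Idem S))} (hV : RedW V)
    (hfl : V.flatten = v) : ∃ U, RedW U ∧ U.flatten = u ∧ U.map mkw = V.map mkw := by
  obtain ⟨p, q, a, b, c, hb, hc, rfl, rfl⟩ := h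
  obtain ⟨V1, V2, p', q', h1, h2, h3⟩ := locate V p q c hfl
  subst h1 h2 h3
  refine ⟨V1 ++ [p' ++ [a, b] ++ q'] ++ V2, ⟨?_, ?_⟩, ?_, ?_⟩
  · intro w hw
    simp only [List.append_assoc, List.mem_append, List.mem_cons, List.not_mem_nil, or_false] at hw
    rcases hw with h | h | h
    · exact hV.1 w (by simp [h])
    · subst h
      have := (regW_step_iff (p := p') (q := q') hb hc).2 (hV.1 _ (by simp))
      simpa using this
    · exact hV.1 w (by simp [h])
  · have h4 := hV.2
    have hv := vl_step (p := p') (q := q') hc
    rw [← List.isChain_map (R := fun a b => NR a b) vl] at h4 ⊢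
    simpa only [List.map_append, List.map_cons, List.map_nil, hv] using h4
  · simp [List.append_assoc]
  · have h5 : mkw (p' ++ [a, b] ++ q') = mkw (p' ++ [c] ++ q') :=
      mkw_eq_of_step ⟨p', q', a, b, c, hb, hc, rfl, rfl⟩
    simp only [List.map_append, List.map_cons, List.map_nil, h5]

open Classical in
/-- insertion of a regular word in front of a reduced list -/
noncomputable def insF : List (Idem S) → List (List (Idem S)) → List (List (Idem S))
  | u, [] => [u]
  | u, v :: V => if RegW (u ++ v) then insF (u ++ v) V else u :: v :: V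

theorem insF_spec (V : List (List (Idem S))) : ∀ u, RegW u → RedW V →
    RedW (insF u V) ∧ (insF u V).flatten = u ++ V.flatten := by
  induction V with
  | nil =>
    intro u hu _
    refine ⟨⟨?_, ?_⟩, ?_⟩
    · simpa [insF] using hu
    · simp [insF]
    · simp [insF]
  | cons v V ih =>
    intro u hu hV
    by_cases h : RegW (u ++ v)
    · rw [insF, if_pos h]
      obtain ⟨h1, h2⟩ := ih (u ++ v) h (redW_tail hV)
      exact ⟨h1, by rw [h2]; simp⟩
    · rw [insF, if_neg h]
      refine ⟨⟨?_, ?_⟩, by simp⟩
      · intro a ha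
        rcases List.mem_cons.1 ha with rfl | ha
        · exact hu
        · exact hV.1 a ha
      · rw [List.isChain_cons_cons]
        refine ⟨?_, hV.2⟩
        rw [regW_append_iff hu (hV.1 v (by simp))] at h
        exact not_not.1 h

/-- The reduced factorization of a word. -/
noncomputable def redF (w : List (Idem S)) : List (List (Idem S)) :=
  w.foldr (fun a U => insF [a] U) []

theorem redF_spec (w : List (Idem S)) : RedW (redF w) ∧ (redF w).flatten = w := by
  induction w with
  | nil => exact ⟨⟨by simp [redF], by simp [redF]⟩, by simp [redF]⟩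
  | cons a w ih =>
    have := insF_spec (redF w) [a] (regW_singleton a) ih.1
    refine ⟨this.1, ?_⟩
    rw [show redF (a :: w) = insF [a] (redF w) from rfl, this.2, ih.2]
    rfl

theorem red_of_eqvGen {u v : List (Idem S)} (h : EqvGen StepW u v) :
    EqvGen MvStep ((redF u).map mkw) ((redF v).map mkw) := by
  induction h with
  | rel u v h =>
    obtain ⟨U, h1, h2, h3⟩ := step_lift h (redF_spec v).1 (redF_spec v).2
    rw [← h3]
    exact red_unique (redF_spec u).1 h1 (by rw [(redF_spec u).2, h2])
  | refl x => exact EqvGen.refl _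
  | symm x y _ ih => exact EqvGen.symm _ _ ih
  | trans x y z _ _ ih1 ih2 => exact EqvGen.trans _ _ _ ih1 ih2

theorem mkw_flatten (U : List (List (Idem S))) : mkw U.flatten = (U.map mkw).prod := by
  induction U with
  | nil => simp [mkw_nil]
  | cons u U ih => simp [mkw_append, ih]

theorem mkw_redF (w : List (Idem S)) : mkw w = ((redF w).map mkw).prod := by
  rw [← mkw_flatten, (redF_spec w).2]

end Pool.Agent.H213
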