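import Pool.Agent.helper213_IG.Om

/-!
# The central element
-/

namespace Pool.Agent.H213

open RkMonoid PM

variable {n : ℕ} {J : Set (Fin n)}

/-- induction in the R-class of `eg J` -/
theorem om_induct (T : IG (PM n) → Prop) (h0 : T (eg J))
    (hT : ∀ (x : IG (PM n)) (f : Idem (PM n)), Om J x → rk (val x * (f : PM n)) = rk (val x) →
      (T x ↔ T (x * io f))) {x : IG (PM n)} (hx : Om J x) : T x := by
  have key : ∀ w : IG (PM n), rk (val (eg J * w)) = rk (Es J) → Om J (eg J * w) ∧ T (eg J * w) := by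
    intro w
    induction w using IG.induction_right with
    | h1 => intro _; rw [mul_one]; exact ⟨om_eg J, h0⟩
    | hm w e ih =>
      intro h
      rw [← mul_assoc, map_mul] at h
      have h1 : rk (val (eg J * w)) = rk (Es J) := by
        apply le_antisymm
        · have := rk_val_mul_le_left (eg J) w
          rwa [val_eg] at this
        · rw [← h]; exact rk_mul_le_left _ _
      obtain ⟨h2, h3⟩ := ih h1
      have h4 : rk (val (eg J * w) * (e : PM n)) = rk (val (eg J * w)) := by
        rw [h1, ← h, val_io]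
      rw [← mul_assoc]
      exact ⟨h2.mul_io h4, (hT _ _ h2 h4).1 h3⟩
  have h1 : eg J * x = x := hx.1.g2' hx.2.1
  have := (key x (by rw [h1]; exact hx.2.2)).2
  rwa [h1] at this

theorem iso_ts {a : PM n} {i j : Fin n} (h : a * ss i = a) (hij : i ≠ j) : a * tt i j * ss i = a := by
  calc a * tt i j * ss i = a * (ss i * tt i j * ss i) := by
        conv_lhs => rw [← h]
        simp only [mul_assoc]
    _ = a := by rw [sts hij, h]

theorem iso_mul {a : PM n} {i : Fin n} (h : a * ss i = a) {b : PM n} (hb : ss i * b = b * ss i) :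
    a * b * ss i = a * b := by
  rw [mul_assoc, ← hb, ← mul_assoc, h]

theorem rk_of_mul_eq {a b c : PM n} (h : rk (a * b * c) = rk a) : rk (a * b) = rk a :=
  rk_mul_eq_of_mul_mul h

/-- auxiliary commutation A -/
theorem auxA {x : IG (PM n)} (hx : Om J x) {i j k : Fin n} (hi : val x * ss i = val x) (hij : i ≠ j)
    (hik : i ≠ k) (hr : rk (val x * tt j k) = rk (val x)) :
    x * ta j k * ta i j * sg i = x * ta i j * sg i * ta j k := by
  have e0 : val x * tt j k * ss i = val x * tt j k := iso_mul hi (ss_tt_comm hij hik)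
  have e1 : val x * tt j k * tt i j * ss i = val x * tt j k := iso_ts e0 hij
  have r1 : rk (val x * (tt j k * tt i j)) = rk (val x) := by
    apply le_antisymm (rk_mul_le_left _ _)
    calc rk (val x) = rk (val x * tt j k * tt i j * ss i) := by rw [e1, hr]
      _ ≤ rk (val x * (tt j k * tt i j)) := by rw [mul_assoc (val x)]; exact rk_mul_le_left _ _
  have h1 : x * ta j k * ta i j = x * ta i j * ta j k :=
    hx.1.comm (e := ti j k) (f := ti i j) (tt_comm _ _ _ _) r1
  have r2 : rk (val x * tt i j) = rk (val x) := rk_of_mul_eq (c := ss i) (by rw [iso_ts hi hij])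
  have hy : Om J (x * ta i j) := hx.mul_io r2
  have h2 : x * ta i j * ta j k * sg i = x * ta i j * sg i * ta j k := by
    apply hy.1.comm (e := ti j k) (f := si i) (ss_tt_comm hij hik).symm
    rw [map_mul, val_ta, coe_ti, coe_si]
    have : val x * tt i j * (tt j k * ss i) = val x * tt j k * tt i j * ss i := by
      rw [← mul_assoc, mul_assoc (val x), tt_comm i j j k, ← mul_assoc (val x)]
    rw [this, e1, hr, r2]
  rw [h1, h2]

theorem val_ts {x : IG (PM n)} {i j : Fin n} (hi : val x * ss i = val x) (hij : i ≠ j) :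
    val (x * ta i j * sg i) = val x := by
  rw [map_mul, map_mul, val_ta, val_sg, iso_ts hi hij]

theorem om_ts {x : IG (PM n)} (hx : Om J x) {i j : Fin n} (hi : val x * ss i = val x) (hij : i ≠ j) :
    Om J (x * ta i j * sg i) := by
  have : x * ta i j * sg i = x * (ta i j * sg i) := by rw [mul_assoc]
  rw [this]
  apply hx.mul
  rw [map_mul, val_ta, val_sg, ← mul_assoc, iso_ts hi hij]

theorem ind1a {x : IG (PM n)} (hx : Om J x) {i j k : Fin n} (hi : val x * ss i = val x) (hij : i ≠ j)
    (hik : i ≠ k) (hr : rk (val x * tt j k) = rk (val x)) :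
    x * ta i j * sg i = x * ta i k * sg i := by
  have e0 : val x * tt j k * ss i = val x * tt j k := iso_mul hi (ss_tt_comm hij hik)
  have e1 : val x * tt j k * tt i j * ss i = val x * tt j k := iso_ts e0 hij
  have r1 : rk (val x * (tt j k * tt i j)) = rk (val x) := by
    apply le_antisymm (rk_mul_le_left _ _)
    calc rk (val x) = rk (val x * tt j k * tt i j * ss i) := by rw [e1, hr]
      _ ≤ rk (val x * (tt j k * tt i j)) := by rw [mul_assoc (val x)]; exact rk_mul_le_left _ _
  have hid : (tt j k * tt i j) * (tt j k * tt i j) = tt j k * tt i j := by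
    calc (tt j k * tt i j) * (tt j k * tt i j) = tt j k * (tt i j * tt j k) * tt i j := by simp only [mul_assoc]
      _ = (tt j k * tt j k) * (tt i j * tt i j) := by rw [tt_comm i j j k]; simp only [mul_assoc]
      _ = _ := by rw [tt_idem, tt_idem]
  have h3 : x * ta j k * ta i j = x * ta j k * ta i k := by
    have e2 : x * io (ti j k) * io (ti i j) = x * io (⟨tt j k * tt i j, hid⟩ : Idem (PM n)) :=
      hx.1.comm_mul rfl (tt_comm _ _ _ _) r1
    have e3 : x * io (ti j k) * io (ti i k) = x * io (⟨tt j k * tt i j, hid⟩ : Idem (PM n)) :=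
      hx.1.comm_mul (tt_tri i j k).symm (by
        show tt i k * tt j k = tt j k * tt i j
        rw [tt_comm, ← tt_tri]) r1
    exact e2.trans e3.symm
  have hA := auxA hx hi hij hik hr
  have hA' := auxA hx hi hik hij (by rw [tt_symm]; exact hr)
  rw [ta_symm k j] at hA'
  apply (om_ts hx hi hij).1.cancel_io (om_ts hx hi hik).1 (by rw [val_ts hi hij, val_ts hi hik]) (e := ti j k)
  · rw [val_ts hi hij]; exact hr
  · show x * ta i j * sg i * ta j k = x * ta i k * sg i * ta j k
    rw [← hA, ← hA', h3]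

/-- auxiliary commutation B -/
theorem auxB {x : IG (PM n)} (hx : Om J x) {i j l : Fin n} (hi : val x * ss i = val x) (hij : i ≠ j)
    (hli : l ≠ i) (hlj : l ≠ j) (hr : rk (val x * ss l) = rk (val x)) :
    x * sg l * ta i j * sg i = x * ta i j * sg i * sg l := by
  have e0 : val x * ss l * ss i = val x * ss l := iso_mul hi (ss_comm _ _)
  have e1 : val x * ss l * tt i j * ss i = val x * ss l := iso_ts e0 hij
  have r1 : rk (val x * (ss l * tt i j)) = rk (val x) := by
    apply le_antisymm (rk_mul_le_left _ _)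
    calc rk (val x) = rk (val x * ss l * tt i j * ss i) := by rw [e1, hr]
      _ ≤ rk (val x * (ss l * tt i j)) := by rw [mul_assoc (val x)]; exact rk_mul_le_left _ _
  have h1 : x * sg l * ta i j = x * ta i j * sg l :=
    hx.1.comm (e := si l) (f := ti i j) (ss_tt_comm hli hlj) r1
  have r2 : rk (val x * tt i j) = rk (val x) := rk_of_mul_eq (c := ss i) (by rw [iso_ts hi hij])
  have hy : Om J (x * ta i j) := hx.mul_io r2
  have h2 : x * ta i j * sg l * sg i = x * ta i j * sg i * sg l := by
    apply hy.1.comm (e := si l) (f := si i) (ss_comm _ _)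
    rw [map_mul, val_ta, coe_si, coe_si]
    have : val x * tt i j * (ss l * ss i) = val x * ss l * tt i j * ss i := by
      rw [← mul_assoc, mul_assoc (val x), ← ss_tt_comm hli hlj, ← mul_assoc (val x)]
    rw [this, e1, hr, r2]
  rw [h1, h2]

theorem spare1 (hJ : Nat.card J + 2 ≤ n) {a : PM n} (ha : OmS J a) {i j k : Fin n} (hj : mkd a j) (hk : mkd a k)
    (hb : ¬ bt a j k) : ∃ l, l ≠ i ∧ l ≠ j ∧ l ≠ k ∧ rk (a * ss l) = rk a := by
  classical
  by_contra hcon
  push Not at hcon
  have hinv : ∀ l, l ≠ i → l ≠ j → l ≠ k → Inv a l := by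
    intro l h1 h2 h3
    by_contra h4
    exact hcon l h1 h2 h3 (not_inv_iff.1 h4)
  have h1 := ha.card_le (Finset.univ.erase i) (by
    intro m hm
    by_cases h2 : m = j
    · rw [h2]; exact hj
    by_cases h3 : m = k
    · rw [h3]; exact hk
    exact (hinv m (Finset.ne_of_mem_erase hm) h2 h3).1) (by
    intro m hm m' hm' hmm
    have hmi := Finset.ne_of_mem_erase hm
    have hmi' := Finset.ne_of_mem_erase hm'
    by_cases h2 : m ≠ j ∧ m ≠ k
    · by_contra hne
      exact (hinv m hmi h2.1 h2.2).2 m' (Ne.symm hne) hmm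
    by_cases h3 : m' ≠ j ∧ m' ≠ k
    · by_contra hne
      exact (hinv m' hmi' h3.1 h3.2).2 m hne (bt_symm hmm)
    have h4 : m = j ∨ m = k := by tauto
    have h5 : m' = j ∨ m' = k := by tauto
    rcases h4 with rfl | rfl <;> rcases h5 with rfl | rfl
    · rfl
    · exact absurd hmm hb
    · exact absurd (bt_symm hmm) hb
    · rfl)
  rw [Finset.card_erase_of_mem (Finset.mem_univ _), Finset.card_univ, Fintype.card_fin] at h1
  omega

theorem ind1 (hJ : Nat.card J + 2 ≤ n) {x : IG (PM n)} (hx : Om J x) {i j k : Fin n}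
    (hi : val x * ss i = val x) (hij : i ≠ j) (hik : i ≠ k) :
    x * ta i j * sg i = x * ta i k * sg i := by
  by_cases hr : rk (val x * tt j k) = rk (val x)
  · exact ind1a hx hi hij hik hr
  rw [rk_tt_iff] at hr
  push Not at hr
  obtain ⟨h1, h2, h3⟩ := hr
  obtain ⟨l, hli, hlj, hlk, hl⟩ := spare1 hJ hx.2 (i := i) h2 h3 h1
  have hy : Om J (x * sg l) := hx.mul_io hl
  have hyi : val (x * sg l) * ss i = val (x * sg l) := by
    rw [map_mul, val_sg]; exact iso_mul hi (ss_comm _ _)
  have hyl : val (x * sg l) * ss l = val (x * sg l) := by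
    rw [map_mul, val_sg, mul_assoc, ss_idem]
  have hml := (iso_iff.1 hyl).2
  have e1 := ind1a hy hyi hij hli.symm (rk_tt_iff.2 (Or.inr (Or.inr hml)))
  have e2 := ind1a hy hyi hli.symm hik (rk_tt_iff.2 (Or.inr (Or.inl hml)))
  have e3 := auxB hx hi hij hli hlj hl
  have e4 := auxB hx hi hik hli hlk hl
  apply (om_ts hx hi hij).1.cancel_io (om_ts hx hi hik).1 (by rw [val_ts hi hij, val_ts hi hik]) (e := si l)
  · rw [val_ts hi hij]; exact hl
  · show x * ta i j * sg i * sg l = x * ta i k * sg i * sg l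
    rw [← e3, ← e4, e1, e2]

theorem ind2 {x : IG (PM n)} (hx : Om J x) {i k : Fin n} (hi : val x * ss i = val x)
    (hk : val x * ss k = val x) (hik : i ≠ k) : x * ta i k * sg i = x * ta i k * sg k := by
  have h1 : x * ta i k * sg i * sg k = x * ta i k * sg i := by
    apply (om_ts hx hi hik).1.g2
    rw [val_ts hi hik]; exact hk
  have h2' := om_ts hx hk hik.symm
  have h2v := val_ts hk hik.symm
  rw [ta_symm k i] at h2' h2v
  have h2 : x * ta i k * sg k * sg i = x * ta i k * sg k := by
    apply h2'.1.g2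
    rw [h2v]; exact hi
  have r2 : rk (val x * tt i k) = rk (val x) := rk_of_mul_eq (c := ss i) (by rw [iso_ts hi hik])
  have hy : Om J (x * ta i k) := hx.mul_io r2
  have h3 : x * ta i k * sg i * sg k = x * ta i k * sg k * sg i := by
    apply hy.1.comm (e := si i) (f := si k) (ss_comm _ _)
    rw [map_mul, val_ta, coe_si, coe_si, ← mul_assoc, iso_ts hi hik, hk, r2]
  rw [← h1, h3, h2]

section Z

variable (J) in
/-- the central element -/
def zt (i0 j0 : Fin n) : IG (PM n) := eg J * ta i0 j0 * sg i0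

variable {i0 j0 : Fin n}

theorem val_zt (h0 : i0 ∉ J) (hne : i0 ≠ j0) : val (zt J i0 j0) = Es J := by
  unfold zt
  have := val_ts (x := eg J) (i := i0) (j := j0) (by rw [val_eg, Es_mul_ss h0]) hne
  rw [this, val_eg]

theorem om_zt (h0 : i0 ∉ J) (hne : i0 ≠ j0) : Om J (zt J i0 j0) :=
  om_ts (om_eg J) (by rw [val_eg, Es_mul_ss h0]) hne

theorem val_zt_mul (h0 : i0 ∉ J) (hne : i0 ≠ j0) {x : IG (PM n)} (hx : Om J x) :
    val (zt J i0 j0 * x) = val x := by
  rw [map_mul, val_zt h0 hne, hx.2.1]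

theorem om_zt_mul (h0 : i0 ∉ J) (hne : i0 ≠ j0) {x : IG (PM n)} (hx : Om J x) :
    Om J (zt J i0 j0 * x) := by
  apply (om_zt h0 hne).mul
  rw [val_zt h0 hne, hx.2.1, hx.2.2]

/-- the basic relation at an isolated point -/
def qp (J : Set (Fin n)) (i0 j0 : Fin n) (x : IG (PM n)) (i : Fin n) : Prop :=
  ∀ j, i ≠ j → x * ta i j * sg i = zt J i0 j0 * x

theorem qp_of_ex (hJ : Nat.card J + 2 ≤ n) {x : IG (PM n)} (hx : Om J x) {i : Fin n}
    (hi : val x * ss i = val x) {j : Fin n} (hij : i ≠ j) (h : x * ta i j * sg i = zt J i0 j0 * x) :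
    qp J i0 j0 x i := by
  intro k hik
  rw [← ind1 hJ hx hi hij hik, h]

theorem ind3 (hJ : Nat.card J + 2 ≤ n) (h0 : i0 ∉ J) (hne : i0 ≠ j0) {x : IG (PM n)} (hx : Om J x)
    {i k : Fin n} (hi : val x * ss i = val x) (hki : k ≠ i) (hk : rk (val x * ss k) = rk (val x)) :
    qp J i0 j0 x i ↔ qp J i0 j0 (x * sg k) i := by
  by_cases hm : ∃ m, m ≠ k ∧ bt (val x) k m
  · obtain ⟨m, hmk, hb⟩ := hm
    have hmi : m ≠ i := by
      rintro rfl
      exact (iso_iff.1 hi).1 k hki (bt_symm hb)
    have hB := auxB hx hi hmi.symm hki hmk.symm hk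
    have hy : Om J (x * sg k) := hx.mul_io hk
    have hyi : val (x * sg k) * ss i = val (x * sg k) := by
      rw [map_mul, val_sg]; exact iso_mul hi (ss_comm _ _)
    constructor
    · intro h
      apply qp_of_ex hJ hy hyi hmi.symm
      rw [hB, h m hmi.symm, mul_assoc]
    · intro h
      apply qp_of_ex hJ hx hi hmi.symm
      apply (om_ts hx hi hmi.symm).1.cancel_io (om_zt_mul h0 hne hx).1
        (by rw [val_ts hi hmi.symm, val_zt_mul h0 hne hx]) (e := si k)
      · rw [val_ts hi hmi.symm]; exact hk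
      · show x * ta i m * sg i * sg k = zt J i0 j0 * x * sg k
        rw [← hB, h m hmi.symm, mul_assoc]
  · push Not at hm
    have h1 : ¬ mkd (val x) k := by
      rcases rk_ss_iff.1 hk with h | ⟨m, h2, h3⟩
      · exact h
      · exact absurd h3 (hm m h2)
    have h2 : x * sg k = x := hx.1.g2 (iso_iff.2 ⟨hm, h1⟩)
    rw [h2]

theorem val_sg_iso (x : IG (PM n)) (i : Fin n) : val (x * sg i) * ss i = val (x * sg i) := by
  rw [map_mul, val_sg, mul_assoc, ss_idem]

theorem sg_sg (i : Fin n) : sg i * sg i = sg i := io_mul_self _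

theorem trans1 (hJ : Nat.card J + 2 ≤ n) (h0 : i0 ∉ J) (hne : i0 ≠ j0) {x : IG (PM n)} (hx : Om J x)
    {i k : Fin n} (hik : i ≠ k) (hi : rk (val x * ss i) = rk (val x)) (hk : rk (val x * ss k) = rk (val x))
    (hr : rk (val x * (ss i * ss k)) = rk (val x)) (h : qp J i0 j0 (x * sg i) i) :
    qp J i0 j0 (x * sg k) k := by
  have hc : x * sg i * sg k = x * sg k * sg i := hx.1.comm (e := si i) (f := si k) (ss_comm _ _) hr
  have hxi : Om J (x * sg i) := hx.mul_io hi
  have hxk : Om J (x * sg k) := hx.mul_io hk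
  have r1 : rk (val (x * sg i) * ss k) = rk (val (x * sg i)) := by
    rw [map_mul, val_sg, mul_assoc, hr, hi]
  have r2 : rk (val (x * sg k) * ss i) = rk (val (x * sg k)) := by
    rw [map_mul, val_sg, mul_assoc, ss_comm k i, hr, hk]
  have h1 := (ind3 hJ h0 hne hxi (val_sg_iso x i) hik.symm r1).1 h
  have hy : Om J (x * sg i * sg k) := hxi.mul_io r1
  have hyk : val (x * sg i * sg k) * ss k = val (x * sg i * sg k) := val_sg_iso _ _
  have hyi : val (x * sg i * sg k) * ss i = val (x * sg i * sg k) := by rw [hc]; exact val_sg_iso _ _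
  have h2 := h1 k hik
  rw [ind2 hy hyi hyk hik] at h2
  have h3 : qp J i0 j0 (x * sg i * sg k) k := by
    apply qp_of_ex hJ hy hyk hik.symm
    rw [ta_symm k i, h2]
  rw [hc] at h3
  exact (ind3 hJ h0 hne hxk (val_sg_iso x k) hik r2).2 h3

theorem spare2 (hJ : Nat.card J + 2 ≤ n) {a : PM n} (ha : OmS J a) {i k : Fin n} (hik : i ≠ k)
    (hi : rk (a * ss i) = rk a) (hk : rk (a * ss k) = rk a) (hr : ¬ rk (a * (ss i * ss k)) = rk a) :
    ∃ l, l ≠ i ∧ l ≠ k ∧ rk (a * ss l) = rk a ∧ rk (a * (ss i * ss l)) = rk a ∧ rk (a * (ss l * ss k)) = rk a := by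
  classical
  have h1 : Inv (a * ss i) k := by
    by_contra h
    rw [not_inv_iff, mul_assoc, hi] at h
    exact hr h
  have hmk : mkd a k := by
    obtain ⟨t, ht⟩ := h1.1
    exact ⟨t, (tb_mul_ss.1 ht).2⟩
  have hblock : ∀ m, m ≠ k → bt a k m → m = i := by
    intro m hm hb
    by_contra hmi
    exact h1.2 m hm ((bt_mul_ss (Ne.symm hik) hmi).2 hb)
  have hbki : bt a k i := by
    rcases rk_ss_iff.1 hk with h | ⟨m, h2, h3⟩
    · exact absurd hmk h
    · rw [← hblock m h2 h3]; exact h3
  have hmi : mkd a i := by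
    obtain ⟨t, ht⟩ := hmk
    exact ⟨t, tb_bt ht hbki⟩
  have hl : ∃ l, l ≠ i ∧ l ≠ k ∧ ¬ Inv a l := by
    by_contra hcon
    push Not at hcon
    have h2 := ha.card_le (Finset.univ.erase k) (by
      intro m hm
      by_cases h3 : m = i
      · rw [h3]; exact hmi
      · exact (hcon m h3 (Finset.ne_of_mem_erase hm)).1) (by
      intro m hm m' hm' hmm
      have hmk' := Finset.ne_of_mem_erase hm
      have hmk'' := Finset.ne_of_mem_erase hm'
      by_cases h3 : m = i
      · rw [h3] at hmm ⊢
        exact (hblock m' hmk'' (bt_trans hbki hmm)).symm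
      · by_contra hne'
        exact (hcon m h3 hmk').2 m' (Ne.symm hne') hmm)
    rw [Finset.card_erase_of_mem (Finset.mem_univ _), Finset.card_univ, Fintype.card_fin] at h2
    omega
  obtain ⟨l, hli, hlk, hinv⟩ := hl
  have hnb : ¬ bt a k l := fun hb => hli (hblock l hlk hb)
  have hnb' : ¬ bt a i l := fun hb => hnb (bt_trans hbki hb)
  have hvl := not_inv_iff.1 hinv
  refine ⟨l, hli, hlk, hvl, ?_, ?_⟩
  · rw [← mul_assoc, ← hi]
    rw [rk_ss_iff] at hvl ⊢
    rcases hvl with h | ⟨m, h2, h3⟩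
    · left
      rintro ⟨t, ht⟩
      exact h ⟨t, (tb_mul_ss.1 ht).2⟩
    · right
      refine ⟨m, h2, (bt_mul_ss hli ?_).2 h3⟩
      rintro rfl
      exact hnb' (bt_symm h3)
  · rw [ss_comm l k, ← mul_assoc, ← hk]
    rw [rk_ss_iff] at hvl ⊢
    rcases hvl with h | ⟨m, h2, h3⟩
    · left
      rintro ⟨t, ht⟩
      exact h ⟨t, (tb_mul_ss.1 ht).2⟩
    · right
      refine ⟨m, h2, (bt_mul_ss hlk ?_).2 h3⟩
      rintro rfl
      exact hnb (bt_symm h3)

theorem trans2 (hJ : Nat.card J + 2 ≤ n) (h0 : i0 ∉ J) (hne : i0 ≠ j0) {x : IG (PM n)} (hx : Om J x)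
    {i k : Fin n} (hi : rk (val x * ss i) = rk (val x)) (hk : rk (val x * ss k) = rk (val x))
    (h : qp J i0 j0 (x * sg i) i) : qp J i0 j0 (x * sg k) k := by
  by_cases hik : i = k
  · rw [← hik]; exact h
  by_cases hr : rk (val x * (ss i * ss k)) = rk (val x)
  · exact trans1 hJ h0 hne hx hik hi hk hr h
  · obtain ⟨l, hli, hlk, hl, r1, r2⟩ := spare2 hJ hx.2 hik hi hk hr
    have h1 := trans1 hJ h0 hne hx hli.symm hi hl r1 h
    exact trans1 hJ h0 hne hx hlk hl hk r2 h1

/-- the full property -/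
def Qp (J : Set (Fin n)) (i0 j0 : Fin n) (x : IG (PM n)) : Prop :=
  ∀ i, rk (val x * ss i) = rk (val x) → qp J i0 j0 (x * sg i) i

theorem Qp_iff (hJ : Nat.card J + 2 ≤ n) (h0 : i0 ∉ J) (hne : i0 ≠ j0) {x : IG (PM n)} (hx : Om J x)
    {i : Fin n} (hi : rk (val x * ss i) = rk (val x)) : Qp J i0 j0 x ↔ qp J i0 j0 (x * sg i) i :=
  ⟨fun h => h i hi, fun h k hk => trans2 hJ h0 hne hx hi hk h⟩

theorem Qp_sg (hJ : Nat.card J + 2 ≤ n) (h0 : i0 ∉ J) (hne : i0 ≠ j0) {x : IG (PM n)} (hx : Om J x)
    {i : Fin n} (hi : rk (val x * ss i) = rk (val x)) : Qp J i0 j0 x ↔ Qp J i0 j0 (x * sg i) := by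
  have hy : Om J (x * sg i) := hx.mul_io hi
  have r1 : rk (val (x * sg i) * ss i) = rk (val (x * sg i)) := by rw [val_sg_iso]
  rw [Qp_iff hJ h0 hne hx hi, Qp_iff hJ h0 hne hy r1, mul_assoc, sg_sg]

theorem Qp_be (hJ : Nat.card J + 2 ≤ n) (h0 : i0 ∉ J) (hne : i0 ≠ j0) {x : IG (PM n)} (hx : Om J x)
    {k l : Fin n} (hkl : k ≠ l) (hr : rk (val x * (tt k l * ss k)) = rk (val x)) :
    Qp J i0 j0 x ↔ Qp J i0 j0 (x * be k l) := by
  classical
  have hrt : rk (val x * tt k l) = rk (val x) := (rk_b_iff hkl).1 hr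
  have hxb : Om J (x * be k l) := hx.mul_io hr
  by_cases hk : val x * ss k = val x
  · have h1 : x * sg k = x := hx.1.g2 hk
    have h2 : x * be k l = x := by
      calc x * be k l = x * sg k * be k l := by rw [h1]
        _ = x := by rw [mul_assoc, sg_be hkl, h1]
    rw [h2]
  by_cases hi : ∃ i, i ≠ k ∧ i ≠ l ∧ rk (val x * ss i) = rk (val x)
  · obtain ⟨i, hik, hil, hi⟩ := hi
    have hx' : Om J (x * sg i) := hx.mul_io hi
    have hcs : ss i * (tt k l * ss k) = (tt k l * ss k) * ss i := by
      rw [← mul_assoc, ss_tt_comm hik hil, mul_assoc, ss_comm i k, ← mul_assoc]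
    -- validity of be on x * sg i
    have r1 : rk (val (x * sg i) * (tt k l * ss k)) = rk (val (x * sg i)) := by
      rw [rk_b_iff hkl]
      rw [rk_tt_iff] at hrt ⊢
      rw [map_mul, val_sg]
      rcases hrt with h | h | h
      · exact Or.inl ((bt_mul_ss hik.symm hil.symm).2 h)
      · right; left
        rintro ⟨t, ht⟩
        exact h ⟨t, (tb_mul_ss.1 ht).2⟩
      · right; right
        rintro ⟨t, ht⟩
        exact h ⟨t, (tb_mul_ss.1 ht).2⟩
    have r0 : rk (val x * (ss i * (tt k l * ss k))) = rk (val x) := by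
      rw [map_mul, val_sg, mul_assoc] at r1
      rw [r1, hi]
    have e1 : x * sg i * be k l = x * be k l * sg i := hx.1.comm (e := si i) (f := bi k l) hcs r0
    have r2 : rk (val (x * be k l) * ss i) = rk (val (x * be k l)) := by
      rw [map_mul, val_be, mul_assoc, ← hcs, r0, hr]
    rw [Qp_iff hJ h0 hne hx hi, Qp_iff hJ h0 hne hxb r2, ← e1]
    -- now compare
    have hiso := val_sg_iso x i
    have hxs : Om J (x * sg i * be k l) := hx'.mul_io r1
    have hiso2 : val (x * sg i * be k l) * ss i = val (x * sg i * be k l) := by rw [e1]; exact val_sg_iso _ _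
    have hct : (tt k l * ss k) * tt i l = tt i l * (tt k l * ss k) := by
      calc (tt k l * ss k) * tt i l = tt k l * (ss k * tt i l) := by rw [mul_assoc]
        _ = tt k l * (tt i l * ss k) := by rw [ss_tt_comm hik.symm hkl]
        _ = (tt k l * tt i l) * ss k := by rw [mul_assoc]
        _ = tt i l * (tt k l * ss k) := by rw [tt_comm, mul_assoc]
    have e2 : x * sg i * be k l * ta i l * sg i = x * sg i * ta i l * sg i * be k l := by
      have v1 : val (x * sg i) * (tt k l * ss k) * tt i l * ss i = val (x * sg i) * (tt k l * ss k) := by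
        apply iso_ts _ hil
        apply iso_mul hiso hcs
      have q1 : rk (val (x * sg i) * ((tt k l * ss k) * tt i l)) = rk (val (x * sg i)) := by
        apply le_antisymm (rk_mul_le_left _ _)
        calc rk (val (x * sg i)) = rk (val (x * sg i) * (tt k l * ss k) * tt i l * ss i) := by rw [v1, r1]
          _ ≤ rk (val (x * sg i) * ((tt k l * ss k) * tt i l)) := by
            rw [mul_assoc (val (x * sg i))]; exact rk_mul_le_left _ _
      have f1 : x * sg i * be k l * ta i l = x * sg i * ta i l * be k l :=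
        hx'.1.comm (e := bi k l) (f := ti i l) hct q1
      have q2 : rk (val (x * sg i) * tt i l) = rk (val (x * sg i)) :=
        rk_of_mul_eq (c := ss i) (by rw [iso_ts hiso hil])
      have hz : Om J (x * sg i * ta i l) := hx'.mul_io q2
      have f2 : x * sg i * ta i l * be k l * sg i = x * sg i * ta i l * sg i * be k l := by
        apply hz.1.comm (e := bi k l) (f := si i) hcs.symm
        rw [map_mul, val_ta, coe_bi, coe_si]
        have : val (x * sg i) * tt i l * (tt k l * ss k * ss i) = val (x * sg i) * (tt k l * ss k) * tt i l * ss i := by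
          calc val (x * sg i) * tt i l * (tt k l * ss k * ss i) = val (x * sg i) * (tt i l * (tt k l * ss k)) * ss i := by
                simp only [mul_assoc]
            _ = _ := by rw [← hct]; simp only [mul_assoc]
        rw [this, v1, r1, q2]
      rw [f1, f2]
    constructor
    · intro h
      apply qp_of_ex hJ hxs hiso2 hil
      rw [e2, h l hil, mul_assoc]
    · intro h
      apply qp_of_ex hJ hx' hiso hil
      apply (om_ts hx' hiso hil).1.cancel_io (om_zt_mul h0 hne hx').1
        (by rw [val_ts hiso hil, val_zt_mul h0 hne hx']) (e := bi k l)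
      · rw [val_ts hiso hil]; exact r1
      · show x * sg i * ta i l * sg i * be k l = zt J i0 j0 * (x * sg i) * be k l
        rw [← e2, h l hil, ← mul_assoc]
  · push Not at hi
    have hinv : ∀ m, m ≠ k → m ≠ l → Inv (val x) m := by
      intro m h1 h2
      by_contra h3
      exact hi m h1 h2 (not_inv_iff.1 h3)
    have hum : ∀ u v : Fin n, (u = k ∧ v = l ∨ u = l ∧ v = k) → ¬ mkd (val x) u := by
      intro u v huv hmu
      have h1 := hx.2.card_le (Finset.univ.erase v) (by
        intro m hm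
        have hmv := Finset.ne_of_mem_erase hm
        by_cases h2 : m = u
        · rw [h2]; exact hmu
        · have : m ≠ k ∧ m ≠ l := by
            rcases huv with ⟨rfl, rfl⟩ | ⟨rfl, rfl⟩
            · exact ⟨h2, hmv⟩
            · exact ⟨hmv, h2⟩
          exact (hinv m this.1 this.2).1) (by
        intro m hm m' hm' hmm
        have hmv := Finset.ne_of_mem_erase hm
        have hmv' := Finset.ne_of_mem_erase hm'
        by_contra hne'
        by_cases h2 : m = u
        · have h3 : m' ≠ u := fun h => hne' (h2.trans h.symm)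
          have : m' ≠ k ∧ m' ≠ l := by
            rcases huv with ⟨rfl, rfl⟩ | ⟨rfl, rfl⟩
            · exact ⟨h3, hmv'⟩
            · exact ⟨hmv', h3⟩
          exact (hinv m' this.1 this.2).2 m hne' (bt_symm hmm)
        · have : m ≠ k ∧ m ≠ l := by
            rcases huv with ⟨rfl, rfl⟩ | ⟨rfl, rfl⟩
            · exact ⟨h2, hmv⟩
            · exact ⟨hmv, h2⟩
          exact (hinv m this.1 this.2).2 m' (Ne.symm hne') hmm)
      rw [Finset.card_erase_of_mem (Finset.mem_univ _), Finset.card_univ, Fintype.card_fin] at h1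
      omega
    have huk := hum k l (Or.inl ⟨rfl, rfl⟩)
    have hbkl : bt (val x) k l := by
      by_contra hb
      apply hk
      rw [iso_iff]
      refine ⟨fun j hj hbj => ?_, huk⟩
      by_cases hjl : j = l
      · exact hb (hjl ▸ hbj)
      · exact (hinv j hj hjl).2 k hj.symm (bt_symm hbj)
    have hvk : rk (val x * ss k) = rk (val x) := rk_ss_iff.2 (Or.inl huk)
    have hxt : x * ta k l = x := hx.1.g2 (bt_iff.1 hbkl)
    have hyt : x * be k l * ta k l = x := by rw [mul_assoc, be_ta hkl, hxt]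
    have hys : x * be k l * sg k = x * be k l := by rw [mul_assoc, be_sg]
    have hyiso : val (x * be k l) * ss k = val (x * be k l) := by
      have := congrArg val hys
      rwa [map_mul val (x * be k l), val_sg] at this
    have hvy : rk (val (x * be k l) * ss k) = rk (val (x * be k l)) := by rw [hyiso]
    rw [Qp_iff hJ h0 hne hx hvk, Qp_iff hJ h0 hne hxb hvy, hys]
    have e1 : x * sg k = x * be k l * ta k l * sg k := by rw [hyt]
    have hxk : Om J (x * sg k) := hx.mul_io hvk
    constructor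
    · intro h
      have h1 := h l hkl
      rw [e1] at h1
      apply qp_of_ex hJ hxb hyiso hkl
      apply (om_ts hxb hyiso hkl).1.cancel (om_zt_mul h0 hne hxb).1
        (by rw [val_ts hyiso hkl, val_zt_mul h0 hne hxb]) (ta k l * sg k)
      · rw [val_ts hyiso hkl, map_mul val (ta k l), val_ta, val_sg, ← mul_assoc, iso_ts hyiso hkl]
      · rw [← mul_assoc, h1]
        simp only [mul_assoc]
    · intro h
      have h1 := h l hkl
      apply qp_of_ex hJ hxk (val_sg_iso x k) hkl
      rw [e1, h1, mul_assoc (zt J i0 j0), mul_assoc (zt J i0 j0), h1]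

/-- (Z1) -/
theorem Z1 (hJ : Nat.card J + 2 ≤ n) (h0 : i0 ∉ J) (hne : i0 ≠ j0) {x : IG (PM n)} (hx : Om J x)
    {i j : Fin n} (hi : val x * ss i = val x) (hij : i ≠ j) :
    x * ta i j * sg i = zt J i0 j0 * x := by
  have hQ : Qp J i0 j0 x := by
    apply om_induct (J := J) (Qp J i0 j0) _ _ hx
    · have hs : eg J * sg i0 = eg J := io_mul_left (by simp [Es_mul_ss h0])
      rw [Qp_iff hJ h0 hne (om_eg J) (i := i0) (by rw [val_eg, Es_mul_ss h0]), hs]
      apply qp_of_ex hJ (om_eg J) (by rw [val_eg, Es_mul_ss h0]) hne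
      have h1 : zt J i0 j0 * eg J = zt J i0 j0 := by
        apply (om_zt h0 hne).1.g2
        rw [val_zt h0 hne]; exact Es_idem J
      rw [h1]; rfl
    · intro x f hx hf
      exact ext_lemma (J := J) (Qp J i0 j0) (fun x hx i hi => Qp_sg hJ h0 hne hx hi)
        (fun x hx k l hkl hr => Qp_be hJ h0 hne hx hkl hr) _ f rfl x hx hf
  have h1 : x * sg i = x := hx.1.g2 hi
  have h2 := hQ i (by rw [hi]) j hij
  rwa [h1] at h2

/-- (Z2) -/
theorem Z2 (hJ : Nat.card J + 2 ≤ n) (h0 : i0 ∉ J) (hne : i0 ≠ j0) {x : IG (PM n)} (hx : Om J x)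
    {i j : Fin n} (hi : val x * tt i j = val x) (hij : i ≠ j) :
    x * sg i * ta i j = zt J i0 j0 * x := by
  have hxt : x * ta i j = x := hx.1.g2 hi
  have hv : rk (val x * ss i) = rk (val x) := rk_ss_iff.2 (Or.inr ⟨j, hij.symm, bt_iff.2 hi⟩)
  have hy : Om J (x * sg i) := hx.mul_io hv
  have h1 := Z1 hJ h0 hne hy (val_sg_iso x i) hij
  have h2 : x * sg i * ta i j * sg i * al i j = x * sg i * ta i j := by
    rw [mul_assoc (x * sg i * ta i j), sg_al, mul_assoc (x * sg i), ta_al hij]
  have h3 : zt J i0 j0 * (x * sg i) * al i j = zt J i0 j0 * x := by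
    calc zt J i0 j0 * (x * sg i) * al i j = zt J i0 j0 * (x * (sg i * al i j)) := by simp only [mul_assoc]
      _ = zt J i0 j0 * (x * ta i j * al i j) := by rw [sg_al, hxt]
      _ = _ := by rw [mul_assoc x, ta_al hij, hxt]
  rw [← h2, h1, h3]

/-- (Z3) -/
theorem Z3 (hJ : Nat.card J + 2 ≤ n) (h0 : i0 ∉ J) (hne : i0 ≠ j0) {x : IG (PM n)} (hx : Om J x)
    {i j : Fin n} (hi : val x * tt i j = val x) (hij : i ≠ j) :
    zt J i0 j0 * x * be i j = x * sg i := by
  rw [← Z2 hJ h0 hne hx hi hij, mul_assoc (x * sg i), ta_be, mul_assoc, sg_be hij]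

end Z

end Pool.Agent.H213
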